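import Pool.Agent.YUR.T4

/-!
# [YUR] Yudovich's instability conjecture in `C^{1,α}`: plane domains, flat channels, flat tori
-/

open MeasureTheory Set Filter Topology
open scoped ContDiff

namespace Pool.Agent.YUR

open Pool.Agent.YUD Pool.Agent.YUT Pool.Agent.YUB

/-- Lyapunov stability of `ws` in `C^{1,α}(M)` under perturbations of mean zero, for global
Lagrangian Euler solutions with `C²` flow maps -/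
def QStable (p q : ℝ) (M : Set ℂ) (α : ℝ) (ws : ℂ → ℝ) : Prop :=
  ∀ ε > 0, ∃ δ > 0, ∀ w₀ : ℂ → ℝ, Per2 p q M w₀ → (∫ x in Cell p q M, (w₀ x - ws x)) = 0 →
    NormLe M α δ (fun x => w₀ x - ws x) →
      ∃ (ψ : ℝ → ℂ → ℝ) (Φ : ℝ → ℂ → ℂ), QFlow p q M w₀ ψ Φ ∧
        (∀ t, 0 ≤ t → ContDiffOn ℝ 2 (Φ t) M) ∧
        ∀ t, 0 ≤ t → NormLe M α ε (fun x => lap (ψ t) x - ws x)

theorem not_stable {p q : ℝ} {M : Set ℂ} (hM : IsOpen M) {α : ℝ} {ws : ℂ → ℝ} {K₀ : ℝ}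
    (hws : NormLe M α K₀ ws)
    (h : ∀ ε > 0, ∃ w₀ : ℂ → ℝ, Per2 p q M w₀ ∧ (∫ x in Cell p q M, (w₀ x - ws x)) = 0 ∧
      NormLe M α ε (fun x => w₀ x - ws x) ∧
      ∀ (ψ : ℝ → ℂ → ℝ) (Φ : ℝ → ℂ → ℂ), QFlow p q M w₀ ψ Φ →
        (∀ t, 0 ≤ t → ContDiffOn ℝ 2 (Φ t) M) → ∀ K : ℝ, ∃ t, 0 ≤ t ∧
          ¬ NormLe M α K (lap (ψ t))) : ¬ QStable p q M α ws := by
  intro hst
  obtain ⟨δ, hδ, hs⟩ := hst 1 one_pos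
  obtain ⟨w₀, h1, h2, h3, h4⟩ := h δ hδ
  obtain ⟨ψ, Φ, hF, hc, hb⟩ := hs w₀ h1 h2 h3
  obtain ⟨t, ht, hn⟩ := h4 ψ Φ hF hc (1 + K₀)
  refine hn (((hb t ht).add hM hws).congr hM fun x _ => ?_)
  ring

end Pool.Agent.YUR
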