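import Pool.Agent.YUR.Defs

open MeasureTheory Set Filter Topology
open scoped ContDiff

namespace Pool.Agent.YUR

open Pool.Agent.YUD Pool.Agent.YUT Pool.Agent.YUB

/-- the `k`-th derivative of `y ↦ V(y/P)` -/
noncomputable def vk (k : ℕ) (P y : ℝ) : ℝ := iteratedDeriv k win (y / P) / P ^ k

private theorem win_smooth : ContDiff ℝ ∞ win := by
  unfold win
  exact (Real.smoothTransition.contDiff.comp (by fun_prop)).mul
    (Real.smoothTransition.contDiff.comp (by fun_prop))

private theorem win_lo (y : ℝ) (hy : y ≤ 1) : win y = 0 := by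
  unfold win
  rw [Real.smoothTransition.zero_of_nonpos (by linarith), zero_mul]

private theorem win_hi (y : ℝ) (hy : 2 ≤ y) : win y = 0 := by
  unfold win
  rw [Real.smoothTransition.zero_of_nonpos (x := 3 * (2 - y)) (by linarith), mul_zero]

private theorem win_supp (f : ℝ → ℝ) (h1 : ∀ y, y < 1 → f y = 0) (h2 : ∀ y, 2 < y → f y = 0) :
    HasCompactSupport f := by
  refine HasCompactSupport.of_support_subset_isCompact (isCompact_Icc (a := (1 : ℝ)) (b := 2)) ?_
  intro y hy
  rw [Function.mem_support] at hy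
  constructor
  · by_contra h
    exact hy (h1 y (not_le.mp h))
  · by_contra h
    exact hy (h2 y (not_le.mp h))

/-- [YUR-S3] -/
theorem win_facts : ContDiff ℝ ∞ win ∧ (∀ y, 0 ≤ win y ∧ win y ≤ 1) ∧ (∀ y, y ≤ 1 → win y = 0) ∧
    (∀ y, 2 ≤ y → win y = 0) ∧ win (3 / 2) = 1 ∧ 0 < ∫ y, win y ^ 2 := by
  have h32 : win (3 / 2) = 1 := by
    unfold win
    rw [Real.smoothTransition.one_of_one_le (by norm_num),
      Real.smoothTransition.one_of_one_le (by norm_num), one_mul]
  refine ⟨win_smooth, ?_, win_lo, win_hi, h32, ?_⟩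
  · intro y
    unfold win
    constructor
    · exact mul_nonneg (Real.smoothTransition.nonneg _) (Real.smoothTransition.nonneg _)
    · exact mul_le_one₀ (Real.smoothTransition.le_one _) (Real.smoothTransition.nonneg _)
        (Real.smoothTransition.le_one _)
  · have hc : Continuous fun y => win y ^ 2 := win_smooth.continuous.pow 2
    have hs : HasCompactSupport fun y => win y ^ 2 :=
      win_supp _ (fun y hy => by simp [win_lo y hy.le]) (fun y hy => by simp [win_hi y hy.le])
    exact hc.integral_pos_of_hasCompactSupport_nonneg_nonzero hs (fun y => sq_nonneg _)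
      (x := 3 / 2) (by rw [h32]; norm_num)

private theorem ik_smooth (k : ℕ) : ContDiff ℝ ∞ (iteratedDeriv k win) := by
  rw [iteratedDeriv_eq_iterate]
  exact win_smooth.iterate_deriv k

private theorem ik_lo (k : ℕ) (y : ℝ) (hy : y < 1) : iteratedDeriv k win y = 0 := by
  have h : win =ᶠ[𝓝 y] fun _ => (0 : ℝ) := by
    filter_upwards [Iio_mem_nhds hy] with x hx
    exact win_lo x (le_of_lt hx)
  rw [h.iteratedDeriv_eq k]
  simp

private theorem ik_hi (k : ℕ) (y : ℝ) (hy : 2 < y) : iteratedDeriv k win y = 0 := by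
  have h : win =ᶠ[𝓝 y] fun _ => (0 : ℝ) := by
    filter_upwards [Ioi_mem_nhds hy] with x hx
    exact win_hi x (le_of_lt hx)
  rw [h.iteratedDeriv_eq k]
  simp

/-- [YUR-S3] -/
theorem vk_facts {P : ℝ} (hP : 0 < P) (k : ℕ) : ContDiff ℝ ∞ (vk k P) ∧
    (∀ y, HasDerivAt (vk k P) (vk (k + 1) P y) y) ∧ (∀ y, y < P → vk k P y = 0) ∧
    (∀ y, 2 * P < y → vk k P y = 0) ∧ ∀ y, vk 0 P y = win (y / P) := by
  refine ⟨?_, ?_, ?_, ?_, ?_⟩
  · unfold vk
    exact ((ik_smooth k).comp (contDiff_id.div_const P)).div_const (P ^ k)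
  · intro y
    have h1 : HasDerivAt (iteratedDeriv k win) (iteratedDeriv (k + 1) win (y / P)) (y / P) := by
      rw [iteratedDeriv_succ]
      exact ((ik_smooth k).differentiable (by simp)).differentiableAt.hasDerivAt
    have h2 : HasDerivAt (fun y : ℝ => y / P) (1 / P) y := (hasDerivAt_id y).div_const P
    have h3 := (h1.comp y h2).div_const (P ^ k)
    unfold vk
    have e : iteratedDeriv (k + 1) win (y / P) / P ^ (k + 1) =
        iteratedDeriv (k + 1) win (y / P) * (1 / P) / P ^ k := by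
      rw [pow_succ]
      field_simp
    rw [e]
    exact h3
  · intro y hy
    unfold vk
    rw [ik_lo k _ ((div_lt_one hP).mpr hy), zero_div]
  · intro y hy
    unfold vk
    rw [ik_hi k _ ((lt_div_iff₀ hP).mpr hy), zero_div]
  · intro y
    simp [vk]

/-- [YUR-S3] substitution `y = P u` -/
theorem vk_int : ∃ D : ℝ, 0 ≤ D ∧ ∀ k : ℕ, k ≤ 5 → ∀ P : ℝ, 1 ≤ P →
    (∀ y, |vk k P y| ≤ D) ∧ (∫ y, |vk k P y|) * P ^ k ≤ D * P := by
  have hb : ∀ k : ℕ, ∃ D : ℝ, 0 ≤ D ∧ ∀ y, |iteratedDeriv k win y| ≤ D := by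
    intro k
    have hs : HasCompactSupport (iteratedDeriv k win) := win_supp _ (ik_lo k) (ik_hi k)
    obtain ⟨D, hD⟩ := hs.exists_bound_of_continuous (ik_smooth k).continuous
    refine ⟨D, (norm_nonneg _).trans (hD 0), hD⟩
  choose D hD0 hD using hb
  have hI : ∀ k : ℕ, 0 ≤ ∫ y, |iteratedDeriv k win y| := fun k =>
    integral_nonneg fun y => abs_nonneg _
  refine ⟨∑ k ∈ Finset.range 6, (D k + ∫ y, |iteratedDeriv k win y|),
    Finset.sum_nonneg fun k _ => add_nonneg (hD0 k) (hI k), ?_⟩
  intro k hk P hP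
  have hP0 : 0 < P := by linarith
  have hle : D k + ∫ y, |iteratedDeriv k win y| ≤
      ∑ k ∈ Finset.range 6, (D k + ∫ y, |iteratedDeriv k win y|) :=
    Finset.single_le_sum (f := fun k => D k + ∫ y, |iteratedDeriv k win y|)
      (fun k _ => add_nonneg (hD0 k) (hI k)) (Finset.mem_range.mpr (by omega))
  have hPk : 1 ≤ P ^ k := one_le_pow₀ hP
  have hPk0 : 0 < P ^ k := by positivity
  constructor
  · intro y
    unfold vk
    rw [abs_div, abs_of_pos hPk0]
    calc |iteratedDeriv k win (y / P)| / P ^ k ≤ |iteratedDeriv k win (y / P)| :=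
          div_le_self (abs_nonneg _) hPk
      _ ≤ D k := hD k _
      _ ≤ _ := by linarith [hI k]
  · have e1 : (fun y => |vk k P y|) = fun y => |iteratedDeriv k win (y / P)| / P ^ k := by
      funext y
      unfold vk
      rw [abs_div, abs_of_pos hPk0]
    rw [e1, integral_div, Measure.integral_comp_div (fun u => |iteratedDeriv k win u|) P,
      abs_of_pos hP0, smul_eq_mul, div_mul_cancel₀ _ hPk0.ne', mul_comm]
    refine mul_le_mul_of_nonneg_right ?_ hP0.le
    linarith [hD0 k]

private theorem pd1 {b h : ℝ → ℝ} {z : ℂ} (hb : DifferentiableAt ℝ b z.re)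
    (hh : DifferentiableAt ℝ h z.im) :
    dx (fun z => b z.re * h z.im) z = deriv b z.re * h z.im ∧
      dy (fun z => b z.re * h z.im) z = b z.re * deriv h z.im := by
  have h1 : HasFDerivAt (fun z : ℂ => b z.re) (deriv b z.re • Complex.reCLM) z :=
    hb.hasDerivAt.comp_hasFDerivAt z Complex.reCLM.hasFDerivAt
  have h2 : HasFDerivAt (fun z : ℂ => h z.im) (deriv h z.im • Complex.imCLM) z :=
    hh.hasDerivAt.comp_hasFDerivAt z Complex.imCLM.hasFDerivAt
  have h3 := (h1.mul h2).fderiv
  unfold dx dy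
  have e : (fun z : ℂ => b z.re * h z.im) = (fun z : ℂ => b z.re) * fun z : ℂ => h z.im := rfl
  rw [e, h3]
  constructor
  · simp
    ring
  · simp

/-- [YUR-S3] the derivatives of a product; `lapG` of a product -/
theorem prod_deriv {b h : ℝ → ℝ} (hb : ContDiff ℝ 2 b) (hh : ContDiff ℝ 2 h) (γ μ ν : ℝ) (z : ℂ) :
    dx (fun z => b z.re * h z.im) z = deriv b z.re * h z.im ∧
      dy (fun z => b z.re * h z.im) z = b z.re * deriv h z.im ∧
      lapG γ μ ν (fun z => b z.re * h z.im) z = γ * (deriv (deriv b) z.re * h z.im) +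
        2 * μ * (deriv b z.re * deriv h z.im) + ν * (b z.re * deriv (deriv h) z.im) := by
  have db : Differentiable ℝ b := hb.differentiable (by norm_num)
  have dh : Differentiable ℝ h := hh.differentiable (by norm_num)
  have hb1 : ContDiff ℝ 1 (deriv b) := by
    have := (contDiff_succ_iff_deriv (n := 1) (f := b)).mp hb
    exact this.2.2
  have hh1 : ContDiff ℝ 1 (deriv h) := by
    have := (contDiff_succ_iff_deriv (n := 1) (f := h)).mp hh
    exact this.2.2
  have ddb : Differentiable ℝ (deriv b) := hb1.differentiable (by norm_num)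
  have ddh : Differentiable ℝ (deriv h) := hh1.differentiable (by norm_num)
  have ex : dx (fun z => b z.re * h z.im) = fun z => deriv b z.re * h z.im := by
    funext z
    exact (pd1 (db _) (dh _)).1
  have ey : dy (fun z => b z.re * h z.im) = fun z => b z.re * deriv h z.im := by
    funext z
    exact (pd1 (db _) (dh _)).2
  refine ⟨congrFun ex z, congrFun ey z, ?_⟩
  unfold lapG
  rw [ex, ey, (pd1 (ddb z.re) (dh z.im)).1, (pd1 (db z.re) (ddh z.im)).1,
    (pd1 (db z.re) (ddh z.im)).2]

/-- [YUR-S3] test functions are smooth with compact support. If `f z ≠ 0` then `|x| < N` and `P < y < 2P`. -/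
theorem prod_supp {b h : ℝ → ℝ} {N P : ℝ} (hb : ContDiff ℝ ∞ b) (hh : ContDiff ℝ ∞ h)
    (hN : 0 < N) (hP : 0 < P) (hbN : ∀ x, N ≤ |x| → b x = 0) (hhP : ∀ y, y < P → h y = 0)
    (hhP' : ∀ y, 2 * P < y → h y = 0) : ContDiff ℝ ∞ (fun z : ℂ => b z.re * h z.im) ∧
      HasCompactSupport (fun z : ℂ => b z.re * h z.im) ∧
      tsupport (fun z : ℂ => b z.re * h z.im) ⊆ Metric.closedBall 0 (N + 2 * P) := by
  have hs : Function.support (fun z : ℂ => b z.re * h z.im) ⊆ Metric.closedBall 0 (N + 2 * P) := by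
    intro z hz
    rw [Function.mem_support] at hz
    have h1 : |z.re| ≤ N := by
      by_contra hcon
      exact hz (by rw [hbN z.re (not_le.mp hcon).le, zero_mul])
    have h2 : P ≤ z.im := by
      by_contra hcon
      exact hz (by rw [hhP z.im (not_le.mp hcon), mul_zero])
    have h3 : z.im ≤ 2 * P := by
      by_contra hcon
      exact hz (by rw [hhP' z.im (not_le.mp hcon), mul_zero])
    rw [mem_closedBall_zero_iff]
    have h4 := Complex.norm_le_abs_re_add_abs_im z
    have h5 : |z.im| ≤ 2 * P := abs_le.mpr ⟨by linarith, h3⟩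
    linarith
  refine ⟨?_, HasCompactSupport.of_support_subset_isCompact (isCompact_closedBall _ _) hs,
    closure_minimal hs Metric.isClosed_closedBall⟩
  exact (hb.comp Complex.reCLM.contDiff).mul (hh.comp Complex.imCLM.contDiff)

end Pool.Agent.YUR
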