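import Pool.Agent.YUR.S1
import Pool.Agent.YUR.S3

open MeasureTheory Set Filter Topology
open scoped ContDiff

namespace Pool.Agent.YUR

open Pool.Agent.YUD Pool.Agent.YUT Pool.Agent.YUB

theorem S4_cm {X : Type} [TopologicalSpace X] {U K : Set X} (hU : IsOpen U) (hK : IsClosed K)
    (hKU : K ⊆ U) {η f : X → ℝ} (hη : ContinuousOn η U) (hf : Continuous f)
    (h0 : ∀ x, x ∉ K → f x = 0) : Continuous fun x => η x * f x := by
  rw [continuous_iff_continuousAt]
  intro x
  by_cases hx : x ∈ U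
  · exact (hη.continuousAt (hU.mem_nhds hx)).mul hf.continuousAt
  · have hxK : x ∉ K := fun h => hx (hKU h)
    have h1 : (fun x => η x * f x) =ᶠ[𝓝 x] fun _ => (0 : ℝ) := by
      filter_upwards [hK.isOpen_compl.mem_nhds hxK] with y hy
      rw [h0 y hy, mul_zero]
    exact (continuousAt_const (y := (0 : ℝ))).congr h1.symm

/-- a product vanishes outside a ball -/
theorem S4_norm {b h : ℝ → ℝ} {N P : ℝ} (hP : 0 < P) (hbN : ∀ x, N ≤ |x| → b x = 0)
    (hhP : ∀ y, y < P → h y = 0) (hhP' : ∀ y, 2 * P < y → h y = 0) (z : ℂ)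
    (hz : b z.re * h z.im ≠ 0) : |z.re| < N ∧ P ≤ z.im ∧ z.im ≤ 2 * P ∧ ‖z‖ ≤ N + 2 * P := by
  have h1 : |z.re| < N := by
    by_contra hcon
    exact hz (by rw [hbN z.re (not_lt.mp hcon), zero_mul])
  have h2 : P ≤ z.im := by
    by_contra hcon
    exact hz (by rw [hhP z.im (not_le.mp hcon), mul_zero])
  have h3 : z.im ≤ 2 * P := by
    by_contra hcon
    exact hz (by rw [hhP' z.im (not_le.mp hcon), mul_zero])
  have h4 := Complex.norm_le_abs_re_add_abs_im z
  have h5 : |z.im| ≤ 2 * P := abs_le.mpr ⟨by linarith, h3⟩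
  exact ⟨h1, h2, h3, by linarith⟩

/-- integrability of products -/
theorem S4_int {b h : ℝ → ℝ} {N P : ℝ} (hP : 0 < P) (hb : Continuous b)
    (hbN : ∀ x, N ≤ |x| → b x = 0) (hh : Continuous h) (hhP : ∀ y, y < P → h y = 0)
    (hhP' : ∀ y, 2 * P < y → h y = 0) : Integrable fun z : ℂ => b z.re * h z.im := by
  have hc : Continuous fun z : ℂ => b z.re * h z.im :=
    (hb.comp Complex.continuous_re).mul (hh.comp Complex.continuous_im)
  refine hc.integrable_of_hasCompactSupport ?_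
  refine HasCompactSupport.of_support_subset_isCompact (isCompact_closedBall 0 (N + 2 * P)) ?_
  intro z hz
  rw [Function.mem_support] at hz
  rw [mem_closedBall_zero_iff]
  exact (S4_norm hP hbN hhP hhP' z hz).2.2.2

/-- integrability of `η b h` -/
theorem S4_int' {b h : ℝ → ℝ} {N P R : ℝ} (hP : 0 < P) (hR : N + 2 * P < R) {η : ℂ → ℝ}
    (hη : ContinuousOn η (Metric.ball 0 R)) (hb : Continuous b)
    (hbN : ∀ x, N ≤ |x| → b x = 0) (hh : Continuous h) (hhP : ∀ y, y < P → h y = 0)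
    (hhP' : ∀ y, 2 * P < y → h y = 0) : Integrable fun z : ℂ => η z * (b z.re * h z.im) := by
  have hc : Continuous fun z : ℂ => b z.re * h z.im :=
    (hb.comp Complex.continuous_re).mul (hh.comp Complex.continuous_im)
  have h0 : ∀ z : ℂ, z ∉ Metric.closedBall (0 : ℂ) (N + 2 * P) → b z.re * h z.im = 0 := by
    intro z hz
    by_contra hne
    apply hz
    rw [mem_closedBall_zero_iff]
    exact (S4_norm hP hbN hhP hhP' z hne).2.2.2
  have hc' := S4_cm Metric.isOpen_ball Metric.isClosed_closedBall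
    (Metric.closedBall_subset_ball hR) hη hc h0
  refine hc'.integrable_of_hasCompactSupport ?_
  refine HasCompactSupport.of_support_subset_isCompact (isCompact_closedBall 0 (N + 2 * P)) ?_
  intro z hz
  rw [Function.mem_support] at hz
  by_contra hne
  exact hz (by rw [h0 z hne, mul_zero])

theorem S4_line {h : ℝ → ℝ} {P R : ℝ} (hP : 0 < P) (hR : 2 * P < R) {η : ℂ → ℝ}
    (hη : ContinuousOn η (Metric.ball 0 R)) (hh : Continuous h) (hhP : ∀ y, y < P → h y = 0)
    (hhP' : ∀ y, 2 * P < y → h y = 0) : Continuous fun y : ℝ => η ((y : ℂ) * Complex.I) * h y := by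
  refine S4_cm (U := Metric.ball (0 : ℝ) R) (K := Icc P (2 * P)) Metric.isOpen_ball isClosed_Icc ?_
    (η := fun y : ℝ => η ((y : ℂ) * Complex.I)) ?_ hh ?_
  · intro y hy
    rw [mem_ball_zero_iff, Real.norm_eq_abs, abs_lt]
    constructor <;> linarith [hy.1, hy.2]
  · refine hη.comp (by fun_prop) ?_
    intro y hy
    rw [mem_ball_zero_iff] at hy ⊢
    simpa using hy
  · intro y hy
    rw [mem_Icc, not_and_or, not_le, not_le] at hy
    rcases hy with hy | hy
    · exact hhP y hy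
    · exact hhP' y hy

theorem S4_taylor {α C R : ℝ} (hα : 0 < α) (hC : 0 ≤ C) {η : ℂ → ℝ}
    (hη : ContDiffOn ℝ 1 η (Metric.ball 0 R))
    (hdη : ∀ z ∈ Metric.ball (0 : ℂ) R, ∀ z' ∈ Metric.ball (0 : ℂ) R,
      ‖fderiv ℝ η z - fderiv ℝ η z'‖ ≤ C * ‖z - z'‖ ^ α) (z : ℂ) (hz : z ∈ Metric.ball (0 : ℂ) R) :
    |η z - η ((z.im : ℂ) * Complex.I) - z.re * dx η ((z.im : ℂ) * Complex.I)| ≤
      C * |z.re| ^ α * |z.re| := by
  set p : ℂ := (z.im : ℂ) * Complex.I with hp
  have hzp : z - p = (z.re : ℂ) := by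
    apply Complex.ext <;> simp [p]
  have hpn : ‖p‖ ≤ ‖z‖ := by
    have : ‖p‖ = |z.im| := by simp [p]
    rw [this]
    exact Complex.abs_im_le_norm z
  have hpb : p ∈ Metric.ball (0 : ℂ) R := by
    rw [mem_ball_zero_iff] at hz ⊢
    linarith
  have hseg : segment ℝ p z ⊆ Metric.ball (0 : ℂ) R := (convex_ball _ _).segment_subset hpb hz
  have h := Convex.norm_image_sub_le_of_norm_fderiv_le' (𝕜 := ℝ) (f := η) (s := segment ℝ p z)
    (φ := fderiv ℝ η p) (C := C * |z.re| ^ α) (x := p) (y := z)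
    (fun w hw => (hη.differentiableOn (by norm_num)).differentiableAt
      (Metric.isOpen_ball.mem_nhds (hseg hw))) ?_ (convex_segment _ _) (left_mem_segment ℝ p z)
    (right_mem_segment ℝ p z)
  · have e : fderiv ℝ η p (z - p) = z.re * dx η p := by
      rw [hzp]
      have : ((z.re : ℝ) : ℂ) = z.re • (1 : ℂ) := by simp
      rw [this, map_smul]
      rfl
    have hn : ‖z - p‖ = |z.re| := by
      rw [hzp]
      simp
    rw [e, hn, Real.norm_eq_abs] at h
    exact h
  · intro w hw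
    refine (hdη w (hseg hw) p hpb).trans ?_
    refine mul_le_mul_of_nonneg_left ?_ hC
    refine Real.rpow_le_rpow (norm_nonneg _) ?_ hα.le
    rw [segment_eq_image'] at hw
    obtain ⟨θ, hθ, rfl⟩ := hw
    rw [hzp]
    simp only [add_sub_cancel_left, norm_smul, Complex.norm_real, Real.norm_eq_abs]
    rw [abs_of_nonneg hθ.1]
    exact mul_le_of_le_one_left (abs_nonneg _) hθ.2

/-- [YUR-S4] Taylor along horizontal lines: `∫ η b h = ∫ [η(x,y) - η(0,y) - x η_x(0,y)] b(x) h(y)` (the subtracted terms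
are integrated by `prod_int`: they are products, `h' y = η(0,y) h y` etc.; if the point `(0,y)` is not in the ball then `h y = 0`),
`|η(x,y) - η(0,y) - x η_x(0,y)| ≤ C |x|^(1+α) ≤ C (1+|x|)²` (mean value inequality on the segment), and `prod_int`.
All points with `b(x) h(y) ≠ 0` have norm `< N + 2P ≤ R`. Measurability of the subtracted functions: multiply by a
cutoff or note that they are continuous on `|y| ≤ 2P`. -/
theorem line_le {α C R N P : ℝ} (hα : 0 < α) (hα1 : α < 1) (hC : 0 ≤ C) (hN : 0 < N) (hP : 0 < P)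
    (hR : 2 * (N + 2 * P) ≤ R) {η : ℂ → ℝ} (hη : ContDiffOn ℝ 1 η (Metric.ball 0 R))
    (hdη : ∀ z ∈ Metric.ball (0 : ℂ) R, ∀ z' ∈ Metric.ball (0 : ℂ) R,
      ‖fderiv ℝ η z - fderiv ℝ η z'‖ ≤ C * ‖z - z'‖ ^ α) {b h : ℝ → ℝ} (hb : Continuous b)
    (hbN : ∀ x, N ≤ |x| → b x = 0) (hh : Continuous h) (hhP : ∀ y, y < P → h y = 0)
    (hhP' : ∀ y, 2 * P < y → h y = 0) (h0 : ∫ x, b x = 0) (h1 : ∫ x, x * b x = 0) :
    |∫ z, η z * (b z.re * h z.im)| ≤ C * ((∫ x, (1 + |x|) ^ 2 * |b x|) * ∫ y, |h y|) := by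
  have hR1 : N + 2 * P < R := by linarith
  have hR2 : 2 * P < R := by linarith
  have hηc : ContinuousOn η (Metric.ball 0 R) := hη.continuousOn
  have hdc : ContinuousOn (dx η) (Metric.ball 0 R) :=
    (contDiffOn_dx (n := 0) Metric.isOpen_ball (by simpa using hη)).continuousOn
  -- the subtracted functions
  have c1 := S4_line hP hR2 hηc hh hhP hhP'
  have c2 := S4_line hP hR2 hdc hh hhP hhP'
  have i0 := S4_int' hP hR1 hηc hb hbN hh hhP hhP'
  have i1 := S4_int (h := fun y : ℝ => η ((y : ℂ) * Complex.I) * h y) hP hb hbN c1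
    (fun y hy => by simp [hhP y hy]) (fun y hy => by simp [hhP' y hy])
  have i2 := S4_int (N := N) (b := fun x => x * b x) (h := fun y : ℝ => dx η ((y : ℂ) * Complex.I) * h y) hP
    (continuous_id.mul hb) (fun x hx => by simp [hbN x hx]) c2
    (fun y hy => by simp [hhP y hy]) (fun y hy => by simp [hhP' y hy])
  have z1 : ∫ z : ℂ, b z.re * (η ((z.im : ℂ) * Complex.I) * h z.im) = 0 := by
    rw [prod_int b (fun y : ℝ => η ((y : ℂ) * Complex.I) * h y), h0, zero_mul]
  have z2 : ∫ z : ℂ, (z.re * b z.re) * (dx η ((z.im : ℂ) * Complex.I) * h z.im) = 0 := by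
    rw [prod_int (fun x => x * b x) (fun y : ℝ => dx η ((y : ℂ) * Complex.I) * h y), h1, zero_mul]
  have e : ∫ z : ℂ, η z * (b z.re * h z.im) = ∫ z : ℂ, (η z - η ((z.im : ℂ) * Complex.I) -
      z.re * dx η ((z.im : ℂ) * Complex.I)) * (b z.re * h z.im) := by
    have e1 : ∫ z : ℂ, (η z - η ((z.im : ℂ) * Complex.I) -
      z.re * dx η ((z.im : ℂ) * Complex.I)) * (b z.re * h z.im) =
        ∫ z : ℂ, (η z * (b z.re * h z.im) - b z.re * (η ((z.im : ℂ) * Complex.I) * h z.im) -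
          (z.re * b z.re) * (dx η ((z.im : ℂ) * Complex.I) * h z.im)) := by
      congr 1
      funext z
      ring
    have i3 : Integrable fun z : ℂ => η z * (b z.re * h z.im) -
        b z.re * (η ((z.im : ℂ) * Complex.I) * h z.im) := i0.sub i1
    rw [e1, integral_sub i3 i2, integral_sub i0 i1, z1, z2, sub_zero, sub_zero]
  rw [e, ← Real.norm_eq_abs, ← prod_int, ← integral_const_mul]
  have hib : Integrable fun z : ℂ => ((1 + |z.re|) ^ 2 * |b z.re|) * |h z.im| :=
    S4_int (N := N) (b := fun x => (1 + |x|) ^ 2 * |b x|) (h := fun y => |h y|) hP (by fun_prop)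
      (fun x hx => by simp [hbN x hx]) (by fun_prop) (fun y hy => by simp [hhP y hy])
      (fun y hy => by simp [hhP' y hy])
  refine norm_integral_le_of_norm_le (hib.const_mul C) (ae_of_all _ fun z => ?_)
  by_cases hz : b z.re * h z.im = 0
  · rw [hz, mul_zero, norm_zero]
    positivity
  · obtain ⟨n1, n2, n3, n4⟩ := S4_norm hP hbN hhP hhP' z hz
    have ht := S4_taylor hα hC hη hdη z (by rw [mem_ball_zero_iff]; linarith)
    rw [norm_mul, Real.norm_eq_abs, Real.norm_eq_abs, abs_mul]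
    have hx : |z.re| ^ α * |z.re| ≤ (1 + |z.re|) ^ 2 := by
      have a1 : |z.re| ^ α ≤ (1 + |z.re|) ^ α :=
        Real.rpow_le_rpow (abs_nonneg _) (by linarith [abs_nonneg z.re]) hα.le
      have a2 : (1 + |z.re|) ^ α ≤ (1 + |z.re|) ^ (1 : ℝ) :=
        Real.rpow_le_rpow_of_exponent_le (by linarith [abs_nonneg z.re]) hα1.le
      rw [Real.rpow_one] at a2
      calc |z.re| ^ α * |z.re| ≤ (1 + |z.re|) * (1 + |z.re|) := by
            refine mul_le_mul (a1.trans a2) (by linarith) (abs_nonneg _) (by positivity)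
        _ = _ := by ring
    calc |η z - η ((z.im : ℂ) * Complex.I) - z.re * dx η ((z.im : ℂ) * Complex.I)| *
          (|b z.re| * |h z.im|) ≤ (C * |z.re| ^ α * |z.re|) * (|b z.re| * |h z.im|) :=
          mul_le_mul_of_nonneg_right ht (by positivity)
      _ = C * (|z.re| ^ α * |z.re|) * (|b z.re| * |h z.im|) := by ring
      _ ≤ C * (1 + |z.re|) ^ 2 * (|b z.re| * |h z.im|) :=
          mul_le_mul_of_nonneg_right (mul_le_mul_of_nonneg_left hx hC) (by positivity)
      _ = _ := by ring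

/-- [YUR-S4] direct bound: `‖z‖^(3+α) ≤ ((1+|x|) y)^(3+α) ≤ (1+|x|)^5 (2P)^(3+α)` for `1 ≤ P ≤ y ≤ 2P` -/
theorem direct_le {α C R N P : ℝ} (hα : 0 < α) (hα1 : α < 1) (hC : 0 ≤ C) (hN : 0 < N) (hP : 1 ≤ P)
    (hR : 2 * (N + 2 * P) ≤ R) {s : ℂ → ℝ} (hs : ContinuousOn s (Metric.ball 0 R))
    (hsC : ∀ z ∈ Metric.ball (0 : ℂ) R, |s z| ≤ C * ‖z‖ ^ (3 + α)) {b h : ℝ → ℝ}
    (hb : Continuous b) (hbN : ∀ x, N ≤ |x| → b x = 0) (hh : Continuous h)
    (hhP : ∀ y, y < P → h y = 0) (hhP' : ∀ y, 2 * P < y → h y = 0) :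
    |∫ z, s z * (b z.re * h z.im)| ≤
      C * (2 * P) ^ (3 + α) * ((∫ x, (1 + |x|) ^ 5 * |b x|) * ∫ y, |h y|) := by
  have hP0 : 0 < P := by linarith
  rw [← Real.norm_eq_abs, ← prod_int, ← integral_const_mul]
  have hib : Integrable fun z : ℂ => ((1 + |z.re|) ^ 5 * |b z.re|) * |h z.im| :=
    S4_int (N := N) (b := fun x => (1 + |x|) ^ 5 * |b x|) (h := fun y => |h y|) hP0 (by fun_prop)
      (fun x hx => by simp [hbN x hx]) (by fun_prop) (fun y hy => by simp [hhP y hy])
      (fun y hy => by simp [hhP' y hy])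
  refine norm_integral_le_of_norm_le (hib.const_mul _) (ae_of_all _ fun z => ?_)
  by_cases hz : b z.re * h z.im = 0
  · rw [hz, mul_zero, norm_zero]
    positivity
  · obtain ⟨n1, n2, n3, n4⟩ := S4_norm hP0 hbN hhP hhP' z hz
    have ht := hsC z (by rw [mem_ball_zero_iff]; linarith)
    rw [norm_mul, Real.norm_eq_abs, Real.norm_eq_abs, abs_mul]
    have hy0 : 0 ≤ z.im := by linarith
    have a0 : ‖z‖ ≤ (1 + |z.re|) * (2 * P) := by
      have := Complex.norm_le_abs_re_add_abs_im z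
      rw [abs_of_nonneg hy0] at this
      nlinarith [abs_nonneg z.re]
    have a1 : ‖z‖ ^ (3 + α) ≤ (1 + |z.re|) ^ 5 * (2 * P) ^ (3 + α) := by
      have b1 : ‖z‖ ^ (3 + α) ≤ ((1 + |z.re|) * (2 * P)) ^ (3 + α) :=
        Real.rpow_le_rpow (norm_nonneg _) a0 (by linarith)
      rw [Real.mul_rpow (by positivity) (by positivity)] at b1
      have b2 : (1 + |z.re|) ^ (3 + α) ≤ (1 + |z.re|) ^ ((5 : ℕ) : ℝ) :=
        Real.rpow_le_rpow_of_exponent_le (by linarith [abs_nonneg z.re]) (by push_cast; linarith)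
      rw [Real.rpow_natCast] at b2
      exact b1.trans (mul_le_mul_of_nonneg_right b2 (by positivity))
    calc |s z| * (|b z.re| * |h z.im|) ≤ (C * ‖z‖ ^ (3 + α)) * (|b z.re| * |h z.im|) :=
          mul_le_mul_of_nonneg_right ht (by positivity)
      _ ≤ (C * ((1 + |z.re|) ^ 5 * (2 * P) ^ (3 + α))) * (|b z.re| * |h z.im|) :=
          mul_le_mul_of_nonneg_right (mul_le_mul_of_nonneg_left a1 hC) (by positivity)
      _ = _ := by ring

end Pool.Agent.YUR
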