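import Pool.Agent.YUR.S2
import Pool.Agent.YUR.S4

open MeasureTheory Set Filter Topology
open scoped ContDiff

namespace Pool.Agent.YUR

open Pool.Agent.YUD Pool.Agent.YUT Pool.Agent.YUB

theorem S5_smooth {B κ S Λs τ N : ℝ} {a : ℕ → ℝ → ℝ → ℝ} {e : ℝ → ℝ → ℝ}
    (hp : Packet B κ S Λs τ N a e) (j : ℕ) (Λ : ℝ) : ContDiff ℝ ∞ (a j Λ) := by
  have h1 : ContDiff ℝ ∞ (fun x : ℝ => ((Λ, x) : ℝ × ℝ)) := contDiff_const.prodMk contDiff_id
  exact (hp.smooth j).comp h1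

theorem S5_int {N : ℝ} {f : ℝ → ℝ} (hf : Continuous f) (h0 : ∀ x, N ≤ |x| → f x = 0) :
    Integrable f := by
  apply hf.integrable_of_hasCompactSupport
  apply HasCompactSupport.intro (isCompact_Icc (a := -N) (b := N))
  intro x hx
  apply h0
  rw [mem_Icc, not_and_or, not_le, not_le] at hx
  rcases hx with hx | hx
  · rw [le_abs]
    right
    linarith
  · rw [le_abs]
    left
    linarith

theorem S5_mom2 {B κ S Λs τ N : ℝ} {a : ℕ → ℝ → ℝ → ℝ} {e : ℝ → ℝ → ℝ}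
    (hp : Packet B κ S Λs τ N a e) {j : ℕ} (hj : j ≤ 8) {Λ : ℝ} (h0 : 0 ≤ Λ) (h1 : Λ ≤ Λs) :
    ∫ x, (1 + |x|) ^ 2 * |a j Λ x| ≤ S := by
  refine le_trans ?_ (hp.mom j hj Λ h0 h1)
  apply integral_mono_of_nonneg
  · exact Eventually.of_forall fun x => by positivity
  · have hc : Continuous fun x : ℝ => (1 + |x|) ^ 5 * |a j Λ x| := by
      have := (S5_smooth hp j Λ).continuous
      fun_prop
    apply S5_int (N := N) hc
    intro x hx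
    rw [hp.supp j Λ x hx, abs_zero, mul_zero]
  · refine Eventually.of_forall fun x => ?_
    have h2 : (1 : ℝ) ≤ 1 + |x| := by linarith [abs_nonneg x]
    exact mul_le_mul_of_nonneg_right (pow_le_pow_right₀ h2 (by norm_num)) (abs_nonneg _)

theorem S5_vk1 {D I P : ℝ} {m : ℕ} (hm : 1 ≤ m) (hP : 1 ≤ P) (hI : 0 ≤ I)
    (h : I * P ^ m ≤ D * P) : I ≤ D := by
  have h1 : P ≤ P ^ m := le_self_pow₀ hP (by omega)
  have h2 : I * P ≤ D * P := (mul_le_mul_of_nonneg_left h1 hI).trans h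
  exact le_of_mul_le_mul_right h2 (by linarith)

theorem S5_vk3 {D I P : ℝ} {m : ℕ} (hm : 4 ≤ m) (hP : 1 ≤ P) (hI : 0 ≤ I)
    (h : I * P ^ m ≤ D * P) : P ^ 3 * I ≤ D := by
  have h1 : P ^ 4 ≤ P ^ m := pow_le_pow_right₀ hP hm
  have h2 : (P ^ 3 * I) * P ≤ D * P := by
    calc (P ^ 3 * I) * P = I * P ^ 4 := by ring
      _ ≤ I * P ^ m := mul_le_mul_of_nonneg_left h1 hI
      _ ≤ D * P := h
  exact le_of_mul_le_mul_right h2 (by linarith)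

/-- [YUR-S5] `∫ η a_j v^(k)` for `j ≤ 6`, `1 ≤ k`: `line_le`, `packet_van` (`i = 0, 1`), `vk_int`,
`(1+|x|)² ≤ (1+|x|)^5`. -/
theorem eta_bd {α C S : ℝ} (hα : 0 < α) (hα1 : α < 1) (hC : 1 ≤ C) (hS : 0 ≤ S) :
    ∃ C₁ : ℝ, 0 ≤ C₁ ∧ ∀ (B κ Λs τ N : ℝ) (a : ℕ → ℝ → ℝ → ℝ) (e : ℝ → ℝ → ℝ) (P : ℝ),
      Packet B κ S Λs τ N a e → 1 ≤ P → 1 ≤ N → ∀ (R : ℝ) (k : Fin 4 → ℝ) (γ μ ν : ℝ)
        (s η : ℂ → ℝ), Slc α C R k γ μ ν s η → 2 * (N + 2 * P) ≤ R → ∀ Λ, 0 ≤ Λ → Λ ≤ Λs →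
          ∀ j m : ℕ, j ≤ 6 → 1 ≤ m → m ≤ 5 → |∫ z, η z * (a j Λ z.re * vk m P z.im)| ≤ C₁ := by
  obtain ⟨D, hD, hvk⟩ := vk_int
  refine ⟨C * (S * D), by positivity, ?_⟩
  intro B κ Λs τ N a e P hp hP hN R k γ μ ν s η hs hR Λ h0 h1 j m hj hm1 hm5
  have hP0 : 0 < P := by linarith
  obtain ⟨v1, v2, v3, v4, v5⟩ := vk_facts hP0 m
  have hl := line_le (α := α) (C := C) (R := R) (N := N) (P := P) hα hα1 (by linarith)
    (by linarith) hP0 hR hs.η_c1 hs.dη_le (S5_smooth hp j Λ).continuous (hp.supp j Λ)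
    v1.continuous v3 v4
    (by
      have h2 := packet_van hp 0 j (by omega) Λ
      simpa using h2)
    (by
      have h2 := packet_van hp 1 j (by omega) Λ
      simpa using h2)
  refine hl.trans ?_
  have e1 := S5_mom2 hp (show j ≤ 8 by omega) h0 h1
  have e2 : 0 ≤ ∫ y, |vk m P y| := integral_nonneg fun y => abs_nonneg _
  have e3 : ∫ y, |vk m P y| ≤ D := S5_vk1 hm1 hP e2 (hvk m hm5 P hP).2
  apply mul_le_mul_of_nonneg_left _ (by linarith)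
  exact mul_le_mul e1 e3 e2 hS

/-- [YUR-S5] `∫ s a_j v^(k)` for `k = 4, 5`: `direct_le`, `vk_int`: `P^(3+α) P^(1-k) ≤ P^α`. -/
theorem s_bd {α C S : ℝ} (hα : 0 < α) (hα1 : α < 1) (hC : 1 ≤ C) (hS : 0 ≤ S) :
    ∃ C₁ : ℝ, 0 ≤ C₁ ∧ ∀ (B κ Λs τ N : ℝ) (a : ℕ → ℝ → ℝ → ℝ) (e : ℝ → ℝ → ℝ) (P : ℝ),
      Packet B κ S Λs τ N a e → 1 ≤ P → 1 ≤ N → ∀ (R : ℝ) (k : Fin 4 → ℝ) (γ μ ν : ℝ)
        (s η : ℂ → ℝ), Slc α C R k γ μ ν s η → 2 * (N + 2 * P) ≤ R → ∀ Λ, 0 ≤ Λ → Λ ≤ Λs →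
          ∀ j m : ℕ, j ≤ 8 → (m = 4 ∨ m = 5) →
            |∫ z, s z * (a j Λ z.re * vk m P z.im)| ≤ C₁ * P ^ α := by
  obtain ⟨D, hD, hvk⟩ := vk_int
  refine ⟨C * (2 : ℝ) ^ (3 + α) * (S * D), by positivity, ?_⟩
  intro B κ Λs τ N a e P hp hP hN R k γ μ ν s η hs hR Λ h0 h1 j m hj hm
  have hP0 : 0 < P := by linarith
  have hm4 : 4 ≤ m := by omega
  have hm5 : m ≤ 5 := by omega
  obtain ⟨v1, v2, v3, v4, v5⟩ := vk_facts hP0 m
  have hl := direct_le (α := α) (C := C) (R := R) (N := N) (P := P) hα hα1 (by linarith)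
    (by linarith) hP hR hs.s_c2.continuousOn hs.s_le (S5_smooth hp j Λ).continuous (hp.supp j Λ)
    v1.continuous v3 v4
  refine hl.trans ?_
  have e1 := hp.mom j hj Λ h0 h1
  have e2 : 0 ≤ ∫ y, |vk m P y| := integral_nonneg fun y => abs_nonneg _
  have e3 : P ^ 3 * ∫ y, |vk m P y| ≤ D := S5_vk3 hm4 hP e2 (hvk m hm5 P hP).2
  have e4 : (2 * P) ^ (3 + α) = (2 : ℝ) ^ (3 + α) * (P ^ 3 * P ^ α) := by
    rw [Real.mul_rpow (by norm_num) hP0.le, Real.rpow_add hP0 3 α]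
    norm_num
  have hPα : 0 ≤ P ^ α := Real.rpow_nonneg hP0.le α
  have e5 : (∫ x, (1 + |x|) ^ 5 * |a j Λ x|) * (P ^ 3 * ∫ y, |vk m P y|) ≤ S * D :=
    mul_le_mul e1 e3 (by positivity) hS
  rw [e4]
  calc C * ((2 : ℝ) ^ (3 + α) * (P ^ 3 * P ^ α)) *
        ((∫ x, (1 + |x|) ^ 5 * |a j Λ x|) * ∫ y, |vk m P y|)
      = (C * (2 : ℝ) ^ (3 + α) * P ^ α) *
        ((∫ x, (1 + |x|) ^ 5 * |a j Λ x|) * (P ^ 3 * ∫ y, |vk m P y|)) := by ring
    _ ≤ (C * (2 : ℝ) ^ (3 + α) * P ^ α) * (S * D) := by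
        apply mul_le_mul_of_nonneg_left e5
        positivity
    _ = C * (2 : ℝ) ^ (3 + α) * (S * D) * P ^ α := by ring

theorem S5_integrable {R N P : ℝ} (hN : 0 < N) (hP : 0 < P) (hR : 2 * (N + 2 * P) ≤ R)
    {s : ℂ → ℝ} (hs : ContDiffOn ℝ 1 s (Metric.ball 0 R)) {b h : ℝ → ℝ} (hb : ContDiff ℝ ∞ b)
    (hh : ContDiff ℝ ∞ h) (hbN : ∀ x, N ≤ |x| → b x = 0) (hhP : ∀ y, y < P → h y = 0)
    (hhP' : ∀ y, 2 * P < y → h y = 0) : Integrable (fun z : ℂ => s z * (b z.re * h z.im)) := by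
  obtain ⟨p1, p2, p3⟩ := prod_supp hb hh hN hP hbN hhP hhP'
  have hsub : tsupport (fun z : ℂ => b z.re * h z.im) ⊆ Metric.ball 0 R :=
    p3.trans (Metric.closedBall_subset_ball (by linarith))
  have hc : ContDiff ℝ (1 : ℕ) (fun z : ℂ => (b z.re * h z.im) * s z) :=
    contDiff_cut (n := 1) Metric.isOpen_ball (contDiff_infty.1 p1 1) hsub
      (by exact_mod_cast hs)
  have he : (fun z : ℂ => s z * (b z.re * h z.im)) = fun z => (b z.re * h z.im) * s z := by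
    funext z
    ring
  rw [he]
  exact hc.continuous.integrable_of_hasCompactSupport (p2.mul_right)

/-- [YUR-S5] the recursion: `green` with `F = a_{j+2} v^(m)` (`prod_deriv`, `chain`, `vk_facts`, `prod_supp`), `lap_s` -/
theorem recur {α C R : ℝ} {k : Fin 4 → ℝ} {γ μ ν : ℝ} {s η : ℂ → ℝ} (h : Slc α C R k γ μ ν s η)
    {B κ S Λs τ N : ℝ} {a : ℕ → ℝ → ℝ → ℝ} {e : ℝ → ℝ → ℝ} (hp : Packet B κ S Λs τ N a e) {P : ℝ}
    (hP : 1 ≤ P) (hN : 1 ≤ N) (hR : 2 * (N + 2 * P) ≤ R) (Λ : ℝ) (j m : ℕ) (hj : j ≤ 6) :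
    γ * (∫ z, s z * (a j Λ z.re * vk m P z.im)) = (∫ z, η z * (a (j + 2) Λ z.re * vk m P z.im)) -
      2 * μ * (∫ z, s z * (a (j + 1) Λ z.re * vk (m + 1) P z.im)) -
        ν * (∫ z, s z * (a (j + 2) Λ z.re * vk (m + 2) P z.im)) := by
  have hP0 : 0 < P := by linarith
  have hN0 : 0 < N := by linarith
  have ha := fun i => S5_smooth hp i Λ
  have hs1 : ContDiffOn ℝ 1 s (Metric.ball 0 R) := h.s_c2.of_le (by norm_num)
  obtain ⟨v1, v2, v3, v4, _⟩ := vk_facts hP0 m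
  obtain ⟨w1, w2, w3, w4, _⟩ := vk_facts hP0 (m + 1)
  obtain ⟨x1, x2, x3, x4, _⟩ := vk_facts hP0 (m + 2)
  obtain ⟨p1, p2, p3⟩ := prod_supp (ha (j + 2)) v1 hN0 hP0 (hp.supp (j + 2) Λ) v3 v4
  have hsub : tsupport (fun z : ℂ => a (j + 2) Λ z.re * vk m P z.im) ⊆ Metric.ball 0 R :=
    p3.trans (Metric.closedBall_subset_ball (by linarith))
  have hg := green (U := Metric.ball (0 : ℂ) R) Metric.isOpen_ball γ μ ν h.s_c2
    (contDiff_infty.1 p1 2) p2 hsub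
  have d1 : deriv (a (j + 2) Λ) = a (j + 1) Λ := funext fun x => (hp.chain (j + 1) (by omega) Λ x).deriv
  have d2 : deriv (a (j + 1) Λ) = a j Λ := funext fun x => (hp.chain j (by omega) Λ x).deriv
  have d3 : deriv (vk m P) = vk (m + 1) P := funext fun y => (v2 y).deriv
  have d4 : deriv (vk (m + 1) P) = vk (m + 2) P := funext fun y => (w2 y).deriv
  have hl : ∀ z, lapG γ μ ν (fun z : ℂ => a (j + 2) Λ z.re * vk m P z.im) z =
      γ * (a j Λ z.re * vk m P z.im) + 2 * μ * (a (j + 1) Λ z.re * vk (m + 1) P z.im) +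
        ν * (a (j + 2) Λ z.re * vk (m + 2) P z.im) := by
    intro z
    have h1 := (prod_deriv (contDiff_infty.1 (ha (j + 2)) 2)
      (contDiff_infty.1 v1 2) γ μ ν z).2.2
    rw [h1, d1, d2, d3, d4]
  have hL : ∫ z, lapG γ μ ν s z * (a (j + 2) Λ z.re * vk m P z.im) =
      ∫ z, η z * (a (j + 2) Λ z.re * vk m P z.im) := by
    apply integral_congr_ae
    refine Eventually.of_forall fun z => ?_
    by_cases hz : z ∈ Metric.ball (0 : ℂ) R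
    · show lapG γ μ ν s z * _ = η z * _
      rw [h.lap_s z hz]
    · have h2 : a (j + 2) Λ z.re * vk m P z.im = 0 := by
        by_contra h3
        exact hz (hsub (subset_tsupport _ h3))
      show lapG γ μ ν s z * _ = η z * _
      rw [h2, mul_zero, mul_zero]
  have i1 := S5_integrable hN0 hP0 hR hs1 (ha j) v1 (hp.supp j Λ) v3 v4
  have i2 := S5_integrable hN0 hP0 hR hs1 (ha (j + 1)) w1 (hp.supp (j + 1) Λ) w3 w4
  have i3 := S5_integrable hN0 hP0 hR hs1 (ha (j + 2)) x1 (hp.supp (j + 2) Λ) x3 x4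
  have hRt : ∫ z, s z * lapG γ μ ν (fun z : ℂ => a (j + 2) Λ z.re * vk m P z.im) z =
      γ * (∫ z, s z * (a j Λ z.re * vk m P z.im)) +
      2 * μ * (∫ z, s z * (a (j + 1) Λ z.re * vk (m + 1) P z.im)) +
        ν * (∫ z, s z * (a (j + 2) Λ z.re * vk (m + 2) P z.im)) := by
    have k1 : Integrable (fun z : ℂ => γ * (s z * (a j Λ z.re * vk m P z.im)) +
        2 * μ * (s z * (a (j + 1) Λ z.re * vk (m + 1) P z.im))) :=
      (i1.const_mul γ).add (i2.const_mul (2 * μ))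
    have k2 : ∫ z : ℂ, (γ * (s z * (a j Λ z.re * vk m P z.im)) +
        2 * μ * (s z * (a (j + 1) Λ z.re * vk (m + 1) P z.im)) +
          ν * (s z * (a (j + 2) Λ z.re * vk (m + 2) P z.im))) =
        (∫ z : ℂ, (γ * (s z * (a j Λ z.re * vk m P z.im)) +
        2 * μ * (s z * (a (j + 1) Λ z.re * vk (m + 1) P z.im)))) +
          ∫ z : ℂ, ν * (s z * (a (j + 2) Λ z.re * vk (m + 2) P z.im)) :=
      integral_add k1 (i3.const_mul ν)
    have k3 : (∫ z : ℂ, (γ * (s z * (a j Λ z.re * vk m P z.im)) +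
        2 * μ * (s z * (a (j + 1) Λ z.re * vk (m + 1) P z.im)))) =
        (∫ z : ℂ, γ * (s z * (a j Λ z.re * vk m P z.im))) +
          ∫ z : ℂ, 2 * μ * (s z * (a (j + 1) Λ z.re * vk (m + 1) P z.im)) :=
      integral_add (i1.const_mul γ) (i2.const_mul (2 * μ))
    rw [← integral_const_mul, ← integral_const_mul, ← integral_const_mul, ← k3, ← k2]
    apply integral_congr_ae
    refine Eventually.of_forall fun z => ?_
    show s z * lapG γ μ ν (fun z : ℂ => a (j + 2) Λ z.re * vk m P z.im) z = _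
    rw [hl z]
    ring
  rw [hL, hRt] at hg
  linarith

theorem S5_step {C γ μ ν I E J K e x y : ℝ} (hC : 1 ≤ C) (hγ : 1 ≤ C * γ) (hμ : |μ| ≤ C)
    (hν : |ν| ≤ C) (h : γ * I = E - 2 * μ * J - ν * K) (hE : |E| ≤ e) (hJ : |J| ≤ x)
    (hK : |K| ≤ y) : |I| ≤ C * (e + 2 * C * x + C * y) := by
  have hx : 0 ≤ x := (abs_nonneg J).trans hJ
  have hy : 0 ≤ y := (abs_nonneg K).trans hK
  have h1 : |γ * I| ≤ e + 2 * C * x + C * y := by
    rw [h]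
    have h2 : |2 * μ * J| ≤ 2 * C * x := by
      rw [abs_mul, abs_mul, abs_of_pos (by norm_num : (0 : ℝ) < 2)]
      exact mul_le_mul (by linarith) hJ (abs_nonneg _) (by linarith)
    have h3 : |ν * K| ≤ C * y := by
      rw [abs_mul]
      exact mul_le_mul hν hK (abs_nonneg _) (by linarith)
    have h4 := abs_sub (E - 2 * μ * J) (ν * K)
    have h5 := abs_sub E (2 * μ * J)
    linarith
  have hγ0 : 0 < γ := by
    by_contra hcon
    push Not at hcon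
    nlinarith
  calc |I| ≤ (C * γ) * |I| := le_mul_of_one_le_left (abs_nonneg _) hγ
    _ = C * |γ * I| := by rw [abs_mul, abs_of_pos hγ0]; ring
    _ ≤ C * (e + 2 * C * x + C * y) := mul_le_mul_of_nonneg_left h1 (by linarith)

/-- [YUR-S5] the main bound. `I[j,m] = ∫ s a_j v^(m)`: `I[3,4], I[4,5]` by `s_bd`, then `I[2,3]` (recursion, `eta_bd` for
`a_4`), `I[1,2]` (`a_3`; `I[2,3]`, `I[3,4]`), `I[0,1]` (`a_2`; `I[1,2]`, `I[2,3]`); `1/γ ≤ C`. -/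
theorem main_bd {α C S : ℝ} (hα : 0 < α) (hα1 : α < 1) (hC : 1 ≤ C) (hS : 0 ≤ S) :
    ∃ C₁ : ℝ, 0 ≤ C₁ ∧ ∀ (B κ Λs τ N : ℝ) (a : ℕ → ℝ → ℝ → ℝ) (e : ℝ → ℝ → ℝ) (P : ℝ),
      Packet B κ S Λs τ N a e → 1 ≤ P → 1 ≤ N → ∀ (R : ℝ) (k : Fin 4 → ℝ) (γ μ ν : ℝ)
        (s η : ℂ → ℝ), Slc α C R k γ μ ν s η → 2 * (N + 2 * P) ≤ R → ∀ Λ, 0 ≤ Λ → Λ ≤ Λs →
          |∫ z, s z * (a 0 Λ z.re * vk 1 P z.im)| ≤ C₁ * P ^ α ∧
            |∫ z, s z * (a 1 Λ z.re * vk 2 P z.im)| ≤ C₁ * P ^ α := by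
  obtain ⟨Ce, hCe, hη⟩ := eta_bd hα hα1 hC hS
  obtain ⟨Cs, hCs, hs⟩ := s_bd hα hα1 hC hS
  have hC0 : 0 ≤ C := by linarith
  set c3 : ℝ := C * (Ce + 2 * C * Cs + C * Cs) with hc3
  set c2 : ℝ := C * (Ce + 2 * C * c3 + C * Cs) with hc2
  set c1 : ℝ := C * (Ce + 2 * C * c2 + C * c3) with hc1
  have p3 : 0 ≤ c3 := by positivity
  have p2 : 0 ≤ c2 := by positivity
  have p1 : 0 ≤ c1 := by positivity
  refine ⟨c1 + c2, by linarith, ?_⟩
  intro B κ Λs τ N a e P hp hP hN R k γ μ ν s η hsl hR Λ h0 h1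
  have hPα : 1 ≤ P ^ α := Real.one_le_rpow hP hα.le
  have f1 := hη B κ Λs τ N a e P hp hP hN R k γ μ ν s η hsl hR Λ h0 h1
  have f2 := hs B κ Λs τ N a e P hp hP hN R k γ μ ν s η hsl hR Λ h0 h1
  have fe : ∀ j m : ℕ, j ≤ 6 → 1 ≤ m → m ≤ 5 →
      |∫ z, η z * (a j Λ z.re * vk m P z.im)| ≤ Ce * P ^ α := by
    intro j m a1 a2 a3
    exact (f1 j m a1 a2 a3).trans (le_mul_of_one_le_right hCe hPα)
  have s34 := f2 3 4 (by norm_num) (Or.inl rfl)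
  have s45 := f2 4 5 (by norm_num) (Or.inr rfl)
  have r2 := recur hsl hp hP hN hR Λ 2 3 (by norm_num)
  have r1 := recur hsl hp hP hN hR Λ 1 2 (by norm_num)
  have r0 := recur hsl hp hP hN hR Λ 0 1 (by norm_num)
  have b3 : |∫ z, s z * (a 2 Λ z.re * vk 3 P z.im)| ≤ c3 * P ^ α := by
    have := S5_step hC hsl.γ_lo hsl.μ_le hsl.ν_le r2 (fe 4 3 (by norm_num) (by norm_num) (by norm_num))
      s34 s45
    refine this.trans (le_of_eq ?_)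
    rw [hc3]
    ring
  have b2 : |∫ z, s z * (a 1 Λ z.re * vk 2 P z.im)| ≤ c2 * P ^ α := by
    have := S5_step hC hsl.γ_lo hsl.μ_le hsl.ν_le r1 (fe 3 2 (by norm_num) (by norm_num) (by norm_num))
      b3 s34
    refine this.trans (le_of_eq ?_)
    rw [hc2]
    ring
  have b1 : |∫ z, s z * (a 0 Λ z.re * vk 1 P z.im)| ≤ c1 * P ^ α := by
    have := S5_step hC hsl.γ_lo hsl.μ_le hsl.ν_le r0 (fe 2 1 (by norm_num) (by norm_num) (by norm_num))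
      b2 b3
    refine this.trans (le_of_eq ?_)
    rw [hc1]
    ring
  have hP2 : 0 ≤ P ^ α := by linarith
  constructor
  · refine b1.trans ?_
    exact mul_le_mul_of_nonneg_right (by linarith) hP2
  · refine b2.trans ?_
    exact mul_le_mul_of_nonneg_right (by linarith) hP2

end Pool.Agent.YUR
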