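import Pool.Agent.YUR.S1

open MeasureTheory Set Filter Topology
open scoped ContDiff

namespace Pool.Agent.YUR

open Pool.Agent.YUD Pool.Agent.YUT Pool.Agent.YUB

theorem S2_cont {U : Set ℂ} (hU : IsOpen U) {u F : ℂ → ℝ} (hu : Continuous u)
    (hs : tsupport u ⊆ U) (hF : ContinuousOn F U) : Continuous (fun z => u z * F z) := by
  have h1 : ContDiff ℝ ((0 : ℕ) : WithTop ℕ∞) u := by
    rw [Nat.cast_zero, contDiff_zero]
    exact hu
  have h2 : ContDiffOn ℝ ((0 : ℕ) : WithTop ℕ∞) F U := by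
    rw [Nat.cast_zero, contDiffOn_zero]
    exact hF
  exact (contDiff_cut (n := 0) hU h1 hs h2).continuous

theorem S2_int {U : Set ℂ} (hU : IsOpen U) {u F : ℂ → ℝ} (hu : Continuous u)
    (hc : HasCompactSupport u) (hs : tsupport u ⊆ U) (hF : ContinuousOn F U) :
    Integrable (fun z => u z * F z) :=
  (S2_cont hU hu hs hF).integrable_of_hasCompactSupport hc.mul_right

theorem S2_int' {U : Set ℂ} (hU : IsOpen U) {u F : ℂ → ℝ} (hu : Continuous u)
    (hc : HasCompactSupport u) (hs : tsupport u ⊆ U) (hF : ContinuousOn F U) :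
    Integrable (fun z => F z * u z) := by
  have h1 := S2_int hU hu hc hs hF
  refine h1.congr (Filter.Eventually.of_forall fun z => ?_)
  exact mul_comm _ _

theorem S2_off {u F : ℂ → ℝ} {z : ℂ} (hz : z ∉ tsupport u) :
    z ∉ tsupport (fun z => u z * F z) := fun h =>
  hz (tsupport_mul_subset_left (f := u) (g := F) h)

theorem S2_dx {U : Set ℂ} (hU : IsOpen U) {u G : ℂ → ℝ} (hu : ContDiffOn ℝ 1 u U)
    (hG : ContDiff ℝ 1 G) (hs : tsupport G ⊆ U) (z : ℂ) :
    dx (fun z => G z * u z) z = dx G z * u z + G z * dx u z := by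
  by_cases hz : z ∈ U
  · exact dx_mul (hG.differentiable one_ne_zero z)
      ((hu.contDiffAt (hU.mem_nhds hz)).differentiableAt one_ne_zero)
  · have h1 : z ∉ tsupport G := fun h => hz (hs h)
    rw [A3_dx_off (S2_off h1), A3_dx_off h1, image_eq_zero_of_notMem_tsupport h1]
    ring

theorem S2_dy {U : Set ℂ} (hU : IsOpen U) {u G : ℂ → ℝ} (hu : ContDiffOn ℝ 1 u U)
    (hG : ContDiff ℝ 1 G) (hs : tsupport G ⊆ U) (z : ℂ) :
    dy (fun z => G z * u z) z = dy G z * u z + G z * dy u z := by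
  by_cases hz : z ∈ U
  · exact dy_mul (hG.differentiable one_ne_zero z)
      ((hu.contDiffAt (hU.mem_nhds hz)).differentiableAt one_ne_zero)
  · have h1 : z ∉ tsupport G := fun h => hz (hs h)
    rw [A3_dy_off (S2_off h1), A3_dy_off h1, image_eq_zero_of_notMem_tsupport h1]
    ring

theorem S2_cdx {U : Set ℂ} (hU : IsOpen U) {u : ℂ → ℝ} (hu : ContDiffOn ℝ 1 u U) :
    ContinuousOn (dx u) U :=
  (contDiffOn_dx (n := 0) hU hu).continuousOn

theorem S2_cdy {U : Set ℂ} (hU : IsOpen U) {u : ℂ → ℝ} (hu : ContDiffOn ℝ 1 u U) :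
    ContinuousOn (dy u) U :=
  (contDiffOn_dy (n := 0) hU hu).continuousOn

theorem S2_ibx {U : Set ℂ} (hU : IsOpen U) {u G : ℂ → ℝ} (hu : ContDiffOn ℝ 1 u U)
    (hG : ContDiff ℝ 1 G) (hc : HasCompactSupport G) (hs : tsupport G ⊆ U) :
    ∫ z, dx u z * G z = - ∫ z, u z * dx G z := by
  have h1 := (A3_dx_integral (contDiff_cut (n := 1) hU hG hs hu) (hc.mul_right (f' := u))).2
  have h2 : (∫ z, dx (fun z => G z * u z) z) = ∫ z, (u z * dx G z + dx u z * G z) := by
    congr 1
    funext z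
    rw [S2_dx hU hu hG hs z]
    ring
  have h3 : Integrable (fun z => u z * dx G z) :=
    S2_int' hU (contDiff_dx (n := 0) hG).continuous (hc.fderiv_apply ℝ 1)
      ((tsupport_fderiv_apply_subset ℝ (f := G) 1).trans hs) hu.continuousOn
  have h4 : Integrable (fun z => dx u z * G z) :=
    S2_int' hU hG.continuous hc hs (S2_cdx hU hu)
  rw [h2, integral_add h3 h4] at h1
  linarith

theorem S2_iby {U : Set ℂ} (hU : IsOpen U) {u G : ℂ → ℝ} (hu : ContDiffOn ℝ 1 u U)
    (hG : ContDiff ℝ 1 G) (hc : HasCompactSupport G) (hs : tsupport G ⊆ U) :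
    ∫ z, dy u z * G z = - ∫ z, u z * dy G z := by
  have h1 := (A3_dy_integral (contDiff_cut (n := 1) hU hG hs hu) (hc.mul_right (f' := u))).2
  have h2 : (∫ z, dy (fun z => G z * u z) z) = ∫ z, (u z * dy G z + dy u z * G z) := by
    congr 1
    funext z
    rw [S2_dy hU hu hG hs z]
    ring
  have h3 : Integrable (fun z => u z * dy G z) :=
    S2_int' hU (contDiff_dy (n := 0) hG).continuous (hc.fderiv_apply ℝ Complex.I)
      ((tsupport_fderiv_apply_subset ℝ (f := G) Complex.I).trans hs) hu.continuousOn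
  have h4 : Integrable (fun z => dy u z * G z) :=
    S2_int' hU hG.continuous hc hs (S2_cdy hU hu)
  rw [h2, integral_add h3 h4] at h1
  linarith

/-- integral of a bracket with a compactly supported function -/
theorem S2_pb_cut {U : Set ℂ} (hU : IsOpen U) {a g : ℂ → ℝ} (ha : ContDiff ℝ 2 a)
    (hc : HasCompactSupport a) (hs : tsupport a ⊆ U) (hg : ContDiffOn ℝ 1 g U) :
    ∫ z, pb a g z = 0 := by
  rw [← integral_pb_cut hU ha hc hs hg, setIntegral_eq_integral_of_forall_compl_eq_zero]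
  intro z hz
  have h1 : z ∉ tsupport a := fun h => hz (hs h)
  unfold pb
  rw [A3_dx_off h1, A3_dy_off h1]
  ring

theorem S2_pb_int {U : Set ℂ} (hU : IsOpen U) {g h f : ℂ → ℝ} (hg : ContinuousOn g U)
    (hh : ContDiffOn ℝ 1 h U) (hf : ContDiff ℝ 2 f) (hc : HasCompactSupport f)
    (hs : tsupport f ⊆ U) : Integrable (fun z => g z * pb h f z) := by
  have hf' : ContDiff ℝ (1 + 1 : ℕ) f := hf
  have u1 : ContDiff ℝ 1 (dx f) := contDiff_dx (n := 1) hf'
  have w1 : ContDiff ℝ 1 (dy f) := contDiff_dy (n := 1) hf'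
  have su : tsupport (dx f) ⊆ U := (tsupport_fderiv_apply_subset ℝ (f := f) 1).trans hs
  have sw : tsupport (dy f) ⊆ U := (tsupport_fderiv_apply_subset ℝ (f := f) Complex.I).trans hs
  have cu : HasCompactSupport (dx f) := hc.fderiv_apply ℝ 1
  have cw : HasCompactSupport (dy f) := hc.fderiv_apply ℝ Complex.I
  have h1 := S2_int' hU w1.continuous cw sw (hg.mul (S2_cdx hU hh))
  have h2 := S2_int' hU u1.continuous cu su (hg.mul (S2_cdy hU hh))
  refine (h1.sub h2).congr (Filter.Eventually.of_forall fun z => ?_)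
  show g z * dx h z * dy f z - g z * dy h z * dx f z = g z * pb h f z
  unfold pb
  ring

theorem S2_three {A B C : ℂ → ℝ} (hA : Integrable A) (hB : Integrable B) (hC : Integrable C)
    (a b c : ℝ) : ∫ z, (a * A z + b * B z + c * C z) =
      a * (∫ z, A z) + b * (∫ z, B z) + c * ∫ z, C z := by
  have h1 : Integrable (fun z => a * A z + b * B z) :=
    (hA.const_mul a).add (hB.const_mul b)
  rw [integral_add h1 (hC.const_mul c), integral_add (hA.const_mul a) (hB.const_mul b),
    integral_const_mul, integral_const_mul, integral_const_mul]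

theorem S2_pb_anti (f g : ℂ → ℝ) (z : ℂ) : pb f g z = - pb g f z := by
  unfold pb
  ring

/-- [YUR-S2] integration by parts. `integral_pb_cut` (`YUD/A3.lean`) with `a = f` and `g * h` on `U`:
`0 = ∫ pb f (g h) = ∫ g pb f h + h pb f g`. (All integrands vanish off `tsupport f`; the integral over `U` is the integral
over the plane; integrability: continuous on `U` times something continuous with compact support in `U`, `contDiff_cut`
or `ContinuousOn` + `tsupport`.) -/
theorem int_pb {U : Set ℂ} (hU : IsOpen U) {g h f : ℂ → ℝ} (hg : ContDiffOn ℝ 1 g U)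
    (hh : ContDiffOn ℝ 1 h U) (hf : ContDiff ℝ 2 f) (hc : HasCompactSupport f)
    (hs : tsupport f ⊆ U) : ∫ z, g z * pb h f z = ∫ z, h z * pb f g z := by
  have h1 := S2_pb_cut hU hf hc hs (hg.mul hh)
  have i1 := S2_pb_int hU hg.continuousOn hh hf hc hs
  have i2 : Integrable (fun z => h z * pb f g z) := by
    refine (S2_pb_int hU hh.continuousOn hg hf hc hs).neg.congr
      (Filter.Eventually.of_forall fun z => ?_)
    show -(h z * pb g f z) = h z * pb f g z
    rw [S2_pb_anti f g]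
    ring
  rw [← sub_eq_zero, ← integral_sub i1 i2, ← neg_eq_zero, ← integral_neg, ← h1]
  congr 1
  funext z
  by_cases hz : z ∈ U
  · have d1 : DifferentiableAt ℝ g z :=
      (hg.contDiffAt (hU.mem_nhds hz)).differentiableAt one_ne_zero
    have d2 : DifferentiableAt ℝ h z :=
      (hh.contDiffAt (hU.mem_nhds hz)).differentiableAt one_ne_zero
    have e1 := dx_mul d1 d2
    have e2 := dy_mul d1 d2
    unfold pb
    rw [e1, e2]
    ring
  · have h2 : z ∉ tsupport f := fun h => hz (hs h)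
    unfold pb
    rw [A3_dx_off h2, A3_dy_off h2]
    ring

/-- [YUR-S2] from `int_pb` and `∫ pb (f h) g = 0` (`f h` is `C²` with compact support in `U`, `contDiff_cut`). -/
theorem int_pb' {U : Set ℂ} (hU : IsOpen U) {g h f : ℂ → ℝ} (hg : ContDiffOn ℝ 1 g U)
    (hh : ContDiffOn ℝ 2 h U) (hf : ContDiff ℝ 2 f) (hc : HasCompactSupport f)
    (hs : tsupport f ⊆ U) : ∫ z, g z * pb h f z = ∫ z, f z * pb g h z := by
  have hh1 : ContDiffOn ℝ 1 h U := hh.of_le (by norm_num)
  rw [int_pb hU hg hh1 hf hc hs]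
  have hfh : ContDiff ℝ 2 (fun z => f z * h z) := contDiff_cut (n := 2) hU hf hs hh
  have hsf : tsupport (fun z => f z * h z) ⊆ U :=
    (tsupport_mul_subset_left (f := f) (g := h)).trans hs
  have h1 := S2_pb_cut hU hfh (hc.mul_right (f' := h)) hsf hg
  have i2 : Integrable (fun z => h z * pb f g z) := by
    refine (S2_pb_int hU hh.continuousOn hg hf hc hs).neg.congr
      (Filter.Eventually.of_forall fun z => ?_)
    show -(h z * pb g f z) = h z * pb f g z
    rw [S2_pb_anti f g]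
    ring
  have i3 : Integrable (fun z => f z * pb g h z) := by
    have j1 := S2_int hU hf.continuous hc hs ((S2_cdx hU hg).mul (S2_cdy hU hh1))
    have j2 := S2_int hU hf.continuous hc hs ((S2_cdy hU hg).mul (S2_cdx hU hh1))
    refine (j1.sub j2).congr (Filter.Eventually.of_forall fun z => ?_)
    show f z * (dx g z * dy h z) - f z * (dy g z * dx h z) = f z * pb g h z
    unfold pb
    ring
  rw [← sub_eq_zero, ← integral_sub i2 i3, ← h1]
  congr 1
  funext z
  have hf1 : ContDiff ℝ 1 f := hf.of_le (by norm_num)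
  have e1 := S2_dx hU hh1 hf1 hs z
  have e2 := S2_dy hU hh1 hf1 hs z
  unfold pb
  rw [e1, e2]
  ring

theorem int_pb_zero {U : Set ℂ} (hU : IsOpen U) {h f : ℂ → ℝ} (hh : ContDiffOn ℝ 1 h U)
    (hf : ContDiff ℝ 2 f) (hc : HasCompactSupport f) (hs : tsupport f ⊆ U) :
    ∫ z, pb h f z = 0 := by
  have h1 := S2_pb_cut hU hf hc hs hh
  have h2 : (∫ z, pb h f z) = ∫ z, - pb f h z := by
    congr 1
    funext z
    exact S2_pb_anti h f z
  rw [h2, integral_neg, h1, neg_zero]

/-- [YUR-S2] Green's formula for the operator `lapG`: twice `integral_fderiv_apply_eq_zero` for each term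
(`dx s * F`, `s * dx F`, `dy s * F`, .. are `C¹` with compact support in `U`), `dx_dy_comm` for `F`. -/
theorem green {U : Set ℂ} (hU : IsOpen U) {s F : ℂ → ℝ} (γ μ ν : ℝ) (hs : ContDiffOn ℝ 2 s U)
    (hF : ContDiff ℝ 2 F) (hc : HasCompactSupport F) (hsu : tsupport F ⊆ U) :
    ∫ z, lapG γ μ ν s z * F z = ∫ z, s z * lapG γ μ ν F z := by
  have hF' : ContDiff ℝ (1 + 1 : ℕ) F := hF
  have hF1 : ContDiff ℝ 1 F := hF.of_le (by norm_num)
  have hs' : ContDiffOn ℝ (1 + 1 : ℕ) s U := hs
  have hs1 : ContDiffOn ℝ 1 s U := hs.of_le (by norm_num)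
  have u1 : ContDiff ℝ 1 (dx F) := contDiff_dx (n := 1) hF'
  have w1 : ContDiff ℝ 1 (dy F) := contDiff_dy (n := 1) hF'
  have su : tsupport (dx F) ⊆ U := (tsupport_fderiv_apply_subset ℝ (f := F) 1).trans hsu
  have sw : tsupport (dy F) ⊆ U :=
    (tsupport_fderiv_apply_subset ℝ (f := F) Complex.I).trans hsu
  have cu : HasCompactSupport (dx F) := hc.fderiv_apply ℝ 1
  have cw : HasCompactSupport (dy F) := hc.fderiv_apply ℝ Complex.I
  have p1 : ContDiffOn ℝ 1 (dx s) U := contDiffOn_dx (n := 1) hU hs'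
  have q1 : ContDiffOn ℝ 1 (dy s) U := contDiffOn_dy (n := 1) hU hs'
  -- the three terms
  have a1 : ∫ z, dx (dx s) z * F z = ∫ z, s z * dx (dx F) z := by
    rw [S2_ibx hU p1 hF1 hc hsu, S2_ibx hU hs1 u1 cu su, neg_neg]
  have a2 : ∫ z, dx (dy s) z * F z = ∫ z, s z * dx (dy F) z := by
    rw [S2_ibx hU q1 hF1 hc hsu, S2_iby hU hs1 u1 cu su, neg_neg]
    congr 1
    funext z
    rw [dx_dy_comm isOpen_univ hF.contDiffOn (mem_univ z)]
  have a3 : ∫ z, dy (dy s) z * F z = ∫ z, s z * dy (dy F) z := by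
    rw [S2_iby hU q1 hF1 hc hsu, S2_iby hU hs1 w1 cw sw, neg_neg]
  have i1 : Integrable (fun z => dx (dx s) z * F z) :=
    S2_int' hU hF.continuous hc hsu (S2_cdx hU p1)
  have i2 : Integrable (fun z => dx (dy s) z * F z) :=
    S2_int' hU hF.continuous hc hsu (S2_cdx hU q1)
  have i3 : Integrable (fun z => dy (dy s) z * F z) :=
    S2_int' hU hF.continuous hc hsu (S2_cdy hU q1)
  have j1 : Integrable (fun z => s z * dx (dx F) z) :=
    S2_int' hU (contDiff_dx (n := 0) u1).continuous (cu.fderiv_apply ℝ 1)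
      ((tsupport_fderiv_apply_subset ℝ (f := dx F) 1).trans su) hs.continuousOn
  have j2 : Integrable (fun z => s z * dx (dy F) z) :=
    S2_int' hU (contDiff_dx (n := 0) w1).continuous (cw.fderiv_apply ℝ 1)
      ((tsupport_fderiv_apply_subset ℝ (f := dy F) 1).trans sw) hs.continuousOn
  have j3 : Integrable (fun z => s z * dy (dy F) z) :=
    S2_int' hU (contDiff_dy (n := 0) w1).continuous (cw.fderiv_apply ℝ Complex.I)
      ((tsupport_fderiv_apply_subset ℝ (f := dy F) Complex.I).trans sw) hs.continuousOn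
  have e1 : (∫ z, lapG γ μ ν s z * F z) =
      ∫ z, (γ * (dx (dx s) z * F z) + 2 * μ * (dx (dy s) z * F z) +
        ν * (dy (dy s) z * F z)) := by
    congr 1
    funext z
    unfold lapG
    ring
  have e2 : (∫ z, s z * lapG γ μ ν F z) =
      ∫ z, (γ * (s z * dx (dx F) z) + 2 * μ * (s z * dx (dy F) z) +
        ν * (s z * dy (dy F) z)) := by
    congr 1
    funext z
    unfold lapG
    ring
  rw [e1, e2, S2_three i1 i2 i3, S2_three j1 j2 j3, a1, a2, a3]

end Pool.Agent.YUR
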