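import Pool.Agent.YUR.S3

open MeasureTheory Set Filter Topology
open scoped ContDiff

namespace Pool.Agent.YUR

open Pool.Agent.YUD Pool.Agent.YUT Pool.Agent.YUB

theorem S6_pb_le (f g : ℂ → ℝ) (z : ℂ) : |pb f g z| ≤ 2 * (‖fderiv ℝ f z‖ * ‖fderiv ℝ g z‖) := by
  unfold pb
  have h1 := abs_dx_le f z
  have h2 := abs_dy_le f z
  have h3 := abs_dx_le g z
  have h4 := abs_dy_le g z
  calc |dx f z * dy g z - dy f z * dx g z| ≤ |dx f z * dy g z| + |dy f z * dx g z| := abs_sub _ _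
    _ = |dx f z| * |dy g z| + |dy f z| * |dx g z| := by rw [abs_mul, abs_mul]
    _ ≤ ‖fderiv ℝ f z‖ * ‖fderiv ℝ g z‖ + ‖fderiv ℝ f z‖ * ‖fderiv ℝ g z‖ := by gcongr
    _ = _ := by ring

theorem S6_zero {K : Set ℂ} (hK : IsClosed K) {F : ℂ → ℝ} (hF : ∀ z, z ∉ K → F z = 0) (g : ℂ → ℝ)
    (z : ℂ) (hz : z ∉ K) : pb g F z = 0 := by
  have h1 : F =ᶠ[𝓝 z] fun _ => (0 : ℝ) := by
    filter_upwards [hK.isOpen_compl.mem_nhds hz] with w hw
    exact hF w hw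
  have h2 : fderiv ℝ F z = 0 := by
    rw [h1.fderiv_eq]
    simp
  simp [pb, dx, dy, h2]

theorem S6_tst {N P : ℝ} (hP : 0 < P) {b : ℝ → ℝ} (hbN : ∀ x, N ≤ |x| → b x = 0)
    (z : ℂ) (hz : z ∉ Metric.closedBall (0 : ℂ) (N + 2 * P)) : tst b P z = 0 := by
  by_contra hne
  apply hz
  unfold tst at hne
  have h1 : |z.re| ≤ N := by
    by_contra hcon
    exact hne (by rw [hbN z.re (not_le.mp hcon).le, zero_mul])
  have h2 : P ≤ z.im := by
    by_contra hcon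
    have : z.im / P ≤ 1 := ((div_lt_one hP).mpr (not_le.mp hcon)).le
    exact hne (by rw [win_facts.2.2.1 _ this, mul_zero])
  have h3 : z.im ≤ 2 * P := by
    by_contra hcon
    have : 2 ≤ z.im / P := ((lt_div_iff₀ hP).mpr (not_le.mp hcon)).le
    exact hne (by rw [win_facts.2.2.2.1 _ this, mul_zero])
  rw [mem_closedBall_zero_iff]
  have h4 := Complex.norm_le_abs_re_add_abs_im z
  have h5 : |z.im| ≤ 2 * P := abs_le.mpr ⟨by linarith, h3⟩
  linarith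

theorem S6_int {M A : ℝ} {F : ℂ → ℝ} (h0 : ∀ z, z ∉ Metric.closedBall (0 : ℂ) M → F z = 0)
    (hA : ∀ z, ‖z‖ ≤ M → |F z| ≤ A) :
    |∫ z, F z| ≤ A * (volume : Measure ℂ).real (Metric.closedBall (0 : ℂ) M) := by
  rw [← setIntegral_eq_integral_of_forall_compl_eq_zero h0, ← Real.norm_eq_abs]
  refine norm_setIntegral_le_of_norm_le_const (isCompact_closedBall _ _).measure_lt_top ?_
  intro z hz
  exact hA z (by rwa [mem_closedBall_zero_iff] at hz)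

/-- bounds by compactness -/
theorem S6_bd {E : Type} [NormedAddCommGroup E] [NormedSpace ℝ E]
    (Φ : ℝ × (Fin 4 → ℝ) × ℂ → E) (hc : Continuous Φ)
    (hh : ∀ (c : ℝ) (Λ : ℝ) (Q : Fin 4 → ℝ) (z : ℂ), Φ (Λ, c • Q, z) = c • Φ (Λ, Q, z))
    (Λs M : ℝ) : ∃ A : ℝ, 0 ≤ A ∧ ∀ Λ, 0 ≤ Λ → Λ ≤ Λs → ∀ Q z, ‖z‖ ≤ M →
      ‖Φ (Λ, Q, z)‖ ≤ A * ‖Q‖ := by
  have hK : IsCompact (Icc (0 : ℝ) Λs ×ˢ (Metric.closedBall (0 : Fin 4 → ℝ) 1 ×ˢ
      Metric.closedBall (0 : ℂ) M)) :=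
    isCompact_Icc.prod ((isCompact_closedBall _ _).prod (isCompact_closedBall _ _))
  obtain ⟨A, hA⟩ := hK.exists_bound_of_continuousOn hc.continuousOn
  refine ⟨max A 0, le_max_right _ _, ?_⟩
  intro Λ h0 h1 Q z hz
  have e : Q = ‖Q‖ • (‖Q‖⁻¹ • Q) := by
    by_cases hQ : Q = 0
    · rw [hQ]
      simp
    · rw [smul_smul, mul_inv_cancel₀ (norm_ne_zero_iff.mpr hQ), one_smul]
  have hQ1 : ‖‖Q‖⁻¹ • Q‖ ≤ 1 := by
    rw [norm_smul, norm_inv, norm_norm]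
    by_cases hQ : Q = 0
    · rw [hQ]
      simp
    · rw [inv_mul_cancel₀ (norm_ne_zero_iff.mpr hQ)]
  have h2 := hA (Λ, ‖Q‖⁻¹ • Q, z) ⟨⟨h0, h1⟩, by rwa [mem_closedBall_zero_iff],
    by rwa [mem_closedBall_zero_iff]⟩
  have h3 : Φ (Λ, Q, z) = ‖Q‖ • Φ (Λ, ‖Q‖⁻¹ • Q, z) := by
    rw [← hh, ← e]
  rw [h3, norm_smul, norm_norm, mul_comm]
  exact mul_le_mul_of_nonneg_right (h2.trans (le_max_left _ _)) (norm_nonneg _)


theorem S6_cub_smooth : ContDiff ℝ ∞ (fun q : (Fin 4 → ℝ) × ℂ => cub q.1 q.2) := by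
  have hre : ContDiff ℝ ∞ (fun q : (Fin 4 → ℝ) × ℂ => q.2.re) :=
    Complex.reCLM.contDiff.comp contDiff_snd
  have him : ContDiff ℝ ∞ (fun q : (Fin 4 → ℝ) × ℂ => q.2.im) :=
    Complex.imCLM.contDiff.comp contDiff_snd
  have hk : ∀ i, ContDiff ℝ ∞ (fun q : (Fin 4 → ℝ) × ℂ => q.1 i) := fun i =>
    (contDiff_apply ℝ ℝ i).comp contDiff_fst
  unfold cub
  exact ((((hk 0).mul (hre.pow 3)).add ((hk 1).mul ((hre.pow 2).mul him))).add
    ((hk 2).mul (hre.mul (him.pow 2)))).add ((hk 3).mul (him.pow 3))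

theorem S6_cub_smul (c : ℝ) (Q : Fin 4 → ℝ) : cub (c • Q) = fun z => c * cub Q z := by
  funext z
  simp only [cub, Pi.smul_apply, smul_eq_mul]
  ring

theorem S6_cub_diff (Q : Fin 4 → ℝ) : Differentiable ℝ (cub Q) := by
  have h : ContDiff ℝ ∞ (cub Q) :=
    S6_cub_smooth.comp (contDiff_const (c := Q).prodMk contDiff_id)
  exact h.differentiable (by simp)

theorem S6_pb_smul (c : ℝ) (Q : Fin 4 → ℝ) (f : ℂ → ℝ) :
    pb (cub (c • Q)) f = fun z => c * pb (cub Q) f z := by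
  funext z
  unfold pb
  rw [S6_cub_smul, dx_const_mul c (S6_cub_diff Q z), dy_const_mul c (S6_cub_diff Q z)]
  ring

/-- joint smoothness of the bracket -/
theorem S6_pbj {b : ℝ → ℝ → ℝ} (hb : ContDiff ℝ ∞ (fun p : ℝ × ℝ => b p.1 p.2)) (P : ℝ) :
    ContDiff ℝ ∞ (fun p : ℝ × (Fin 4 → ℝ) × ℂ => pb (cub p.2.1) (tst (b p.1) P) p.2.2) := by
  have h2 : ContDiff ℝ ∞ (fun p : ℝ × (Fin 4 → ℝ) × ℂ => p.2.2) := contDiff_snd.snd
  have hc : ContDiff ℝ ∞ (fun p : ℝ × (Fin 4 → ℝ) × ℂ => fderiv ℝ (cub p.2.1) p.2.2) := by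
    refine ContDiff.fderiv (m := ∞) (f := fun (p : ℝ × (Fin 4 → ℝ) × ℂ) => cub p.2.1)
      (g := fun p => p.2.2) ?_ h2 (by simp)
    exact S6_cub_smooth.comp (contDiff_fst.snd.fst.prodMk contDiff_snd)
  have hf : ContDiff ℝ ∞ (fun p : ℝ × (Fin 4 → ℝ) × ℂ => fderiv ℝ (tst (b p.1) P) p.2.2) := by
    refine ContDiff.fderiv (m := ∞) (f := fun (p : ℝ × (Fin 4 → ℝ) × ℂ) => tst (b p.1) P)
      (g := fun p => p.2.2) ?_ h2 (by simp)
    have e1 : ContDiff ℝ ∞ (fun q : (ℝ × (Fin 4 → ℝ) × ℂ) × ℂ => b q.1.1 q.2.re) :=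
      hb.comp (contDiff_fst.fst.prodMk (Complex.reCLM.contDiff.comp contDiff_snd))
    have e2 : ContDiff ℝ ∞ (fun q : (ℝ × (Fin 4 → ℝ) × ℂ) × ℂ => win (q.2.im / P)) :=
      win_facts.1.comp ((Complex.imCLM.contDiff.comp contDiff_snd).div_const P)
    exact e1.mul e2
  unfold pb dx dy
  exact ((hc.clm_apply contDiff_const).mul (hf.clm_apply contDiff_const)).sub
    ((hc.clm_apply contDiff_const).mul (hf.clm_apply contDiff_const))

/-- [YUR-S6] the error terms of the slice lemma; `A` depends on everything except `R, k, γ, .., η, Q, r, β, Λ`. All functions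
`f, F₁` and their derivatives of order `≤ 2` are continuous in `(Λ, z)`, hence bounded for `Λ ∈ [0, Λs]`, `‖z‖ ≤ N + 2P`, and they
vanish for `‖z‖ > N + 2P`. There `|η| ≤ C (N+2P)^(1+α)`, `‖fderiv s‖ ≤ C (N+2P)^(2+α)`, `‖fderiv (cub k)‖ ≤ C₂ ‖k‖ ≤ C₂ C`,
`‖fderiv (cub Q)‖, ‖D² (cub Q)‖ ≤ C₂ ‖Q‖` (sup norm of `Fin 4 → ℝ`); `abs_pb_le`; `|∫ F| ≤ sup |F| vol(ball)`
(`norm_setIntegral_le_of_norm_le_const`). `fderiv (zet α r k s) = r fderiv (cub k) + r^(1+α) fderiv s`, `r^(1+α) ≤ r`. -/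
theorem err_bd {α C : ℝ} (hα : 0 < α) (hα1 : α < 1) (hC : 1 ≤ C) {B κ S Λs τ N : ℝ}
    {a : ℕ → ℝ → ℝ → ℝ} {e : ℝ → ℝ → ℝ} {P : ℝ} (hp : Packet B κ S Λs τ N a e) (hP : 1 ≤ P)
    (hN : 1 ≤ N) : ∃ A : ℝ, 0 ≤ A ∧ ∀ (R : ℝ) (k : Fin 4 → ℝ) (γ μ ν : ℝ) (s η : ℂ → ℝ),
      Slc α C R k γ μ ν s η → 2 * (N + 2 * P) ≤ R → ∀ (Q : Fin 4 → ℝ) (r Λ : ℝ), 0 < r → r ≤ 1 →
        0 ≤ Λ → Λ ≤ Λs →
          |∫ z, η z * pb s (tst (a 0 Λ) P) z| ≤ A ∧
          |∫ z, η z * pb (cub Q) (tst (fun x => a 1 Λ x + e Λ x) P) z| ≤ A * ‖Q‖ ∧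
          |∫ z, z.im * pb s (pb (cub Q) (tst (a 0 Λ) P)) z| ≤ A * ‖Q‖ ∧
          |∫ z, η z * pb (zet α r k s) (pb (cub Q) (tst (a 0 Λ) P)) z| ≤ A * r * ‖Q‖ := by
  have hP0 : 0 < P := by linarith
  set M : ℝ := N + 2 * P with hM
  have hM0 : 0 < M := by positivity
  -- the bounds
  have h1 : ∃ A : ℝ, 0 ≤ A ∧ ∀ Λ, 0 ≤ Λ → Λ ≤ Λs → ∀ z : ℂ, ‖z‖ ≤ M →
      ‖fderiv ℝ (tst (a 0 Λ) P) z‖ ≤ A := by
    have hc : Continuous (fun p : ℝ × ℂ => fderiv ℝ (tst (a 0 p.1) P) p.2) := by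
      have : ContDiff ℝ ∞ (fun p : ℝ × ℂ => fderiv ℝ (tst (a 0 p.1) P) p.2) := by
        refine ContDiff.fderiv (m := ∞) (f := fun (p : ℝ × ℂ) => tst (a 0 p.1) P)
          (g := fun p => p.2) ?_ contDiff_snd (by simp)
        have e1 : ContDiff ℝ ∞ (fun q : (ℝ × ℂ) × ℂ => a 0 q.1.1 q.2.re) :=
          (hp.smooth 0).comp (contDiff_fst.fst.prodMk (Complex.reCLM.contDiff.comp contDiff_snd))
        have e2 : ContDiff ℝ ∞ (fun q : (ℝ × ℂ) × ℂ => win (q.2.im / P)) :=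
          win_facts.1.comp ((Complex.imCLM.contDiff.comp contDiff_snd).div_const P)
        exact e1.mul e2
      exact this.continuous
    have hK : IsCompact (Icc (0 : ℝ) Λs ×ˢ Metric.closedBall (0 : ℂ) M) :=
      isCompact_Icc.prod (isCompact_closedBall _ _)
    obtain ⟨A, hA⟩ := hK.exists_bound_of_continuousOn hc.continuousOn
    refine ⟨max A 0, le_max_right _ _, fun Λ h0 h1 z hz => ?_⟩
    exact (hA (Λ, z) ⟨⟨h0, h1⟩, by rwa [mem_closedBall_zero_iff]⟩).trans (le_max_left _ _)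
  have hae : ContDiff ℝ ∞ (fun p : ℝ × ℝ => (fun Λ x => a 1 Λ x + e Λ x) p.1 p.2) :=
    (hp.smooth 1).add hp.e_smooth
  obtain ⟨A1, hA1, b1⟩ := h1
  obtain ⟨A2, hA2, b2⟩ := S6_bd
    (fun p : ℝ × (Fin 4 → ℝ) × ℂ => pb (cub p.2.1) (tst (fun x => a 1 p.1 x + e p.1 x) P) p.2.2)
    (S6_pbj (b := fun Λ x => a 1 Λ x + e Λ x) hae P).continuous (fun c Λ Q z => by
      simp only [smul_eq_mul]
      rw [S6_pb_smul]) Λs M
  have hF3 : ContDiff ℝ ∞ (fun p : ℝ × (Fin 4 → ℝ) × ℂ =>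
      fderiv ℝ (pb (cub p.2.1) (tst (a 0 p.1) P)) p.2.2) := by
    refine ContDiff.fderiv (m := ∞)
      (f := fun (p : ℝ × (Fin 4 → ℝ) × ℂ) => pb (cub p.2.1) (tst (a 0 p.1) P))
      (g := fun p => p.2.2) ?_ contDiff_snd.snd (by simp)
    have := (S6_pbj (hp.smooth 0) P).comp (f := fun q : (ℝ × (Fin 4 → ℝ) × ℂ) × ℂ =>
      ((q.1.1, q.1.2.1, q.2) : ℝ × (Fin 4 → ℝ) × ℂ))
      (contDiff_fst.fst.prodMk (contDiff_fst.snd.fst.prodMk contDiff_snd))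
    exact this
  have hd : ∀ Λ Q, Differentiable ℝ (pb (cub Q) (tst (a 0 Λ) P)) := by
    intro Λ Q
    have h : ContDiff ℝ ∞ (pb (cub Q) (tst (a 0 Λ) P)) :=
      (S6_pbj (hp.smooth 0) P).comp (f := fun z : ℂ => ((Λ, Q, z) : ℝ × (Fin 4 → ℝ) × ℂ))
        (contDiff_const.prodMk (contDiff_const.prodMk contDiff_id))
    exact h.differentiable (by simp)
  obtain ⟨A3, hA3, b3⟩ := S6_bd
    (fun p : ℝ × (Fin 4 → ℝ) × ℂ => fderiv ℝ (pb (cub p.2.1) (tst (a 0 p.1) P)) p.2.2)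
    hF3.continuous (fun c Λ Q z => by
      simp only
      rw [S6_pb_smul, fderiv_const_mul (hd Λ Q z) c]) Λs M
  have hF4 : Continuous (fun p : ℝ × (Fin 4 → ℝ) × ℂ => fderiv ℝ (cub p.2.1) p.2.2) := by
    have : ContDiff ℝ ∞ (fun p : ℝ × (Fin 4 → ℝ) × ℂ => fderiv ℝ (cub p.2.1) p.2.2) := by
      refine ContDiff.fderiv (m := ∞) (f := fun (p : ℝ × (Fin 4 → ℝ) × ℂ) => cub p.2.1)
        (g := fun p => p.2.2) ?_ contDiff_snd.snd (by simp)
      exact S6_cub_smooth.comp (contDiff_fst.snd.fst.prodMk contDiff_snd)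
    exact this.continuous
  obtain ⟨A4, hA4, b4⟩ := S6_bd
    (fun p : ℝ × (Fin 4 → ℝ) × ℂ => fderiv ℝ (cub p.2.1) p.2.2) hF4 (fun c Λ Q z => by
      simp only
      rw [S6_cub_smul, fderiv_const_mul (S6_cub_diff Q z) c]) Λs M
  simp only at b2 b3 b4
  set E1 : ℝ := C * M ^ (1 + α) with hE1
  set E2 : ℝ := C * M ^ (2 + α) with hE2
  have hE10 : 0 ≤ E1 := by positivity
  have hE20 : 0 ≤ E2 := by positivity
  set V : ℝ := (volume : Measure ℂ).real (Metric.closedBall (0 : ℂ) M) with hV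
  have hV0 : 0 ≤ V := measureReal_nonneg
  set T1 : ℝ := E1 * (2 * (E2 * A1)) with hT1
  set T2 : ℝ := E1 * A2 with hT2
  set T3 : ℝ := M * (2 * (E2 * A3)) with hT3
  set T4 : ℝ := E1 * (2 * ((A4 * C + E2) * A3)) with hT4
  have hT10 : 0 ≤ T1 := by positivity
  have hT20 : 0 ≤ T2 := by positivity
  have hT30 : 0 ≤ T3 := by positivity
  have hT40 : 0 ≤ T4 := by positivity
  refine ⟨(T1 + T2 + T3 + T4) * V, by positivity, ?_⟩
  intro R k γ μ ν s η hS hR Q r Λ hr hr1 hΛ0 hΛ1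
  have hMR : M < R := by linarith
  have hball : ∀ z : ℂ, ‖z‖ ≤ M → z ∈ Metric.ball (0 : ℂ) R := fun z hz => by
    rw [mem_ball_zero_iff]
    linarith
  have hη : ∀ z : ℂ, ‖z‖ ≤ M → |η z| ≤ E1 := fun z hz =>
    (hS.η_le z (hball z hz)).trans (mul_le_mul_of_nonneg_left
      (Real.rpow_le_rpow (norm_nonneg _) hz (by linarith)) (by linarith))
  have hs : ∀ z : ℂ, ‖z‖ ≤ M → ‖fderiv ℝ s z‖ ≤ E2 := fun z hz =>
    (hS.ds_le z (hball z hz)).trans (mul_le_mul_of_nonneg_left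
      (Real.rpow_le_rpow (norm_nonneg _) hz (by linarith)) (by linarith))
  have hk : ‖k‖ ≤ C := by
    rw [pi_norm_le_iff_of_nonneg (by linarith)]
    intro i
    exact hS.k_le i
  have hKc : IsClosed (Metric.closedBall (0 : ℂ) M) := Metric.isClosed_closedBall
  have z0 : ∀ z : ℂ, z ∉ Metric.closedBall (0 : ℂ) M → tst (a 0 Λ) P z = 0 := fun z hz =>
    S6_tst hP0 (fun x hx => hp.supp 0 Λ x hx) z hz
  have z1 : ∀ z : ℂ, z ∉ Metric.closedBall (0 : ℂ) M →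
      tst (fun x => a 1 Λ x + e Λ x) P z = 0 := fun z hz =>
    S6_tst hP0 (fun x hx => by simp [hp.supp 1 Λ x hx, hp.e_supp Λ x hx]) z hz
  have z2 : ∀ z : ℂ, z ∉ Metric.closedBall (0 : ℂ) M → pb (cub Q) (tst (a 0 Λ) P) z = 0 :=
    S6_zero hKc z0 (cub Q)
  have hQ0 : 0 ≤ ‖Q‖ := norm_nonneg Q
  refine ⟨?_, ?_, ?_, ?_⟩
  · have h := S6_int (M := M) (A := T1) (F := fun z => η z * pb s (tst (a 0 Λ) P) z)
      (fun z hz => by rw [S6_zero hKc z0 s z hz, mul_zero]) (fun z hz => by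
        rw [abs_mul]
        refine mul_le_mul (hη z hz) ((S6_pb_le _ _ z).trans ?_) (abs_nonneg _) hE10
        refine mul_le_mul_of_nonneg_left ?_ (by norm_num)
        exact mul_le_mul (hs z hz) (b1 Λ hΛ0 hΛ1 z hz) (norm_nonneg _) hE20)
    refine h.trans ?_
    refine mul_le_mul_of_nonneg_right ?_ hV0
    linarith
  · have h := S6_int (M := M) (A := T2 * ‖Q‖)
      (F := fun z => η z * pb (cub Q) (tst (fun x => a 1 Λ x + e Λ x) P) z)
      (fun z hz => by rw [S6_zero hKc z1 (cub Q) z hz, mul_zero]) (fun z hz => by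
        rw [abs_mul, hT2, mul_assoc]
        refine mul_le_mul (hη z hz) ?_ (abs_nonneg _) hE10
        have := b2 Λ hΛ0 hΛ1 Q z hz
        rwa [Real.norm_eq_abs] at this)
    refine h.trans ?_
    rw [mul_right_comm]
    refine mul_le_mul_of_nonneg_right ?_ hQ0
    refine mul_le_mul_of_nonneg_right ?_ hV0
    linarith
  · have h := S6_int (M := M) (A := T3 * ‖Q‖)
      (F := fun z => z.im * pb s (pb (cub Q) (tst (a 0 Λ) P)) z)
      (fun z hz => by rw [S6_zero hKc z2 s z hz, mul_zero]) (fun z hz => by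
        rw [abs_mul, hT3, mul_assoc]
        refine mul_le_mul ((Complex.abs_im_le_norm z).trans hz) ((S6_pb_le _ _ z).trans ?_)
          (abs_nonneg _) hM0.le
        rw [mul_assoc]
        refine mul_le_mul_of_nonneg_left ?_ (by norm_num)
        rw [mul_assoc]
        exact mul_le_mul (hs z hz) (b3 Λ hΛ0 hΛ1 Q z hz) (norm_nonneg _) hE20)
    refine h.trans ?_
    rw [mul_right_comm]
    refine mul_le_mul_of_nonneg_right ?_ hQ0
    refine mul_le_mul_of_nonneg_right ?_ hV0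
    linarith
  · have hz : ∀ z : ℂ, ‖z‖ ≤ M → ‖fderiv ℝ (zet α r k s) z‖ ≤ r * (A4 * C + E2) := by
      intro z hz
      have ds : DifferentiableAt ℝ s z :=
        (hS.s_c2.differentiableOn (by norm_num)).differentiableAt
          (Metric.isOpen_ball.mem_nhds (hball z hz))
      have e1 : fderiv ℝ (zet α r k s) z = r • fderiv ℝ (cub k) z +
          r ^ (1 + α) • fderiv ℝ s z := by
        have ez : zet α r k s = fun z => r * cub k z + r ^ (1 + α) * s z := rfl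
        rw [ez, fderiv_fun_add ((S6_cub_diff k z).const_mul r) (ds.const_mul _),
          fderiv_const_mul (S6_cub_diff k z) r, fderiv_const_mul ds _]
      have e2 : r ^ (1 + α) ≤ r := by
        have := Real.rpow_le_rpow_of_exponent_ge hr hr1 (show (1 : ℝ) ≤ 1 + α by linarith)
        rwa [Real.rpow_one] at this
      have e3 : 0 ≤ r ^ (1 + α) := (Real.rpow_pos_of_pos hr _).le
      rw [e1]
      refine (norm_add_le _ _).trans ?_
      rw [norm_smul, norm_smul, Real.norm_of_nonneg hr.le, Real.norm_of_nonneg e3]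
      have e4 : ‖fderiv ℝ (cub k) z‖ ≤ A4 * C :=
        (b4 Λ hΛ0 hΛ1 k z hz).trans (mul_le_mul_of_nonneg_left hk hA4)
      have e5 := hs z hz
      calc r * ‖fderiv ℝ (cub k) z‖ + r ^ (1 + α) * ‖fderiv ℝ s z‖ ≤ r * (A4 * C) + r * E2 := by
            gcongr
        _ = _ := by ring
    have h := S6_int (M := M) (A := T4 * (r * ‖Q‖))
      (F := fun z => η z * pb (zet α r k s) (pb (cub Q) (tst (a 0 Λ) P)) z)
      (fun z hz => by rw [S6_zero hKc z2 _ z hz, mul_zero]) (fun z hz' => by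
        rw [abs_mul, hT4, mul_assoc]
        refine mul_le_mul (hη z hz') ((S6_pb_le _ _ z).trans ?_) (abs_nonneg _) hE10
        have := mul_le_mul (hz z hz') (b3 Λ hΛ0 hΛ1 Q z hz') (norm_nonneg _) (by positivity)
        calc 2 * (‖fderiv ℝ (zet α r k s) z‖ * ‖fderiv ℝ (pb (cub Q) (tst (a 0 Λ) P)) z‖) ≤
              2 * (r * (A4 * C + E2) * (A3 * ‖Q‖)) := by linarith
          _ = _ := by ring)
    refine h.trans ?_
    have : T4 * (r * ‖Q‖) * V = T4 * V * r * ‖Q‖ := by ring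
    rw [this]
    refine mul_le_mul_of_nonneg_right ?_ hQ0
    refine mul_le_mul_of_nonneg_right ?_ hr.le
    refine mul_le_mul_of_nonneg_right ?_ hV0
    linarith

end Pool.Agent.YUR
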