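import Pool.Agent.YUR.S2
import Pool.Agent.YUR.S3

open MeasureTheory Set Filter Topology
open scoped ContDiff

namespace Pool.Agent.YUR

open Pool.Agent.YUD Pool.Agent.YUT Pool.Agent.YUB

/-! ### the cubic and quadratic forms -/

/-- quadratic forms -/
noncomputable def S7_qd (a b c : ℝ) (z : ℂ) : ℝ := a * z.re ^ 2 + b * (z.re * z.im) + c * z.im ^ 2

theorem S7_re (z : ℂ) : HasFDerivAt (fun z : ℂ => z.re) Complex.reCLM z := Complex.reCLM.hasFDerivAt

theorem S7_im (z : ℂ) : HasFDerivAt (fun z : ℂ => z.im) Complex.imCLM z := Complex.imCLM.hasFDerivAt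

theorem S7_dcub (k : Fin 4 → ℝ) (z : ℂ) :
    dx (cub k) z = S7_qd (3 * k 0) (2 * k 1) (k 2) z ∧
      dy (cub k) z = S7_qd (k 1) (2 * k 2) (3 * k 3) z := by
  have h1 := ((((S7_re z).pow 3).const_mul (k 0)).add
    ((((S7_re z).pow 2).mul (S7_im z)).const_mul (k 1))).add
    ((((S7_re z).mul ((S7_im z).pow 2)).const_mul (k 2)))
  have h2 := h1.add (((S7_im z).pow 3).const_mul (k 3))
  have h3 : fderiv ℝ (cub k) z = _ := h2.fderiv
  constructor
  · unfold dx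
    rw [h3]
    simp [S7_qd]
    ring
  · unfold dy
    rw [h3]
    simp [S7_qd]
    ring

theorem S7_dqd (a b c : ℝ) (z : ℂ) :
    dx (S7_qd a b c) z = 2 * a * z.re + b * z.im ∧ dy (S7_qd a b c) z = b * z.re + 2 * c * z.im := by
  have h1 := (((S7_re z).pow 2).const_mul a).add
    (((S7_re z).mul (S7_im z)).const_mul b)
  have h2 := h1.add (((S7_im z).pow 2).const_mul c)
  have h3 : fderiv ℝ (S7_qd a b c) z = _ := h2.fderiv
  constructor
  · unfold dx
    rw [h3]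
    simp
    ring
  · unfold dy
    rw [h3]
    simp
    ring

theorem S7_dim (z : ℂ) : dx (fun z : ℂ => z.im) z = 0 ∧ dy (fun z : ℂ => z.im) z = 1 := by
  have h3 : fderiv ℝ (fun z : ℂ => z.im) z = _ := (S7_im z).fderiv
  constructor
  · unfold dx
    rw [h3]
    simp
  · unfold dy
    rw [h3]
    simp

theorem S7_cd_re {n : WithTop ℕ∞} : ContDiff ℝ n (fun z : ℂ => z.re) := Complex.reCLM.contDiff

theorem S7_cd_im {n : WithTop ℕ∞} : ContDiff ℝ n (fun z : ℂ => z.im) := Complex.imCLM.contDiff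

theorem S7_cd_cub {n : WithTop ℕ∞} (k : Fin 4 → ℝ) : ContDiff ℝ n (cub k) := by
  unfold cub
  exact (((contDiff_const.mul (S7_cd_re.pow 3)).add
    (contDiff_const.mul ((S7_cd_re.pow 2).mul S7_cd_im))).add
    (contDiff_const.mul (S7_cd_re.mul (S7_cd_im.pow 2)))).add (contDiff_const.mul (S7_cd_im.pow 3))

theorem S7_cd_qd {n : WithTop ℕ∞} (a b c : ℝ) : ContDiff ℝ n (S7_qd a b c) := by
  unfold S7_qd
  exact ((contDiff_const.mul (S7_cd_re.pow 2)).add
    (contDiff_const.mul (S7_cd_re.mul S7_cd_im))).add (contDiff_const.mul (S7_cd_im.pow 2))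

/-! ### smoothness of brackets -/

theorem S7_cd_dx {f : ℂ → ℝ} (hf : ContDiff ℝ ∞ f) : ContDiff ℝ ∞ (dx f) := by
  rw [contDiff_infty]
  intro n
  exact contDiff_dx (hf.of_le (by exact_mod_cast le_top))

theorem S7_cd_dy {f : ℂ → ℝ} (hf : ContDiff ℝ ∞ f) : ContDiff ℝ ∞ (dy f) := by
  rw [contDiff_infty]
  intro n
  exact contDiff_dy (hf.of_le (by exact_mod_cast le_top))

theorem S7_cd_pb {f g : ℂ → ℝ} (hf : ContDiff ℝ ∞ f) (hg : ContDiff ℝ ∞ g) :
    ContDiff ℝ ∞ (pb f g) := by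
  have h : ContDiff ℝ ∞ (fun z => dx f z * dy g z - dy f z * dx g z) :=
    ((S7_cd_dx hf).mul (S7_cd_dy hg)).sub ((S7_cd_dy hf).mul (S7_cd_dx hg))
  exact h

theorem S7_pb_off {f g : ℂ → ℝ} {z : ℂ} (h : z ∉ tsupport g) : pb f g z = 0 := by
  unfold pb
  rw [A3_dx_off h, A3_dy_off h]
  ring

theorem S7_pb_supp (f : ℂ → ℝ) {g : ℂ → ℝ} : tsupport (pb f g) ⊆ tsupport g := by
  refine closure_minimal ?_ (isClosed_tsupport g)
  intro z hz
  by_contra hcon
  exact hz (S7_pb_off hcon)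

theorem S7_pb_compact (f : ℂ → ℝ) {g : ℂ → ℝ} (hc : HasCompactSupport g) :
    HasCompactSupport (pb f g) :=
  hc.of_isClosed_subset (isClosed_tsupport _) (S7_pb_supp f)

/-! ### the vanishing integrals for one profile -/

theorem S7_tst {b : ℝ → ℝ} {N P : ℝ} (hb : ContDiff ℝ ∞ b) (hbN : ∀ x, N ≤ |x| → b x = 0)
    (hN : 1 ≤ N) (hP : 1 ≤ P) : ContDiff ℝ ∞ (tst b P) ∧ HasCompactSupport (tst b P) ∧
      tsupport (tst b P) ⊆ Metric.closedBall 0 (N + 2 * P) := by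
  obtain ⟨w1, w2, w3, w4, w5, w6⟩ := win_facts
  have hP0 : 0 < P := by linarith
  have hh : ContDiff ℝ ∞ (fun y : ℝ => win (y / P)) := w1.comp (contDiff_id.div_const P)
  exact prod_supp hb hh (by linarith) hP0 hbN
    (fun y hy => w3 _ (by rw [div_le_one hP0]; exact hy.le))
    (fun y hy => w4 _ (by rw [le_div_iff₀ hP0]; exact hy.le))

theorem S7_poly {b : ℝ → ℝ} {N P : ℝ} (hb : ContDiff ℝ ∞ b) (hbN : ∀ x, N ≤ |x| → b x = 0)
    (hP : 1 ≤ P) (hm : ∀ i, i < 4 → ∫ x, x ^ i * b x = 0)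
    (c : Fin 4 → Fin 4 → ℝ) {p : ℂ → ℝ}
    (hp : ∀ z : ℂ, p z = ∑ i : Fin 4, ∑ j : Fin 4, c i j * (z.re ^ (i : ℕ) * z.im ^ (j : ℕ))) :
    ∫ z, tst b P z * p z = 0 := by
  obtain ⟨w1, w2, w3, w4, w5, w6⟩ := win_facts
  have hP0 : 0 < P := by linarith
  have hh : ContDiff ℝ ∞ (fun y : ℝ => win (y / P)) := w1.comp (contDiff_id.div_const P)
  have h := poly_zero (b := b) (h := fun y => win (y / P)) (N := N) (N' := 2 * P)
    hb.continuous hbN hh.continuous (fun y hy => by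
      rcases le_total 0 y with h0 | h0
      · rw [abs_of_nonneg h0] at hy
        exact w4 _ (by rw [le_div_iff₀ hP0]; exact hy)
      · exact w3 _ (by rw [div_le_one hP0]; linarith)) (n := 4) hm c
  rw [← h]
  refine integral_congr_ae (Eventually.of_forall fun z => ?_)
  simp only
  rw [hp z]
  unfold tst
  ring

theorem S7_van {b : ℝ → ℝ} {N P : ℝ} (hb : ContDiff ℝ ∞ b) (hbN : ∀ x, N ≤ |x| → b x = 0)
    (hN : 1 ≤ N) (hP : 1 ≤ P) (hm : ∀ i, i < 4 → ∫ x, x ^ i * b x = 0) (k Q : Fin 4 → ℝ) :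
    (∫ z, tst b P z = 0) ∧ (∫ z, z.im * tst b P z = 0) ∧
      (∫ z, pb (cub Q) (tst b P) z = 0) ∧ (∫ z, z.im * pb (cub Q) (tst b P) z = 0) ∧
      (∫ z, pb (cub k) (pb (cub Q) (tst b P)) z = 0) ∧
      (∫ z, z.im * pb (cub k) (pb (cub Q) (tst b P)) z = 0) := by
  obtain ⟨f1, f2, f3⟩ := S7_tst hb hbN hN hP
  set f := tst b P with hf
  have hU : IsOpen (Set.univ : Set ℂ) := isOpen_univ
  have f1' : ContDiff ℝ 2 f := contDiff_infty.mp f1 2
  have φ1 : ContDiff ℝ ∞ (pb (cub Q) f) := S7_cd_pb (S7_cd_cub Q) f1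
  have φ1' : ContDiff ℝ 2 (pb (cub Q) f) := contDiff_infty.mp φ1 2
  have φ2 : HasCompactSupport (pb (cub Q) f) := S7_pb_compact _ f2
  have pim : ∀ (k : Fin 4 → ℝ) (z : ℂ), pb (fun z : ℂ => z.im) (cub k) z
      = - S7_qd (3 * k 0) (2 * k 1) (k 2) z := by
    intro k z
    unfold pb
    rw [(S7_dim z).1, (S7_dim z).2, (S7_dcub k z).1]
    ring
  refine ⟨?_, ?_, ?_, ?_, ?_, ?_⟩
  · have h := S7_poly hb hbN hP hm (fun i j => if i = 0 ∧ j = 0 then 1 else 0) (p := fun _ => 1)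
      (by intro z; simp [Fin.sum_univ_succ])
    simpa using h
  · have h := S7_poly hb hbN hP hm (fun i j => if i = 0 ∧ j = 1 then 1 else 0) (p := fun z => z.im)
      (by intro z; simp [Fin.sum_univ_succ])
    rw [← h]
    refine integral_congr_ae (Eventually.of_forall fun z => ?_)
    simp only
    ring
  · exact int_pb_zero hU (S7_cd_cub Q).contDiffOn f1' f2 (Set.subset_univ _)
  · rw [int_pb' hU S7_cd_im.contDiffOn (S7_cd_cub Q).contDiffOn f1' f2 (Set.subset_univ _)]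
    exact S7_poly hb hbN hP hm ![![0, 0, - Q 2, 0], ![0, - (2 * Q 1), 0, 0], ![- (3 * Q 0), 0, 0, 0],
      ![0, 0, 0, 0]] (by intro z; rw [pim]; simp [Fin.sum_univ_succ, S7_qd]; try ring)
  · exact int_pb_zero hU (S7_cd_cub k).contDiffOn φ1' φ2 (Set.subset_univ _)
  · rw [int_pb' hU S7_cd_im.contDiffOn (S7_cd_cub k).contDiffOn φ1' φ2 (Set.subset_univ _)]
    have h1 : ∫ z, pb (cub Q) f z * pb (fun z : ℂ => z.im) (cub k) z
        = - ∫ z, S7_qd (3 * k 0) (2 * k 1) (k 2) z * pb (cub Q) f z := by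
      rw [← integral_neg]
      refine integral_congr_ae (Eventually.of_forall fun z => ?_)
      simp only
      rw [pim]
      ring
    rw [h1, int_pb' hU (S7_cd_qd _ _ _).contDiffOn (S7_cd_cub Q).contDiffOn f1' f2
      (Set.subset_univ _)]
    rw [neg_eq_zero]
    refine S7_poly hb hbN hP hm ![![0, 0, 0, 6 * k 1 * Q 3 - 2 * k 2 * Q 2],
      ![0, 0, 18 * k 0 * Q 3 + 2 * k 1 * Q 2 - 4 * k 2 * Q 1, 0],
      ![0, 12 * k 0 * Q 2 - 2 * k 1 * Q 1 - 6 * k 2 * Q 0, 0, 0],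
      ![6 * k 0 * Q 1 - 6 * k 1 * Q 0, 0, 0, 0]] ?_
    intro z
    unfold pb
    rw [(S7_dqd _ _ _ z).1, (S7_dqd _ _ _ z).2, (S7_dcub Q z).1, (S7_dcub Q z).2]
    simp [Fin.sum_univ_succ, S7_qd]
    ring

/-- the slice `a j Λ` of a packet is smooth -/
theorem S7_a {B κ S Λs τ N : ℝ} {a : ℕ → ℝ → ℝ → ℝ} {e : ℝ → ℝ → ℝ}
    (hp : Packet B κ S Λs τ N a e) (j : ℕ) (Λ : ℝ) : ContDiff ℝ ∞ (a j Λ) :=
  (hp.smooth j).comp (contDiff_const.prodMk contDiff_id)

theorem S7_e {B κ S Λs τ N : ℝ} {a : ℕ → ℝ → ℝ → ℝ} {e : ℝ → ℝ → ℝ}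
    (hp : Packet B κ S Λs τ N a e) (Λ : ℝ) : ContDiff ℝ ∞ (e Λ) :=
  hp.e_smooth.comp (contDiff_const.prodMk contDiff_id)

theorem S7_int {b : ℝ → ℝ} (hb : Continuous b) {N : ℝ} (hbN : ∀ x, N ≤ |x| → b x = 0) (i : ℕ) :
    Integrable fun x => x ^ i * b x := by
  refine ((continuous_pow i).mul hb).integrable_of_hasCompactSupport ?_
  refine HasCompactSupport.intro (isCompact_Icc (a := -N) (b := N)) ?_
  intro x hx
  have : N ≤ |x| := by
    by_contra hcon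
    rw [not_le, abs_lt] at hcon
    exact hx ⟨hcon.1.le, hcon.2.le⟩
  show x ^ i * b x = 0
  rw [hbN x this, mul_zero]

/-- [YUR-S7] the vanishing integrals. `f = tst (a 0 Λ) P`, `F₁ = tst (a 1 Λ + e Λ) P`, `q`, `Q` cubic forms:
`∫ F₁ = ∫ y F₁ = 0` (`poly_zero`); `∫ pb Q F₁ = 0` (`int_pb_zero`); `∫ y pb Q F₁ = ∫ F₁ pb y Q = -∫ F₁ Q_x` (`int_pb'`), a
quadratic polynomial against `F₁` (moments of order `≤ 2` of `a_1 + e` vanish: `packet_van`, `e_van`); with `φ = pb Q f`: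
`∫ pb q φ = 0`, `∫ pb s φ = 0`; `∫ y pb q φ = ∫ φ pb y q = -∫ q_x pb Q f = -∫ f pb q_x Q` (`int_pb'` twice), a cubic polynomial
against `f` (moments of order `≤ 3` of `a_0`). -/
theorem van {B κ S Λs τ N : ℝ} {a : ℕ → ℝ → ℝ → ℝ} {e : ℝ → ℝ → ℝ}
    (hp : Packet B κ S Λs τ N a e) {P : ℝ} (hP : 1 ≤ P) (hN : 1 ≤ N) (k Q : Fin 4 → ℝ) (Λ : ℝ) :
    (∫ z, tst (fun x => a 1 Λ x + e Λ x) P z = 0) ∧
      (∫ z, z.im * tst (fun x => a 1 Λ x + e Λ x) P z = 0) ∧
      (∫ z, pb (cub Q) (tst (fun x => a 1 Λ x + e Λ x) P) z = 0) ∧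
      (∫ z, z.im * pb (cub Q) (tst (fun x => a 1 Λ x + e Λ x) P) z = 0) ∧
      (∫ z, tst (a 0 Λ) P z = 0) ∧ (∫ z, z.im * tst (a 0 Λ) P z = 0) ∧
      (∫ z, pb (cub Q) (tst (a 0 Λ) P) z = 0) ∧
      (∫ z, z.im * pb (cub Q) (tst (a 0 Λ) P) z = 0) ∧
      (∫ z, pb (cub k) (pb (cub Q) (tst (a 0 Λ) P)) z = 0) ∧
      (∫ z, z.im * pb (cub k) (pb (cub Q) (tst (a 0 Λ) P)) z = 0) := by
  have h1 := S7_van (b := fun x => a 1 Λ x + e Λ x) (N := N) (P := P)
    ((S7_a hp 1 Λ).add (S7_e hp Λ))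
    (fun x hx => by rw [hp.supp 1 Λ x hx, hp.e_supp Λ x hx, add_zero]) hN hP
    (fun i hi => by
      have e1 : (fun x : ℝ => x ^ i * (a 1 Λ x + e Λ x)) = fun x => x ^ i * a 1 Λ x + x ^ i * e Λ x := by
        funext x
        ring
      rw [e1, integral_add (S7_int (S7_a hp 1 Λ).continuous (hp.supp 1 Λ) i)
        (S7_int (S7_e hp Λ).continuous (hp.e_supp Λ) i), packet_van hp i 1 (by omega) Λ,
        hp.e_van i (by omega) Λ, add_zero]) k Q
  have h2 := S7_van (b := a 0 Λ) (N := N) (P := P) (S7_a hp 0 Λ) (hp.supp 0 Λ) hN hP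
    (fun i hi => packet_van hp i 0 (by omega) Λ) k Q
  obtain ⟨p1, p2, p3, p4, -, -⟩ := h1
  obtain ⟨q1, q2, q3, q4, q5, q6⟩ := h2
  exact ⟨p1, p2, p3, p4, q1, q2, q3, q4, q5, q6⟩

/-! ### the identity -/

theorem S7_integrable {U K : Set ℂ} (hU : IsOpen U) (hK : IsCompact K) (hKU : K ⊆ U) {w : ℂ → ℝ}
    (hw : ContinuousOn w U) (h0 : ∀ z, z ∉ K → w z = 0) : Integrable w := by
  have hc : Continuous w := by
    rw [continuous_iff_continuousAt]
    intro z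
    by_cases hz : z ∈ U
    · exact hw.continuousAt (hU.mem_nhds hz)
    · have h1 : Kᶜ ∈ 𝓝 z := hK.isClosed.isOpen_compl.mem_nhds fun h => hz (hKU h)
      have h2 : w =ᶠ[𝓝 z] fun _ => 0 := by
        filter_upwards [h1] with x hx
        exact h0 x hx
      exact (continuousAt_const (y := (0 : ℝ))).congr h2.symm
  exact hc.integrable_of_hasCompactSupport (HasCompactSupport.intro hK fun z hz => h0 z hz)

theorem S7_tri {u₁ u₂ u₃ : ℂ → ℝ} (h₁ : Integrable u₁) (h₂ : Integrable u₂) (h₃ : Integrable u₃)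
    (c₁ c₂ c₃ : ℝ) : Integrable (fun z => c₁ * u₁ z + c₂ * u₂ z + c₃ * u₃ z) ∧
      ∫ z, (c₁ * u₁ z + c₂ * u₂ z + c₃ * u₃ z) =
        c₁ * (∫ z, u₁ z) + c₂ * (∫ z, u₂ z) + c₃ * ∫ z, u₃ z := by
  have i1 := h₁.const_mul c₁
  have i2 := h₂.const_mul c₂
  have i3 := h₃.const_mul c₃
  refine ⟨(i1.add i2).add i3, ?_⟩
  rw [integral_add (f := fun z => c₁ * u₁ z + c₂ * u₂ z) (g := fun z => c₃ * u₃ z) (i1.add i2) i3,
    integral_add (f := fun z => c₁ * u₁ z) (g := fun z => c₂ * u₂ z) i1 i2,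
    integral_const_mul, integral_const_mul, integral_const_mul]

theorem S7_five {u₁ u₂ u₃ u₄ u₅ : ℂ → ℝ} (h₁ : Integrable u₁) (h₂ : Integrable u₂)
    (h₃ : Integrable u₃) (h₄ : Integrable u₄) (h₅ : Integrable u₅) :
    ∫ z, ((((u₁ z + u₂ z) + u₃ z) + u₄ z) + u₅ z) =
      ((((∫ z, u₁ z) + ∫ z, u₂ z) + ∫ z, u₃ z) + ∫ z, u₄ z) + ∫ z, u₅ z := by
  rw [integral_add (f := fun z => ((u₁ z + u₂ z) + u₃ z) + u₄ z) (g := fun z => u₅ z)
      (((h₁.add h₂).add h₃).add h₄) h₅,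
    integral_add (f := fun z => (u₁ z + u₂ z) + u₃ z) (g := fun z => u₄ z) ((h₁.add h₂).add h₃) h₄,
    integral_add (f := fun z => u₁ z + u₂ z) (g := fun z => u₃ z) (h₁.add h₂) h₃,
    integral_add (f := fun z => u₁ z) (g := fun z => u₂ z) h₁ h₂]

/-- [YUR-S7] the identity of the slice lemma. Pointwise (on `ball 0 R`; all functions vanish outside)
`ft - r pb q f - r pb Q ft + pb ζ (f - r pb Q f) = ft + r^(1+α) pb s f - r pb Q ft - r pb ζ φ`, `φ = pb Q f`,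
`pb ζ φ = r pb q φ + r^(1+α) pb s φ`; multiply by `omg = g + r β y + r^(1+α) η`, split the integral and use `van`,
`int_pb_zero` (for `pb s f`, `pb s φ`) and `int_pb` (`∫ y pb s f = ∫ s pb f y = ∫ s f_x`, `pb f y = dx f`). -/
theorem slice_id {α C R : ℝ} {k : Fin 4 → ℝ} {γ μ ν : ℝ} {s η : ℂ → ℝ}
    (h : Slc α C R k γ μ ν s η) {B κ S Λs τ N : ℝ} {a : ℕ → ℝ → ℝ → ℝ} {e : ℝ → ℝ → ℝ}
    (hp : Packet B κ S Λs τ N a e) {P : ℝ} (hP : 1 ≤ P) (hN : 1 ≤ N) (hR : 2 * (N + 2 * P) ≤ R)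
    (Q : Fin 4 → ℝ) (Λ g β : ℝ) {r : ℝ} (hr : 0 < r) {f F₁ φ ft : ℂ → ℝ} (hf : f = tst (a 0 Λ) P)
    (hF : F₁ = tst (fun x => a 1 Λ x + e Λ x) P) (hφ : φ = pb (cub Q) f)
    (hft : ft = fun z => -(r * β / γ) * F₁ z) :
    ∫ z, omg α r β g η z * (ft z - r * pb (cub k) f z - r * pb (cub Q) ft z +
      pb (zet α r k s) (fun z => f z - r * pb (cub Q) f z) z) =
      -(r * β / γ) * r ^ (1 + α) * (∫ z, η z * F₁ z) + r ^ (2 + α) * β * (∫ z, s z * dx f z) +
        r ^ (2 + 2 * α) * (∫ z, η z * pb s f z) +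
        r ^ (3 + α) * (β / γ) * (∫ z, η z * pb (cub Q) F₁ z) -
        r ^ (3 + α) * β * (∫ z, z.im * pb s φ z) -
        r ^ (2 + α) * (∫ z, η z * pb (zet α r k s) φ z) := by
  have hP0 : 0 < P := by linarith
  obtain ⟨f1, f2, f3⟩ := S7_tst (P := P) (S7_a hp 0 Λ) (hp.supp 0 Λ) hN hP
  obtain ⟨F1, F2, F3⟩ := S7_tst (b := fun x => a 1 Λ x + e Λ x) (N := N) (P := P)
    ((S7_a hp 1 Λ).add (S7_e hp Λ))
    (fun x hx => by rw [hp.supp 1 Λ x hx, hp.e_supp Λ x hx, add_zero]) hN hP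
  obtain ⟨v1, v2, v3, v4, -, -, -, -, v9, v10⟩ := van hp hP hN k Q Λ
  rw [← hF] at F1 F2 F3 v1 v2 v3 v4
  rw [← hf] at f1 f2 f3 v9 v10
  rw [← hφ] at v9 v10
  set K : Set ℂ := Metric.closedBall 0 (N + 2 * P) with hK
  set U : Set ℂ := Metric.ball 0 R with hUdef
  have hU : IsOpen U := Metric.isOpen_ball
  have hKc : IsCompact K := isCompact_closedBall _ _
  have hKU : K ⊆ U := Metric.closedBall_subset_ball (by linarith)
  have φ1 : ContDiff ℝ ∞ φ := by rw [hφ]; exact S7_cd_pb (S7_cd_cub Q) f1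
  have φ2 : HasCompactSupport φ := by rw [hφ]; exact S7_pb_compact _ f2
  have φ3 : tsupport φ ⊆ K := by rw [hφ]; exact (S7_pb_supp _).trans f3
  have f1' : ContDiff ℝ 2 f := contDiff_infty.mp f1 2
  have φ1' : ContDiff ℝ 2 φ := contDiff_infty.mp φ1 2
  have fd : Differentiable ℝ f := f1'.differentiable two_ne_zero
  have φd : Differentiable ℝ φ := φ1'.differentiable two_ne_zero
  have Fd : Differentiable ℝ F₁ := (contDiff_infty.mp F1 2).differentiable (by norm_num)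
  have s1 : ContDiffOn ℝ 1 s U := h.s_c2.of_le (by norm_num)
  have sd : ∀ z ∈ U, DifferentiableAt ℝ s z := fun z hz =>
    (s1.contDiffAt (hU.mem_nhds hz)).differentiableAt one_ne_zero
  have cubd : ∀ (k : Fin 4 → ℝ) (z : ℂ), DifferentiableAt ℝ (cub k) z := fun k z =>
    (S7_cd_cub (n := 1) k).differentiable one_ne_zero z
  -- continuity
  have cdx : ContinuousOn (dx s) U :=
    ((contDiffOn_dx (n := 0) hU (by simpa using s1))).continuousOn
  have cdy : ContinuousOn (dy s) U :=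
    ((contDiffOn_dy (n := 0) hU (by simpa using s1))).continuousOn
  have cη : ContinuousOn η U := h.η_c1.continuousOn
  have cim : ContinuousOn (fun z : ℂ => z.im) U := Complex.continuous_im.continuousOn
  have cps : ∀ u : ℂ → ℝ, ContDiff ℝ ∞ u → ContinuousOn (pb s u) U := by
    intro u hu
    have h1 : ContinuousOn (fun z => dx s z * dy u z - dy s z * dx u z) U :=
      (cdx.mul (S7_cd_dy hu).continuous.continuousOn).sub
        (cdy.mul (S7_cd_dx hu).continuous.continuousOn)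
    exact h1
  have cpk : ∀ (k : Fin 4 → ℝ) (u : ℂ → ℝ), ContDiff ℝ ∞ u → ContinuousOn (pb (cub k) u) U :=
    fun k u hu => (S7_cd_pb (S7_cd_cub k) hu).continuous.continuousOn
  -- the bracket with the stream function
  have hzet : ∀ u : ℂ → ℝ, tsupport u ⊆ U → ∀ z, pb (zet α r k s) u z =
      r * pb (cub k) u z + r ^ (1 + α) * pb s u z := by
    intro u hu z
    by_cases hz : z ∈ U
    · have d1 : DifferentiableAt ℝ (fun z => r * cub k z) z := (cubd k z).const_mul r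
      have d2 : DifferentiableAt ℝ (fun z => r ^ (1 + α) * s z) z := (sd z hz).const_mul _
      have e1 : dx (zet α r k s) z = r * dx (cub k) z + r ^ (1 + α) * dx s z := by
        show dx (fun z => r * cub k z + r ^ (1 + α) * s z) z = _
        rw [dx_add d1 d2, dx_const_mul _ (cubd k z), dx_const_mul _ (sd z hz)]
      have e2 : dy (zet α r k s) z = r * dy (cub k) z + r ^ (1 + α) * dy s z := by
        show dy (fun z => r * cub k z + r ^ (1 + α) * s z) z = _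
        rw [dy_add d1 d2, dy_const_mul _ (cubd k z), dy_const_mul _ (sd z hz)]
      unfold pb
      rw [e1, e2]
      ring
    · have hz' : z ∉ tsupport u := fun h' => hz (hu h')
      rw [S7_pb_off hz', S7_pb_off hz', S7_pb_off hz']
      ring
  have cpz : ContinuousOn (pb (zet α r k s) φ) U := by
    have e : pb (zet α r k s) φ = fun z => r * pb (cub k) φ z + r ^ (1 + α) * pb s φ z :=
      funext (hzet φ (φ3.trans hKU))
    rw [e]
    exact (continuousOn_const.mul (cpk k φ φ1)).add (continuousOn_const.mul (cps φ φ1))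
  -- integrability
  have off : ∀ {u : ℂ → ℝ} (p : ℂ → ℝ), tsupport u ⊆ K → ∀ z, z ∉ K → pb p u z = 0 :=
    fun p hu z hz => S7_pb_off fun h' => hz (hu h')
  have offu : ∀ {u : ℂ → ℝ}, tsupport u ⊆ K → ∀ z, z ∉ K → u z = 0 :=
    fun hu z hz => image_eq_zero_of_notMem_tsupport fun h' => hz (hu h')
  have mk : ∀ {w : ℂ → ℝ}, ContinuousOn w U → (∀ z, z ∉ K → w z = 0) → Integrable w ∧
      Integrable (fun z => z.im * w z) ∧ Integrable (fun z => η z * w z) := by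
    intro w hw h0
    exact ⟨S7_integrable hU hKc hKU hw h0,
      S7_integrable hU hKc hKU (cim.mul hw) fun z hz => by
        show z.im * w z = 0
        rw [h0 z hz, mul_zero],
      S7_integrable hU hKc hKU (cη.mul hw) fun z hz => by
        show η z * w z = 0
        rw [h0 z hz, mul_zero]⟩
  obtain ⟨i1, i2, i3⟩ := mk F1.continuous.continuousOn (offu F3)
  obtain ⟨i4, i5, i6⟩ := mk (cpk Q F₁ F1) (off (cub Q) F3)
  obtain ⟨i7, i8, i9⟩ := mk (cps f f1) (off s f3)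
  obtain ⟨i10, i11, -⟩ := mk (cpk k φ φ1) (off (cub k) φ3)
  obtain ⟨i12, i13, -⟩ := mk (cps φ φ1) (off s φ3)
  obtain ⟨-, -, i14⟩ := mk cpz (off (zet α r k s) φ3)
  set c : ℝ := r * β / γ with hc
  set ρ : ℝ := r ^ (1 + α) with hρ
  obtain ⟨j1, e1⟩ := S7_tri i1 i2 i3 (-c * g) (-c * (r * β)) (-c * ρ)
  obtain ⟨j2, e2⟩ := S7_tri i4 i5 i6 (r * c * g) (r * c * (r * β)) (r * c * ρ)
  obtain ⟨j3, e3⟩ := S7_tri i7 i8 i9 (ρ * g) (ρ * (r * β)) (ρ * ρ)
  obtain ⟨j4, e4⟩ := S7_tri i10 i11 i14 (-(r * r) * g) (-(r * r) * (r * β)) (-(r * ρ))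
  obtain ⟨j5, e5⟩ := S7_tri i12 i13 i12 (-(r * ρ) * g) (-(r * ρ) * (r * β)) 0
  -- the pointwise identity
  have hpt : ∀ z, omg α r β g η z * (ft z - r * pb (cub k) f z - r * pb (cub Q) ft z +
      pb (zet α r k s) (fun z => f z - r * pb (cub Q) f z) z) =
      ((((-c * g * F₁ z + -c * (r * β) * (z.im * F₁ z) + -c * ρ * (η z * F₁ z)) +
      (r * c * g * pb (cub Q) F₁ z + r * c * (r * β) * (z.im * pb (cub Q) F₁ z) +
        r * c * ρ * (η z * pb (cub Q) F₁ z))) +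
      (ρ * g * pb s f z + ρ * (r * β) * (z.im * pb s f z) + ρ * ρ * (η z * pb s f z))) +
      (-(r * r) * g * pb (cub k) φ z + -(r * r) * (r * β) * (z.im * pb (cub k) φ z) +
        -(r * ρ) * (η z * pb (zet α r k s) φ z))) +
      (-(r * ρ) * g * pb s φ z + -(r * ρ) * (r * β) * (z.im * pb s φ z) + 0 * pb s φ z) := by
    intro z
    have q1 : pb (cub Q) ft z = -c * pb (cub Q) F₁ z := by
      rw [hft]
      unfold pb
      rw [dx_const_mul _ (Fd z), dy_const_mul _ (Fd z)]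
      ring
    have q2 : pb (zet α r k s) (fun z => f z - r * pb (cub Q) f z) z =
        pb (zet α r k s) f z - r * pb (zet α r k s) φ z := by
      have d1 : DifferentiableAt ℝ (fun z => r * φ z) z := (φd z).const_mul r
      rw [← hφ]
      show pb (zet α r k s) (fun z => f z - r * φ z) z = _
      unfold pb
      rw [dx_sub (fd z) d1, dy_sub (fd z) d1, dx_const_mul _ (φd z), dy_const_mul _ (φd z)]
      ring
    have q3 := hzet f (f3.trans hKU) z
    have q4 := hzet φ (φ3.trans hKU) z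
    have q5 : ft z = -c * F₁ z := by rw [hft]
    rw [q1, q2, q3, q4, q5]
    unfold omg
    rw [← hρ]
    ring
  rw [integral_congr_ae (Eventually.of_forall hpt)]
  refine (S7_five j1 j2 j3 j4 j5).trans ?_
  rw [e1, e2, e3, e4, e5]
  -- the remaining vanishing integrals
  have w1 : ∫ z, pb s f z = 0 := int_pb_zero hU s1 f1' f2 (f3.trans hKU)
  have w2 : ∫ z, pb s φ z = 0 := int_pb_zero hU s1 φ1' φ2 (φ3.trans hKU)
  have w3 : ∫ z, z.im * pb s f z = ∫ z, s z * dx f z := by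
    rw [int_pb hU S7_cd_im.contDiffOn s1 f1' f2 (f3.trans hKU)]
    refine integral_congr_ae (Eventually.of_forall fun z => ?_)
    show s z * pb f (fun z : ℂ => z.im) z = s z * dx f z
    unfold pb
    rw [(S7_dim z).1, (S7_dim z).2]
    ring
  rw [v1, v2, v3, v4, v9, v10, w1, w2, w3]
  have r1 : r ^ (2 + α) = r * ρ := by
    rw [hρ, show (2 : ℝ) + α = 1 + (1 + α) by ring, Real.rpow_add hr, Real.rpow_one]
  have r2 : r ^ (2 + 2 * α) = ρ * ρ := by
    rw [hρ, show (2 : ℝ) + 2 * α = (1 + α) + (1 + α) by ring, Real.rpow_add hr]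
  have r3 : r ^ (3 + α) = r * r * ρ := by
    rw [hρ, show (3 : ℝ) + α = 1 + (1 + (1 + α)) by ring, Real.rpow_add hr, Real.rpow_add hr,
      Real.rpow_one]
    ring
  rw [r1, r2, r3, hc]
  ring

end Pool.Agent.YUR
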