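import Pool.Agent.YUR.Defs
import Pool.Agent.YUD.A3

open MeasureTheory Set Filter Topology
open scoped ContDiff

namespace Pool.Agent.YUR

open Pool.Agent.YUD Pool.Agent.YUT Pool.Agent.YUB

private theorem S1_cpt {f : ℝ → ℝ} {N : ℝ} (hf : Continuous f) (h : ∀ x, N ≤ |x| → f x = 0) :
    Integrable f := by
  refine hf.integrable_of_hasCompactSupport
    (HasCompactSupport.intro (isCompact_closedBall (0 : ℝ) |N|) fun x hx => h x ?_)
  rw [Metric.mem_closedBall, dist_zero_right, Real.norm_eq_abs, not_le] at hx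
  exact (le_abs_self N).trans hx.le

private theorem S1_cptC {f g : ℝ → ℝ} {N N' : ℝ} (hf : Continuous f) (hg : Continuous g)
    (h : ∀ x, N ≤ |x| → f x = 0) (h' : ∀ y, N' ≤ |y| → g y = 0) :
    Integrable fun z : ℂ => f z.re * g z.im := by
  have hc : Continuous fun z : ℂ => f z.re * g z.im :=
    (hf.comp Complex.continuous_re).mul (hg.comp Complex.continuous_im)
  refine hc.integrable_of_hasCompactSupport
    (HasCompactSupport.intro (isCompact_closedBall (0 : ℂ) (|N| + |N'|)) fun z hz => ?_)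
  rw [Metric.mem_closedBall, dist_zero_right, not_le] at hz
  rcases le_or_gt N |z.re| with h1 | h1
  · rw [h _ h1, zero_mul]
  · rcases le_or_gt N' |z.im| with h2 | h2
    · rw [h' _ h2, mul_zero]
    · exfalso
      have h3 := Complex.norm_le_abs_re_add_abs_im z
      have h4 := le_abs_self N
      have h5 := le_abs_self N'
      linarith

/-- [YUR-S1] Fubini for products: `Complex.volume_preserving_equiv_real_prod`, `integral_prod_mul`. -/
theorem prod_int (f g : ℝ → ℝ) : ∫ z : ℂ, f z.re * g z.im = (∫ x, f x) * ∫ y, g y := by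
  have h1 : ∫ z : ℂ, f z.re * g z.im = ∫ q : ℝ × ℝ, f q.1 * g q.2 :=
    Complex.volume_preserving_equiv_real_prod.integral_comp' (fun q : ℝ × ℝ => f q.1 * g q.2)
  rw [h1]
  exact integral_prod_mul f g

/-- [YUR-S1] polynomials of degree `≤ n` in `x` (and any degree in `y`) are killed by `b(x) h(y)` if the
moments of `b` of order `≤ n` vanish. Split the finite sum (each term is continuous with compact support) and use
`prod_int` with `x^i b(x)` and `y^j h(y)`. -/
theorem poly_zero {b h : ℝ → ℝ} {N N' : ℝ} (hb : Continuous b) (hbN : ∀ x, N ≤ |x| → b x = 0)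
    (hh : Continuous h) (hhN : ∀ y, N' ≤ |y| → h y = 0) {n : ℕ}
    (hm : ∀ i, i < n → ∫ x, x ^ i * b x = 0) (c : Fin n → Fin 4 → ℝ) :
    ∫ z : ℂ, (∑ i : Fin n, ∑ j : Fin 4, c i j * (z.re ^ (i : ℕ) * z.im ^ (j : ℕ))) *
      (b z.re * h z.im) = 0 := by
  have hterm : ∀ (i : Fin n) (j : Fin 4), (Integrable fun z : ℂ =>
      c i j * ((fun x : ℝ => x ^ (i : ℕ) * b x) z.re * (fun y : ℝ => y ^ (j : ℕ) * h y) z.im)) ∧
      ∫ z : ℂ, c i j * ((fun x : ℝ => x ^ (i : ℕ) * b x) z.re *
        (fun y : ℝ => y ^ (j : ℕ) * h y) z.im) = 0 := by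
    intro i j
    constructor
    · refine Integrable.const_mul (S1_cptC (f := fun x : ℝ => x ^ (i : ℕ) * b x)
        (g := fun y : ℝ => y ^ (j : ℕ) * h y) (N := N) (N' := N') ?_ ?_ ?_ ?_) _
      · exact (continuous_pow _).mul hb
      · exact (continuous_pow _).mul hh
      · intro x hx
        change x ^ (i : ℕ) * b x = 0
        rw [hbN x hx, mul_zero]
      · intro y hy
        change y ^ (j : ℕ) * h y = 0
        rw [hhN y hy, mul_zero]
    · rw [integral_const_mul, prod_int (fun x : ℝ => x ^ (i : ℕ) * b x)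
        (fun y : ℝ => y ^ (j : ℕ) * h y), hm i i.2, zero_mul, mul_zero]
  have he : (fun z : ℂ => (∑ i : Fin n, ∑ j : Fin 4, c i j * (z.re ^ (i : ℕ) * z.im ^ (j : ℕ))) *
      (b z.re * h z.im)) = fun z : ℂ => ∑ i : Fin n, ∑ j : Fin 4,
        c i j * ((fun x : ℝ => x ^ (i : ℕ) * b x) z.re * (fun y : ℝ => y ^ (j : ℕ) * h y) z.im) := by
    funext z
    rw [Finset.sum_mul]
    refine Finset.sum_congr rfl fun i _ => ?_
    rw [Finset.sum_mul]
    refine Finset.sum_congr rfl fun j _ => ?_
    ring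
  rw [he, integral_finsetSum _ fun i _ => integrable_finsetSum _ fun j _ => (hterm i j).1]
  refine Finset.sum_eq_zero fun i _ => ?_
  rw [integral_finsetSum _ fun j _ => (hterm i j).1]
  exact Finset.sum_eq_zero fun j _ => (hterm i j).2

/-- [YUR-S1] the moments of packets: induction on `i`; `∫ x^i a_j = ∫ x^i (a_{j+1})' = -i ∫ x^(i-1) a_{j+1}`
(`integral_mul_deriv_eq_deriv_mul_of_integrable`, everything is smooth with compact support). -/
theorem packet_van {B κ S Λs τ N : ℝ} {a : ℕ → ℝ → ℝ → ℝ} {e : ℝ → ℝ → ℝ}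
    (h : Packet B κ S Λs τ N a e) (i j : ℕ) (hij : i + j < 8) (Λ : ℝ) :
    ∫ x, x ^ i * a j Λ x = 0 := by
  have hcont : ∀ j, Continuous (a j Λ) := by
    intro j
    have h1 : Continuous fun x : ℝ => ((Λ, x) : ℝ × ℝ) := by fun_prop
    exact (h.smooth j).continuous.comp h1
  have hint : ∀ i j, Integrable fun x : ℝ => x ^ i * a j Λ x := by
    intro i j
    refine S1_cpt (N := N) ((continuous_pow i).mul (hcont j)) fun x hx => ?_
    rw [h.supp j Λ x hx, mul_zero]
  induction i generalizing j with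
  | zero =>
    have h1 := integral_eq_zero_of_hasDerivAt_of_integrable (h.chain j (by omega) Λ)
      (by simpa using hint 0 j) (by simpa using hint 0 (j + 1))
    simpa using h1
  | succ i ih =>
    have h2 := integral_mul_deriv_eq_deriv_mul_of_integrable
      (u := fun x : ℝ => x ^ (i + 1)) (u' := fun x : ℝ => ((i + 1 : ℕ) : ℝ) * x ^ i)
      (v := a (j + 1) Λ) (v' := a j Λ)
      (fun x _ => by simpa using hasDerivAt_pow (i + 1) x)
      (fun x _ => h.chain j (by omega) Λ x)
      (hint (i + 1) j) (by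
        have h3 := (hint i (j + 1)).const_mul ((i + 1 : ℕ) : ℝ)
        refine h3.congr (Filter.Eventually.of_forall fun x => ?_)
        simp only [Pi.mul_apply]
        ring)
      (hint (i + 1) (j + 1))
    rw [h2]
    have h4 : ∫ x, ((i + 1 : ℕ) : ℝ) * x ^ i * a (j + 1) Λ x = 0 := by
      have h5 : (fun x : ℝ => ((i + 1 : ℕ) : ℝ) * x ^ i * a (j + 1) Λ x) =
          fun x : ℝ => ((i + 1 : ℕ) : ℝ) * (x ^ i * a (j + 1) Λ x) := by
        funext x
        ring
      rw [h5, integral_const_mul, ih (j + 1) (by omega), mul_zero]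
    rw [h4, neg_zero]

end Pool.Agent.YUR
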