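import Pool.Agent.YUR.S1
import Pool.Agent.YUR.S3

open MeasureTheory Set Filter Topology
open scoped ContDiff

namespace Pool.Agent.YUR

open Pool.Agent.YUD Pool.Agent.YUT Pool.Agent.YUB

/-- the profiles of the waves: `U = √Λs a(x) V(y/P)` -/
noncomputable def prof (Λs : ℝ) (a : ℝ → ℝ) (P : ℝ) (z : ℂ) : ℝ := √Λs * tst a P z

/-- products `c b(x) h(y)` with bounded first derivatives -/
theorem W0_fd {b b' h h' : ℝ → ℝ} (hb : ∀ x, HasDerivAt b (b' x) x)
    (hh : ∀ y, HasDerivAt h (h' y) y) (c : ℝ) (z : ℂ) :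
    HasFDerivAt (fun z : ℂ => c * (b z.re * h z.im))
      ((c * (b' z.re * h z.im)) • Complex.reCLM + (c * (b z.re * h' z.im)) • Complex.imCLM) z := by
  have h1 : HasFDerivAt (fun z : ℂ => b z.re) (b' z.re • Complex.reCLM) z :=
    (hb z.re).comp_hasFDerivAt z Complex.reCLM.hasFDerivAt
  have h2 : HasFDerivAt (fun z : ℂ => h z.im) (h' z.im • Complex.imCLM) z :=
    (hh z.im).comp_hasFDerivAt z Complex.imCLM.hasFDerivAt
  have h3 := (h1.mul h2).const_mul c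
  refine h3.congr_fderiv ?_
  ext x
  simp
  ring

theorem W0_norm (u v : ℝ) : ‖u • Complex.reCLM + v • Complex.imCLM‖ ≤ |u| + |v| := by
  refine (norm_add_le _ _).trans ?_
  rw [norm_smul, norm_smul, Complex.reCLM_norm, Complex.imCLM_norm, Real.norm_eq_abs,
    Real.norm_eq_abs, mul_one, mul_one]

theorem W0_lip {b b' h h' : ℝ → ℝ} (hb : ∀ x, HasDerivAt b (b' x) x)
    (hh : ∀ y, HasDerivAt h (h' y) y) (c K : ℝ)
    (h1 : ∀ x y, |c * (b' x * h y)| ≤ K) (h2 : ∀ x y, |c * (b x * h' y)| ≤ K) (z z' : ℂ) :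
    |c * (b z.re * h z.im) - c * (b z'.re * h z'.im)| ≤ 2 * K * ‖z - z'‖ := by
  have := Convex.norm_image_sub_le_of_norm_hasFDerivWithin_le (𝕜 := ℝ) (s := Set.univ)
    (f := fun z : ℂ => c * (b z.re * h z.im)) (C := 2 * K) (x := z') (y := z)
    (fun x _ => (W0_fd hb hh c x).hasFDerivWithinAt)
    (fun x _ => (W0_norm _ _).trans (by linarith [h1 x.re x.im, h2 x.re x.im]))
    convex_univ (mem_univ _) (mem_univ _)
  exact this

/-- [YUR-W0] the profiles have uniform bounds: `disp0, disp1, disp2` (`√Λs * (B/√Λs) = B`), `win_facts`, `P ≥ 1`; the second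
derivatives are bounded, so `fderiv` is Lipschitz (mean value inequality). `near`: `win (y/P) = 0` for `y ≤ P`. `mean`:
`prod_int`-like Fubini and `∫ a_0 = ∫ a_1' = 0`. -/
theorem prof_wprof {B : ℝ} (hB : 0 < B) : ∃ B' : ℝ, 0 < B' ∧ ∀ (κ S Λs τ N : ℝ)
    (a : ℕ → ℝ → ℝ → ℝ) (e : ℝ → ℝ → ℝ) (P : ℝ), Packet B κ S Λs τ N a e → 1 ≤ Λs → 1 ≤ N →
      1 ≤ P → WProf B' (prof Λs (a 0 Λs) P) := by
  obtain ⟨D, hD0, hD⟩ := vk_int
  refine ⟨4 * (B * D) + 1, by positivity, ?_⟩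
  intro κ S Λs τ N a e P hp hΛ hN hP
  have hP0 : 0 < P := by linarith
  have hsq : 0 < √Λs := Real.sqrt_pos.2 (by linarith)
  have hBD : 0 ≤ B * D := mul_nonneg hB.le hD0
  set b : ℝ → ℝ := a 0 Λs with hbdef
  have hb : ContDiff ℝ ∞ b := by
    have h1 : ContDiff ℝ ∞ (fun x : ℝ => ((Λs, x) : ℝ × ℝ)) := contDiff_const.prodMk contDiff_id
    have h2 := ContDiff.comp (g := fun p : ℝ × ℝ => a 0 p.1 p.2) (hp.smooth 0) h1
    exact h2
  have hb1 : ContDiff ℝ ∞ (deriv b) := (contDiff_infty_iff_deriv.1 hb).2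
  have db : ∀ x, HasDerivAt b (deriv b x) x := fun x =>
    ((hb.differentiable (by simp)) x).hasDerivAt
  have db1 : ∀ x, HasDerivAt (deriv b) (deriv (deriv b) x) x := fun x =>
    ((hb1.differentiable (by simp)) x).hasDerivAt
  obtain ⟨v1, v2, v3, v4, v5⟩ := vk_facts hP0 0
  obtain ⟨w1, w2, w3, w4, w5⟩ := vk_facts hP0 1
  have hform : ∀ z, prof Λs b P z = √Λs * (b z.re * vk 0 P z.im) := by
    intro z
    rw [v5]
    rfl
  have hfun : prof Λs b P = fun z => √Λs * (b z.re * vk 0 P z.im) := funext hform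
  have key : ∀ (u v : ℝ), |u| ≤ B / √Λs → |v| ≤ D → |√Λs * (u * v)| ≤ B * D := by
    intro u v hu hv
    rw [abs_mul, abs_mul, abs_of_pos hsq]
    calc √Λs * (|u| * |v|) ≤ √Λs * (B / √Λs * D) := by gcongr
      _ = B * D := by field_simp
  have k0 : ∀ y, |vk 0 P y| ≤ D := (hD 0 (by norm_num) P hP).1
  have k1 : ∀ y, |vk 1 P y| ≤ D := (hD 1 (by norm_num) P hP).1
  have k2 : ∀ y, |vk 2 P y| ≤ D := (hD 2 (by norm_num) P hP).1
  have hfd : ∀ z, fderiv ℝ (prof Λs b P) z = (√Λs * (deriv b z.re * vk 0 P z.im)) • Complex.reCLM +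
      (√Λs * (b z.re * vk 1 P z.im)) • Complex.imCLM := by
    intro z
    rw [hfun]
    exact (W0_fd db v2 (√Λs) z).fderiv
  refine ⟨?_, ?_, ⟨N + 2 * P, ?_⟩, ?_, ?_, ?_, ?_⟩
  · rw [hfun]
    have h2 : ContDiff ℝ 2 (fun z : ℂ => b z.re) :=
      (contDiff_infty.mp hb 2).comp Complex.reCLM.contDiff
    have h3 : ContDiff ℝ 2 (fun z : ℂ => vk 0 P z.im) :=
      (contDiff_infty.mp v1 2).comp Complex.imCLM.contDiff
    exact contDiff_const.mul (h2.mul h3)
  · intro z hz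
    have h1 := (le_abs_self z.im).trans (Complex.abs_im_le_norm z)
    rw [hform, v3 _ (by linarith)]
    ring
  · intro z hz
    rw [hform]
    by_cases hre : N ≤ |z.re|
    · have h6 : b z.re = 0 := hp.supp 0 Λs _ hre
      rw [h6]
      ring
    · rw [not_le] at hre
      have h1 := Complex.norm_le_abs_re_add_abs_im z
      have h2 : 2 * P < |z.im| := by linarith
      have h3 : vk 0 P z.im = 0 := by
        rcases lt_or_ge z.im 0 with h | h
        · exact v3 _ (by linarith)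
        · rw [abs_of_nonneg h] at h2
          exact v4 _ h2
      rw [h3]
      ring
  · intro z
    rw [hform]
    linarith [key _ _ (hp.disp0 z.re) (k0 z.im)]
  · intro z
    rw [hfd]
    refine (W0_norm _ _).trans ?_
    linarith [key _ _ (hp.disp1 z.re) (k0 z.im), key _ _ (hp.disp0 z.re) (k1 z.im)]
  · intro z z'
    rw [hfd, hfd]
    have e1 : (√Λs * (deriv b z.re * vk 0 P z.im)) • Complex.reCLM +
        (√Λs * (b z.re * vk 1 P z.im)) • Complex.imCLM -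
        ((√Λs * (deriv b z'.re * vk 0 P z'.im)) • Complex.reCLM +
        (√Λs * (b z'.re * vk 1 P z'.im)) • Complex.imCLM) =
        (√Λs * (deriv b z.re * vk 0 P z.im) - √Λs * (deriv b z'.re * vk 0 P z'.im)) •
          Complex.reCLM +
        (√Λs * (b z.re * vk 1 P z.im) - √Λs * (b z'.re * vk 1 P z'.im)) • Complex.imCLM := by
      ext x
      simp
      ring
    rw [e1]
    refine (W0_norm _ _).trans ?_
    have t1 := W0_lip db1 v2 (√Λs) (B * D) (fun x y => key _ _ (hp.disp2 x) (k0 y))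
      (fun x y => key _ _ (hp.disp1 x) (k1 y)) z z'
    have t2 := W0_lip db w2 (√Λs) (B * D) (fun x y => key _ _ (hp.disp1 x) (k1 y))
      (fun x y => key _ _ (hp.disp0 x) (k2 y)) z z'
    have hn := norm_nonneg (z - z')
    calc _ ≤ 2 * (B * D) * ‖z - z'‖ + 2 * (B * D) * ‖z - z'‖ := add_le_add t1 t2
      _ ≤ (4 * (B * D) + 1) * ‖z - z'‖ := by nlinarith
  · have h0 := packet_van hp 0 0 (by norm_num) Λs
    simp only [pow_zero, one_mul] at h0
    have e : (fun z : ℂ => prof Λs b P z) = fun z : ℂ => √Λs * (b z.re * vk 0 P z.im) := hfun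
    rw [e, integral_const_mul, prod_int b (vk 0 P), h0]
    ring

/-- [YUR-W0] `∫ U² = Λs (∫ a_0²) (∫ win(y/P)²)` -/
theorem prof_mass : ∃ κ₁ : ℝ, 0 < κ₁ ∧ ∀ (B κ S Λs τ N : ℝ) (a : ℕ → ℝ → ℝ → ℝ)
    (e : ℝ → ℝ → ℝ) (P : ℝ), Packet B κ S Λs τ N a e → 1 ≤ Λs → 1 ≤ N → 1 ≤ P → 0 < κ →
      κ₁ * κ * Λs * P ≤ ∫ z, prof Λs (a 0 Λs) P z ^ 2 := by
  obtain ⟨-, -, -, -, -, hpos⟩ := win_facts
  refine ⟨∫ y, win y ^ 2, hpos, ?_⟩
  intro B κ S Λs τ N a e P hp hΛ hN hP hκ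
  have hP0 : 0 < P := by linarith
  have e1 : (fun z : ℂ => prof Λs (a 0 Λs) P z ^ 2) = fun z : ℂ =>
      Λs * ((fun x : ℝ => a 0 Λs x ^ 2) z.re * (fun y : ℝ => win (y / P) ^ 2) z.im) := by
    funext z
    simp only [prof, tst]
    rw [mul_pow, mul_pow, Real.sq_sqrt (by linarith)]
  have e2 : ∫ y, win (y / P) ^ 2 = P * ∫ y, win y ^ 2 := by
    have := Measure.integral_comp_div (fun u => win u ^ 2) P
    rw [abs_of_pos hP0, smul_eq_mul] at this
    exact this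
  rw [e1, integral_const_mul, prod_int (fun x : ℝ => a 0 Λs x ^ 2) (fun y : ℝ => win (y / P) ^ 2),
    e2]
  have hm := hp.mass
  have h3 : 0 ≤ Λs * (P * ∫ y, win y ^ 2) := by positivity
  calc (∫ y, win y ^ 2) * κ * Λs * P = κ * (Λs * (P * ∫ y, win y ^ 2)) := by ring
    _ ≤ (∫ x, a 0 Λs x ^ 2) * (Λs * (P * ∫ y, win y ^ 2)) := mul_le_mul_of_nonneg_right hm h3
    _ = _ := by ring

end Pool.Agent.YUR
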