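import Pool.Agent.YUB.Base
import Pool.Agent.YUT.PBase

/-!
# [YUR] Unbounded growth in `C^{1,α}` near every state: auxiliary notions

The plane is `ℂ`, `z = x + i y`; `pb f g = f_x g_y - f_y g_x`, `perp f = (-f_y, f_x)`.
-/

open MeasureTheory Set Filter Topology
open scoped ContDiff

namespace Pool.Agent.YUR

open Pool.Agent.YUD Pool.Agent.YUT Pool.Agent.YUB

/-- the cubic form with the coefficients `k` -/
noncomputable def cub (k : Fin 4 → ℝ) (z : ℂ) : ℝ :=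
  k 0 * z.re ^ 3 + k 1 * (z.re ^ 2 * z.im) + k 2 * (z.re * z.im ^ 2) + k 3 * z.im ^ 3

/-- `γ f_xx + 2 μ f_xy + ν f_yy` -/
noncomputable def lapG (γ μ ν : ℝ) (f : ℂ → ℝ) (z : ℂ) : ℝ :=
  γ * dx (dx f) z + 2 * μ * dx (dy f) z + ν * dy (dy f) z

/-- the relative stream function in the frame, at scale `r` -/
noncomputable def zet (α r : ℝ) (k : Fin 4 → ℝ) (s : ℂ → ℝ) (z : ℂ) : ℝ :=
  r * cub k z + r ^ (1 + α) * s z

/-- the vorticity in the frame, at scale `r` -/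
noncomputable def omg (α r β g : ℝ) (η : ℂ → ℝ) (z : ℂ) : ℝ :=
  g + r * β * z.im + r ^ (1 + α) * η z

/-- the picture at one time (section 2 of the paper; the bounds do not depend on the scale `r`) -/
structure Slc (α C R : ℝ) (k : Fin 4 → ℝ) (γ μ ν : ℝ) (s η : ℂ → ℝ) : Prop where
  k_le : ∀ i, |k i| ≤ C
  γ_lo : 1 ≤ C * γ
  γ_le : γ ≤ C
  μ_le : |μ| ≤ C
  ν_le : |ν| ≤ C
  s_c2 : ContDiffOn ℝ 2 s (Metric.ball 0 R)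
  s_le : ∀ z ∈ Metric.ball (0 : ℂ) R, |s z| ≤ C * ‖z‖ ^ (3 + α)
  ds_le : ∀ z ∈ Metric.ball (0 : ℂ) R, ‖fderiv ℝ s z‖ ≤ C * ‖z‖ ^ (2 + α)
  η_c1 : ContDiffOn ℝ 1 η (Metric.ball 0 R)
  η_le : ∀ z ∈ Metric.ball (0 : ℂ) R, |η z| ≤ C * ‖z‖ ^ (1 + α)
  dη_le : ∀ z ∈ Metric.ball (0 : ℂ) R, ∀ z' ∈ Metric.ball (0 : ℂ) R,
    ‖fderiv ℝ η z - fderiv ℝ η z'‖ ≤ C * ‖z - z'‖ ^ α
  lap_s : ∀ z ∈ Metric.ball (0 : ℂ) R, lapG γ μ ν s z = η z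

/-- the picture of the flow near one particle at scale `r`: `w` is the initial vorticity near the
particle (in the rotated and rescaled label variable), `Y t y` the position of the label `y` in the
moving frame. All functions of `t` are extended to `t < 0`. -/
structure Pic (α C R r β g : ℝ) (w : ℂ → ℝ) (k : ℝ → Fin 4 → ℝ) (γ μ ν : ℝ → ℝ)
    (s η : ℝ → ℂ → ℝ) (Y : ℝ → ℂ → ℂ) : Prop where
  one_le : 1 ≤ C
  r_pos : 0 < r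
  r_le : r ≤ 1
  β_pos : 0 < β
  β_le : β ≤ C
  slc : ∀ t, Slc α C R (k t) (γ t) (μ t) (ν t) (s t) (η t)
  k_cont : Continuous k
  γ_cont : Continuous γ
  start : ∀ y, ‖y‖ < R / C → Y 0 y = y
  Y_le : ∀ t, 0 ≤ t → ∀ y, ‖y‖ < R / C → ‖Y t y‖ ≤ C * ‖y‖
  ode : ∀ t, 0 ≤ t → ∀ y, ‖y‖ < R / C →
    HasDerivWithinAt (fun t' => Y t' y) (perp (zet α r (k t) (s t)) (Y t y)) (Ici 0) t
  vort : ∀ t, 0 ≤ t → ∀ y, ‖y‖ < R / C →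
    β * (Y t y).im + r ^ α * η t (Y t y) = β * y.im + r ^ α * η 0 y
  transport : ∀ H : ℝ → ℂ → ℝ, ContDiff ℝ 1 (fun p : ℝ × ℂ => H p.1 p.2) →
    (∀ t z, R / C ≤ ‖z‖ → H t z = 0) → ∀ t, 0 ≤ t →
      (∫ z, omg α r β g (η t) z * H t z) - (∫ y, w y * H 0 y) =
        ∫ τ in (0 : ℝ)..t, ∫ z, omg α r β g (η τ) z *
          (deriv (fun t' => H t' z) τ + pb (zet α r (k τ) (s τ)) (H τ) z)

/-- packets (section 4 of the paper): `a j = a j Λ x`, `e = e Λ x` -/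
structure Packet (B κ S Λs τ N : ℝ) (a : ℕ → ℝ → ℝ → ℝ) (e : ℝ → ℝ → ℝ) : Prop where
  smooth : ∀ j, ContDiff ℝ ∞ (fun p : ℝ × ℝ => a j p.1 p.2)
  e_smooth : ContDiff ℝ ∞ (fun p : ℝ × ℝ => e p.1 p.2)
  supp : ∀ j Λ x, N ≤ |x| → a j Λ x = 0
  e_supp : ∀ Λ x, N ≤ |x| → e Λ x = 0
  chain : ∀ j, j < 8 → ∀ Λ x, HasDerivAt (a (j + 1) Λ) (a j Λ x) x
  time : ∀ Λ x, HasDerivAt (fun Λ' => a 0 Λ' x) (a 1 Λ x + e Λ x) Λ
  e_van : ∀ i : ℕ, i ≤ 3 → ∀ Λ, ∫ x, x ^ i * e Λ x = 0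
  mom : ∀ j, j ≤ 8 → ∀ Λ, 0 ≤ Λ → Λ ≤ Λs → ∫ x, (1 + |x|) ^ 5 * |a j Λ x| ≤ S
  e_mom : ∀ Λ, 0 ≤ Λ → Λ ≤ Λs → ∫ x, (1 + |x|) ^ 2 * |e Λ x| ≤ τ
  focus : ∫ x, (1 + |x|) ^ 2 * |a 0 0 x| ≤ B
  disp0 : ∀ x, |a 0 Λs x| ≤ B / √Λs
  disp1 : ∀ x, |deriv (a 0 Λs) x| ≤ B / √Λs
  disp2 : ∀ x, |deriv (deriv (a 0 Λs)) x| ≤ B / √Λs
  mass : κ ≤ ∫ x, a 0 Λs x ^ 2

/-- the window: smooth, with values in `[0,1]`, zero outside `(1,2)`, equal to `1` at `3/2` -/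
noncomputable def win (y : ℝ) : ℝ :=
  Real.smoothTransition (3 * (y - 1)) * Real.smoothTransition (3 * (2 - y))

/-- test functions `a(x) V(y/P)` -/
noncomputable def tst (a : ℝ → ℝ) (P : ℝ) (z : ℂ) : ℝ := a z.re * win (z.im / P)

/-- the wave property (P) of the paper, for a family of profiles -/
def Wavy {ι : Type} (δ α : ℝ) (U : ι → ℂ → ℝ) (w : ℂ → ℝ) : Prop :=
  ∀ i, ∀ ε > 0, ∃ r : ℝ, 0 < r ∧ r < ε ∧
    δ * r ^ (1 + α) * (∫ z, U i z ^ 2) ≤ |∫ z, w ((r : ℂ) * z) * U i z|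

/-- profiles of waves: `C²`, with uniformly bounded derivatives, compactly supported, zero near the
origin, of mean zero -/
structure WProf (B : ℝ) (U : ℂ → ℝ) : Prop where
  smooth : ContDiff ℝ 2 U
  near : ∀ z, ‖z‖ < 1 → U z = 0
  supp : ∃ ρ : ℝ, ∀ z, ρ ≤ ‖z‖ → U z = 0
  abs_le : ∀ z, |U z| ≤ B
  fderiv_le : ∀ z, ‖fderiv ℝ U z‖ ≤ B
  fderiv_lip : ∀ z z', ‖fderiv ℝ U z - fderiv ℝ U z'‖ ≤ B * ‖z - z'‖
  mean : ∫ z, U z = 0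

/-- the complex gradient `ψ_x - i ψ_y` -/
noncomputable def wg (ψ : ℂ → ℝ) (x : ℂ) : ℂ := ⟨dx ψ x, -dy ψ x⟩

/-- the linear part of the velocity `i conj(ψ_x - i ψ_y)` if `b v + (g/2) conj v` is the linear part
of the complex gradient -/
noncomputable def vel (b : ℂ) (g : ℝ) (v : ℂ) : ℂ :=
  Complex.I * (starRingEnd ℂ) (b * v + ((g / 2 : ℝ) : ℂ) * (starRingEnd ℂ) v)

/-- the linear map with the columns `p`, `q` -/
noncomputable def lmap (p q z : ℂ) : ℂ := z.re * p + z.im * q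

/-- the inverse of `lmap p q` if `wed p q = 1` -/
noncomputable def linv (p q w : ℂ) : ℂ := ⟨wed w q, wed p w⟩

/-- the coefficients of the cubic form `z ↦ Re(b v³)/3 + Re(a v)|v|²/4`, `v = lmap p q z` -/
noncomputable def kof (b a p q : ℂ) : Fin 4 → ℝ :=
  ![(b * p ^ 3).re / 3 + (a * p).re * ‖p‖ ^ 2 / 4,
    (b * (p ^ 2 * q)).re + (2 * (a * p).re * (p * (starRingEnd ℂ) q).re + (a * q).re * ‖p‖ ^ 2) / 4,
    (b * (p * q ^ 2)).re + ((a * p).re * ‖q‖ ^ 2 + 2 * (a * q).re * (p * (starRingEnd ℂ) q).re) / 4,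
    (b * q ^ 3).re / 3 + (a * q).re * ‖q‖ ^ 2 / 4]

/-- the remainder of the expansion of the complex gradient at `c` -/
noncomputable def wrem (ψ : ℂ → ℝ) (c b₁ b₂ a v : ℂ) : ℂ :=
  wg ψ (c + v) - wg ψ c - b₁ * v - ((lap ψ c / 2 : ℝ) : ℂ) * (starRingEnd ℂ) v - b₂ * v ^ 2 -
    (a / 2) * (v * (starRingEnd ℂ) v) - ((starRingEnd ℂ) a / 4) * (starRingEnd ℂ) v ^ 2

/-- the remainder of the expansion of the stream function at `c` -/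
noncomputable def srem (ψ : ℂ → ℝ) (c b₁ b₂ a v : ℂ) : ℝ :=
  ψ (c + v) - ψ c - (wg ψ c * v).re - (b₁ * v ^ 2).re / 2 - lap ψ c / 4 * ‖v‖ ^ 2 -
    (b₂ * v ^ 3).re / 3 - (a * v).re * ‖v‖ ^ 2 / 4

end Pool.Agent.YUR
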