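import Pool.Agent.YUR.Defs
import Pool.Agent.YUB.C3

open MeasureTheory Set Filter Topology
open scoped ContDiff

namespace Pool.Agent.YUR

open Pool.Agent.YUD Pool.Agent.YUT Pool.Agent.YUB

private noncomputable def F1a_pol (k0 k1 k2 k3 k4 k5 k6 k7 k8 k9 : ℝ) (z : ℂ) : ℝ :=
  k0 + k1 * z.re + k2 * z.im + k3 * z.re ^ 2 + k4 * (z.re * z.im) + k5 * z.im ^ 2 +
    k6 * z.re ^ 3 + k7 * (z.re ^ 2 * z.im) + k8 * (z.re * z.im ^ 2) + k9 * z.im ^ 3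

private theorem F1a_pol_hasFDerivAt (k0 k1 k2 k3 k4 k5 k6 k7 k8 k9 : ℝ) (z : ℂ) :
    HasFDerivAt (F1a_pol k0 k1 k2 k3 k4 k5 k6 k7 k8 k9)
      (F1a_pol k1 (2 * k3) k4 (3 * k6) (2 * k7) k8 0 0 0 0 z • Complex.reCLM +
        F1a_pol k2 k4 (2 * k5) k7 (2 * k8) (3 * k9) 0 0 0 0 z • Complex.imCLM) z := by
  have hx : HasFDerivAt (fun z : ℂ => z.re) Complex.reCLM z := Complex.reCLM.hasFDerivAt
  have hy : HasFDerivAt (fun z : ℂ => z.im) Complex.imCLM z := Complex.imCLM.hasFDerivAt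
  have h := ((((((((((hasFDerivAt_const k0 z).add (hx.const_mul k1)).add (hy.const_mul k2)).add
    ((hx.pow 2).const_mul k3)).add ((hx.mul hy).const_mul k4)).add ((hy.pow 2).const_mul k5)).add
    ((hx.pow 3).const_mul k6)).add (((hx.pow 2).mul hy).const_mul k7)).add
    ((hx.mul (hy.pow 2)).const_mul k8)).add ((hy.pow 3).const_mul k9))
  refine (h.congr_fderiv ?_)
  apply ContinuousLinearMap.ext
  intro w
  simp [F1a_pol]
  ring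

private theorem F1a_pol_dx (k0 k1 k2 k3 k4 k5 k6 k7 k8 k9 : ℝ) (z : ℂ) :
    dx (F1a_pol k0 k1 k2 k3 k4 k5 k6 k7 k8 k9) z =
      F1a_pol k1 (2 * k3) k4 (3 * k6) (2 * k7) k8 0 0 0 0 z := by
  unfold dx
  rw [(F1a_pol_hasFDerivAt k0 k1 k2 k3 k4 k5 k6 k7 k8 k9 z).fderiv]
  simp

private theorem F1a_pol_dy (k0 k1 k2 k3 k4 k5 k6 k7 k8 k9 : ℝ) (z : ℂ) :
    dy (F1a_pol k0 k1 k2 k3 k4 k5 k6 k7 k8 k9) z =
      F1a_pol k2 k4 (2 * k5) k7 (2 * k8) (3 * k9) 0 0 0 0 z := by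
  unfold dy
  rw [(F1a_pol_hasFDerivAt k0 k1 k2 k3 k4 k5 k6 k7 k8 k9 z).fderiv]
  simp

private theorem F1a_pol_lap (k0 k1 k2 k3 k4 k5 k6 k7 k8 k9 : ℝ) (z : ℂ) :
    lap (F1a_pol k0 k1 k2 k3 k4 k5 k6 k7 k8 k9) z =
      2 * (k3 + k5) + 2 * (3 * k6 + k8) * z.re + 2 * (k7 + 3 * k9) * z.im := by
  unfold lap
  have h1 : dx (F1a_pol k0 k1 k2 k3 k4 k5 k6 k7 k8 k9) =
      F1a_pol k1 (2 * k3) k4 (3 * k6) (2 * k7) k8 0 0 0 0 := by
    funext u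
    exact F1a_pol_dx _ _ _ _ _ _ _ _ _ _ u
  have h2 : dy (F1a_pol k0 k1 k2 k3 k4 k5 k6 k7 k8 k9) =
      F1a_pol k2 k4 (2 * k5) k7 (2 * k8) (3 * k9) 0 0 0 0 := by
    funext u
    exact F1a_pol_dy _ _ _ _ _ _ _ _ _ _ u
  rw [h1, h2, F1a_pol_dx, F1a_pol_dy]
  unfold F1a_pol
  ring

private theorem F1a_pol_contDiff (k0 k1 k2 k3 k4 k5 k6 k7 k8 k9 : ℝ) :
    ContDiff ℝ 2 (F1a_pol k0 k1 k2 k3 k4 k5 k6 k7 k8 k9) := by
  have hx : ContDiff ℝ 2 (fun z : ℂ => z.re) := Complex.reCLM.contDiff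
  have hy : ContDiff ℝ 2 (fun z : ℂ => z.im) := Complex.imCLM.contDiff
  unfold F1a_pol
  fun_prop

private theorem F1a_srem (ψ : ℂ → ℝ) (c b₁ b₂ a v : ℂ) :
    srem ψ c b₁ b₂ a v = ψ (c + v) - F1a_pol (ψ c) (wg ψ c).re (-(wg ψ c).im)
      (b₁.re / 2 + lap ψ c / 4) (-b₁.im) (-b₁.re / 2 + lap ψ c / 4) (b₂.re / 3 + a.re / 4)
      (-b₂.im - a.im / 4) (-b₂.re + a.re / 4) (b₂.im / 3 - a.im / 4) v := by
  have hn : ‖v‖ ^ 2 = v.re ^ 2 + v.im ^ 2 := by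
    rw [← Complex.normSq_eq_norm_sq, Complex.normSq_apply]
    ring
  unfold srem F1a_pol
  rw [hn]
  simp only [Complex.mul_re, Complex.mul_im, pow_succ, pow_zero, one_mul]
  ring

/-- [YUR-F1a] the complex gradient of `srem` is `wrem`: `fderiv ℝ ψ x w = (w * wg ψ x).re` (`grad_facts`,
`YUB/C3.lean`), the polynomials are differentiated explicitly: with `2 Re X Re Y = Re(XY) + Re(X conj Y)` the
derivative of `Re(a v)|v|²/4` in direction `w` is `|v|² Re(a w)/2 + Re(conj a (conj v)² w)/4`. -/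
theorem srem_grad {ψ : ℂ → ℝ} {c b₁ b₂ a v : ℂ} (hd : DifferentiableAt ℝ ψ (c + v)) :
    DifferentiableAt ℝ (srem ψ c b₁ b₂ a) v ∧
      ∀ w, fderiv ℝ (srem ψ c b₁ b₂ a) v w = (w * wrem ψ c b₁ b₂ a v).re := by
  have h1 : HasFDerivAt (fun v => ψ (c + v)) (fderiv ℝ ψ (c + v)) v := by
    have h := hd.hasFDerivAt.comp v ((hasFDerivAt_id v).const_add c)
    exact h.congr_fderiv (by ext w; simp)
  have h2 := F1a_pol_hasFDerivAt (ψ c) (wg ψ c).re (-(wg ψ c).im)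
      (b₁.re / 2 + lap ψ c / 4) (-b₁.im) (-b₁.re / 2 + lap ψ c / 4) (b₂.re / 3 + a.re / 4)
      (-b₂.im - a.im / 4) (-b₂.re + a.re / 4) (b₂.im / 3 - a.im / 4) v
  have h3 := h1.sub h2
  have he : srem ψ c b₁ b₂ a = (fun v => ψ (c + v)) - F1a_pol (ψ c) (wg ψ c).re (-(wg ψ c).im)
      (b₁.re / 2 + lap ψ c / 4) (-b₁.im) (-b₁.re / 2 + lap ψ c / 4) (b₂.re / 3 + a.re / 4)
      (-b₂.im - a.im / 4) (-b₂.re + a.re / 4) (b₂.im / 3 - a.im / 4) := by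
    funext v
    exact F1a_srem ψ c b₁ b₂ a v
  rw [← he] at h3
  refine ⟨h3.differentiableAt, fun w => ?_⟩
  rw [h3.fderiv]
  rw [sub_apply, fderiv_apply']
  simp [wrem, wg, F1a_pol, Complex.mul_re, Complex.mul_im, pow_succ]
  ring

/-- [YUR-F1a] integrate along the segment from `0` to `v` (`srem .. 0 = 0`): mean value inequality on
`closedBall 0 ‖v‖`, where `‖fderiv‖ ≤ C ‖v‖^(2+α)`. -/
theorem srem_le {α C ρ : ℝ} (hα : 0 < α) (hC : 0 ≤ C) {ψ : ℂ → ℝ} {c b₁ b₂ a : ℂ}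
    (hd : ∀ v : ℂ, ‖v‖ < ρ → DifferentiableAt ℝ ψ (c + v))
    (h : ∀ v : ℂ, ‖v‖ < ρ → ‖wrem ψ c b₁ b₂ a v‖ ≤ C * ‖v‖ ^ (2 + α)) :
    ∀ v : ℂ, ‖v‖ < ρ → |srem ψ c b₁ b₂ a v| ≤ C * ‖v‖ ^ (3 + α) := by
  intro v hv
  have h0 : srem ψ c b₁ b₂ a 0 = 0 := by
    simp [srem]
  have hle : ∀ u ∈ Metric.closedBall (0 : ℂ) ‖v‖, ‖u‖ ≤ ‖v‖ := by
    intro u hu
    simpa using hu
  have h1 : ∀ u ∈ Metric.closedBall (0 : ℂ) ‖v‖, DifferentiableAt ℝ (srem ψ c b₁ b₂ a) u :=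
    fun u hu => (srem_grad (hd u ((hle u hu).trans_lt hv))).1
  have h2 : ∀ u ∈ Metric.closedBall (0 : ℂ) ‖v‖,
      ‖fderiv ℝ (srem ψ c b₁ b₂ a) u‖ ≤ C * ‖v‖ ^ (2 + α) := by
    intro u hu
    have h3 := h u ((hle u hu).trans_lt hv)
    have h4 : ‖u‖ ^ (2 + α) ≤ ‖v‖ ^ (2 + α) :=
      Real.rpow_le_rpow (norm_nonneg _) (hle u hu) (by linarith)
    have h5 : ‖wrem ψ c b₁ b₂ a u‖ ≤ C * ‖v‖ ^ (2 + α) :=
      h3.trans (mul_le_mul_of_nonneg_left h4 hC)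
    refine ContinuousLinearMap.opNorm_le_bound _ (by positivity) fun w => ?_
    rw [(srem_grad (hd u ((hle u hu).trans_lt hv))).2 w, Real.norm_eq_abs]
    refine (Complex.abs_re_le_norm _).trans ?_
    rw [norm_mul, mul_comm]
    exact mul_le_mul_of_nonneg_right h5 (norm_nonneg _)
  have h3 := Convex.norm_image_sub_le_of_norm_fderiv_le h1 h2 (convex_closedBall (0 : ℂ) ‖v‖)
    (Metric.mem_closedBall_self (norm_nonneg v)) (by simp : v ∈ Metric.closedBall (0 : ℂ) ‖v‖)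
  rw [h0, sub_zero, sub_zero, Real.norm_eq_abs, mul_assoc,
    ← Real.rpow_add_one' (norm_nonneg v) (by linarith)] at h3
  have he : 2 + α + 1 = 3 + α := by ring
  rwa [he] at h3

/-- [YUR-F1a] the Laplacian of `srem` -/
theorem lap_srem {M : Set ℂ} (hM : IsOpen M) {ψ : ℂ → ℝ} (hψ : ContDiffOn ℝ 2 ψ M)
    {c b₁ b₂ a v : ℂ} (hv : c + v ∈ M) :
    lap (srem ψ c b₁ b₂ a) v = lap ψ (c + v) - lap ψ c - 2 * (a * v).re := by
  have he : srem ψ c b₁ b₂ a = fun v => (fun v => ψ (c + v)) v -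
      F1a_pol (ψ c) (wg ψ c).re (-(wg ψ c).im)
      (b₁.re / 2 + lap ψ c / 4) (-b₁.im) (-b₁.re / 2 + lap ψ c / 4) (b₂.re / 3 + a.re / 4)
      (-b₂.im - a.im / 4) (-b₂.re + a.re / 4) (b₂.im / 3 - a.im / 4) v := by
    funext v
    exact F1a_srem ψ c b₁ b₂ a v
  have hN : IsOpen ((fun v => c + v) ⁻¹' M) := hM.preimage (by fun_prop)
  have hψ2 : ContDiffOn ℝ 2 (fun v => ψ (c + v)) ((fun v => c + v) ⁻¹' M) :=
    hψ.comp (by fun_prop) (fun x hx => hx)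
  have hx : ∀ f : ℂ → ℝ, dx (fun v => f (c + v)) = fun v => dx f (c + v) := by
    intro f
    funext u
    unfold dx
    rw [fderiv_comp_add_left]
  have hy : ∀ f : ℂ → ℝ, dy (fun v => f (c + v)) = fun v => dy f (c + v) := by
    intro f
    funext u
    unfold dy
    rw [fderiv_comp_add_left]
  have hl : lap (fun v => ψ (c + v)) v = lap ψ (c + v) := by
    unfold lap
    rw [hx, hx, hy, hy]
  rw [he, lap_sub hN hψ2 (F1a_pol_contDiff _ _ _ _ _ _ _ _ _ _).contDiffOn hv, hl, F1a_pol_lap,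
    Complex.mul_re]
  ring

end Pool.Agent.YUR
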