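import Pool.Agent.YUR.Defs
import Pool.Agent.YUB.D1

open MeasureTheory Set Filter Topology
open scoped ContDiff

namespace Pool.Agent.YUR

open Pool.Agent.YUD Pool.Agent.YUT Pool.Agent.YUB

private theorem F1b_det (A : ℂ →L[ℝ] ℂ) :
    A.det = (A 1).re * (A Complex.I).im - (A Complex.I).re * (A 1).im := by
  have h : A.det = LinearMap.det (A : ℂ →ₗ[ℝ] ℂ) := rfl
  rw [h, ← LinearMap.det_toMatrix Complex.basisOneI, Matrix.det_fin_two]
  simp [LinearMap.toMatrix_apply, Complex.coe_basisOneI_repr, Complex.coe_basisOneI]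

/-- [YUR-F1b] `lmap p q` is real linear -/
theorem lmap_facts (p q : ℂ) : ∃ A : ℂ →L[ℝ] ℂ, (∀ z, A z = lmap p q z) ∧ A 1 = p ∧
    A Complex.I = q ∧ A.det = wed p q := by
  have h : ∀ z : ℂ, (Complex.reCLM.smulRight p + Complex.imCLM.smulRight q) z = lmap p q z := by
    intro z
    simp [lmap]
  have h1 : (Complex.reCLM.smulRight p + Complex.imCLM.smulRight q) (1 : ℂ) = p := by
    simp
  have h2 : (Complex.reCLM.smulRight p + Complex.imCLM.smulRight q) Complex.I = q := by
    simp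
  refine ⟨Complex.reCLM.smulRight p + Complex.imCLM.smulRight q, h, h1, h2, ?_⟩
  rw [F1b_det, h1, h2]
  unfold wed
  ring

theorem linv_lmap {p q : ℂ} (h : wed p q = 1) (z : ℂ) : linv p q (lmap p q z) = z := by
  unfold wed at h
  apply Complex.ext
  · simp only [linv, lmap, wed, Complex.add_re, Complex.add_im, Complex.mul_re, Complex.mul_im,
      Complex.ofReal_re, Complex.ofReal_im]
    linear_combination z.re * h
  · simp only [linv, lmap, wed, Complex.add_re, Complex.add_im, Complex.mul_re, Complex.mul_im,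
      Complex.ofReal_re, Complex.ofReal_im]
    linear_combination z.im * h

theorem lmap_linv {p q : ℂ} (h : wed p q = 1) (w : ℂ) : lmap p q (linv p q w) = w := by
  unfold wed at h
  apply Complex.ext
  · simp only [linv, lmap, wed, Complex.add_re, Complex.add_im, Complex.mul_re, Complex.mul_im,
      Complex.ofReal_re, Complex.ofReal_im]
    linear_combination w.re * h
  · simp only [linv, lmap, wed, Complex.add_re, Complex.add_im, Complex.mul_re, Complex.mul_im,
      Complex.ofReal_re, Complex.ofReal_im]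
    linear_combination w.im * h

/-- [YUR-F1b] from `le_of_det` (`YUB/D1.lean`) -/
theorem lmap_lower {p q : ℂ} (h : wed p q = 1) {L : ℝ} (hL : ∀ z, ‖lmap p q z‖ ≤ L * ‖z‖) (z : ℂ) :
    ‖z‖ ≤ L * ‖lmap p q z‖ := by
  obtain ⟨A, hA, -, -, hdet⟩ := lmap_facts p q
  have hL0 : 0 ≤ L := by
    have h1 := hL 1
    rw [norm_one, mul_one] at h1
    exact (norm_nonneg _).trans h1
  have h1 : ‖A‖ ≤ L := A.opNorm_le_bound hL0 (fun x => by rw [hA]; exact hL x)
  have h2 := le_of_det (A := A) (by rw [hdet, h]) h1 z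
  rwa [hA] at h2

/-- [YUR-F1b] the Laplacian in the frame. Chain rule: with `F' = F ∘ lmap p q` one has
`dx F' = (fderiv F (lmap z)) p`, `dy F' = (fderiv F (lmap z)) q`, second derivatives `D²F(p,p)`, `D²F(p,q)`,
`D²F(q,q)`; and `|q|² p⊗p - ⟨p,q⟩(p⊗q + q⊗p) + |p|² q⊗q = (wed p q)² Id`. Symmetry of the second derivative:
`dx_dy_comm` (YUD). -/
theorem lapG_comp {U : Set ℂ} (hU : IsOpen U) {F : ℂ → ℝ} (hF : ContDiffOn ℝ 2 F U) {p q z : ℂ}
    (hdet : wed p q = 1) (hz : lmap p q z ∈ U) :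
    lapG (‖q‖ ^ 2) (-(p.re * q.re + p.im * q.im)) (‖p‖ ^ 2) (fun z => F (lmap p q z)) z =
      lap F (lmap p q z) := by
  obtain ⟨A, hA, hA1, hAI, -⟩ := lmap_facts p q
  have hAe : (fun z => F (lmap p q z)) = fun z => F (A z) := by
    funext z
    rw [hA]
  have hcomp : ∀ G : ℂ → ℝ, ∀ y : ℂ, DifferentiableAt ℝ G (A y) → ∀ w : ℂ,
      fderiv ℝ (fun z => G (A z)) y w = fderiv ℝ G (A y) (A w) := by
    intro G y hG w
    have h1 := hG.hasFDerivAt.comp y A.hasFDerivAt
    have h2 : (fun z => G (A z)) = G ∘ A := rfl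
    rw [h2, h1.fderiv]
    rfl
  have hopen : IsOpen (A ⁻¹' U) := hU.preimage A.continuous
  have hz' : z ∈ A ⁻¹' U := by
    rw [mem_preimage, hA]
    exact hz
  have hx1 : ContDiffOn ℝ 1 (dx F) U := contDiffOn_dx (n := 1) hU hF
  have hy1 : ContDiffOn ℝ 1 (dy F) U := contDiffOn_dy (n := 1) hU hF
  have hFd : ∀ y ∈ U, DifferentiableAt ℝ F y := fun y hy =>
    (hF.contDiffAt (hU.mem_nhds hy)).differentiableAt two_ne_zero
  have hxd : ∀ y ∈ U, DifferentiableAt ℝ (dx F) y := fun y hy =>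
    (hx1.contDiffAt (hU.mem_nhds hy)).differentiableAt one_ne_zero
  have hyd : ∀ y ∈ U, DifferentiableAt ℝ (dy F) y := fun y hy =>
    (hy1.contDiffAt (hU.mem_nhds hy)).differentiableAt one_ne_zero
  have e1 : ∀ y ∈ A ⁻¹' U, dx (fun z => F (A z)) y = p.re * dx F (A y) + p.im * dy F (A y) := by
    intro y hy
    unfold dx
    rw [hcomp F y (hFd _ hy), hA1, fderiv_apply']
    rfl
  have e2 : ∀ y ∈ A ⁻¹' U, dy (fun z => F (A z)) y = q.re * dx F (A y) + q.im * dy F (A y) := by
    intro y hy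
    unfold dy
    rw [hcomp F y (hFd _ hy), hAI, fderiv_apply']
    rfl
  have dxd : ∀ y ∈ A ⁻¹' U, DifferentiableAt ℝ (fun z => dx F (A z)) y := by
    intro y hy
    exact DifferentiableAt.comp y (hxd _ hy) A.differentiableAt
  have dyd : ∀ y ∈ A ⁻¹' U, DifferentiableAt ℝ (fun z => dy F (A z)) y := by
    intro y hy
    exact DifferentiableAt.comp y (hyd _ hy) A.differentiableAt
  have k1 : ∀ w : ℂ, fderiv ℝ (dx (fun z => F (A z))) z w =
      p.re * (w.re * (p.re * dx (dx F) (A z) + p.im * dy (dx F) (A z)) +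
        w.im * (q.re * dx (dx F) (A z) + q.im * dy (dx F) (A z))) +
      p.im * (w.re * (p.re * dx (dy F) (A z) + p.im * dy (dy F) (A z)) +
        w.im * (q.re * dx (dy F) (A z) + q.im * dy (dy F) (A z))) := by
    intro w
    have hAw : A w = w.re • p + w.im • q := by
      rw [hA]
      simp [lmap]
    rw [fderiv_congr_on hopen e1 hz',
      fderiv_fun_add ((dxd z hz').const_mul _) ((dyd z hz').const_mul _),
      fderiv_const_mul (dxd z hz'), fderiv_const_mul (dyd z hz')]
    simp only [ContinuousLinearMap.add_apply, ContinuousLinearMap.smul_apply, smul_eq_mul]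
    rw [hcomp (dx F) z (hxd _ hz'), hcomp (dy F) z (hyd _ hz'), fderiv_apply', fderiv_apply', hAw]
    simp only [Complex.add_re, Complex.add_im, Complex.real_smul, Complex.mul_re, Complex.mul_im,
      Complex.ofReal_re, Complex.ofReal_im]
    ring
  have k2 : ∀ w : ℂ, fderiv ℝ (dy (fun z => F (A z))) z w =
      q.re * (w.re * (p.re * dx (dx F) (A z) + p.im * dy (dx F) (A z)) +
        w.im * (q.re * dx (dx F) (A z) + q.im * dy (dx F) (A z))) +
      q.im * (w.re * (p.re * dx (dy F) (A z) + p.im * dy (dy F) (A z)) +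
        w.im * (q.re * dx (dy F) (A z) + q.im * dy (dy F) (A z))) := by
    intro w
    have hAw : A w = w.re • p + w.im • q := by
      rw [hA]
      simp [lmap]
    rw [fderiv_congr_on hopen e2 hz',
      fderiv_fun_add ((dxd z hz').const_mul _) ((dyd z hz').const_mul _),
      fderiv_const_mul (dxd z hz'), fderiv_const_mul (dyd z hz')]
    simp only [ContinuousLinearMap.add_apply, ContinuousLinearMap.smul_apply, smul_eq_mul]
    rw [hcomp (dx F) z (hxd _ hz'), hcomp (dy F) z (hyd _ hz'), fderiv_apply', fderiv_apply', hAw]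
    simp only [Complex.add_re, Complex.add_im, Complex.real_smul, Complex.mul_re, Complex.mul_im,
      Complex.ofReal_re, Complex.ofReal_im]
    ring
  have hsym : dx (dy F) (A z) = dy (dx F) (A z) := dx_dy_comm hU hF hz'
  have hn : ∀ u : ℂ, ‖u‖ ^ 2 = u.re ^ 2 + u.im ^ 2 := by
    intro u
    rw [← Complex.normSq_eq_norm_sq, Complex.normSq_apply]
    ring
  have l1 : dx (dx (fun z => F (A z))) z = _ := k1 1
  have l2 : dx (dy (fun z => F (A z))) z = _ := k2 1
  have l3 : dy (dy (fun z => F (A z))) z = _ := k2 Complex.I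
  rw [hAe, ← hA]
  unfold lapG lap
  rw [l1, l2, l3, hsym, hn, hn]
  simp only [Complex.one_re, Complex.one_im, Complex.I_re, Complex.I_im]
  unfold wed at hdet
  generalize dx (dx F) (A z) = X
  generalize dy (dx F) (A z) = Y
  generalize dy (dy F) (A z) = Z
  linear_combination (X + Z) * (p.re * q.im - p.im * q.re + 1) * hdet

/-- [YUR-F1b] -/
theorem fderiv_comp_lmap_le {F : ℂ → ℝ} {p q z : ℂ} {L : ℝ} (hL : ∀ z, ‖lmap p q z‖ ≤ L * ‖z‖)
    (hF : DifferentiableAt ℝ F (lmap p q z)) :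
    (∀ w, fderiv ℝ (fun z => F (lmap p q z)) z w = fderiv ℝ F (lmap p q z) (lmap p q w)) ∧
      ‖fderiv ℝ (fun z => F (lmap p q z)) z‖ ≤ L * ‖fderiv ℝ F (lmap p q z)‖ := by
  obtain ⟨A, hA, -, -, -⟩ := lmap_facts p q
  have hL0 : 0 ≤ L := by
    have h1 := hL 1
    rw [norm_one, mul_one] at h1
    exact (norm_nonneg _).trans h1
  have hAe : (fun z => F (lmap p q z)) = F ∘ A := by
    funext z
    rw [Function.comp_apply, hA]
  rw [← hA] at hF
  have h1 := hF.hasFDerivAt.comp z A.hasFDerivAt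
  have h2 : ∀ w, fderiv ℝ (fun z => F (lmap p q z)) z w = fderiv ℝ F (lmap p q z) (lmap p q w) := by
    intro w
    rw [hAe, h1.fderiv, ← hA, ← hA]
    rfl
  refine ⟨h2, ?_⟩
  refine ContinuousLinearMap.opNorm_le_bound _ (mul_nonneg hL0 (norm_nonneg _)) fun w => ?_
  rw [h2]
  refine ((fderiv ℝ F (lmap p q z)).le_opNorm _).trans ?_
  calc ‖fderiv ℝ F (lmap p q z)‖ * ‖lmap p q w‖ ≤ ‖fderiv ℝ F (lmap p q z)‖ * (L * ‖w‖) :=
        mul_le_mul_of_nonneg_left (hL w) (norm_nonneg _)
    _ = L * ‖fderiv ℝ F (lmap p q z)‖ * ‖w‖ := by ring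

end Pool.Agent.YUR
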