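import Pool.Agent.YUR.X2
import Pool.Agent.YUR.F1a
import Pool.Agent.YUR.F1b
import Pool.Agent.YUT.R2
import Pool.Agent.YUB.C3

open MeasureTheory Set Filter Topology
open scoped ContDiff

namespace Pool.Agent.YUR

open Pool.Agent.YUD Pool.Agent.YUT Pool.Agent.YUB

private theorem F1c_wg (f : ℂ → ℝ) (x v : ℂ) : fderiv ℝ f x v = (v * wg f x).re := by
  have h := (grad_facts (M := ∅) isOpen_empty (ψ := f) contDiffOn_empty).2.2.1 x v
  exact h

private theorem F1c_wg_norm (f : ℂ → ℝ) (x : ℂ) : ‖wg f x‖ ≤ ‖fderiv ℝ f x‖ := by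
  have h := (grad_facts (M := ∅) isOpen_empty (ψ := f) contDiffOn_empty).2.2.2 x
  exact h

/-- a Hoelder continuous derivative is continuous -/
private theorem F1c_c1 {M : Set ℂ} (hM : IsOpen M) {g : ℂ → ℝ} {K α : ℝ} (hα : 0 < α)
    (hd : DifferentiableOn ℝ g M)
    (hh : ∀ x ∈ M, ∀ y ∈ M, ‖fderiv ℝ g x - fderiv ℝ g y‖ ≤ K * ‖x - y‖ ^ α) :
    ContDiffOn ℝ 1 g M := by
  rw [show (1 : WithTop ℕ∞) = 0 + 1 from rfl, contDiffOn_succ_iff_fderiv_of_isOpen hM]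
  refine ⟨hd, by simp, ?_⟩
  rw [contDiffOn_zero]
  intro x hx
  have h1 : Tendsto (fun y : ℂ => K * ‖y - x‖ ^ α) (𝓝[M] x) (𝓝 0) := by
    have h2 : Tendsto (fun y : ℂ => ‖y - x‖) (𝓝 x) (𝓝 0) := by
      have h3 : Continuous (fun y : ℂ => ‖y - x‖) := by fun_prop
      have h4 := h3.tendsto x
      simpa using h4
    have h3 : Tendsto (fun u : ℝ => u ^ α) (𝓝 0) (𝓝 0) := by
      have h4 := (Real.continuousAt_rpow_const 0 α (Or.inr hα.le)).tendsto
      rwa [Real.zero_rpow hα.ne'] at h4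
    have h5 := ((h3.comp h2).const_mul K).mono_left (nhdsWithin_le_nhds (s := M))
    rwa [mul_zero] at h5
  rw [ContinuousWithinAt, tendsto_iff_norm_sub_tendsto_zero]
  refine squeeze_zero' (Eventually.of_forall fun y => norm_nonneg _) ?_ h1
  filter_upwards [self_mem_nhdsWithin] with y hy
  exact hh y hy x hx

private theorem F1c_re_le (z : ℂ) {B : ℝ} (h : ‖z‖ ≤ B) : |z.re| ≤ B :=
  (Complex.abs_re_le_norm z).trans h

private theorem F1c_kof {b a p q : ℂ} {D K L : ℝ} (hb : ‖b‖ ≤ D) (ha : ‖a‖ ≤ K) (hp : ‖p‖ ≤ L)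
    (hq : ‖q‖ ≤ L) (i : Fin 4) : |kof b a p q i| ≤ (D + K) * L ^ 3 := by
  have hD : 0 ≤ D := (norm_nonneg _).trans hb
  have hK : 0 ≤ K := (norm_nonneg _).trans ha
  have hL : 0 ≤ L := (norm_nonneg _).trans hp
  have n3 : ∀ x y z : ℂ, ‖x‖ ≤ L → ‖y‖ ≤ L → ‖z‖ ≤ L → |(b * (x * y * z)).re| ≤ D * L ^ 3 := by
    intro x y z hx hy hz
    refine F1c_re_le _ ?_
    rw [norm_mul, norm_mul, norm_mul]
    calc ‖b‖ * (‖x‖ * ‖y‖ * ‖z‖) ≤ D * (L * L * L) := by gcongr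
      _ = D * L ^ 3 := by ring
  have n1 : ∀ x : ℂ, ‖x‖ ≤ L → |(a * x).re| ≤ K * L := by
    intro x hx
    refine F1c_re_le _ ?_
    rw [norm_mul]
    gcongr
  have n2 : |(p * (starRingEnd ℂ) q).re| ≤ L ^ 2 := by
    refine F1c_re_le _ ?_
    rw [norm_mul, RCLike.norm_conj]
    calc ‖p‖ * ‖q‖ ≤ L * L := by gcongr
      _ = L ^ 2 := by ring
  have np : ‖p‖ ^ 2 ≤ L ^ 2 := by gcongr
  have nq : ‖q‖ ^ 2 ≤ L ^ 2 := by gcongr
  have m1 : ∀ x y : ℝ, |x| ≤ K * L → |y| ≤ L ^ 2 → |x * y| ≤ K * L ^ 3 := by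
    intro x y hx hy
    rw [abs_mul]
    calc |x| * |y| ≤ K * L * L ^ 2 := by gcongr
      _ = K * L ^ 3 := by ring
  have ap : |‖p‖ ^ 2| ≤ L ^ 2 := by rwa [abs_of_nonneg (by positivity)]
  have aq : |‖q‖ ^ 2| ≤ L ^ 2 := by rwa [abs_of_nonneg (by positivity)]
  have hDL : 0 ≤ D * L ^ 3 := by positivity
  have hKL : 0 ≤ K * L ^ 3 := by positivity
  have e1 : b * p ^ 3 = b * (p * p * p) := by ring
  have e2 : b * (p ^ 2 * q) = b * (p * p * q) := by ring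
  have e3 : b * (p * q ^ 2) = b * (p * q * q) := by ring
  have e4 : b * q ^ 3 = b * (q * q * q) := by ring
  fin_cases i
  · show |(b * p ^ 3).re / 3 + (a * p).re * ‖p‖ ^ 2 / 4| ≤ _
    rw [e1]
    have h1 := abs_le.1 (n3 p p p hp hp hp)
    have h2 := abs_le.1 (m1 _ _ (n1 p hp) ap)
    rw [abs_le]
    constructor <;> linarith
  · show |(b * (p ^ 2 * q)).re + (2 * (a * p).re * (p * (starRingEnd ℂ) q).re +
      (a * q).re * ‖p‖ ^ 2) / 4| ≤ _
    rw [e2]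
    have h1 := abs_le.1 (n3 p p q hp hp hq)
    have h2 := abs_le.1 (m1 _ _ (n1 p hp) n2)
    have h3 := abs_le.1 (m1 _ _ (n1 q hq) ap)
    rw [abs_le]
    constructor <;> linarith
  · show |(b * (p * q ^ 2)).re + ((a * p).re * ‖q‖ ^ 2 +
      2 * (a * q).re * (p * (starRingEnd ℂ) q).re) / 4| ≤ _
    rw [e3]
    have h1 := abs_le.1 (n3 p q q hp hq hq)
    have h2 := abs_le.1 (m1 _ _ (n1 q hq) n2)
    have h3 := abs_le.1 (m1 _ _ (n1 p hp) aq)
    rw [abs_le]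
    constructor <;> linarith
  · show |(b * q ^ 3).re / 3 + (a * q).re * ‖q‖ ^ 2 / 4| ≤ _
    rw [e4]
    have h1 := abs_le.1 (n3 q q q hq hq hq)
    have h2 := abs_le.1 (m1 _ _ (n1 q hq) aq)
    rw [abs_le]
    constructor <;> linarith

private theorem F1c_srem_c2 {M : Set ℂ} {ψ : ℂ → ℝ} (hψ : ContDiffOn ℝ 2 ψ M)
    (c b₁ b₂ a : ℂ) : ContDiffOn ℝ 2 (srem ψ c b₁ b₂ a) {v | c + v ∈ M} := by
  have h1 : ContDiffOn ℝ 2 (fun v => ψ (c + v)) {v | c + v ∈ M} :=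
    hψ.comp (contDiff_const.add contDiff_id).contDiffOn fun v hv => hv
  have hre : ∀ f : ℂ → ℂ, ContDiff ℝ 2 f → ContDiff ℝ 2 (fun v => (f v).re) := fun f hf =>
    Complex.reCLM.contDiff.comp hf
  have h2 : ContDiff ℝ 2 (fun v : ℂ => (wg ψ c * v).re) := hre _ (by fun_prop)
  have h3 : ContDiff ℝ 2 (fun v : ℂ => (b₁ * v ^ 2).re) := hre _ (by fun_prop)
  have h4 : ContDiff ℝ 2 (fun v : ℂ => (b₂ * v ^ 3).re) := hre _ (by fun_prop)
  have h5 : ContDiff ℝ 2 (fun v : ℂ => (a * v).re) := hre _ (by fun_prop)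
  have h6 : ContDiff ℝ 2 (fun v : ℂ => ‖v‖ ^ 2) := contDiff_norm_sq ℝ
  have h7 : ContDiff ℝ 2 (fun v : ℂ => ψ c + (wg ψ c * v).re + (b₁ * v ^ 2).re / 2 +
      lap ψ c / 4 * ‖v‖ ^ 2 + (b₂ * v ^ 3).re / 3 + (a * v).re * ‖v‖ ^ 2 / 4) :=
    ((((contDiff_const.add h2).add (h3.div_const 2)).add (contDiff_const.mul h6)).add
      (h4.div_const 3)).add ((h5.mul h6).div_const 4)
  refine (h1.sub h7.contDiffOn).congr fun v _ => ?_
  unfold srem
  ring

/-- [YUR-F1c] statics of the frame at scale 1. `W = wg ψ`, `g = lap ψ`, `a = wg (lap ψ) c / 2`, so that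
`2 Re(a v) = fderiv ℝ (lap ψ) c v` (`grad_facts`), `‖a‖ ≤ K`; the Taylor bound for `lap ψ` on `ball c ρ` is
`R2_taylor` (`YUT/R2.lean`); `expansion2` gives `b₁ b₂` (`IntegrableOn W`: `W` is continuous on the compact set
`closedBall c ρ`; `‖W‖ ≤ ‖fderiv ψ‖`). `Slc` with the radius `ρ/(8L)`: `lmap p q z` is then in the ball of radius `ρ/8`;
`s = srem ∘ lmap`: `srem_grad`, `srem_le`, `fderiv_comp_lmap_le`, `lapG_comp` with `F = srem ψ c b₁ b₂ a` and
`lap_srem`. `γ = ‖q‖² ≥ 1/L²` because `1 = wed p q ≤ ‖p‖‖q‖` (`wed_le`), `‖p‖ = ‖lmap p q 1‖ ≤ L`. `η`: derivative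
`v ↦ fderiv (lap ψ)(c + lmap z)(lmap v) - fderiv (lap ψ) c (lmap v)`; `|η| ≤ K ‖lmap z‖^(1+α)` by `R2_taylor`. The
constant `C` depends on `α, K, L, E, ρ` only (`kof` is bounded by a polynomial in the bounds of its arguments). -/
theorem static {α K L E ρ : ℝ} (hα : 0 < α) (hα1 : α < 1) (hK : 0 ≤ K) (hL : 1 ≤ L) (hE : 0 ≤ E)
    (hρ : 0 < ρ) : ∃ C : ℝ, 1 ≤ C ∧
    ∀ (M : Set ℂ) (ψ : ℂ → ℝ) (c p q : ℂ), IsOpen M → Metric.closedBall c ρ ⊆ M →
      ContDiffOn ℝ 2 ψ M → DifferentiableOn ℝ (lap ψ) M → |lap ψ c| ≤ K →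
      (∀ x ∈ M, ‖fderiv ℝ (lap ψ) x‖ ≤ K) →
      (∀ x ∈ M, ∀ y ∈ M, ‖fderiv ℝ (lap ψ) x - fderiv ℝ (lap ψ) y‖ ≤ K * ‖x - y‖ ^ α) →
      (∫ x in Metric.ball c ρ, ‖fderiv ℝ ψ x‖) ≤ E →
      wed p q = 1 → (∀ z, ‖lmap p q z‖ ≤ L * ‖z‖) →
      ∃ b₁ b₂ : ℂ, ‖b₁‖ ≤ C ∧ ‖b₂‖ ≤ C ∧
        (∀ v, ‖v‖ ≤ ρ / 8 → ‖wrem ψ c b₁ b₂ (wg (lap ψ) c / 2) v‖ ≤ C * ‖v‖ ^ (2 + α)) ∧
        Slc α C (ρ / (8 * L)) (kof b₂ (wg (lap ψ) c / 2) p q) (‖q‖ ^ 2)
          (-(p.re * q.re + p.im * q.im)) (‖p‖ ^ 2)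
          (fun z => srem ψ c b₁ b₂ (wg (lap ψ) c / 2) (lmap p q z))
          (fun z => lap ψ (c + lmap p q z) - lap ψ c - fderiv ℝ (lap ψ) c (lmap p q z)) := by
  obtain ⟨C₂, hC₂, hexp⟩ := expansion2 hα hα1 hρ
  set D : ℝ := C₂ * (K + E) with hDdef
  have hD : 0 ≤ D := by positivity
  have hL0 : 0 < L := by linarith
  set P : ℝ := L ^ (3 + α) with hPdef
  have hP1 : 1 ≤ P := Real.one_le_rpow hL (by linarith)
  have hP0 : 0 ≤ P := by linarith
  have hPle : ∀ x : ℝ, x ≤ 3 + α → L ^ x ≤ P := fun x hx =>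
    Real.rpow_le_rpow_of_exponent_le hL hx
  have hP3 : L ^ 3 ≤ P := by
    have h := hPle (3 : ℕ) (by push_cast; linarith)
    rwa [Real.rpow_natCast] at h
  have hP2 : L ^ 2 ≤ P := by
    have h := hPle (2 : ℕ) (by push_cast; linarith)
    rwa [Real.rpow_natCast] at h
  set C : ℝ := (1 + D + K) * P with hCdef
  have hDK : 0 ≤ D * P := by positivity
  have hKP : 0 ≤ K * P := by positivity
  have hCP : P ≤ C := by
    have : C = P + D * P + K * P := by rw [hCdef]; ring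
    linarith
  have hCD : D * P ≤ C := by
    have : C = P + D * P + K * P := by rw [hCdef]; ring
    linarith
  have hCK : K * P ≤ C := by
    have : C = P + D * P + K * P := by rw [hCdef]; ring
    linarith
  have hCDK : (D + K) * P ≤ C := by
    have : C = P + D * P + K * P := by rw [hCdef]; ring
    linarith
  have hDC : D ≤ C := by nlinarith
  refine ⟨C, hP1.trans hCP, ?_⟩
  intro M ψ c p q hM hBM hψ hlapd hlapc hlapb hlaph hE' hdet hlm
  set a : ℂ := wg (lap ψ) c / 2 with hadef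
  have hcM : c ∈ M := hBM (Metric.mem_closedBall_self hρ.le)
  have hbM : Metric.ball c ρ ⊆ M := Metric.ball_subset_closedBall.trans hBM
  have hgc1 : ContDiffOn ℝ 1 (lap ψ) M := F1c_c1 hM hα hlapd hlaph
  have hgd : ∀ x ∈ M, DifferentiableAt ℝ (lap ψ) x := fun x hx =>
    (hlapd x hx).differentiableAt (hM.mem_nhds hx)
  have ha : ‖a‖ ≤ K := by
    have h1 := F1c_wg_norm (lap ψ) c
    have h2 := hlapb c hcM
    have h3 : ‖a‖ = ‖wg (lap ψ) c‖ / 2 := by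
      rw [hadef, norm_div, Complex.norm_ofNat]
    rw [h3]
    linarith [norm_nonneg (wg (lap ψ) c)]
  have ha2 : ∀ v : ℂ, 2 * (a * v).re = fderiv ℝ (lap ψ) c v := by
    intro v
    rw [F1c_wg]
    have h1 : v * wg (lap ψ) c = 2 * (a * v) := by
      rw [hadef]
      ring
    rw [h1]
    simp
  have htay : ∀ ζ ∈ Metric.ball c ρ,
      |lap ψ ζ - lap ψ c - fderiv ℝ (lap ψ) c (ζ - c)| ≤ K * ‖ζ - c‖ ^ (1 + α) := by
    intro ζ hζ
    exact R2_taylor (convex_ball c ρ) hα hK (Metric.mem_ball_self hρ) hζ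
      (fun y hy => hgd y (hbM hy)) (fun y hy => hlaph y (hbM hy) c hcM)
  have hW1 : ContDiffOn ℝ 1 (wg ψ) M := (grad_facts hM hψ).1
  have hWdb : ∀ x ∈ M, db (wg ψ) x = lap ψ x := (grad_facts hM hψ).2.1
  have hWcont : ContinuousOn (wg ψ) (Metric.closedBall c ρ) := hW1.continuousOn.mono hBM
  have hWi : IntegrableOn (wg ψ) (Metric.ball c ρ) :=
    (hWcont.integrableOn_compact (isCompact_closedBall c ρ)).mono_set Metric.ball_subset_closedBall
  have hFcont : ContinuousOn (fun x => ‖fderiv ℝ ψ x‖) (Metric.closedBall c ρ) := by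
    have h1 : ContDiffOn ℝ 1 (fderiv ℝ ψ) M := hψ.fderiv_of_isOpen hM (by norm_num)
    exact (h1.continuousOn.mono hBM).norm
  have hFi : IntegrableOn (fun x => ‖fderiv ℝ ψ x‖) (Metric.ball c ρ) :=
    (hFcont.integrableOn_compact (isCompact_closedBall c ρ)).mono_set Metric.ball_subset_closedBall
  have hWE : (∫ ζ in Metric.ball c ρ, ‖wg ψ ζ‖) ≤ E := by
    refine le_trans (setIntegral_mono_on hWi.norm hFi measurableSet_ball fun x _ => ?_) hE'
    exact F1c_wg_norm ψ x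
  obtain ⟨b₁, b₂, hb₁, hb₂, hrem⟩ := hexp (wg ψ) (lap ψ) c a K E hE (hW1.mono hbM)
    (fun ζ hζ => hWdb ζ (hbM hζ)) hlapc ha
    (fun ζ hζ => by rw [ha2]; exact htay ζ hζ) hWi hWE
  have hrem' : ∀ v : ℂ, ‖v‖ ≤ ρ / 8 → ‖wrem ψ c b₁ b₂ a v‖ ≤ D * ‖v‖ ^ (2 + α) := by
    intro v hv
    exact hrem v hv
  have hp : ‖p‖ ≤ L := by
    have h1 := hlm 1
    simpa [lmap] using h1
  have hq : ‖q‖ ≤ L := by
    have h1 := hlm Complex.I
    simpa [lmap] using h1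
  -- points of the small ball
  have hR : ∀ z ∈ Metric.ball (0 : ℂ) (ρ / (8 * L)), ‖lmap p q z‖ < ρ / 8 := by
    intro z hz
    rw [mem_ball_zero_iff, lt_div_iff₀ (by positivity)] at hz
    have h1 := hlm z
    linarith
  have hcm : ∀ v : ℂ, ‖v‖ < ρ → c + v ∈ M := by
    intro v hv
    refine hbM ?_
    rw [Metric.mem_ball, dist_eq_norm, add_sub_cancel_left]
    exact hv
  have hcm8 : ∀ v : ℂ, ‖v‖ < ρ / 8 → c + v ∈ M := fun v hv => hcm v (by linarith)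
  have hψd : ∀ x ∈ M, DifferentiableAt ℝ ψ x := fun x hx =>
    (hψ.contDiffAt (hM.mem_nhds hx)).differentiableAt two_ne_zero
  have hU : IsOpen {v : ℂ | c + v ∈ M} := hM.preimage (continuous_const.add continuous_id)
  have hsc2 := F1c_srem_c2 hψ c b₁ b₂ a
  obtain ⟨A, hA, -, -, -⟩ := lmap_facts p q
  have hlmc : ContDiff ℝ 2 (lmap p q) := by
    have h1 : lmap p q = A := by
      funext z
      rw [hA]
    rw [h1]
    exact A.contDiff
  have hlmsub : ∀ z z' : ℂ, lmap p q z - lmap p q z' = lmap p q (z - z') := by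
    intro z z'
    rw [← hA, ← hA, ← hA, map_sub]
  have hpow : ∀ (z : ℂ) (x : ℝ), 0 ≤ x → ‖lmap p q z‖ ^ x ≤ L ^ x * ‖z‖ ^ x := by
    intro z x hx
    rw [← Real.mul_rpow hL0.le (norm_nonneg _)]
    exact Real.rpow_le_rpow (norm_nonneg _) (hlm z) hx
  refine ⟨b₁, b₂, hb₁.trans hDC, hb₂.trans hDC, ?_, ?_⟩
  · intro v hv
    exact (hrem' v hv).trans (mul_le_mul_of_nonneg_right hDC (Real.rpow_nonneg (norm_nonneg _) _))
  refine ⟨?_, ?_, ?_, ?_, ?_, ?_, ?_, ?_, ?_, ?_, ?_, ?_⟩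
  · -- k
    intro i
    refine (F1c_kof hb₂ ha hp hq i).trans ?_
    exact (mul_le_mul_of_nonneg_left hP3 (by positivity)).trans hCDK
  · -- γ_lo
    have h1 := wed_le p q
    rw [hdet, abs_one] at h1
    have h2 : 1 ≤ L * ‖q‖ := h1.trans (mul_le_mul_of_nonneg_right hp (norm_nonneg _))
    have h3 : 1 ≤ (L * ‖q‖) ^ 2 := one_le_pow₀ h2
    rw [mul_pow] at h3
    refine h3.trans (mul_le_mul_of_nonneg_right (hP2.trans hCP) (by positivity))
  · -- γ_le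
    exact (pow_le_pow_left₀ (norm_nonneg _) hq 2).trans (hP2.trans hCP)
  · -- μ_le
    have h1 : |-(p.re * q.re + p.im * q.im)| ≤ ‖p‖ * ‖q‖ := by
      have h2 : -(p.re * q.re + p.im * q.im) = -((p * (starRingEnd ℂ) q).re) := by
        simp [Complex.mul_re]
      rw [h2, abs_neg]
      refine F1c_re_le _ ?_
      rw [norm_mul, RCLike.norm_conj]
    refine h1.trans (le_trans ?_ (hP2.trans hCP))
    rw [sq]
    exact mul_le_mul hp hq (norm_nonneg _) hL0.le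
  · -- ν_le
    rw [abs_of_nonneg (by positivity)]
    exact (pow_le_pow_left₀ (norm_nonneg _) hp 2).trans (hP2.trans hCP)
  · -- s_c2
    exact hsc2.comp hlmc.contDiffOn fun z hz => hcm8 _ (hR z hz)
  · -- s_le
    intro z hz
    have h1 := srem_le (ρ := ρ / 8) hα hD (ψ := ψ) (c := c) (b₁ := b₁) (b₂ := b₂) (a := a)
      (fun v hv => hψd _ (hcm8 v hv)) (fun v hv => hrem' v hv.le) _ (hR z hz)
    refine h1.trans ?_
    calc D * ‖lmap p q z‖ ^ (3 + α) ≤ D * (L ^ (3 + α) * ‖z‖ ^ (3 + α)) :=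
          mul_le_mul_of_nonneg_left (hpow z _ (by linarith)) hD
      _ = D * P * ‖z‖ ^ (3 + α) := by rw [hPdef]; ring
      _ ≤ C * ‖z‖ ^ (3 + α) :=
          mul_le_mul_of_nonneg_right hCD (Real.rpow_nonneg (norm_nonneg _) _)
  · -- ds_le
    intro z hz
    have hz8 := hR z hz
    obtain ⟨hsd, hsg⟩ := srem_grad (b₁ := b₁) (b₂ := b₂) (a := a) (hψd _ (hcm8 _ hz8))
    have h1 := (fderiv_comp_lmap_le hlm hsd).2
    have h2 : ‖fderiv ℝ (srem ψ c b₁ b₂ a) (lmap p q z)‖ ≤ D * ‖lmap p q z‖ ^ (2 + α) := by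
      refine le_trans ?_ (hrem' _ hz8.le)
      refine ContinuousLinearMap.opNorm_le_bound _ (norm_nonneg _) fun w => ?_
      rw [hsg, Real.norm_eq_abs]
      refine F1c_re_le _ ?_
      rw [norm_mul, mul_comm]
    have h3 : L * L ^ (2 + α) = P := by
      rw [hPdef, show (3 + α) = 1 + (2 + α) by ring, Real.rpow_add hL0 1 (2 + α), Real.rpow_one]
    calc ‖fderiv ℝ (fun z => srem ψ c b₁ b₂ a (lmap p q z)) z‖
        ≤ L * ‖fderiv ℝ (srem ψ c b₁ b₂ a) (lmap p q z)‖ := h1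
      _ ≤ L * (D * ‖lmap p q z‖ ^ (2 + α)) := mul_le_mul_of_nonneg_left h2 hL0.le
      _ ≤ L * (D * (L ^ (2 + α) * ‖z‖ ^ (2 + α))) :=
          mul_le_mul_of_nonneg_left (mul_le_mul_of_nonneg_left (hpow z _ (by linarith)) hD) hL0.le
      _ = D * (L * L ^ (2 + α)) * ‖z‖ ^ (2 + α) := by ring
      _ = D * P * ‖z‖ ^ (2 + α) := by rw [h3]
      _ ≤ C * ‖z‖ ^ (2 + α) :=
          mul_le_mul_of_nonneg_right hCD (Real.rpow_nonneg (norm_nonneg _) _)
  · -- η_c1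
    have h1 : ContDiffOn ℝ 1 (fun z => lap ψ (c + lmap p q z)) (Metric.ball 0 (ρ / (8 * L))) :=
      hgc1.comp (contDiff_const.add (hlmc.of_le one_le_two)).contDiffOn
        fun z hz => hcm8 _ (hR z hz)
    have h2 : ContDiff ℝ 1 (fun z => fderiv ℝ (lap ψ) c (lmap p q z)) :=
      (fderiv ℝ (lap ψ) c).contDiff.comp (hlmc.of_le one_le_two)
    exact (h1.sub contDiffOn_const).sub h2.contDiffOn
  · -- η_le
    intro z hz
    have hz8 := hR z hz
    have h1 := htay (c + lmap p q z) (by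
      rw [Metric.mem_ball, dist_eq_norm, add_sub_cancel_left]
      linarith)
    rw [add_sub_cancel_left] at h1
    refine h1.trans ?_
    calc K * ‖lmap p q z‖ ^ (1 + α) ≤ K * (L ^ (1 + α) * ‖z‖ ^ (1 + α)) :=
          mul_le_mul_of_nonneg_left (hpow z _ (by linarith)) hK
      _ ≤ K * (P * ‖z‖ ^ (1 + α)) :=
          mul_le_mul_of_nonneg_left (mul_le_mul_of_nonneg_right (hPle _ (by linarith))
            (Real.rpow_nonneg (norm_nonneg _) _)) hK
      _ = K * P * ‖z‖ ^ (1 + α) := by ring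
      _ ≤ C * ‖z‖ ^ (1 + α) :=
          mul_le_mul_of_nonneg_right hCK (Real.rpow_nonneg (norm_nonneg _) _)
  · -- dη_le
    have hη : ∀ z ∈ Metric.ball (0 : ℂ) (ρ / (8 * L)), ∀ w,
        fderiv ℝ (fun z => lap ψ (c + lmap p q z) - lap ψ c - fderiv ℝ (lap ψ) c (lmap p q z)) z w =
          fderiv ℝ (lap ψ) (c + lmap p q z) (lmap p q w) - fderiv ℝ (lap ψ) c (lmap p q w) := by
      intro z hz w
      have h0 : (fun z => lap ψ (c + lmap p q z) - lap ψ c - fderiv ℝ (lap ψ) c (lmap p q z)) =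
          fun z => lap ψ (c + A z) - lap ψ c - fderiv ℝ (lap ψ) c (A z) := by
        funext z
        rw [hA]
      have hg1 : HasFDerivAt (lap ψ) (fderiv ℝ (lap ψ) (c + A z)) (c + A z) := by
        refine (hgd _ ?_).hasFDerivAt
        rw [hA]
        exact hcm8 _ (hR z hz)
      have h1 : HasFDerivAt (fun z => c + A z) A z := A.hasFDerivAt.const_add c
      have h2' : HasFDerivAt (lap ψ ∘ fun z => c + A z) ((fderiv ℝ (lap ψ) (c + A z)).comp A) z :=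
        HasFDerivAt.comp z hg1 h1
      have h2 : HasFDerivAt (fun z => lap ψ (c + A z)) ((fderiv ℝ (lap ψ) (c + A z)).comp A) z :=
        h2'
      have h3 : HasFDerivAt (fun z => fderiv ℝ (lap ψ) c (A z)) ((fderiv ℝ (lap ψ) c).comp A) z :=
        (fderiv ℝ (lap ψ) c).hasFDerivAt.comp z A.hasFDerivAt
      have h4 := (h2.sub_const (lap ψ c)).sub h3
      have h5 := h4.fderiv
      rw [h0]
      have h6 : fderiv ℝ (fun z => lap ψ (c + A z) - lap ψ c - fderiv ℝ (lap ψ) c (A z)) z =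
          (fderiv ℝ (lap ψ) (c + A z)).comp A - (fderiv ℝ (lap ψ) c).comp A := h5
      rw [h6, ← hA, ← hA]
      rfl
    intro z hz z' hz'
    refine ContinuousLinearMap.opNorm_le_bound _
      (mul_nonneg (hP0.trans hCP) (Real.rpow_nonneg (norm_nonneg _) _)) fun w => ?_
    have h1 : (fderiv ℝ (fun z => lap ψ (c + lmap p q z) - lap ψ c -
        fderiv ℝ (lap ψ) c (lmap p q z)) z - fderiv ℝ (fun z => lap ψ (c + lmap p q z) - lap ψ c -
        fderiv ℝ (lap ψ) c (lmap p q z)) z') w =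
        (fderiv ℝ (lap ψ) (c + lmap p q z) - fderiv ℝ (lap ψ) (c + lmap p q z')) (lmap p q w) := by
      rw [sub_apply, sub_apply, hη z hz w, hη z' hz' w]
      ring
    rw [h1]
    refine (ContinuousLinearMap.le_opNorm _ _).trans ?_
    have h2 := hlaph _ (hcm8 _ (hR z hz)) _ (hcm8 _ (hR z' hz'))
    have h3 : c + lmap p q z - (c + lmap p q z') = lmap p q (z - z') := by
      rw [← hlmsub]
      ring
    rw [h3] at h2
    have h4 : L ^ α * L ≤ P := by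
      have h5 : L ^ α * L = L ^ (α + 1) := by
        rw [Real.rpow_add hL0, Real.rpow_one]
      rw [h5]
      exact hPle _ (by linarith)
    calc ‖fderiv ℝ (lap ψ) (c + lmap p q z) - fderiv ℝ (lap ψ) (c + lmap p q z')‖ * ‖lmap p q w‖
        ≤ (K * ‖lmap p q (z - z')‖ ^ α) * (L * ‖w‖) :=
          mul_le_mul h2 (hlm w) (norm_nonneg _)
            (mul_nonneg hK (Real.rpow_nonneg (norm_nonneg _) _))
      _ ≤ (K * (L ^ α * ‖z - z'‖ ^ α)) * (L * ‖w‖) :=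
          mul_le_mul_of_nonneg_right (mul_le_mul_of_nonneg_left (hpow _ _ hα.le) hK)
            (mul_nonneg hL0.le (norm_nonneg _))
      _ = K * (L ^ α * L) * (‖z - z'‖ ^ α * ‖w‖) := by ring
      _ ≤ K * P * (‖z - z'‖ ^ α * ‖w‖) :=
          mul_le_mul_of_nonneg_right (mul_le_mul_of_nonneg_left h4 hK)
            (mul_nonneg (Real.rpow_nonneg (norm_nonneg _) _) (norm_nonneg _))
      _ ≤ C * (‖z - z'‖ ^ α * ‖w‖) :=
          mul_le_mul_of_nonneg_right hCK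
            (mul_nonneg (Real.rpow_nonneg (norm_nonneg _) _) (norm_nonneg _))
      _ = C * ‖z - z'‖ ^ α * ‖w‖ := by ring
  · -- lap_s
    intro z hz
    have hzU : lmap p q z ∈ {v : ℂ | c + v ∈ M} := hcm8 _ (hR z hz)
    rw [lapG_comp hU hsc2 hdet hzU, lap_srem hM hψ hzU, ha2]

end Pool.Agent.YUR
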