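import Pool.Agent.YUR.Defs

open MeasureTheory Set Filter Topology
open scoped ContDiff

namespace Pool.Agent.YUR

open Pool.Agent.YUD Pool.Agent.YUT Pool.Agent.YUB

private theorem F2_lim {f : ℝ → ℂ} {F : ℝ → ℝ → ℂ} {h₀ K β : ℝ} (hβ : 0 < β) (hh : 0 < h₀)
    (hF : ∀ h, 0 < h → h ≤ h₀ → Continuous (F h))
    (hb : ∀ h, 0 < h → h ≤ h₀ → ∀ t, ‖F h t - f t‖ ≤ K * h ^ β) : Continuous f := by
  have ht : Tendsto (fun h : ℝ => K * h ^ β) (𝓝[>] 0) (𝓝 0) := by
    have h1 : Tendsto (fun h : ℝ => h ^ β) (𝓝 0) (𝓝 ((0 : ℝ) ^ β)) :=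
      (Real.continuousAt_rpow_const 0 β (Or.inr hβ.le)).tendsto
    rw [Real.zero_rpow hβ.ne'] at h1
    have h2 := (h1.const_mul K).mono_left (nhdsWithin_le_nhds (s := Ioi 0))
    rwa [mul_zero] at h2
  have hev : ∀ᶠ h : ℝ in 𝓝[>] 0, 0 < h ∧ h ≤ h₀ := by
    filter_upwards [Ioc_mem_nhdsGT hh] with h hh' using ⟨hh'.1, hh'.2⟩
  have hu : TendstoUniformly F f (𝓝[>] (0 : ℝ)) := by
    rw [Metric.tendstoUniformly_iff]
    intro ε hε
    filter_upwards [hev, ht.eventually (gt_mem_nhds hε)] with h h1 h2 t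
    rw [dist_comm, dist_eq_norm]
    exact (hb h h1.1 h1.2 t).trans_lt h2
  exact hu.continuous (hev.frequently.mono fun h h1 => hF h h1.1 h1.2)

/-- [YUR-F2] the coefficients of the expansion are continuous in time: they are uniform limits of continuous functions
(`TendstoUniformly.continuous`). First order: for `v = h` and `v = h i`, `h → 0+`:
`(W t (h v) - W t 0)/h → b₁ v + (g/2) conj v` uniformly in `t` (error `≤ C' h`); `v = 1`: `b₁ + g/2`, `v = i`:
`i (b₁ - g/2)`. Second order: `D t v = W t (2v) - 2 W t v + W t 0 = 2(b₂ v² + (a/2)|v|² + (conj a/4)(conj v)²) + O(‖v‖^(2+α))`: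
`D t h + D t (h i) = 2 h² a + ..`, `D t h - D t (h i) = 4 h² b₂ + h² conj a + ..`. -/
theorem coef_cont {α C ρ : ℝ} (hα : 0 < α) (hρ : 0 < ρ) {W : ℝ → ℂ → ℂ} {b₁ b₂ a : ℝ → ℂ}
    {g : ℝ → ℝ} (hW : ∀ v, ‖v‖ ≤ ρ → Continuous (fun t => W t v))
    (hb₁ : ∀ t, ‖b₁ t‖ ≤ C) (hb₂ : ∀ t, ‖b₂ t‖ ≤ C) (ha : ∀ t, ‖a t‖ ≤ C) (hg : ∀ t, |g t| ≤ C)
    (hexp : ∀ t v, ‖v‖ ≤ ρ → ‖W t v - W t 0 - b₁ t * v -
      ((g t / 2 : ℝ) : ℂ) * (starRingEnd ℂ) v - b₂ t * v ^ 2 - (a t / 2) * (v * (starRingEnd ℂ) v) -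
        ((starRingEnd ℂ) (a t) / 4) * (starRingEnd ℂ) v ^ 2‖ ≤ C * ‖v‖ ^ (2 + α)) :
    Continuous b₁ ∧ Continuous b₂ ∧ Continuous a ∧ Continuous g := by
  have hC : 0 ≤ C := (norm_nonneg _).trans (hb₁ 0)
  have hW0 : Continuous (fun t => W t 0) := hW 0 (by rw [norm_zero]; exact hρ.le)
  set h₀ : ℝ := min 1 (ρ / 2) with hh₀
  have hh₀0 : 0 < h₀ := lt_min one_pos (by linarith)
  have hh1 : ∀ h : ℝ, h ≤ h₀ → h ≤ 1 := fun h hh => hh.trans (min_le_left _ _)
  have hh2 : ∀ h : ℝ, h ≤ h₀ → 2 * h ≤ ρ := fun h hh => by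
    have := hh.trans (min_le_right _ _)
    linarith
  -- first order
  have first : ∀ t v, ‖v‖ ≤ ρ → ‖v‖ ≤ 1 →
      ‖W t v - W t 0 - b₁ t * v - ((g t / 2 : ℝ) : ℂ) * (starRingEnd ℂ) v‖ ≤ 3 * C * ‖v‖ ^ 2 := by
    intro t v hv hv1
    have h1 := hexp t v hv
    have h2 : ‖v‖ ^ (2 + α) ≤ ‖v‖ ^ 2 := by
      rcases eq_or_lt_of_le (norm_nonneg v) with h0 | h0
      · rw [← h0, Real.zero_rpow (by linarith)]
        norm_num
      · have h3 := Real.rpow_le_rpow_of_exponent_ge h0 hv1 (show (2 : ℝ) ≤ 2 + α by linarith)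
        rwa [Real.rpow_two] at h3
    have h3 : W t v - W t 0 - b₁ t * v - ((g t / 2 : ℝ) : ℂ) * (starRingEnd ℂ) v =
        (W t v - W t 0 - b₁ t * v -
      ((g t / 2 : ℝ) : ℂ) * (starRingEnd ℂ) v - b₂ t * v ^ 2 - (a t / 2) * (v * (starRingEnd ℂ) v) -
        ((starRingEnd ℂ) (a t) / 4) * (starRingEnd ℂ) v ^ 2) + b₂ t * v ^ 2 +
        (a t / 2) * (v * (starRingEnd ℂ) v) + ((starRingEnd ℂ) (a t) / 4) * (starRingEnd ℂ) v ^ 2 := by
      ring
    have h4 : ‖b₂ t * v ^ 2‖ ≤ C * ‖v‖ ^ 2 := by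
      rw [norm_mul, norm_pow]
      exact mul_le_mul_of_nonneg_right (hb₂ t) (by positivity)
    have h5 : ‖(a t / 2) * (v * (starRingEnd ℂ) v)‖ ≤ C / 2 * ‖v‖ ^ 2 := by
      rw [norm_mul, norm_mul, RCLike.norm_conj, norm_div, ← sq]
      refine mul_le_mul_of_nonneg_right ?_ (by positivity)
      have := ha t
      simp only [Complex.norm_ofNat]
      linarith
    have h6 : ‖((starRingEnd ℂ) (a t) / 4) * (starRingEnd ℂ) v ^ 2‖ ≤ C / 4 * ‖v‖ ^ 2 := by
      rw [norm_mul, norm_pow, RCLike.norm_conj, norm_div, RCLike.norm_conj]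
      refine mul_le_mul_of_nonneg_right ?_ (by positivity)
      have := ha t
      simp only [Complex.norm_ofNat]
      linarith
    rw [h3]
    refine (norm_add₃_le).trans ?_
    have h7 := norm_add_le (W t v - W t 0 - b₁ t * v -
      ((g t / 2 : ℝ) : ℂ) * (starRingEnd ℂ) v - b₂ t * v ^ 2 - (a t / 2) * (v * (starRingEnd ℂ) v) -
        ((starRingEnd ℂ) (a t) / 4) * (starRingEnd ℂ) v ^ 2) (b₂ t * v ^ 2)
    have h8 : C * ‖v‖ ^ (2 + α) ≤ C * ‖v‖ ^ 2 := mul_le_mul_of_nonneg_left h2 hC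
    have h9 : 0 ≤ C * ‖v‖ ^ 2 := by positivity
    linarith
  -- second order
  have second : ∀ t v, 2 * ‖v‖ ≤ ρ →
      ‖W t (2 * v) - 2 * W t v + W t 0 - 2 * (b₂ t * v ^ 2 + (a t / 2) * (v * (starRingEnd ℂ) v) +
        ((starRingEnd ℂ) (a t) / 4) * (starRingEnd ℂ) v ^ 2)‖ ≤
        C * (2 ^ (2 + α) + 2) * ‖v‖ ^ (2 + α) := by
    intro t v hv
    have h0 := norm_nonneg v
    have h1 := hexp t v (by linarith)
    have hn2 : ‖2 * v‖ = 2 * ‖v‖ := by
      rw [norm_mul, Complex.norm_ofNat]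
    have h2 := hexp t (2 * v) (by rw [hn2]; exact hv)
    rw [hn2, Real.mul_rpow (by norm_num) h0] at h2
    have h3 : W t (2 * v) - 2 * W t v + W t 0 - 2 * (b₂ t * v ^ 2 + (a t / 2) * (v * (starRingEnd ℂ) v) +
        ((starRingEnd ℂ) (a t) / 4) * (starRingEnd ℂ) v ^ 2) =
        (W t (2 * v) - W t 0 - b₁ t * (2 * v) -
      ((g t / 2 : ℝ) : ℂ) * (starRingEnd ℂ) (2 * v) - b₂ t * (2 * v) ^ 2 -
        (a t / 2) * (2 * v * (starRingEnd ℂ) (2 * v)) -
        ((starRingEnd ℂ) (a t) / 4) * (starRingEnd ℂ) (2 * v) ^ 2) -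
        2 * (W t v - W t 0 - b₁ t * v -
      ((g t / 2 : ℝ) : ℂ) * (starRingEnd ℂ) v - b₂ t * v ^ 2 - (a t / 2) * (v * (starRingEnd ℂ) v) -
        ((starRingEnd ℂ) (a t) / 4) * (starRingEnd ℂ) v ^ 2) := by
      rw [map_mul, Complex.conj_ofNat]
      ring
    rw [h3]
    refine (norm_sub_le _ _).trans ?_
    rw [norm_mul (2 : ℂ), Complex.norm_ofNat]
    linarith
  -- norms of the test vectors
  have nr : ∀ h : ℝ, 0 < h → ‖(h : ℂ)‖ = h := fun h hh => by
    rw [Complex.norm_real, Real.norm_of_nonneg hh.le]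
  have ni : ∀ h : ℝ, 0 < h → ‖(h : ℂ) * Complex.I‖ = h := fun h hh => by
    rw [norm_mul, nr h hh, Complex.norm_I, mul_one]
  have c1 : Continuous (fun t => b₁ t + ((g t / 2 : ℝ) : ℂ)) := by
    refine F2_lim (F := fun h t => (W t h - W t 0) / h) (K := 3 * C) (β := 1) one_pos hh₀0 ?_ ?_
    · intro h hh hhh
      have h2 := hh2 h hhh
      exact ((hW h (by rw [nr h hh]; linarith)).sub hW0).div_const _
    · intro h hh hhh t
      have h2 := hh2 h hhh
      have h3 := first t h (by rw [nr h hh]; linarith) (by rw [nr h hh]; exact hh1 h hhh)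
      rw [nr h hh, Complex.conj_ofReal] at h3
      have hne : (h : ℂ) ≠ 0 := by exact_mod_cast hh.ne'
      have h4 : (W t h - W t 0) / h - (b₁ t + ((g t / 2 : ℝ) : ℂ)) =
          (W t h - W t 0 - b₁ t * h - ((g t / 2 : ℝ) : ℂ) * h) / h := by
        field_simp
        ring
      rw [h4, norm_div, nr h hh, Real.rpow_one, div_le_iff₀ hh]
      linarith
  have c2 : Continuous (fun t => (b₁ t - ((g t / 2 : ℝ) : ℂ)) * Complex.I) := by
    refine F2_lim (F := fun h t => (W t (h * Complex.I) - W t 0) / h) (K := 3 * C) (β := 1) one_pos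
      hh₀0 ?_ ?_
    · intro h hh hhh
      have h2 := hh2 h hhh
      exact ((hW (h * Complex.I) (by rw [ni h hh]; linarith)).sub hW0).div_const _
    · intro h hh hhh t
      have h2 := hh2 h hhh
      have h3 := first t (h * Complex.I) (by rw [ni h hh]; linarith)
        (by rw [ni h hh]; exact hh1 h hhh)
      rw [ni h hh, map_mul, Complex.conj_ofReal, Complex.conj_I] at h3
      have hne : (h : ℂ) ≠ 0 := by exact_mod_cast hh.ne'
      have h4 : (W t (h * Complex.I) - W t 0) / h - (b₁ t - ((g t / 2 : ℝ) : ℂ)) * Complex.I =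
          (W t (h * Complex.I) - W t 0 - b₁ t * (h * Complex.I) -
            ((g t / 2 : ℝ) : ℂ) * (h * -Complex.I)) / h := by
        field_simp
        ring
      rw [h4, norm_div, nr h hh, Real.rpow_one, div_le_iff₀ hh]
      linarith
  have pw : ∀ h : ℝ, 0 < h → h ^ (2 + α) = h ^ 2 * h ^ α := fun h hh => by
    rw [Real.rpow_add hh, Real.rpow_two]
  have c3 : Continuous (fun t => b₂ t + a t / 2 + (starRingEnd ℂ) (a t) / 4) := by
    refine F2_lim (F := fun h t => (W t (2 * h) - 2 * W t h + W t 0) / (2 * h ^ 2))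
      (K := C * (2 ^ (2 + α) + 2) / 2) (β := α) hα hh₀0 ?_ ?_
    · intro h hh hhh
      have h2 := hh2 h hhh
      refine Continuous.div_const (Continuous.add (Continuous.sub ?_ ?_) hW0) _
      · exact hW _ (by rw [norm_mul, nr h hh, Complex.norm_ofNat]; exact h2)
      · exact continuous_const.mul (hW _ (by rw [nr h hh]; linarith))
    · intro h hh hhh t
      have h2 := hh2 h hhh
      have h3 := second t h (by rw [nr h hh]; exact h2)
      rw [nr h hh, Complex.conj_ofReal, pw h hh] at h3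
      have hne : (h : ℂ) ≠ 0 := by exact_mod_cast hh.ne'
      have h4 : (W t (2 * h) - 2 * W t h + W t 0) / (2 * (h : ℂ) ^ 2) -
          (b₂ t + a t / 2 + (starRingEnd ℂ) (a t) / 4) =
          (W t (2 * h) - 2 * W t h + W t 0 - 2 * (b₂ t * (h : ℂ) ^ 2 + a t / 2 * (h * h) +
            (starRingEnd ℂ) (a t) / 4 * (h : ℂ) ^ 2)) / (2 * (h : ℂ) ^ 2) := by
        field_simp
      rw [h4, norm_div, norm_mul (2 : ℂ), norm_pow, nr h hh, Complex.norm_ofNat,
        div_le_iff₀ (by positivity)]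
      linarith
  have c4 : Continuous (fun t => -b₂ t + a t / 2 - (starRingEnd ℂ) (a t) / 4) := by
    refine F2_lim (F := fun h t => (W t (2 * (h * Complex.I)) - 2 * W t (h * Complex.I) + W t 0) /
      (2 * h ^ 2)) (K := C * (2 ^ (2 + α) + 2) / 2) (β := α) hα hh₀0 ?_ ?_
    · intro h hh hhh
      have h2 := hh2 h hhh
      refine Continuous.div_const (Continuous.add (Continuous.sub ?_ ?_) hW0) _
      · exact hW _ (by rw [norm_mul, ni h hh, Complex.norm_ofNat]; exact h2)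
      · exact continuous_const.mul (hW _ (by rw [ni h hh]; linarith))
    · intro h hh hhh t
      have h2 := hh2 h hhh
      have h3 := second t (h * Complex.I) (by rw [ni h hh]; exact h2)
      rw [ni h hh, map_mul, Complex.conj_ofReal, Complex.conj_I, pw h hh] at h3
      have hne : (h : ℂ) ≠ 0 := by exact_mod_cast hh.ne'
      have h4 : (W t (2 * (h * Complex.I)) - 2 * W t (h * Complex.I) + W t 0) / (2 * (h : ℂ) ^ 2) -
          (-b₂ t + a t / 2 - (starRingEnd ℂ) (a t) / 4) =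
          (W t (2 * (h * Complex.I)) - 2 * W t (h * Complex.I) + W t 0 -
            2 * (b₂ t * ((h : ℂ) * Complex.I) ^ 2 + a t / 2 * (h * Complex.I * (h * -Complex.I)) +
            (starRingEnd ℂ) (a t) / 4 * ((h : ℂ) * -Complex.I) ^ 2)) / (2 * (h : ℂ) ^ 2) := by
        have hI : Complex.I ^ 2 = -1 := Complex.I_sq
        have h5 : ((h : ℂ) * Complex.I) ^ 2 = -(h : ℂ) ^ 2 := by rw [mul_pow, hI]; ring
        have h6 : ((h : ℂ) * -Complex.I) ^ 2 = -(h : ℂ) ^ 2 := by rw [mul_pow, neg_sq, hI]; ring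
        have h7 : (h : ℂ) * Complex.I * (h * -Complex.I) = (h : ℂ) ^ 2 := by
          have : (h : ℂ) * Complex.I * (h * -Complex.I) = -((h : ℂ) ^ 2 * Complex.I ^ 2) := by ring
          rw [this, hI]
          ring
        rw [h5, h6, h7]
        field_simp
        ring
      rw [h4, norm_div, norm_mul (2 : ℂ), norm_pow, nr h hh, Complex.norm_ofNat,
        div_le_iff₀ (by positivity)]
      linarith
  have ca : Continuous a := by
    refine (c3.add c4).congr fun t => ?_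
    show b₂ t + a t / 2 + (starRingEnd ℂ) (a t) / 4 +
        (-b₂ t + a t / 2 - (starRingEnd ℂ) (a t) / 4) = a t
    ring
  have cb2 : Continuous b₂ := by
    refine ((c3.sub (ca.div_const 2)).sub
      ((Complex.continuous_conj.comp ca).div_const 4)).congr fun t => ?_
    show b₂ t + a t / 2 + (starRingEnd ℂ) (a t) / 4 - a t / 2 - (starRingEnd ℂ) (a t) / 4 = b₂ t
    ring
  have cb1 : Continuous b₁ := by
    refine ((c1.sub (c2.mul (continuous_const (y := Complex.I)))).div_const 2).congr fun t => ?_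
    show (b₁ t + ((g t / 2 : ℝ) : ℂ) -
        (b₁ t - ((g t / 2 : ℝ) : ℂ)) * Complex.I * Complex.I) / 2 = b₁ t
    have hI : Complex.I ^ 2 = -1 := Complex.I_sq
    have h3 : (b₁ t - ((g t / 2 : ℝ) : ℂ)) * Complex.I * Complex.I =
        (b₁ t - ((g t / 2 : ℝ) : ℂ)) * Complex.I ^ 2 := by ring
    rw [h3, hI]
    ring
  have cg : Continuous g := by
    refine ((Complex.continuous_re.comp (c1.sub cb1)).mul
      (continuous_const (y := (2 : ℝ)))).congr fun t => ?_
    show (b₁ t + ((g t / 2 : ℝ) : ℂ) - b₁ t).re * 2 = g t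
    rw [add_sub_cancel_left, Complex.ofReal_re]
    ring
  exact ⟨cb1, cb2, ca, cg⟩

end Pool.Agent.YUR
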