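import Pool.Agent.YUR.Defs
import Pool.Agent.YUB.D1

open MeasureTheory Set Filter Topology
open scoped ContDiff

namespace Pool.Agent.YUR

open Pool.Agent.YUD Pool.Agent.YUT Pool.Agent.YUB

private theorem F3_perp (f : ℂ → ℝ) (x : ℂ) :
    perp f x = Complex.I * (starRingEnd ℂ) (wg f x) := by
  apply Complex.ext <;> simp [perp, wg]

private theorem F3_vel_smul (b : ℂ) (g h : ℝ) (v : ℂ) : vel b g (h • v) = h • vel b g v := by
  simp only [vel, Complex.real_smul, map_mul, map_add, Complex.conj_ofReal, Complex.conj_conj]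
  ring

private theorem F3_vel_norm (b : ℂ) (g : ℝ) (v : ℂ) : ‖vel b g v‖ ≤ (‖b‖ + |g| / 2) * ‖v‖ := by
  unfold vel
  rw [norm_mul, Complex.norm_I, one_mul, RCLike.norm_conj]
  refine (norm_add_le _ _).trans ?_
  rw [norm_mul, norm_mul, RCLike.norm_conj, Complex.norm_real, Real.norm_eq_abs, abs_div,
    abs_two]
  linarith

private theorem F3_vel_cont (b : ℂ) (g : ℝ) : Continuous (vel b g) := by
  unfold vel
  exact continuous_const.mul (Complex.continuous_conj.comp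
    ((continuous_const.mul continuous_id).add (continuous_const.mul Complex.continuous_conj)))

/-- [YUR-F3] the frame equation. `u t x = perp (ψ t) x = i conj (wg (ψ t) x)`. For small real `h ≠ 0` let
`D h s = h⁻¹ (Φ s (a + h v) - Φ s a)`; `‖D h s‖ ≤ L ‖v‖` (mean value inequality on `ball a ρ'`), `D h s → fderiv (Φ s) a v`
for `h → 0`, and from the integrated ode (`WFlow.ode`, the integrand is continuous by `WFlow.cont`)
`D h t = v + ∫_0^t h⁻¹ (u s (Φ s (a + h v)) - u s (Φ s a)) ds`, where by `hexp` the integrand is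
`vel (b₁ s) g (D h s) + O(|C| h L² ‖v‖²)` (for `h L ‖v‖ ≤ ρ`). Let `h → 0` (dominated convergence on `[0,t]`; everything is
bounded): `fderiv (Φ t) a v = v + ∫_0^t vel (b₁ s) g (fderiv (Φ s) a v) ds`; the integrand is continuous on `Ici 0`
(`WFlow.cont_fderiv`), differentiate. -/
theorem frame_ode {M : Set ℂ} (hM : IsOpen M) {w₀ : ℂ → ℝ} {ψ : ℝ → ℂ → ℝ} {Φ : ℝ → ℂ → ℂ}
    (hF : WFlow M w₀ ψ Φ) {a : ℂ} {C ρ ρ' L g : ℝ} (hρ : 0 < ρ) (hρ' : 0 < ρ')
    (hB : Metric.ball a ρ' ⊆ M) (hL : ∀ t, 0 ≤ t → ∀ x ∈ Metric.ball a ρ', ‖fderiv ℝ (Φ t) x‖ ≤ L)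
    {b₁ : ℝ → ℂ} (hb : ContinuousOn b₁ (Ici 0))
    (hexp : ∀ t, 0 ≤ t → ∀ v, ‖v‖ ≤ ρ → ‖wg (ψ t) (Φ t a + v) - wg (ψ t) (Φ t a) - b₁ t * v -
      ((g / 2 : ℝ) : ℂ) * (starRingEnd ℂ) v‖ ≤ C * ‖v‖ ^ 2) :
    ∀ t, 0 ≤ t → ∀ v, HasDerivWithinAt (fun t' => fderiv ℝ (Φ t') a v)
      (vel (b₁ t) g (fderiv ℝ (Φ t) a v)) (Ici 0) t := by
  have ha : a ∈ M := hB (Metric.mem_ball_self hρ')
  have hmem : ∀ s, 0 ≤ s → ∀ x ∈ M, Φ s x ∈ M := fun s hs x hx => (hF.bij s hs).mapsTo hx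
  have hL0 : 0 ≤ L := (norm_nonneg _).trans (hL 0 le_rfl a (Metric.mem_ball_self hρ'))
  intro t0 ht0 v
  have hFc : ContinuousOn (fun s => fderiv ℝ (Φ s) a v) (Ici 0) :=
    ((hF.cont_fderiv hM).comp (continuousOn_id.prodMk continuousOn_const)
      (fun s hs => ⟨hs, ha⟩)).clm_apply continuousOn_const
  have hvelc : ContinuousOn (fun s => vel (b₁ s) g (fderiv ℝ (Φ s) a v)) (Ici 0) := by
    unfold vel
    exact continuousOn_const.mul (Complex.continuous_conj.comp_continuousOn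
      ((hb.mul hFc).add (continuousOn_const.mul (Complex.continuous_conj.comp_continuousOn hFc))))
  have hcx : ∀ x ∈ M, ContinuousOn (fun s => Φ s x) (Ici 0) := fun x hx s hs =>
    (hF.ode s hs x hx).continuousWithinAt
  have hpx : ∀ x ∈ M, ContinuousOn (fun s => perp (ψ s) (Φ s x)) (Ici 0) := by
    intro x hx
    apply PB_perp
    have h1 := hF.cont.comp (continuousOn_id.prodMk (hcx x hx))
      (fun s hs => ⟨hs, hmem s hs x hx⟩)
    exact h1.snd
  -- the mean value inequality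
  have hmv : ∀ s, 0 ≤ s → ∀ w : ℂ, ‖w‖ < ρ' → ‖Φ s (a + w) - Φ s a‖ ≤ L * ‖w‖ := by
    intro s hs w hw
    have h1 := (convex_ball a ρ').norm_image_sub_le_of_norm_fderiv_le (f := Φ s) (C := L)
      (𝕜 := ℝ) (fun x hx => ((hF.contDiffOn hM hs).differentiableOn (by norm_num)).differentiableAt
        (hM.mem_nhds (hB hx))) (fun x hx => hL s hs x hx) (Metric.mem_ball_self hρ')
        (show a + w ∈ Metric.ball a ρ' by simpa [Metric.mem_ball, dist_eq_norm] using hw)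
    simpa using h1
  have hmain : ∀ t, 0 ≤ t → fderiv ℝ (Φ t) a v =
      v + ∫ s in (0 : ℝ)..t, vel (b₁ s) g (fderiv ℝ (Φ s) a v) := by
    intro t ht
    -- small parameters
    have hsmall : ∀ᶠ h : ℝ in 𝓝[>] 0, 0 < h ∧ h ≤ 1 ∧ ‖h • v‖ < ρ' ∧ L * ‖h • v‖ ≤ ρ := by
      have h1 : ∀ᶠ h : ℝ in 𝓝[>] 0, 0 < h := self_mem_nhdsWithin
      have h2 : Tendsto (fun h : ℝ => ‖h • v‖) (𝓝[>] 0) (𝓝 0) := by
        have : Tendsto (fun h : ℝ => ‖h • v‖) (𝓝 0) (𝓝 ‖(0 : ℝ) • v‖) :=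
          (continuous_id.smul continuous_const).norm.tendsto 0
        rw [zero_smul, norm_zero] at this
        exact this.mono_left nhdsWithin_le_nhds
      have h3 : ∀ᶠ h : ℝ in 𝓝[>] 0, ‖h • v‖ < ρ' := h2.eventually_lt_const hρ'
      have h4 : ∀ᶠ h : ℝ in 𝓝[>] 0, L * ‖h • v‖ < ρ := by
        have := h2.const_mul L
        rw [mul_zero] at this
        exact this.eventually_lt_const hρ
      have h5 : ∀ᶠ h : ℝ in 𝓝[>] 0, h < 1 :=
        (tendsto_id.mono_left nhdsWithin_le_nhds : Tendsto (fun h : ℝ => h) (𝓝[>] 0)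
          (𝓝 0)).eventually_lt_const one_pos
      filter_upwards [h1, h3, h4, h5] with h a1 a2 a3 a4
      exact ⟨a1, a4.le, a2, a3.le⟩
    -- the difference quotients
    have hDle : ∀ h : ℝ, 0 < h → ‖h • v‖ < ρ' → ∀ s, 0 ≤ s →
        ‖h⁻¹ • (Φ s (a + h • v) - Φ s a)‖ ≤ L * ‖v‖ := by
      intro h h0 h1 s hs
      rw [norm_smul, norm_inv, Real.norm_eq_abs, abs_of_pos h0]
      have := hmv s hs _ h1
      rw [norm_smul, Real.norm_eq_abs, abs_of_pos h0] at this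
      rw [inv_mul_le_iff₀ h0]
      linarith
    have hGerr : ∀ h : ℝ, 0 < h → ‖h • v‖ < ρ' → L * ‖h • v‖ ≤ ρ → ∀ s, 0 ≤ s →
        ‖h⁻¹ • (perp (ψ s) (Φ s (a + h • v)) - perp (ψ s) (Φ s a)) -
          vel (b₁ s) g (h⁻¹ • (Φ s (a + h • v) - Φ s a))‖ ≤ |C| * (L * ‖v‖) ^ 2 * h := by
      intro h h0 h1 h2 s hs
      set w := Φ s (a + h • v) - Φ s a with hw
      have hwn : ‖w‖ ≤ L * ‖h • v‖ := hmv s hs _ h1
      have e1 : Φ s (a + h • v) = Φ s a + w := by rw [hw]; ring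
      have h3 := hexp s hs w (hwn.trans h2)
      have e2 : h⁻¹ • (perp (ψ s) (Φ s (a + h • v)) - perp (ψ s) (Φ s a)) -
          vel (b₁ s) g (h⁻¹ • w) = h⁻¹ • (Complex.I * (starRingEnd ℂ)
            (wg (ψ s) (Φ s a + w) - wg (ψ s) (Φ s a) - b₁ s * w -
              ((g / 2 : ℝ) : ℂ) * (starRingEnd ℂ) w)) := by
        rw [F3_vel_smul, ← smul_sub, e1, F3_perp, F3_perp]
        congr 1
        unfold vel
        simp only [map_sub, map_add]
        ring
      rw [e2, norm_smul, norm_mul, Complex.norm_I, one_mul, RCLike.norm_conj, norm_inv,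
        Real.norm_eq_abs, abs_of_pos h0, inv_mul_le_iff₀ h0]
      refine h3.trans ?_
      have h4 : C * ‖w‖ ^ 2 ≤ |C| * ‖w‖ ^ 2 :=
        mul_le_mul_of_nonneg_right (le_abs_self C) (sq_nonneg _)
      refine h4.trans ?_
      have h5 : ‖w‖ ^ 2 ≤ (L * ‖h • v‖) ^ 2 := pow_le_pow_left₀ (norm_nonneg _) hwn 2
      rw [norm_smul, Real.norm_eq_abs, abs_of_pos h0] at h5
      calc |C| * ‖w‖ ^ 2 ≤ |C| * (L * (h * ‖v‖)) ^ 2 :=
            mul_le_mul_of_nonneg_left h5 (abs_nonneg _)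
        _ = h * (|C| * (L * ‖v‖) ^ 2 * h) := by ring
    have hDlim : ∀ s, 0 ≤ s → Tendsto (fun h : ℝ => h⁻¹ • (Φ s (a + h • v) - Φ s a)) (𝓝[>] 0)
        (𝓝 (fderiv ℝ (Φ s) a v)) := by
      intro s hs
      have h1 : HasFDerivAt (Φ s) (fderiv ℝ (Φ s) a) a :=
        (((hF.contDiffOn hM hs).differentiableOn (by norm_num)).differentiableAt
          (hM.mem_nhds ha)).hasFDerivAt
      exact (h1.hasLineDerivAt v).tendsto_slope_zero_right
    have hGlim : ∀ s, 0 ≤ s → Tendsto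
        (fun h : ℝ => h⁻¹ • (perp (ψ s) (Φ s (a + h • v)) - perp (ψ s) (Φ s a))) (𝓝[>] 0)
        (𝓝 (vel (b₁ s) g (fderiv ℝ (Φ s) a v))) := by
      intro s hs
      have h1 : Tendsto (fun h : ℝ => vel (b₁ s) g (h⁻¹ • (Φ s (a + h • v) - Φ s a))) (𝓝[>] 0)
          (𝓝 (vel (b₁ s) g (fderiv ℝ (Φ s) a v))) :=
        ((F3_vel_cont (b₁ s) g).tendsto _).comp (hDlim s hs)
      have h2 : Tendsto (fun h : ℝ => h⁻¹ • (perp (ψ s) (Φ s (a + h • v)) - perp (ψ s) (Φ s a)) -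
          vel (b₁ s) g (h⁻¹ • (Φ s (a + h • v) - Φ s a))) (𝓝[>] 0) (𝓝 0) := by
        rw [tendsto_zero_iff_norm_tendsto_zero]
        have h3 : Tendsto (fun h : ℝ => |C| * (L * ‖v‖) ^ 2 * h) (𝓝[>] 0) (𝓝 0) := by
          have : Tendsto (fun h : ℝ => |C| * (L * ‖v‖) ^ 2 * h) (𝓝 0)
              (𝓝 (|C| * (L * ‖v‖) ^ 2 * 0)) := tendsto_id.const_mul _
          rw [mul_zero] at this
          exact this.mono_left nhdsWithin_le_nhds
        refine squeeze_zero' (Eventually.of_forall fun h => norm_nonneg _) ?_ h3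
        filter_upwards [hsmall] with h hh
        exact hGerr h hh.1 hh.2.2.1 hh.2.2.2 s hs
      have h3 := h2.add h1
      simpa using h3
    -- continuity and the fundamental theorem
    have hGc : ∀ h : ℝ, 0 < h → ‖h • v‖ < ρ' → ContinuousOn
        (fun s => h⁻¹ • (perp (ψ s) (Φ s (a + h • v)) - perp (ψ s) (Φ s a))) (Ici 0) := by
      intro h h0 h1
      have hin : a + h • v ∈ M := hB (by simpa [Metric.mem_ball, dist_eq_norm] using h1)
      exact ContinuousOn.const_smul ((hpx _ hin).sub (hpx a ha)) h⁻¹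
    have hint : ∀ h : ℝ, 0 < h → ‖h • v‖ < ρ' →
        h⁻¹ • (Φ t (a + h • v) - Φ t a) = v + ∫ s in (0 : ℝ)..t,
          h⁻¹ • (perp (ψ s) (Φ s (a + h • v)) - perp (ψ s) (Φ s a)) := by
      intro h h0 h1
      have hin : a + h • v ∈ M := hB (by simpa [Metric.mem_ball, dist_eq_norm] using h1)
      have hsub : Icc 0 t ⊆ Ici 0 := fun s hs => hs.1
      have h2 := intervalIntegral.integral_eq_sub_of_hasDeriv_right_of_le
        (f := fun s => h⁻¹ • (Φ s (a + h • v) - Φ s a))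
        (f' := fun s => h⁻¹ • (perp (ψ s) (Φ s (a + h • v)) - perp (ψ s) (Φ s a))) ht
        ((ContinuousOn.const_smul ((hcx _ hin).sub (hcx a ha)) h⁻¹).mono hsub)
        (fun s hs => (((hF.ode s hs.1.le _ hin).sub (hF.ode s hs.1.le _ ha)).const_smul
          (h⁻¹)).mono (fun u hu => hs.1.le.trans (le_of_lt hu)))
        (((hGc h h0 h1).mono hsub).intervalIntegrable_of_Icc ht)
      rw [h2]
      rw [hF.start _ hin, hF.start _ ha, add_sub_cancel_left, smul_smul, inv_mul_cancel₀ h0.ne',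
        one_smul]
      ring
    obtain ⟨Bb, hBb⟩ := (isCompact_Icc (a := (0 : ℝ)) (b := t)).exists_bound_of_continuousOn
      (hb.mono fun s hs => hs.1)
    have hBb0 : 0 ≤ Bb := (norm_nonneg _).trans (hBb 0 ⟨le_rfl, ht⟩)
    have hconv : Tendsto (fun h : ℝ => ∫ s in (0 : ℝ)..t,
        h⁻¹ • (perp (ψ s) (Φ s (a + h • v)) - perp (ψ s) (Φ s a))) (𝓝[>] 0)
        (𝓝 (∫ s in (0 : ℝ)..t, vel (b₁ s) g (fderiv ℝ (Φ s) a v))) := by
      refine intervalIntegral.tendsto_integral_filter_of_dominated_convergence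
        (fun _ => |C| * (L * ‖v‖) ^ 2 + (Bb + |g| / 2) * (L * ‖v‖)) ?_ ?_ ?_ ?_
      · filter_upwards [hsmall] with h hh
        refine (((hGc h hh.1 hh.2.2.1).mono ?_).aestronglyMeasurable measurableSet_uIoc)
        rw [uIoc_of_le ht]
        exact fun s hs => hs.1.le
      · filter_upwards [hsmall] with h hh
        refine Eventually.of_forall fun s hs => ?_
        rw [uIoc_of_le ht] at hs
        have h1 := hGerr h hh.1 hh.2.2.1 hh.2.2.2 s hs.1.le
        have h2 := F3_vel_norm (b₁ s) g (h⁻¹ • (Φ s (a + h • v) - Φ s a))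
        have h3 := hDle h hh.1 hh.2.2.1 s hs.1.le
        have h4 := hBb s ⟨hs.1.le, hs.2⟩
        have h5 : (‖b₁ s‖ + |g| / 2) * ‖h⁻¹ • (Φ s (a + h • v) - Φ s a)‖ ≤
            (Bb + |g| / 2) * (L * ‖v‖) :=
          mul_le_mul (by linarith) h3 (norm_nonneg _) (by positivity)
        have h6 : |C| * (L * ‖v‖) ^ 2 * h ≤ |C| * (L * ‖v‖) ^ 2 :=
          mul_le_of_le_one_right (by positivity) hh.2.1
        have h7 := norm_le_norm_sub_add
          (h⁻¹ • (perp (ψ s) (Φ s (a + h • v)) - perp (ψ s) (Φ s a)))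
          (vel (b₁ s) g (h⁻¹ • (Φ s (a + h • v) - Φ s a)))
        linarith
      · exact intervalIntegrable_const
      · refine Eventually.of_forall fun s hs => ?_
        rw [uIoc_of_le ht] at hs
        exact hGlim s hs.1.le
    have hL1 : Tendsto (fun h : ℝ => h⁻¹ • (Φ t (a + h • v) - Φ t a)) (𝓝[>] 0)
        (𝓝 (v + ∫ s in (0 : ℝ)..t, vel (b₁ s) g (fderiv ℝ (Φ s) a v))) := by
      refine (tendsto_const_nhds.add hconv).congr' ?_
      filter_upwards [hsmall] with h hh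
      exact (hint h hh.1 hh.2.2.1).symm
    exact tendsto_nhds_unique (hDlim t ht) hL1
  -- differentiate
  have hkc : Continuous (fun s : ℝ => vel (b₁ (max s 0)) g (fderiv ℝ (Φ (max s 0)) a v)) := by
    have h1 : Continuous (fun s : ℝ => max s 0) := continuous_id.max continuous_const
    exact hvelc.comp_continuous h1 (fun s => le_max_right s 0)
  have hder : HasDerivAt (fun t' => v + ∫ s in (0 : ℝ)..t', vel (b₁ (max s 0)) g
      (fderiv ℝ (Φ (max s 0)) a v)) (vel (b₁ (max t0 0)) g (fderiv ℝ (Φ (max t0 0)) a v)) t0 :=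
    (intervalIntegral.integral_hasDerivAt_right (hkc.intervalIntegrable _ _)
      (hkc.stronglyMeasurableAtFilter _ _) hkc.continuousAt).const_add v
  rw [max_eq_left ht0] at hder
  refine hder.hasDerivWithinAt.congr (fun t ht => ?_) ?_
  · rw [hmain t ht]
    congr 1
    refine intervalIntegral.integral_congr fun s hs => ?_
    rw [uIcc_of_le ht] at hs
    simp only [max_eq_left hs.1]
  · rw [hmain t0 ht0]
    congr 1
    refine intervalIntegral.integral_congr fun s hs => ?_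
    rw [uIcc_of_le ht0] at hs
    simp only [max_eq_left hs.1]

end Pool.Agent.YUR
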