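import Pool.Agent.YUR.Defs
import Pool.Agent.YUR.F1a
import Pool.Agent.YUR.F1b
import Pool.Agent.YUB.E1

open MeasureTheory Set Filter Topology
open scoped ContDiff

namespace Pool.Agent.YUR

open Pool.Agent.YUD Pool.Agent.YUT Pool.Agent.YUB

/-- [YUR-F4] `cub (kof b a p q) z = Re(b v³)/3 + Re(a v)|v|²/4`, `v = lmap p q z` (expand, `ring`) -/
theorem cub_kof (b a p q z : ℂ) : cub (kof b a p q) z =
    (b * lmap p q z ^ 3).re / 3 + (a * lmap p q z).re * ‖lmap p q z‖ ^ 2 / 4 := by
  simp only [cub, kof, lmap, Matrix.cons_val_zero, Matrix.cons_val_one, Matrix.cons_val,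
    Complex.sq_norm, Complex.normSq_apply]
  simp only [pow_succ, pow_zero, one_mul, Complex.mul_re,
    Complex.mul_im, Complex.add_re, Complex.add_im, Complex.ofReal_re, Complex.ofReal_im,
    Complex.conj_re, Complex.conj_im]
  ring

/-- [YUR-F4] the relative velocity in the frame is the `perp` of the relative stream function. By `cub_kof` the function
`zet ..` is `z ↦ ψ(c+v) - ψ c - Re(wg ψ c v) - Re(b₁ v²)/2 - (g/4)|v|²`, `v = lmap p q z` (`1 ^ (1+α) = 1`); its complex
gradient in `v` is the bracket (cf. `srem_grad` with `b₂ = a = 0`), `fderiv` of the composition is `fderiv .. (lmap p q w)`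
(`fderiv_comp_lmap_le`), and `perp f z = ⟨-fderiv f z i, fderiv f z 1⟩`; for `F` with `fderiv F v w = Re(w G)`:
`linv p q (i conj G) = ⟨wed (i conj G) q, wed p (i conj G)⟩ = ⟨-Re(q G), Re(p G)⟩`. -/
theorem perp_zet {α : ℝ} {ψ : ℂ → ℝ} {c b₁ b₂ a p q : ℂ} {z : ℂ}
    (hd : DifferentiableAt ℝ ψ (c + lmap p q z)) :
    perp (zet α 1 (kof b₂ a p q) (fun z => srem ψ c b₁ b₂ a (lmap p q z))) z =
      linv p q (Complex.I * (starRingEnd ℂ) (wg ψ (c + lmap p q z) - wg ψ c -
        b₁ * lmap p q z - ((lap ψ c / 2 : ℝ) : ℂ) * (starRingEnd ℂ) (lmap p q z))) := by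
  obtain ⟨A, hA, hA1, hAI, -⟩ := lmap_facts p q
  have hL : ∀ z, ‖lmap p q z‖ ≤ ‖A‖ * ‖z‖ := fun z => by
    rw [← hA z]
    exact A.le_opNorm z
  have hfun : zet α 1 (kof b₂ a p q) (fun z => srem ψ c b₁ b₂ a (lmap p q z)) =
      fun z => srem ψ c b₁ 0 0 (lmap p q z) := by
    funext w
    simp only [zet, cub_kof, srem, Real.one_rpow, zero_mul, Complex.zero_re, zero_div, sub_zero]
    ring
  obtain ⟨hd1, hd2⟩ := srem_grad (ψ := ψ) (c := c) (b₁ := b₁) (b₂ := 0) (a := 0)
    (v := lmap p q z) hd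
  have hG : wrem ψ c b₁ 0 0 (lmap p q z) = wg ψ (c + lmap p q z) - wg ψ c -
      b₁ * lmap p q z - ((lap ψ c / 2 : ℝ) : ℂ) * (starRingEnd ℂ) (lmap p q z) := by
    simp only [wrem, zero_mul, zero_div, map_zero, sub_zero]
  have hfd := (fderiv_comp_lmap_le (F := srem ψ c b₁ 0 0) (p := p) (q := q) (z := z) hL hd1).1
  rw [hfun, ← hG]
  have h1 : lmap p q 1 = p := by rw [← hA 1, hA1]
  have hI : lmap p q Complex.I = q := by rw [← hA Complex.I, hAI]
  have e1 : dx (fun z => srem ψ c b₁ 0 0 (lmap p q z)) z = (p * wrem ψ c b₁ 0 0 (lmap p q z)).re := by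
    show fderiv ℝ (fun z => srem ψ c b₁ 0 0 (lmap p q z)) z 1 = _
    rw [hfd 1, hd2, h1]
  have e2 : dy (fun z => srem ψ c b₁ 0 0 (lmap p q z)) z = (q * wrem ψ c b₁ 0 0 (lmap p q z)).re := by
    show fderiv ℝ (fun z => srem ψ c b₁ 0 0 (lmap p q z)) z Complex.I = _
    rw [hfd Complex.I, hd2, hI]
  apply Complex.ext
  · show -dy (fun z => srem ψ c b₁ 0 0 (lmap p q z)) z = _
    rw [e2]
    simp only [linv, wed, Complex.mul_re, Complex.mul_im, Complex.I_re, Complex.I_im,
      Complex.conj_re, Complex.conj_im]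
    ring
  · show dx (fun z => srem ψ c b₁ 0 0 (lmap p q z)) z = _
    rw [e1]
    simp only [linv, wed, Complex.mul_re, Complex.mul_im, Complex.I_re, Complex.I_im,
      Complex.conj_re, Complex.conj_im]
    ring

/-- [YUR-F4] the equation of motion in the frame: product rule (`E1_wed`, `YUB/E1.lean`) and
`wed (D v) w + wed v (D w) = 0` for `D = vel b g` (trace zero). -/
theorem rel_ode {p q X c : ℝ → ℂ} {b u uc : ℂ} {g t : ℝ}
    (hp : HasDerivWithinAt p (vel b g (p t)) (Ici 0) t)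
    (hq : HasDerivWithinAt q (vel b g (q t)) (Ici 0) t)
    (hX : HasDerivWithinAt X u (Ici 0) t) (hc : HasDerivWithinAt c uc (Ici 0) t) :
    HasDerivWithinAt (fun t' => linv (p t') (q t') (X t' - c t'))
      (linv (p t) (q t) (u - uc - vel b g (X t - c t))) (Ici 0) t := by
  have hw : HasDerivWithinAt (fun t' => X t' - c t') (u - uc) (Ici 0) t := hX.sub hc
  have h1 := E1_wed hw hq
  have h2 := E1_wed hp hw
  have h3 := h1.ofReal_comp.add (h2.ofReal_comp.mul_const Complex.I)
  have hf : (fun t' => linv (p t') (q t') (X t' - c t')) = fun t' =>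
      ((wed (X t' - c t') (q t') : ℝ) : ℂ) + ((wed (p t') (X t' - c t') : ℝ) : ℂ) * Complex.I := by
    funext t'
    exact Complex.mk_eq_add_mul_I _ _
  rw [hf]
  refine h3.congr_deriv ?_
  apply Complex.ext
  · simp only [linv, wed, vel, Complex.add_re, Complex.add_im, Complex.sub_re, Complex.sub_im,
      Complex.mul_re, Complex.mul_im, Complex.I_re, Complex.I_im, Complex.ofReal_re,
      Complex.ofReal_im, Complex.conj_re, Complex.conj_im]
    ring
  · simp only [linv, wed, vel, Complex.add_re, Complex.add_im, Complex.sub_re, Complex.sub_im,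
      Complex.mul_re, Complex.mul_im, Complex.I_re, Complex.I_im, Complex.ofReal_re,
      Complex.ofReal_im, Complex.conj_re, Complex.conj_im]
    ring

end Pool.Agent.YUR
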