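import Pool.Agent.YUR.Defs
import Pool.Agent.YUR.F1b
import Pool.Agent.YUB.D5b

open MeasureTheory Set Filter Topology
open scoped ContDiff

namespace Pool.Agent.YUR

open Pool.Agent.YUD Pool.Agent.YUT Pool.Agent.YUB

private theorem F5a_image {M : Set ℂ} (hM : IsOpen M) {Φ : ℂ → ℂ} (hΦ : ContDiffOn ℝ 1 Φ M)
    (hb : BijOn Φ M M) (hdet : ∀ x ∈ M, (fderiv ℝ Φ x).det = 1) (g : ℂ → ℝ) :
    ∫ y in M, g y = ∫ x in M, g (Φ x) := by
  have h1 := integral_image_eq_integral_abs_det_fderiv_smul (μ := volume) (s := M)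
    (f := Φ) (f' := fun x => fderiv ℝ Φ x) hM.measurableSet
    (fun x hx => ((hΦ.differentiableOn (by norm_num)).differentiableAt
      (hM.mem_nhds hx)).hasFDerivAt.hasFDerivWithinAt) hb.injOn g
  rw [hb.image_eq] at h1
  rw [h1]
  refine setIntegral_congr_fun hM.measurableSet fun x hx => ?_
  simp only [hdet x hx, abs_one, one_smul]

private theorem F5a_plane {c p q : ℂ} (hpq : wed p q = 1) (g : ℂ → ℝ) :
    ∫ y, g y = ∫ z, g (c + lmap p q z) := by
  obtain ⟨A, hA, -, -, hdet⟩ := lmap_facts p q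
  have hinj : InjOn (fun z : ℂ => c + A z) univ := by
    intro z _ z' _ h
    have h1 : lmap p q z = lmap p q z' := by
      have h2 : c + A z = c + A z' := h
      rw [hA, hA] at h2
      exact add_left_cancel h2
    rw [← linv_lmap hpq z, h1, linv_lmap hpq z']
  have hsurj : (fun z : ℂ => c + A z) '' univ = univ := by
    rw [image_univ]
    apply eq_univ_of_forall
    intro y
    refine ⟨linv p q (y - c), ?_⟩
    show c + A (linv p q (y - c)) = y
    rw [hA, lmap_linv hpq]
    ring
  have h1 := integral_image_eq_integral_abs_det_fderiv_smul (μ := volume) (s := univ)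
    (f := fun z : ℂ => c + A z) (f' := fun _ => A) MeasurableSet.univ
    (fun x _ => (A.hasFDerivAt.const_add c).hasFDerivWithinAt) hinj g
  rw [hsurj, setIntegral_univ, setIntegral_univ] at h1
  rw [h1]
  refine integral_congr_ae (Eventually.of_forall fun z => ?_)
  simp only [hdet, hpq, abs_one, one_smul, hA]

/-- [YUR-F5a] change of variables `x = Φ y`, `x = c + lmap p q z` at a fixed time: the first one is area preserving on
`M` (cf. `D5b_image`, `tb_integral`, `YUB/D5b.lean`), the second one on the plane (`wed p q = 1`; e.g.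
`MeasureTheory.Measure.addHaar_image_continuousLinearMap` or `integral_image_eq_integral_abs_det_fderiv_smul` /
`LinearMap.toMatrix`-free: `MeasurePreserving` of a linear equivalence with determinant 1). `G z = 0` for `‖z‖ ≥ R`, and
`c + lmap p q z ∈ M` for `‖z‖ < R`, so the integral over the plane is the integral over the preimage of `M`. -/
theorem frame_cov {M : Set ℂ} (hM : IsOpen M) {ψ : ℂ → ℝ} {Φ : ℂ → ℂ} {w₀ : ℂ → ℝ}
    (hΦ : ContDiffOn ℝ 1 Φ M) (hb : BijOn Φ M M) (hdet : ∀ x ∈ M, (fderiv ℝ Φ x).det = 1)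
    (hv : ∀ x ∈ M, lap ψ (Φ x) = w₀ x) {c p q : ℂ} (hpq : wed p q = 1) {R : ℝ}
    (hball : ∀ z : ℂ, ‖z‖ < R → c + lmap p q z ∈ M) (G : ℂ → ℝ) (hG : ∀ z, R ≤ ‖z‖ → G z = 0) :
    ∫ z, lap ψ (c + lmap p q z) * G z = ∫ x in M, w₀ x * G (linv p q (Φ x - c)) := by
  have h1 : ∫ x in M, w₀ x * G (linv p q (Φ x - c)) =
      ∫ x in M, (fun y => lap ψ y * G (linv p q (y - c))) (Φ x) := by
    refine setIntegral_congr_fun hM.measurableSet fun x hx => ?_
    simp only [hv x hx]
  have h2 : ∫ y in M, (fun y => lap ψ y * G (linv p q (y - c))) y =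
      ∫ y, (fun y => lap ψ y * G (linv p q (y - c))) y := by
    refine setIntegral_eq_integral_of_forall_compl_eq_zero fun y hy => ?_
    have h3 : R ≤ ‖linv p q (y - c)‖ := by
      by_contra h4
      have h5 := hball _ (not_le.mp h4)
      rw [lmap_linv hpq] at h5
      exact hy (by simpa using h5)
    simp only [hG _ h3, mul_zero]
  rw [h1, ← F5a_image hM hΦ hb hdet (fun y => lap ψ y * G (linv p q (y - c))), h2,
    F5a_plane (c := c) hpq (fun y => lap ψ y * G (linv p q (y - c)))]
  refine integral_congr_ae (Eventually.of_forall fun z => ?_)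
  have h6 : c + lmap p q z - c = lmap p q z := by ring
  simp only [h6, linv_lmap hpq]

end Pool.Agent.YUR
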