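import Pool.Agent.YUR.F5a
import Pool.Agent.YUT.PBase
import Pool.Agent.YUB.E3

open MeasureTheory Set Filter Topology
open scoped ContDiff

namespace Pool.Agent.YUR

open Pool.Agent.YUD Pool.Agent.YUT Pool.Agent.YUB

private theorem F5b_H {H : ℝ → ℂ → ℝ} (hH : ContDiff ℝ 1 (fun x : ℝ × ℂ => H x.1 x.2)) (t : ℝ)
    (z : ℂ) :
    deriv (fun t' => H t' z) t = fderiv ℝ (fun x : ℝ × ℂ => H x.1 x.2) (t, z) (1, 0) ∧
      ∀ v, fderiv ℝ (H t) z v = fderiv ℝ (fun x : ℝ × ℂ => H x.1 x.2) (t, z) (0, v) := by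
  have hd : HasFDerivAt (fun x : ℝ × ℂ => H x.1 x.2)
      (fderiv ℝ (fun x : ℝ × ℂ => H x.1 x.2) (t, z)) (t, z) :=
    (hH.differentiable (by norm_num) _).hasFDerivAt
  constructor
  · have h1 : HasFDerivAt (fun t' : ℝ => ((t', z) : ℝ × ℂ)) (ContinuousLinearMap.inl ℝ ℝ ℂ) t :=
      hasFDerivAt_prodMk_left t z
    have h2 : HasFDerivAt (fun t' : ℝ => H t' z)
        ((fderiv ℝ (fun x : ℝ × ℂ => H x.1 x.2) (t, z)).comp (ContinuousLinearMap.inl ℝ ℝ ℂ)) t :=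
      HasFDerivAt.comp (g := fun x : ℝ × ℂ => H x.1 x.2) (f := fun t' : ℝ => ((t', z) : ℝ × ℂ)) t hd h1
    have h3 := h2.hasDerivAt.deriv
    rw [h3]
    simp
  · intro v
    have h1 : HasFDerivAt (fun z' : ℂ => ((t, z') : ℝ × ℂ)) (ContinuousLinearMap.inr ℝ ℝ ℂ) z :=
      hasFDerivAt_prodMk_right t z
    have h2 : HasFDerivAt (H t)
        ((fderiv ℝ (fun x : ℝ × ℂ => H x.1 x.2) (t, z)).comp (ContinuousLinearMap.inr ℝ ℝ ℂ)) z :=
      HasFDerivAt.comp (g := fun x : ℝ × ℂ => H x.1 x.2) (f := fun z' : ℂ => ((t, z') : ℝ × ℂ)) z hd h1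
    rw [h2.fderiv]
    simp

private theorem F5b_zero {H : ℝ → ℂ → ℝ} {R' : ℝ} (hH0 : ∀ t z, R' ≤ ‖z‖ → H t z = 0) (t : ℝ) {z : ℂ}
    (hz : R' < ‖z‖) (f : ℂ → ℝ) : deriv (fun t' => H t' z) t + pb f (H t) z = 0 := by
  have h1 : deriv (fun t' => H t' z) t = 0 := by
    have : (fun t' => H t' z) = fun _ => 0 := by funext t'; exact hH0 t' z hz.le
    rw [this, deriv_const]
  have h2 : fderiv ℝ (H t) z = 0 := by
    have h3 : H t =ᶠ[𝓝 z] fun _ => 0 := by
      filter_upwards [(isOpen_lt continuous_const continuous_norm).mem_nhds hz] with y hy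
      exact hH0 t y (le_of_lt hy)
    rw [h3.fderiv_eq, fderiv_fun_const]
    rfl
  rw [h1, pb, dx, dy, dx, dy, h2]
  simp

private theorem F5b_G {Z : ℝ → ℂ → ℝ} {H : ℝ → ℂ → ℝ} {R R' : ℝ} (hRR : R' < R)
    (hZ : ContinuousOn (fun x : ℝ × ℂ => fderiv ℝ (Z x.1) x.2) (Ici 0 ×ˢ Metric.ball 0 R))
    (hH : ContDiff ℝ 1 (fun x : ℝ × ℂ => H x.1 x.2)) (hH0 : ∀ t z, R' ≤ ‖z‖ → H t z = 0) :
    ContinuousOn (fun x : ℝ × ℂ => deriv (fun t' => H t' x.2) x.1 + pb (Z x.1) (H x.1) x.2)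
      (Ici 0 ×ˢ univ) := by
  have hf : Continuous (fun x : ℝ × ℂ => fderiv ℝ (fun x : ℝ × ℂ => H x.1 x.2) x) :=
    hH.continuous_fderiv (by norm_num)
  have hball : ContinuousOn (fun x : ℝ × ℂ => deriv (fun t' => H t' x.2) x.1 +
      pb (Z x.1) (H x.1) x.2) (Ici 0 ×ˢ Metric.ball 0 R) := by
    have e : (fun x : ℝ × ℂ => deriv (fun t' => H t' x.2) x.1 + pb (Z x.1) (H x.1) x.2) =
        fun x : ℝ × ℂ => fderiv ℝ (fun x : ℝ × ℂ => H x.1 x.2) x (1, 0) +
          (fderiv ℝ (Z x.1) x.2 1 * fderiv ℝ (fun x : ℝ × ℂ => H x.1 x.2) x (0, Complex.I) -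
            fderiv ℝ (Z x.1) x.2 Complex.I * fderiv ℝ (fun x : ℝ × ℂ => H x.1 x.2) x (0, 1)) := by
      funext x
      obtain ⟨h1, h2⟩ := F5b_H hH x.1 x.2
      rw [h1, pb, dx, dy, dx, dy, h2, h2]
    rw [e]
    exact (hf.clm_apply continuous_const).continuousOn.add
      (((hZ.clm_apply continuousOn_const).mul (hf.clm_apply continuous_const).continuousOn).sub
        ((hZ.clm_apply continuousOn_const).mul (hf.clm_apply continuous_const).continuousOn))
  rintro ⟨t, z⟩ ⟨ht, -⟩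
  by_cases hz : ‖z‖ < R
  · have h1 := hball (t, z) ⟨ht, mem_ball_zero_iff.mpr hz⟩
    refine h1.mono_of_mem_nhdsWithin ?_
    rw [mem_nhdsWithin]
    refine ⟨univ ×ˢ Metric.ball 0 R, isOpen_univ.prod Metric.isOpen_ball,
      ⟨mem_univ _, mem_ball_zero_iff.mpr hz⟩, ?_⟩
    rintro ⟨t', z'⟩ ⟨⟨-, h2⟩, ⟨h3, -⟩⟩
    exact ⟨h3, h2⟩
  · have hz' : R' < ‖z‖ := lt_of_lt_of_le hRR (not_lt.mp hz)
    have h1 : (fun x : ℝ × ℂ => deriv (fun t' => H t' x.2) x.1 + pb (Z x.1) (H x.1) x.2) =ᶠ[𝓝 (t, z)]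
        fun _ => 0 := by
      have ho : IsOpen {x : ℝ × ℂ | R' < ‖x.2‖} := isOpen_lt continuous_const continuous_snd.norm
      filter_upwards [ho.mem_nhds (show ((t, z) : ℝ × ℂ) ∈ {x : ℝ × ℂ | R' < ‖x.2‖} from hz')] with x hx
      exact F5b_zero hH0 x.1 hx _
    exact (continuousAt_const.congr h1.symm).continuousWithinAt

/-- [YUR-F5b] transport of test functions in the frame. `X t x = linv (p t) (q t) (Φ t x - c t)`. By `frame_cov` (with the
radius `R'`) the left side is `∫ x in M, w₀ x (H T (X T x) - H 0 (X 0 x))`; for `x ∉ Kc` both values are `0`, so the integral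
is over `Kc`. For `x ∈ M` the function `t ↦ H t (X t x)` has the right derivative
`(deriv (fun t' => H t' z) t + pb (Z t) (H t) z)` at `z = X t x` (if `‖X t x‖ < R`: chain rule, `hode`, `fderiv ℝ f z (perp g z) =
pb g f z`; if `‖X t x‖ ≥ R` then `‖X s x‖ > R'` for `s` near `t` (`X` is continuous), the function is locally `0`, and the bracket
and the time derivative vanish at such `z` because `H` vanishes near `z`). Integrate over `[0,T]`
(`intervalIntegral.integral_eq_sub_of_hasDeriv_right_of_le` or `integral_eq_sub_of_hasDerivAt`), Fubini on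
`[0,T] × Kc` (the integrand is continuous there: `hZ`, `WFlow.cont_Phi`; cf. `rel_fubini`, `YUB/E3.lean`), and `frame_cov`
again for each `τ`. -/
theorem transport_id {M : Set ℂ} (hM : IsOpen M) {w₀ : ℂ → ℝ} {ψ : ℝ → ℂ → ℝ} {Φ : ℝ → ℂ → ℂ}
    (hF : WFlow M w₀ ψ Φ) (hw : ContinuousOn w₀ M) {c p q : ℝ → ℂ} (hc : ContinuousOn c (Ici 0))
    (hp : ContinuousOn p (Ici 0)) (hq : ContinuousOn q (Ici 0))
    (hdet : ∀ t, 0 ≤ t → wed (p t) (q t) = 1) {R R' : ℝ} (hR' : 0 < R') (hRR : R' < R)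
    {Kc : Set ℂ} (hKc : IsCompact Kc) (hKM : Kc ⊆ M)
    (hK : ∀ t, 0 ≤ t → ∀ x ∈ M, ‖linv (p t) (q t) (Φ t x - c t)‖ < R → x ∈ Kc)
    (hball : ∀ t, 0 ≤ t → ∀ z : ℂ, ‖z‖ < R → c t + lmap (p t) (q t) z ∈ M)
    {Z : ℝ → ℂ → ℝ}
    (hZ : ContinuousOn (fun x : ℝ × ℂ => fderiv ℝ (Z x.1) x.2) (Ici 0 ×ˢ Metric.ball 0 R))
    (hode : ∀ t, 0 ≤ t → ∀ x ∈ M, ‖linv (p t) (q t) (Φ t x - c t)‖ < R →
      HasDerivWithinAt (fun t' => linv (p t') (q t') (Φ t' x - c t'))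
        (perp (Z t) (linv (p t) (q t) (Φ t x - c t))) (Ici 0) t)
    {H : ℝ → ℂ → ℝ} (hH : ContDiff ℝ 1 (fun x : ℝ × ℂ => H x.1 x.2))
    (hH0 : ∀ t z, R' ≤ ‖z‖ → H t z = 0) {T : ℝ} (hT : 0 ≤ T) :
    (∫ z, lap (ψ T) (c T + lmap (p T) (q T) z) * H T z) -
      (∫ z, lap (ψ 0) (c 0 + lmap (p 0) (q 0) z) * H 0 z) =
      ∫ τ in (0 : ℝ)..T, ∫ z, lap (ψ τ) (c τ + lmap (p τ) (q τ) z) *
        (deriv (fun t' => H t' z) τ + pb (Z τ) (H τ) z) := by
  set X : ℝ → ℂ → ℂ := fun t x => linv (p t) (q t) (Φ t x - c t) with hX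
  set G : ℝ → ℂ → ℝ := fun t z => deriv (fun t' => H t' z) t + pb (Z t) (H t) z with hGdef
  have hGc : ContinuousOn (fun x : ℝ × ℂ => G x.1 x.2) (Ici 0 ×ˢ univ) := F5b_G hRR hZ hH hH0
  have hmem : ∀ s, 0 ≤ s → ∀ x ∈ M, Φ s x ∈ M := fun s hs x hx => (hF.bij s hs).mapsTo hx
  have hlin : ∀ {A : Type} [TopologicalSpace A] {S : Set A} {a b v : A → ℂ}, ContinuousOn a S →
      ContinuousOn b S → ContinuousOn v S → ContinuousOn (fun y => linv (a y) (b y) (v y)) S := by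
    intro A _ S a b v ha hb hv
    have e : (fun y => linv (a y) (b y) (v y)) = fun y =>
        (((v y).re * (b y).im - (v y).im * (b y).re : ℝ) : ℂ) +
          (((a y).re * (v y).im - (a y).im * (v y).re : ℝ) : ℂ) * Complex.I := by
      funext y
      apply Complex.ext <;> simp [linv, wed]
    rw [e]
    have hre : ∀ {f : A → ℂ}, ContinuousOn f S → ContinuousOn (fun y => (f y).re) S :=
      fun hf => Complex.continuous_re.comp_continuousOn hf
    have him : ∀ {f : A → ℂ}, ContinuousOn f S → ContinuousOn (fun y => (f y).im) S :=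
      fun hf => Complex.continuous_im.comp_continuousOn hf
    exact (Complex.continuous_ofReal.comp_continuousOn
      (((hre hv).mul (him hb)).sub ((him hv).mul (hre hb)))).add
      ((Complex.continuous_ofReal.comp_continuousOn
        (((hre ha).mul (him hv)).sub ((him ha).mul (hre hv)))).mul continuousOn_const)
  have hfst : ContinuousOn (fun y : ℝ × ℂ => y.1) (Ici 0 ×ˢ M) := continuousOn_fst
  have hXc : ContinuousOn (fun y : ℝ × ℂ => X y.1 y.2) (Ici 0 ×ˢ M) :=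
    hlin (hp.comp hfst fun y hy => hy.1) (hq.comp hfst fun y hy => hy.1)
      (hF.cont_Phi.sub (hc.comp hfst fun y hy => hy.1))
  have hXt : ∀ x ∈ M, ContinuousOn (fun t => X t x) (Ici 0) := fun x hx =>
    hXc.comp (f := fun t : ℝ => ((t, x) : ℝ × ℂ)) (continuousOn_id.prodMk continuousOn_const)
      (fun t ht => ⟨ht, hx⟩)
  have hXs : ∀ t, 0 ≤ t → ContinuousOn (fun x => X t x) M := fun t ht =>
    hXc.comp (f := fun x : ℂ => ((t, x) : ℝ × ℂ)) (continuousOn_const.prodMk continuousOn_id)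
      (fun x hx => ⟨ht, hx⟩)
  have hG0 : ∀ t z, R ≤ ‖z‖ → G t z = 0 := fun t z hz =>
    F5b_zero hH0 t (lt_of_lt_of_le hRR hz) _
  have hH0' : ∀ t z, R ≤ ‖z‖ → H t z = 0 := fun t z hz => hH0 t z (hRR.le.trans hz)
  have hout : ∀ t, 0 ≤ t → ∀ x ∈ M, x ∉ Kc → R ≤ ‖X t x‖ := by
    intro t ht x hx hxK
    by_contra hcon
    exact hxK (hK t ht x hx (not_le.mp hcon))
  -- change of variables
  have hcov : ∀ t, 0 ≤ t → ∀ F : ℂ → ℝ, (∀ z, R ≤ ‖z‖ → F z = 0) →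
      ∫ z, lap (ψ t) (c t + lmap (p t) (q t) z) * F z = ∫ x in Kc, w₀ x * F (X t x) := by
    intro t ht F hF0
    have h1 := frame_cov hM (hF.contDiffOn hM ht) (hF.bij t ht) (hF.area t ht) (hF.vort t ht)
      (hdet t ht) (hball t ht) F hF0
    rw [h1]
    refine setIntegral_eq_of_subset_of_forall_sdiff_eq_zero hM.measurableSet hKM fun x hx => ?_
    have h2 := hF0 _ (hout t ht x hx.1 hx.2)
    simp only [hX] at h2
    rw [h2, mul_zero]
  -- the time derivative along the trajectories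
  have hder : ∀ x ∈ M, ∀ t, 0 ≤ t → HasDerivWithinAt (fun t' => H t' (X t' x)) (G t (X t x))
      (Ioi t) t := by
    intro x hx t ht
    by_cases hz : ‖X t x‖ < R
    · have h1 : HasDerivWithinAt (fun t' => X t' x) (perp (Z t) (X t x)) (Ioi t) t :=
        (hode t ht x hx hz).mono (fun u hu => ht.trans (le_of_lt hu))
      have h2 : HasDerivWithinAt (fun t' : ℝ => ((t', X t' x) : ℝ × ℂ)) (1, perp (Z t) (X t x))
          (Ioi t) t := (hasDerivWithinAt_id t (Ioi t)).prodMk h1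
      have hd : HasFDerivAt (fun x : ℝ × ℂ => H x.1 x.2)
          (fderiv ℝ (fun x : ℝ × ℂ => H x.1 x.2) (t, X t x)) (t, X t x) :=
        (hH.differentiable (by norm_num) _).hasFDerivAt
      have h3 := hd.comp_hasDerivWithinAt t h2
      have h4 : fderiv ℝ (fun x : ℝ × ℂ => H x.1 x.2) (t, X t x) (1, perp (Z t) (X t x)) =
          G t (X t x) := by
        obtain ⟨i1, i2⟩ := F5b_H hH t (X t x)
        have e : ((1, perp (Z t) (X t x)) : ℝ × ℂ) = (1, 0) + (0, perp (Z t) (X t x)) := by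
          simp
        rw [e, map_add, ← i1, ← i2, fderiv_perp]
      rw [h4] at h3
      exact h3
    · have hz' : R' < ‖X t x‖ := lt_of_lt_of_le hRR (not_lt.mp hz)
      have h1 : ContinuousWithinAt (fun t' => ‖X t' x‖) (Ioi t) t :=
        ((hXt x hx t ht).mono (fun u hu => ht.trans (le_of_lt hu))).norm
      have h2 : (fun t' => H t' (X t' x)) =ᶠ[𝓝[Ioi t] t] fun _ => 0 := by
        filter_upwards [h1.eventually (isOpen_Ioi.mem_nhds hz')] with s hs
        exact hH0 s _ (le_of_lt hs)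
      rw [hG0 t _ (not_lt.mp hz)]
      exact (hasDerivWithinAt_const t (Ioi t) (0 : ℝ)).congr_of_eventuallyEq h2
        (hH0 t _ hz'.le)
  have hGX : ContinuousOn (fun y : ℝ × ℂ => G y.1 (X y.1 y.2)) (Ici 0 ×ˢ M) :=
    hGc.comp (f := fun y : ℝ × ℂ => ((y.1, X y.1 y.2) : ℝ × ℂ)) (hfst.prodMk hXc)
      (fun y hy => ⟨hy.1, mem_univ _⟩)
  have hftc : ∀ x ∈ M, ∫ τ in (0 : ℝ)..T, G τ (X τ x) = H T (X T x) - H 0 (X 0 x) := by
    intro x hx
    have hc1 : ContinuousOn (fun t => H t (X t x)) (Ici 0) :=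
      hH.continuous.comp_continuousOn (continuousOn_id.prodMk (hXt x hx))
    have hc2 : ContinuousOn (fun t => G t (X t x)) (Ici 0) :=
      hGX.comp (f := fun t : ℝ => ((t, x) : ℝ × ℂ)) (continuousOn_id.prodMk continuousOn_const)
        (fun t ht => ⟨ht, hx⟩)
    exact intervalIntegral.integral_eq_sub_of_hasDeriv_right_of_le hT
      (hc1.mono Icc_subset_Ici_self) (fun t ht => hder x hx t ht.1.le)
      ((hc2.mono Icc_subset_Ici_self).intervalIntegrable_of_Icc hT)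
  -- Fubini
  have hw' : ContinuousOn w₀ Kc := hw.mono hKM
  have hFc : ContinuousOn (fun y : ℝ × ℂ => w₀ y.2 * G y.1 (X y.1 y.2)) (Icc 0 T ×ˢ Kc) :=
    (hw'.comp continuousOn_snd fun y hy => hy.2).mul
      (hGX.mono (Set.prod_mono Icc_subset_Ici_self hKM))
  have hint0 : IntegrableOn (fun y : ℝ × ℂ => w₀ y.2 * G y.1 (X y.1 y.2)) (Icc 0 T ×ˢ Kc)
      (volume : Measure (ℝ × ℂ)) := hFc.integrableOn_compact (isCompact_Icc.prod hKc)
  have hint1 : IntegrableOn (fun y : ℝ × ℂ => w₀ y.2 * G y.1 (X y.1 y.2)) (Ioc 0 T ×ˢ Kc)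
      (volume : Measure (ℝ × ℂ)) := hint0.mono_set (Set.prod_mono Ioc_subset_Icc_self (Subset.refl Kc))
  have hint : Integrable (fun y : ℝ × ℂ => w₀ y.2 * G y.1 (X y.1 y.2))
      (((volume : Measure ℝ).restrict (Ioc 0 T)).prod ((volume : Measure ℂ).restrict Kc)) := by
    rw [Measure.prod_restrict]
    exact hint1
  have hI : ∀ t, 0 ≤ t → IntegrableOn (fun x => w₀ x * H t (X t x)) Kc := by
    intro t ht
    have h1 : ContinuousOn (fun x => H t (X t x)) M :=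
      hH.continuous.comp_continuousOn (continuousOn_const.prodMk (hXs t ht))
    exact (hw'.mul (h1.mono hKM)).integrableOn_compact hKc
  rw [hcov T hT (H T) (hH0' T), hcov 0 le_rfl (H 0) (hH0' 0), ← integral_sub (hI T hT) (hI 0 le_rfl)]
  have hL : (∫ x in Kc, (w₀ x * H T (X T x) - w₀ x * H 0 (X 0 x))) =
      ∫ x in Kc, ∫ τ in Ioc 0 T, w₀ x * G τ (X τ x) := by
    refine setIntegral_congr_fun hKc.isClosed.measurableSet fun x hx => ?_
    rw [← mul_sub, ← hftc x (hKM hx), intervalIntegral.integral_of_le hT, integral_const_mul]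
  have hR : (∫ τ in (0 : ℝ)..T, ∫ z, lap (ψ τ) (c τ + lmap (p τ) (q τ) z) * G τ z) =
      ∫ τ in Ioc 0 T, ∫ x in Kc, w₀ x * G τ (X τ x) := by
    rw [intervalIntegral.integral_of_le hT]
    refine setIntegral_congr_fun measurableSet_Ioc fun τ hτ => ?_
    exact hcov τ hτ.1.le (G τ) (hG0 τ)
  rw [hL]
  refine Eq.trans ?_ hR.symm
  exact (integral_integral_swap hint).symm

end Pool.Agent.YUR
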