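import Pool.Agent.YUR.F1c
import Pool.Agent.YUR.F2
import Pool.Agent.YUR.F3
import Pool.Agent.YUR.F4
import Pool.Agent.YUR.F5b
import Pool.Agent.YUB.D3
import Pool.Agent.YUB.D4

open MeasureTheory Set Filter Topology
open scoped ContDiff

namespace Pool.Agent.YUR

open Pool.Agent.YUD Pool.Agent.YUT Pool.Agent.YUB

private theorem F6_wedA (A : ℂ →L[ℝ] ℂ) (hA : A.det = 1) (u v : ℂ) :
    wed (A u) (A v) = wed u v := by
  have h : A.det = LinearMap.det (A : ℂ →ₗ[ℝ] ℂ) := rfl
  rw [h, ← LinearMap.det_toMatrix Complex.basisOneI, Matrix.det_fin_two] at hA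
  simp [LinearMap.toMatrix_apply, Complex.coe_basisOneI_repr, Complex.coe_basisOneI] at hA
  have ha : ∀ v : ℂ, A v = v.re • A 1 + v.im • A Complex.I := by
    intro v
    rw [← map_smul, ← map_smul, ← map_add]
    congr 1
    apply Complex.ext <;> simp
  rw [ha u, ha v]
  simp only [wed, Complex.add_re, Complex.add_im, Complex.real_smul, Complex.mul_re, Complex.mul_im,
    Complex.ofReal_re, Complex.ofReal_im, zero_mul, sub_zero, add_zero]
  linear_combination (u.re * v.im - u.im * v.re) * hA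

private theorem F6_lmap (A : ℂ →L[ℝ] ℂ) (τ z : ℂ) :
    lmap (A τ) (A (τ * Complex.I)) z = A (τ * z) := by
  have e : τ * z = z.re • τ + z.im • (τ * Complex.I) := by
    simp only [Complex.real_smul]
    have := Complex.re_add_im z
    calc τ * z = τ * ((z.re : ℂ) + (z.im : ℂ) * Complex.I) := by rw [this]
      _ = _ := by ring
  rw [e, map_add, map_smul, map_smul, Complex.real_smul, Complex.real_smul, lmap]

private theorem F6_wed1 (A : ℂ →L[ℝ] ℂ) (hA : A.det = 1) {τ : ℂ} (hτ : ‖τ‖ = 1) :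
    wed (A τ) (A (τ * Complex.I)) = 1 := by
  rw [F6_wedA A hA]
  have h : ‖τ‖ ^ 2 = τ.re ^ 2 + τ.im ^ 2 := by
    rw [← Complex.normSq_eq_norm_sq, Complex.normSq_apply]; ring
  rw [hτ] at h
  simp only [wed, Complex.mul_re, Complex.mul_im, Complex.I_re, Complex.I_im]
  linarith

private theorem F6_perp (f : ℂ → ℝ) (x : ℂ) : perp f x = Complex.I * (starRingEnd ℂ) (wg f x) := by
  apply Complex.ext <;> simp [perp, wg]

private theorem F6_fderiv (f : ℂ → ℝ) (x : ℂ) :
    fderiv ℝ f x = (perp f x).im • Complex.reCLM - (perp f x).re • Complex.imCLM := by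
  ext v
  all_goals
  simp only [← wed_perp_right, sub_apply, smul_apply,
    Complex.reCLM_apply, Complex.imCLM_apply, smul_eq_mul, wed]
  ring

private theorem F6_wg_le (f : ℂ → ℝ) (x : ℂ) : ‖wg f x‖ ≤ 2 * ‖fderiv ℝ f x‖ := by
  refine (Complex.norm_le_abs_re_add_abs_im _).trans ?_
  have h1 : |dx f x| ≤ ‖fderiv ℝ f x‖ := by
    have := (fderiv ℝ f x).le_opNorm 1
    rwa [norm_one, mul_one] at this
  have h2 : |dy f x| ≤ ‖fderiv ℝ f x‖ := by
    have := (fderiv ℝ f x).le_opNorm Complex.I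
    rwa [Complex.norm_I, mul_one] at this
  simp only [wg, abs_neg]
  linarith

private theorem F6_slc {α C C' R R' : ℝ} {k : Fin 4 → ℝ} {γ μ ν : ℝ} {s η : ℂ → ℝ}
    (h : Slc α C R k γ μ ν s η) (hC : 0 < C) (hCC : C ≤ C') (hR : R' ≤ R) :
    Slc α C' R' k γ μ ν s η := by
  have hb : Metric.ball (0 : ℂ) R' ⊆ Metric.ball (0 : ℂ) R := Metric.ball_subset_ball hR
  have hγ : 0 ≤ γ := by
    have h1 := h.γ_lo
    by_contra hcon
    push Not at hcon
    nlinarith [mul_neg_of_pos_of_neg hC hcon]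
  refine ⟨fun i => (h.k_le i).trans hCC, h.γ_lo.trans (mul_le_mul_of_nonneg_right hCC hγ),
    h.γ_le.trans hCC, h.μ_le.trans hCC, h.ν_le.trans hCC, h.s_c2.mono hb,
    fun z hz => (h.s_le z (hb hz)).trans ?_, fun z hz => (h.ds_le z (hb hz)).trans ?_,
    h.η_c1.mono hb, fun z hz => (h.η_le z (hb hz)).trans ?_,
    fun z hz z' hz' => (h.dη_le z (hb hz) z' (hb hz')).trans ?_, fun z hz => h.lap_s z (hb hz)⟩
  all_goals exact mul_le_mul_of_nonneg_right hCC (by positivity)

private theorem F6_norm_linv {p q : ℂ} (h : wed p q = 1) {L : ℝ}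
    (hL : ∀ z, ‖lmap p q z‖ ≤ L * ‖z‖) (w : ℂ) : ‖linv p q w‖ ≤ L * ‖w‖ := by
  have h1 := lmap_lower h hL (linv p q w)
  rwa [lmap_linv h] at h1

private theorem F6_linv_cont {A : Type} [TopologicalSpace A] {S : Set A} {a b v : A → ℂ}
    (ha : ContinuousOn a S) (hb : ContinuousOn b S) (hv : ContinuousOn v S) :
    ContinuousOn (fun y => linv (a y) (b y) (v y)) S := by
  have e : (fun y => linv (a y) (b y) (v y)) = fun y =>
      (((v y).re * (b y).im - (v y).im * (b y).re : ℝ) : ℂ) +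
        (((a y).re * (v y).im - (a y).im * (v y).re : ℝ) : ℂ) * Complex.I := by
    funext y
    apply Complex.ext <;> simp [linv, wed]
  rw [e]
  have hre : ∀ {f : A → ℂ}, ContinuousOn f S → ContinuousOn (fun y => (f y).re) S :=
    fun hf => Complex.continuous_re.comp_continuousOn hf
  have him : ∀ {f : A → ℂ}, ContinuousOn f S → ContinuousOn (fun y => (f y).im) S :=
    fun hf => Complex.continuous_im.comp_continuousOn hf
  exact (Complex.continuous_ofReal.comp_continuousOn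
    (((hre hv).mul (him hb)).sub ((him hv).mul (hre hb)))).add
    ((Complex.continuous_ofReal.comp_continuousOn
      (((hre ha).mul (him hv)).sub ((him ha).mul (hre hv)))).mul continuousOn_const)

private theorem F6_wg_cont {A : Type} [TopologicalSpace A] {S : Set A} {f : A → ℂ → ℝ} {x : A → ℂ}
    (hf : ContinuousOn (fun y => fderiv ℝ (f y) (x y)) S) :
    ContinuousOn (fun y => wg (f y) (x y)) S := by
  have e : (fun y => wg (f y) (x y)) = fun y =>
      ((fderiv ℝ (f y) (x y) 1 : ℝ) : ℂ) +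
        ((-(fderiv ℝ (f y) (x y) Complex.I) : ℝ) : ℂ) * Complex.I := by
    funext y
    apply Complex.ext <;> simp [wg, dx, dy]
  rw [e]
  exact (Complex.continuous_ofReal.comp_continuousOn (hf.clm_apply continuousOn_const)).add
    ((Complex.continuous_ofReal.comp_continuousOn
      (hf.clm_apply continuousOn_const).neg).mul continuousOn_const)

/-- [YUR-F6] the picture at scale 1. Let `t⁺ = max t 0`, `c t = Φ t⁺ a`, `p t = fderiv (Φ t⁺) a τ`,
`q t = fderiv (Φ t⁺) a (τ i)`. `w₀` is continuous and differentiable on `M` (it is `lap (ψ 0)`, as `Φ 0 = id`), and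
`‖lmap (p t) (q t) z‖ ≤ L ‖z‖`, `wed (p t) (q t) = 1` (area). WLOG `1 ≤ L` (`one_le_norm`). `ball (c t) (ρ/L) ⊆ Φ '' ball a ρ ⊆ M`
(`ball_image`). Let `ρ₂ = min (min (ρ/(4L)) ρ₁) ..`, apply `static` with this radius at every time: `b₁ t`, `b₂ t`
(choice), `aa t = wg (lap (ψ t⁺)) (c t)/2`. `g = w₀ a = lap (ψ t) (c t)` is constant. Differentiating `lap (ψ t)(Φ t x) = w₀ x` at
`x = a`: `fderiv (lap (ψ t)) (c t) (lmap (p t) (q t) z) = fderiv w₀ a (τ z) = β Im z`; so `lap (ψ t)(c t + lmap z) = g + β Im z + η t z`,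
which is `omg α 1 β g (η t) z`. Continuity of `b₁ b₂ aa`: `coef_cont` with `W t v = wg (ψ t⁺) (c t + v)` (continuous in `t` by
`WFlow.cont`), hence of `k t = kof (b₂ t) (aa t) (p t) (q t)` and `γ t = ‖q t‖²`. Frame equation: `frame_ode`. Motion:
`Y t y = linv (p t) (q t) (Φ t⁺ (a + τ y) - c t)`, `rel_ode`, `perp_zet` (`perp (ψ t) x = i conj (wg (ψ t) x)`,
`vel b g v = i conj (b v + (g/2) conj v)`). `‖linv p q w‖ ≤ L ‖w‖` (`lmap_lower`), so `‖Y t y‖ ≤ L² ‖y‖`. `start`: `fderiv (Φ 0) a = id`.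
`vort`: `lap (ψ t) (Φ t x) = w₀ x = lap (ψ 0) x`. `transport`: `transport_id` with `Kc = closedBall a (ρ/2)` (inverse Lipschitz,
`inv_lip`, `YUB/D4.lean`), `Z t = zet α 1 (k t) (s t)`: by `perp_zet` its `fderiv` is jointly continuous (`WFlow.cont`); outside
the ball of radius `R` the integrands vanish. Take `C` large (`C ≥ 2`, `C ≥ β`, `C ≥ L²`, `C ≥` the constant of `static`) and `R`
small. -/
theorem pic_one {α : ℝ} (hα : 0 < α) (hα1 : α < 1) {M : Set ℂ} (hM : IsOpen M) {w₀ : ℂ → ℝ}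
    {ψ : ℝ → ℂ → ℝ} {Φ : ℝ → ℂ → ℂ} (hF : WFlow M w₀ ψ Φ) {a τ : ℂ} {β ρ L K ρ₁ E₀ : ℝ}
    (hρ : 0 < ρ) (hB : Metric.ball a ρ ⊆ M) (hK : ∀ t, 0 ≤ t → NormLe M α K (lap (ψ t)))
    (hL : ∀ t, 0 ≤ t → ∀ x ∈ Metric.ball a ρ, ‖fderiv ℝ (Φ t) x‖ ≤ L) (hρ₁ : 0 < ρ₁)
    (hE : ∀ t, 0 ≤ t → ∀ (c : ℂ) (ρ' : ℝ), 0 < ρ' → ρ' ≤ ρ₁ → Metric.closedBall c ρ' ⊆ M →
      ∫ x in Metric.ball c ρ', ‖fderiv ℝ (ψ t) x‖ ≤ E₀) (hτ : ‖τ‖ = 1) (hβ : 0 < β)
    (hg : ∀ z : ℂ, fderiv ℝ w₀ a (τ * z) = β * z.im) :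
    ∃ C R : ℝ, 0 < R ∧ ∃ (k : ℝ → Fin 4 → ℝ) (γ μ ν : ℝ → ℝ) (s η : ℝ → ℂ → ℝ)
      (Y : ℝ → ℂ → ℂ), Pic α C R 1 β (w₀ a) (fun y => w₀ (a + τ * y)) k γ μ ν s η Y := by
  have haM : a ∈ M := hB (Metric.mem_ball_self hρ)
  set L₁ : ℝ := max L 1 with hL₁def
  have hL₁1 : 1 ≤ L₁ := le_max_right _ _
  have hL₁0 : 0 < L₁ := by linarith
  have hL₁ : ∀ t, 0 ≤ t → ∀ x ∈ Metric.ball a ρ, ‖fderiv ℝ (Φ t) x‖ ≤ L₁ := fun t ht x hx =>
    (hL t ht x hx).trans (le_max_left _ _)
  have hpl : ∀ t : ℝ, 0 ≤ max t 0 := fun t => le_max_right _ _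
  have hmem : ∀ t, 0 ≤ t → ∀ x ∈ M, Φ t x ∈ M := fun t ht x hx => (hF.bij t ht).mapsTo hx
  have hK0 : 0 ≤ K := by
    obtain ⟨-, a', b', c', h1, h2, h3, h4, -⟩ := hK 0 le_rfl
    linarith
  have hC2 : ∀ t, 0 ≤ t → ContDiffOn ℝ 2 (ψ t) M := fun t ht => by
    obtain ⟨C, hC⟩ := hF.stream t
    exact (hC t ht le_rfl).1
  have hψd : ∀ t, 0 ≤ t → ∀ x ∈ M, DifferentiableAt ℝ (ψ t) x := fun t ht x hx =>
    ((hC2 t ht).differentiableOn (by norm_num)).differentiableAt (hM.mem_nhds hx)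
  have hlapd : ∀ t, 0 ≤ t → DifferentiableOn ℝ (lap (ψ t)) M := fun t ht => (hK t ht).1
  have hlap1 : ∀ t, 0 ≤ t → ∀ x ∈ M, |lap (ψ t) x| ≤ K := by
    intro t ht x hx
    obtain ⟨-, a', b', c', h1, h2, h3, h4, h5, -⟩ := hK t ht
    linarith [h5 x hx]
  have hlap2 : ∀ t, 0 ≤ t → ∀ x ∈ M, ‖fderiv ℝ (lap (ψ t)) x‖ ≤ K := by
    intro t ht x hx
    obtain ⟨-, a', b', c', h1, h2, h3, h4, -, h5, -⟩ := hK t ht
    linarith [h5 x hx]
  have hlap3 : ∀ t, 0 ≤ t → ∀ x ∈ M, ∀ y ∈ M,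
      ‖fderiv ℝ (lap (ψ t)) x - fderiv ℝ (lap (ψ t)) y‖ ≤ K * ‖x - y‖ ^ α := by
    intro t ht x hx y hy
    obtain ⟨-, a', b', c', h1, h2, h3, h4, -, -, h5⟩ := hK t ht
    exact (h5 x hx y hy).trans (mul_le_mul_of_nonneg_right (by linarith) (by positivity))
  have hball : ∀ t, 0 ≤ t → Metric.ball (Φ t a) (ρ / L₁) ⊆ M := by
    intro t ht
    refine (ball_image hM (hF.contDiffOn hM ht) (hF.bij t ht) (hF.area t ht) hρ hL₁0 hB
      (hL₁ t ht)).trans ?_
    rintro _ ⟨x, hx, rfl⟩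
    exact hmem t ht x (hB hx)
  set ρ₂ : ℝ := min (ρ / (4 * L₁)) ρ₁ with hρ₂def
  have hρ₂ : 0 < ρ₂ := lt_min (by positivity) hρ₁
  have hρ₂L : ρ₂ < ρ / L₁ := by
    refine lt_of_le_of_lt (min_le_left _ _) ?_
    rw [div_lt_div_iff₀ (by positivity) hL₁0]
    nlinarith [mul_pos hρ hL₁0]
  have hcb : ∀ t, 0 ≤ t → Metric.closedBall (Φ t a) ρ₂ ⊆ M := fun t ht =>
    (Metric.closedBall_subset_ball hρ₂L).trans (hball t ht)
  have hE0 : 0 ≤ E₀ := (integral_nonneg fun x => norm_nonneg _).trans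
    (hE 0 le_rfl (Φ 0 a) ρ₂ hρ₂ (min_le_right _ _) (hcb 0 le_rfl))
  -- the frame
  set c : ℝ → ℂ := fun t => Φ (max t 0) a with hcdef
  set p : ℝ → ℂ := fun t => fderiv ℝ (Φ (max t 0)) a τ with hpdef
  set q : ℝ → ℂ := fun t => fderiv ℝ (Φ (max t 0)) a (τ * Complex.I) with hqdef
  have hcM : ∀ t, c t ∈ M := fun t => hmem _ (hpl t) a haM
  have hlm : ∀ t z, lmap (p t) (q t) z = fderiv ℝ (Φ (max t 0)) a (τ * z) := fun t z =>
    F6_lmap _ τ z
  have hdet : ∀ t, wed (p t) (q t) = 1 := fun t => F6_wed1 _ (hF.area _ (hpl t) a haM) hτ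
  have hlmL : ∀ t z, ‖lmap (p t) (q t) z‖ ≤ L₁ * ‖z‖ := by
    intro t z
    rw [hlm]
    refine (ContinuousLinearMap.le_opNorm _ _).trans ?_
    rw [norm_mul, hτ, one_mul]
    exact mul_le_mul_of_nonneg_right (hL₁ _ (hpl t) a (Metric.mem_ball_self hρ)) (norm_nonneg _)
  -- the statics
  obtain ⟨C₁, hC₁, hst⟩ := static (α := α) (K := K) (L := L₁) (E := E₀) (ρ := ρ₂) hα hα1 hK0
    hL₁1 hE0 hρ₂
  have hst' := fun t => hst M (ψ (max t 0)) (c t) (p t) (q t) hM (hcb _ (hpl t)) (hC2 _ (hpl t))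
    (hlapd _ (hpl t)) (hlap1 _ (hpl t) _ (hcM t)) (hlap2 _ (hpl t)) (hlap3 _ (hpl t))
    (hE _ (hpl t) (c t) ρ₂ hρ₂ (min_le_right _ _) (hcb _ (hpl t))) (hdet t) (hlmL t)
  choose b₁ b₂ hb₁ hb₂ hrem hslc using hst'
  set aa : ℝ → ℂ := fun t => wg (lap (ψ (max t 0))) (c t) / 2 with haadef
  have haaK : ∀ t, ‖aa t‖ ≤ K := by
    intro t
    simp only [haadef]
    rw [norm_div, Complex.norm_ofNat]
    have h1 := F6_wg_le (lap (ψ (max t 0))) (c t)
    have h2 := hlap2 _ (hpl t) _ (hcM t)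
    linarith
  have hlapc : ∀ t, lap (ψ (max t 0)) (c t) = w₀ a := fun t => hF.vort _ (hpl t) a haM
  have hw0 : ∀ x ∈ M, lap (ψ 0) x = w₀ x := by
    intro x hx
    have h1 := hF.vort 0 le_rfl x hx
    rwa [hF.start x hx] at h1
  have hwc : ContinuousOn w₀ M := by
    refine ((hlapd 0 le_rfl).continuousOn).congr fun x hx => (hw0 x hx).symm
  have hgK : |w₀ a| ≤ K := by
    rw [← hw0 a haM]
    exact hlap1 0 le_rfl a haM
  -- continuity in time
  have hmaxc : Continuous (fun t : ℝ => max t 0) := continuous_id.max continuous_const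
  have hcc : Continuous c := by
    have h1 : ContinuousOn (fun t : ℝ => ((max t 0, a) : ℝ × ℂ)) univ :=
      (hmaxc.prodMk continuous_const).continuousOn
    exact continuousOn_univ.mp
      (hF.cont_Phi.comp (f := fun t : ℝ => ((max t 0, a) : ℝ × ℂ)) h1 (fun t _ => ⟨hpl t, haM⟩))
  have hfc : Continuous (fun t : ℝ => fderiv ℝ (Φ (max t 0)) a) := by
    have h1 : ContinuousOn (fun t : ℝ => ((max t 0, a) : ℝ × ℂ)) univ :=
      (hmaxc.prodMk continuous_const).continuousOn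
    exact continuousOn_univ.mp
      ((hF.cont_fderiv hM).comp (f := fun t : ℝ => ((max t 0, a) : ℝ × ℂ)) h1
        (fun t _ => ⟨hpl t, haM⟩))
  have hpc : Continuous p := hfc.clm_apply continuous_const
  have hqc : Continuous q := hfc.clm_apply continuous_const
  have hwgc : ∀ {A : Type} [TopologicalSpace A] {S : Set A} {u : A → ℝ} {x : A → ℂ},
      ContinuousOn u S → ContinuousOn x S → (∀ y ∈ S, x y ∈ M) →
      ContinuousOn (fun y => wg (ψ (max (u y) 0)) (x y)) S := by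
    intro A _ S u x hu hx hxM
    refine F6_wg_cont (f := fun y => ψ (max (u y) 0)) ?_
    have h1 : ContinuousOn (fun y => ((max (u y) 0, x y) : ℝ × ℂ)) S :=
      (hmaxc.comp_continuousOn hu).prodMk hx
    exact (hF.cont.comp (f := fun y => ((max (u y) 0, x y) : ℝ × ℂ)) h1
      (fun y hy => ⟨hpl _, hxM y hy⟩)).snd
  obtain ⟨hb₁c, hb₂c, haac, -⟩ := coef_cont (α := α) (C := max C₁ K) (ρ := ρ₂ / 8) hα (by positivity)
    (W := fun t v => wg (ψ (max t 0)) (c t + v)) (b₁ := b₁) (b₂ := b₂) (a := aa)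
    (g := fun _ => w₀ a)
    (fun v hv => by
      refine continuousOn_univ.mp (hwgc (u := fun t => t) (x := fun t => c t + v)
        continuousOn_id (hcc.add continuous_const).continuousOn (fun t _ => ?_))
      refine hcb _ (hpl t) ?_
      rw [mem_closedBall_iff_norm]
      simp only [hcdef, add_sub_cancel_left]
      linarith)
    (fun t => (hb₁ t).trans (le_max_left _ _)) (fun t => (hb₂ t).trans (le_max_left _ _))
    (fun t => (haaK t).trans (le_max_right _ _)) (fun t => hgK.trans (le_max_right _ _))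
    (fun t v hv => by
      have h1 := hrem t v hv
      rw [wrem, hlapc t] at h1
      simp only [add_zero]
      exact h1.trans (mul_le_mul_of_nonneg_right (le_max_left _ _) (by positivity)))
  -- the coefficients
  set k : ℝ → Fin 4 → ℝ := fun t => kof (b₂ t) (aa t) (p t) (q t) with hkdef
  have hkc : Continuous k := by
    have hcj : Continuous (fun t => (starRingEnd ℂ) (q t)) := Complex.continuous_conj.comp hqc
    have hre : ∀ {f : ℝ → ℂ}, Continuous f → Continuous (fun y => (f y).re) :=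
      fun hf => Complex.continuous_re.comp hf
    have h0 : Continuous (fun t => (b₂ t * p t ^ 3).re / 3 + (aa t * p t).re * ‖p t‖ ^ 2 / 4) :=
      ((hre (hb₂c.mul (hpc.pow 3))).div_const 3).add
        (((hre (haac.mul hpc)).mul (hpc.norm.pow 2)).div_const 4)
    have h1 : Continuous (fun t => (b₂ t * (p t ^ 2 * q t)).re +
        (2 * (aa t * p t).re * (p t * (starRingEnd ℂ) (q t)).re + (aa t * q t).re * ‖p t‖ ^ 2) / 4) :=
      (hre (hb₂c.mul ((hpc.pow 2).mul hqc))).add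
        ((((continuous_const.mul (hre (haac.mul hpc))).mul (hre (hpc.mul hcj))).add
          ((hre (haac.mul hqc)).mul (hpc.norm.pow 2))).div_const 4)
    have h2 : Continuous (fun t => (b₂ t * (p t * q t ^ 2)).re +
        ((aa t * p t).re * ‖q t‖ ^ 2 + 2 * (aa t * q t).re * (p t * (starRingEnd ℂ) (q t)).re) / 4) :=
      (hre (hb₂c.mul (hpc.mul (hqc.pow 2)))).add
        ((((hre (haac.mul hpc)).mul (hqc.norm.pow 2)).add
          ((continuous_const.mul (hre (haac.mul hqc))).mul (hre (hpc.mul hcj)))).div_const 4)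
    have h3 : Continuous (fun t => (b₂ t * q t ^ 3).re / 3 + (aa t * q t).re * ‖q t‖ ^ 2 / 4) :=
      ((hre (hb₂c.mul (hqc.pow 3))).div_const 3).add
        (((hre (haac.mul hqc)).mul (hqc.norm.pow 2)).div_const 4)
    refine continuous_pi fun i => ?_
    fin_cases i
    · exact h0
    · exact h1
    · exact h2
    · exact h3
  set s : ℝ → ℂ → ℝ := fun t z => srem (ψ (max t 0)) (c t) (b₁ t) (b₂ t) (aa t) (lmap (p t) (q t) z)
    with hsdef
  set η : ℝ → ℂ → ℝ := fun t z => lap (ψ (max t 0)) (c t + lmap (p t) (q t) z) -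
    lap (ψ (max t 0)) (c t) - fderiv ℝ (lap (ψ (max t 0))) (c t) (lmap (p t) (q t) z) with hηdef
  have hfd : ∀ t z, fderiv ℝ (lap (ψ (max t 0))) (c t) (lmap (p t) (q t) z) = β * z.im := by
    intro t z
    rw [hlm, ← hg]
    have h1 : HasFDerivAt (Φ (max t 0)) (fderiv ℝ (Φ (max t 0)) a) a :=
      (((hF.contDiffOn hM (hpl t)).differentiableOn one_ne_zero).differentiableAt
        (hM.mem_nhds haM)).hasFDerivAt
    have h2 : HasFDerivAt (lap (ψ (max t 0))) (fderiv ℝ (lap (ψ (max t 0))) (c t)) (c t) :=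
      ((hlapd _ (hpl t)).differentiableAt (hM.mem_nhds (hcM t))).hasFDerivAt
    have h3 := (HasFDerivAt.comp (g := lap (ψ (max t 0))) (f := Φ (max t 0)) a h2 h1).fderiv
    have h4 : (lap (ψ (max t 0)) ∘ Φ (max t 0)) =ᶠ[𝓝 a] w₀ := by
      filter_upwards [hM.mem_nhds haM] with x hx
      exact hF.vort _ (hpl t) x hx
    rw [h4.fderiv_eq] at h3
    rw [h3]
    rfl
  have homg : ∀ t z, lap (ψ (max t 0)) (c t + lmap (p t) (q t) z) = omg α 1 β (w₀ a) (η t) z := by
    intro t z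
    simp only [omg, hηdef, Real.one_rpow, one_mul, hlapc, hfd]
    ring
  -- the motion
  set ρ₃ : ℝ := min (ρ₂ / 8) 1 with hρ₃def
  have hρ₃ : 0 < ρ₃ := lt_min (by positivity) one_pos
  have hframe := frame_ode hM hF (a := a) (C := C₁ + C₁ + K) (ρ := ρ₃) (ρ' := ρ) (L := L₁)
    (g := w₀ a) hρ₃ hρ hB hL₁ (b₁ := b₁) hb₁c.continuousOn (by
      intro t ht v hv
      have hv1 : ‖v‖ ≤ ρ₂ / 8 := hv.trans (min_le_left _ _)
      have hv2 : ‖v‖ ≤ 1 := hv.trans (min_le_right _ _)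
      have h1 := hrem t v hv1
      rw [wrem, hlapc t] at h1
      have ht' : max t 0 = t := max_eq_left ht
      have hct : c t = Φ t a := by simp only [hcdef, ht']
      rw [ht', hct] at h1
      have haat : wg (lap (ψ t)) (Φ t a) / 2 = aa t := by
        simp only [haadef, ht', hct]
      rw [haat] at h1
      have hpow : ‖v‖ ^ (2 + α) ≤ ‖v‖ ^ 2 := by
        rcases (norm_nonneg v).eq_or_lt with h0 | h0
        · rw [← h0, Real.zero_rpow (by linarith)]; positivity
        · rw [← Real.rpow_natCast]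
          exact Real.rpow_le_rpow_of_exponent_ge h0 hv2 (by push_cast; linarith)
      have e1 : wg (ψ t) (Φ t a + v) - wg (ψ t) (Φ t a) - b₁ t * v -
          ((w₀ a / 2 : ℝ) : ℂ) * (starRingEnd ℂ) v =
          (wg (ψ t) (Φ t a + v) - wg (ψ t) (Φ t a) - b₁ t * v -
          ((w₀ a / 2 : ℝ) : ℂ) * (starRingEnd ℂ) v - b₂ t * v ^ 2 -
            aa t / 2 * (v * (starRingEnd ℂ) v) - (starRingEnd ℂ) (aa t) / 4 * (starRingEnd ℂ) v ^ 2) +
          b₂ t * v ^ 2 + (aa t / 2 * (v * (starRingEnd ℂ) v) +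
            (starRingEnd ℂ) (aa t) / 4 * (starRingEnd ℂ) v ^ 2) := by ring
      rw [e1]
      refine (norm_add_le _ _).trans ((add_le_add (norm_add_le _ _) (norm_add_le _ _)).trans ?_)
      have n2 : ‖b₂ t * v ^ 2‖ ≤ C₁ * ‖v‖ ^ 2 := by
        rw [norm_mul, norm_pow]
        exact mul_le_mul_of_nonneg_right (hb₂ t) (by positivity)
      have n3 : ‖aa t / 2 * (v * (starRingEnd ℂ) v)‖ ≤ K / 2 * ‖v‖ ^ 2 := by
        rw [norm_mul, norm_mul, norm_div, Complex.norm_ofNat, Complex.norm_conj, ← sq]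
        exact mul_le_mul_of_nonneg_right (by linarith [haaK t]) (by positivity)
      have n4 : ‖(starRingEnd ℂ) (aa t) / 4 * (starRingEnd ℂ) v ^ 2‖ ≤ K / 4 * ‖v‖ ^ 2 := by
        rw [norm_mul, norm_pow, norm_div, Complex.norm_ofNat, Complex.norm_conj, Complex.norm_conj]
        exact mul_le_mul_of_nonneg_right (by linarith [haaK t]) (by positivity)
      have n1 := h1.trans (mul_le_mul_of_nonneg_left hpow (by linarith : (0 : ℝ) ≤ C₁))
      have hv0 : 0 ≤ K * ‖v‖ ^ 2 := by positivity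
      linarith)
  have hmotion : ∀ t, 0 ≤ t → ∀ x ∈ M,
      HasDerivWithinAt (fun t' => linv (p t') (q t') (Φ (max t' 0) x - c t'))
        (perp (zet α 1 (k t) (s t)) (linv (p t) (q t) (Φ (max t 0) x - c t))) (Ici 0) t := by
    intro t ht x hx
    have ht' : max t 0 = t := max_eq_left ht
    have hv : ∀ v, HasDerivWithinAt (fun t' => fderiv ℝ (Φ (max t' 0)) a v)
        (vel (b₁ t) (w₀ a) (fderiv ℝ (Φ (max t 0)) a v)) (Ici 0) t := by
      intro v
      have h1 := hframe t ht v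
      rw [ht']
      refine h1.congr (fun t' ht'' => ?_) ?_
      · rw [max_eq_left (show 0 ≤ t' from ht'')]
      · rw [ht']
    have hΦ : ∀ x ∈ M, HasDerivWithinAt (fun t' => Φ (max t' 0) x) (perp (ψ t) (Φ t x)) (Ici 0) t := by
      intro x hx
      refine (hF.ode t ht x hx).congr (fun t' ht'' => ?_) ?_
      · rw [max_eq_left (show 0 ≤ t' from ht'')]
      · rw [ht']
    have h1 := rel_ode (p := p) (q := q) (X := fun t' => Φ (max t' 0) x) (c := c) (hv τ)
      (hv (τ * Complex.I)) (hΦ x hx) (hΦ a haM)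
    have hlx : c t + lmap (p t) (q t) (linv (p t) (q t) (Φ (max t 0) x - c t)) = Φ (max t 0) x := by
      rw [lmap_linv (hdet t)]; ring
    have h2 := perp_zet (α := α) (ψ := ψ (max t 0)) (c := c t) (b₁ := b₁ t) (b₂ := b₂ t)
      (a := aa t) (p := p t) (q := q t) (z := linv (p t) (q t) (Φ (max t 0) x - c t))
      (by rw [hlx]; exact hψd _ (hpl t) _ (hmem _ (hpl t) x hx))
    rw [hlx, lmap_linv (hdet t), hlapc t] at h2
    have h3 : perp (zet α 1 (k t) (s t)) (linv (p t) (q t) (Φ (max t 0) x - c t)) =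
        linv (p t) (q t) (perp (ψ t) (Φ t x) - perp (ψ t) (Φ t a) -
          vel (b₁ t) (w₀ a) (Φ (max t 0) x - c t)) := by
      refine h2.trans ?_
      congr 1
      rw [F6_perp, F6_perp, vel]
      simp only [hcdef, ht', map_sub, map_add, map_mul]
      ring
    rw [h3]
    exact h1
  -- constants
  set C : ℝ := max (max C₁ 2) (max β (L₁ ^ 2)) with hCdef
  set R : ℝ := min (ρ₂ / (8 * L₁)) (ρ / (2 * L₁ ^ 2)) with hRdef
  have hCC₁ : C₁ ≤ C := (le_max_left _ _).trans (le_max_left _ _)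
  have hC2' : 2 ≤ C := (le_max_right _ _).trans (le_max_left _ _)
  have hCβ : β ≤ C := (le_max_left _ _).trans (le_max_right _ _)
  have hCL : L₁ ^ 2 ≤ C := (le_max_right _ _).trans (le_max_right _ _)
  have hC0 : 0 < C := by linarith
  have hR0 : 0 < R := lt_min (by positivity) (by positivity)
  have hR1 : R ≤ ρ₂ / (8 * L₁) := min_le_left _ _
  have hR2 : L₁ ^ 2 * R ≤ ρ / 2 := by
    have h1 : R ≤ ρ / (2 * L₁ ^ 2) := min_le_right _ _
    rw [le_div_iff₀ (by positivity)] at h1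
    linarith
  have hRL : L₁ * R < ρ / L₁ := by
    rw [lt_div_iff₀ hL₁0]
    nlinarith
  have hRC : R / C < R := by
    rw [div_lt_iff₀ hC0]
    nlinarith
  have hRρ : R / C ≤ ρ := by
    refine hRC.le.trans ?_
    nlinarith [mul_nonneg (sq_nonneg (L₁ - 1)) hR0.le, hR2, mul_pos hR0 hL₁0]
  have hbM : ∀ t z, ‖z‖ < R → c t + lmap (p t) (q t) z ∈ M := by
    intro t z hz
    refine hball _ (hpl t) ?_
    rw [mem_ball_iff_norm]
    simp only [hcdef, add_sub_cancel_left]
    refine (hlmL t z).trans_lt (lt_of_le_of_lt ?_ hRL)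
    exact mul_le_mul_of_nonneg_left hz.le hL₁0.le
  have hyM : ∀ y : ℂ, ‖y‖ < ρ → a + τ * y ∈ Metric.ball a ρ := by
    intro y hy
    rw [mem_ball_iff_norm, add_sub_cancel_left, norm_mul, hτ, one_mul]
    exact hy
  have hp0 : ∀ y, ‖y‖ < ρ → c 0 + lmap (p 0) (q 0) y = a + τ * y := by
    intro y hy
    rw [hlm]
    have h1 : fderiv ℝ (Φ (max 0 0)) a = ContinuousLinearMap.id ℝ ℂ := by
      have h2 : Φ 0 =ᶠ[𝓝 a] id :=
        Filter.eventuallyEq_of_mem (hM.mem_nhds haM) fun x hx => hF.start x hx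
      rw [max_self, h2.fderiv_eq, fderiv_id]
    rw [h1]
    simp only [hcdef, max_self, ContinuousLinearMap.coe_id', id, hF.start a haM]
  refine ⟨C, R, hR0, k, fun t => ‖q t‖ ^ 2, fun t => -((p t).re * (q t).re + (p t).im * (q t).im),
    fun t => ‖p t‖ ^ 2, s, η, fun t y => linv (p t) (q t) (Φ (max t 0) (a + τ * y) - c t),
    by linarith, one_pos, le_rfl, hβ, hCβ,
    fun t => F6_slc (hslc t) (by linarith) hCC₁ hR1, hkc, hqc.norm.pow 2, ?_, ?_, ?_, ?_, ?_⟩
  · -- start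
    intro y hy
    have hyρ : ‖y‖ < ρ := hy.trans_le hRρ
    have h1 := hp0 y hyρ
    have h2 : Φ (max 0 0) (a + τ * y) = a + τ * y := by
      rw [max_self]; exact hF.start _ (hB (hyM y hyρ))
    rw [h2, ← h1, add_sub_cancel_left, linv_lmap (hdet 0)]
  · -- the bound of the motion
    intro t ht y hy
    have hyρ : ‖y‖ < ρ := hy.trans_le hRρ
    have h1 := F6_norm_linv (hdet t) (hlmL t) (Φ (max t 0) (a + τ * y) - c t)
    have h2 : ‖Φ (max t 0) (a + τ * y) - c t‖ ≤ L₁ * ‖(a + τ * y) - a‖ := by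
      refine (convex_ball a ρ).norm_image_sub_le_of_norm_fderiv_le (𝕜 := ℝ) (fun x hx => ?_)
        (fun x hx => hL₁ _ (hpl t) x hx) (Metric.mem_ball_self hρ) (hyM y hyρ)
      exact ((hF.contDiffOn hM (hpl t)).differentiableOn one_ne_zero).differentiableAt
        (hM.mem_nhds (hB hx))
    rw [add_sub_cancel_left, norm_mul, hτ, one_mul] at h2
    calc ‖linv (p t) (q t) (Φ (max t 0) (a + τ * y) - c t)‖ ≤ L₁ * (L₁ * ‖y‖) :=
          h1.trans (mul_le_mul_of_nonneg_left h2 hL₁0.le)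
      _ = L₁ ^ 2 * ‖y‖ := by ring
      _ ≤ C * ‖y‖ := mul_le_mul_of_nonneg_right hCL (norm_nonneg _)
  · -- the motion
    intro t ht y hy
    exact hmotion t ht _ (hB (hyM y (hy.trans_le hRρ)))
  · -- the vorticity
    intro t ht y hy
    have hyρ : ‖y‖ < ρ := hy.trans_le hRρ
    have hyM' := hB (hyM y hyρ)
    have h1 := homg t (linv (p t) (q t) (Φ (max t 0) (a + τ * y) - c t))
    rw [lmap_linv (hdet t), add_sub_cancel, hF.vort _ (hpl t) _ hyM'] at h1
    have h2 := homg 0 y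
    rw [hp0 y hyρ, max_self, hw0 _ hyM'] at h2
    rw [h2] at h1
    simp only [omg, Real.one_rpow, one_mul] at h1
    simp only [Real.one_rpow, one_mul]
    linarith
  · -- the transport
    intro H hH hH0 T hT
    have hmaxτ : ∀ t : ℝ, 0 ≤ t → max t 0 = t := fun t ht => max_eq_left ht
    have key := transport_id hM hF hwc (c := c) (p := p) (q := q) hcc.continuousOn
      hpc.continuousOn hqc.continuousOn (fun t _ => hdet t) (R := R) (R' := R / C)
      (by positivity) hRC (Kc := Metric.closedBall a (ρ / 2)) (isCompact_closedBall _ _)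
      ((Metric.closedBall_subset_ball (by linarith)).trans hB)
      (by
        intro t ht x hx hz
        have hct : c t = Φ t a := by simp only [hcdef, hmaxτ t ht]
        have h1 : ‖Φ t x - Φ t a‖ ≤ L₁ * R := by
          have h2 := hlmL t (linv (p t) (q t) (Φ t x - c t))
          rw [lmap_linv (hdet t), hct] at h2
          rw [hct] at hz
          exact h2.trans (mul_le_mul_of_nonneg_left hz.le hL₁0.le)
        have h3 := inv_lip hM (hF.contDiffOn hM ht) (hF.bij t ht) (hF.area t ht) hρ hL₁0 hB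
          (hL₁ t ht) hx haM (by rw [mem_ball_iff_norm]; exact h1.trans_lt hRL)
          (Metric.mem_ball_self (by positivity))
        rw [mem_closedBall_iff_norm]
        refine h3.trans ((mul_le_mul_of_nonneg_left h1 hL₁0.le).trans ?_)
        calc L₁ * (L₁ * R) = L₁ ^ 2 * R := by ring
          _ ≤ ρ / 2 := hR2)
      (fun t _ z hz => hbM t z hz) (Z := fun t => zet α 1 (k t) (s t))
      (by
        have hS : ∀ x ∈ (Ici (0 : ℝ)) ×ˢ Metric.ball (0 : ℂ) R,
            c x.1 + lmap (p x.1) (q x.1) x.2 ∈ M := fun x hx =>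
          hbM x.1 x.2 (mem_ball_zero_iff.mp hx.2)
        have hperp : ContinuousOn (fun x : ℝ × ℂ => perp (zet α 1 (k x.1) (s x.1)) x.2)
            (Ici 0 ×ˢ Metric.ball 0 R) := by
          have e : ∀ x ∈ (Ici (0 : ℝ)) ×ˢ Metric.ball (0 : ℂ) R,
              perp (zet α 1 (k x.1) (s x.1)) x.2 = linv (p x.1) (q x.1) (Complex.I *
                (starRingEnd ℂ) (wg (ψ (max x.1 0)) (c x.1 + lmap (p x.1) (q x.1) x.2) -
                  wg (ψ (max x.1 0)) (c x.1) - b₁ x.1 * lmap (p x.1) (q x.1) x.2 -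
                    ((w₀ a / 2 : ℝ) : ℂ) * (starRingEnd ℂ) (lmap (p x.1) (q x.1) x.2))) := by
            intro x hx
            have h2 := perp_zet (α := α) (ψ := ψ (max x.1 0)) (c := c x.1) (b₁ := b₁ x.1)
              (b₂ := b₂ x.1) (a := aa x.1) (p := p x.1) (q := q x.1) (z := x.2)
              (hψd _ (hpl _) _ (hS x hx))
            rw [hlapc x.1] at h2
            exact h2
          refine ContinuousOn.congr ?_ e
          have hp1 : ContinuousOn (fun x : ℝ × ℂ => p x.1) (Ici 0 ×ˢ Metric.ball 0 R) :=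
            (hpc.comp continuous_fst).continuousOn
          have hq1 : ContinuousOn (fun x : ℝ × ℂ => q x.1) (Ici 0 ×ˢ Metric.ball 0 R) :=
            (hqc.comp continuous_fst).continuousOn
          have hc1 : ContinuousOn (fun x : ℝ × ℂ => c x.1) (Ici 0 ×ˢ Metric.ball 0 R) :=
            (hcc.comp continuous_fst).continuousOn
          have hb1 : ContinuousOn (fun x : ℝ × ℂ => b₁ x.1) (Ici 0 ×ˢ Metric.ball 0 R) :=
            (hb₁c.comp continuous_fst).continuousOn
          have hl : ContinuousOn (fun x : ℝ × ℂ => lmap (p x.1) (q x.1) x.2)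
              (Ici 0 ×ˢ Metric.ball 0 R) := by
            unfold lmap
            exact ((Complex.continuous_ofReal.comp (Complex.continuous_re.comp
              continuous_snd)).continuousOn.mul hp1).add
              ((Complex.continuous_ofReal.comp (Complex.continuous_im.comp
                continuous_snd)).continuousOn.mul hq1)
          refine F6_linv_cont hp1 hq1 ?_
          refine continuousOn_const.mul (Complex.continuous_conj.comp_continuousOn ?_)
          exact (((hwgc (u := fun x : ℝ × ℂ => x.1)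
            (x := fun x : ℝ × ℂ => c x.1 + lmap (p x.1) (q x.1) x.2) continuousOn_fst
            (hc1.add hl) hS).sub (hwgc (u := fun x : ℝ × ℂ => x.1) (x := fun x : ℝ × ℂ => c x.1)
              continuousOn_fst hc1 (fun x _ => hcM x.1))).sub (hb1.mul hl)).sub
            (continuousOn_const.mul (Complex.continuous_conj.comp_continuousOn hl))
        have e2 : (fun x : ℝ × ℂ => fderiv ℝ (zet α 1 (k x.1) (s x.1)) x.2) = fun x : ℝ × ℂ =>
            (perp (zet α 1 (k x.1) (s x.1)) x.2).im • Complex.reCLM -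
              (perp (zet α 1 (k x.1) (s x.1)) x.2).re • Complex.imCLM :=
          funext fun x => F6_fderiv _ _
        rw [e2]
        exact ((Complex.continuous_im.comp_continuousOn hperp).smul continuousOn_const).sub
          ((Complex.continuous_re.comp_continuousOn hperp).smul continuousOn_const))
      (by
        intro t ht x hx _
        have h1 := hmotion t ht x hx
        rw [hmaxτ t ht] at h1
        refine h1.congr (fun t' ht' => ?_) ?_
        · rw [hmaxτ t' ht']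
        · rw [hmaxτ t ht])
      hH hH0 hT
    have l1 : (∫ z, omg α 1 β (w₀ a) (η T) z * H T z) =
        ∫ z, lap (ψ T) (c T + lmap (p T) (q T) z) * H T z := by
      refine integral_congr_ae (Eventually.of_forall fun z => ?_)
      have h1 := homg T z
      rw [hmaxτ T hT] at h1
      simp only [h1]
    have l2 : (∫ y, w₀ (a + τ * y) * H 0 y) =
        ∫ z, lap (ψ 0) (c 0 + lmap (p 0) (q 0) z) * H 0 z := by
      refine integral_congr_ae (Eventually.of_forall fun z => ?_)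
      simp only
      by_cases hz : ‖z‖ < ρ
      · rw [hp0 z hz, hw0 _ (hB (hyM z hz))]
      · rw [hH0 0 z (hRρ.trans (not_lt.mp hz)), mul_zero, mul_zero]
    have l3 : (∫ τ' in (0 : ℝ)..T, ∫ z, omg α 1 β (w₀ a) (η τ') z *
          (deriv (fun t' => H t' z) τ' + pb (zet α 1 (k τ') (s τ')) (H τ') z)) =
        ∫ τ' in (0 : ℝ)..T, ∫ z, lap (ψ τ') (c τ' + lmap (p τ') (q τ') z) *
          (deriv (fun t' => H t' z) τ' + pb (zet α 1 (k τ') (s τ')) (H τ') z) := by
      refine intervalIntegral.integral_congr fun τ' hτ' => ?_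
      rw [uIcc_of_le hT] at hτ'
      refine integral_congr_ae (Eventually.of_forall fun z => ?_)
      have h1 := homg τ' z
      rw [hmaxτ τ' hτ'.1] at h1
      simp only [h1]
    rw [l1, l2, l3]
    exact key

end Pool.Agent.YUR
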