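import Pool.Agent.YUR.Defs

open MeasureTheory Set Filter Topology
open scoped ContDiff

namespace Pool.Agent.YUR

open Pool.Agent.YUD Pool.Agent.YUT Pool.Agent.YUB

private theorem F7_fd (f : ℂ → ℝ) (c r : ℝ) (z : ℂ) :
    fderiv ℝ (fun z : ℂ => c * f ((r : ℂ) * z)) z = (c * r) • fderiv ℝ f ((r : ℂ) * z) := by
  have e : (fun z : ℂ => c * f ((r : ℂ) * z)) = c • (fun z : ℂ => f (r • z)) := by
    funext z; simp [Complex.real_smul]
  rw [e, fderiv_const_smul_field, Pi.smul_apply, fderiv_comp_smul, smul_smul, Complex.real_smul]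

private theorem F7_dx (f : ℂ → ℝ) (c r : ℝ) (z : ℂ) :
    dx (fun z : ℂ => c * f ((r : ℂ) * z)) z = (c * r) * dx f ((r : ℂ) * z) := by
  simp only [dx, F7_fd]; rfl

private theorem F7_dy (f : ℂ → ℝ) (c r : ℝ) (z : ℂ) :
    dy (fun z : ℂ => c * f ((r : ℂ) * z)) z = (c * r) * dy f ((r : ℂ) * z) := by
  simp only [dy, F7_fd]; rfl

private theorem F7_norm {r : ℝ} (hr : 0 < r) (z : ℂ) : ‖(r : ℂ) * z‖ = r * ‖z‖ := by
  rw [norm_mul, Complex.norm_real, Real.norm_of_nonneg hr.le]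

private theorem F7_slc {α C R : ℝ} {k : Fin 4 → ℝ} {γ μ ν : ℝ} {s η : ℂ → ℝ}
    (h : Slc α C R k γ μ ν s η) {r : ℝ} (hr : 0 < r) :
    Slc α C (R / r) k γ μ ν (fun z => r ^ (-(3 + α)) * s ((r : ℂ) * z))
      (fun z => r ^ (-(1 + α)) * η ((r : ℂ) * z)) := by
  have hb : ∀ z ∈ Metric.ball (0 : ℂ) (R / r), (r : ℂ) * z ∈ Metric.ball (0 : ℂ) R := by
    intro z hz
    rw [mem_ball_zero_iff] at hz ⊢
    rw [F7_norm hr]
    rwa [lt_div_iff₀ hr, mul_comm] at hz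
  have hlin : ∀ n : ℕ, ContDiff ℝ n (fun z : ℂ => (r : ℂ) * z) := fun n =>
    contDiff_const.mul contDiff_id
  have hmul : ∀ (z : ℂ) (e : ℝ), (r * ‖z‖) ^ e = r ^ e * ‖z‖ ^ e := fun z e =>
    Real.mul_rpow hr.le (norm_nonneg _)
  refine ⟨h.k_le, h.γ_lo, h.γ_le, h.μ_le, h.ν_le, ?_, ?_, ?_, ?_, ?_, ?_, ?_⟩
  · exact contDiffOn_const.mul (h.s_c2.comp ((hlin 2).contDiffOn)
      (fun z hz => hb z hz))
  · intro z hz
    have h1 := h.s_le _ (hb z hz)
    rw [F7_norm hr, hmul] at h1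
    rw [abs_mul, abs_of_pos (Real.rpow_pos_of_pos hr _)]
    calc r ^ (-(3 + α)) * |s ((r : ℂ) * z)| ≤ r ^ (-(3 + α)) * (C * (r ^ (3 + α) * ‖z‖ ^ (3 + α))) :=
          mul_le_mul_of_nonneg_left h1 (Real.rpow_nonneg hr.le _)
      _ = (r ^ (-(3 + α)) * r ^ (3 + α)) * (C * ‖z‖ ^ (3 + α)) := by ring
      _ = C * ‖z‖ ^ (3 + α) := by
          rw [← Real.rpow_add hr, neg_add_cancel, Real.rpow_zero, one_mul]
  · intro z hz
    have h1 := h.ds_le _ (hb z hz)
    rw [F7_norm hr, hmul] at h1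
    rw [F7_fd, norm_smul, Real.norm_of_nonneg (by positivity)]
    calc r ^ (-(3 + α)) * r * ‖fderiv ℝ s ((r : ℂ) * z)‖
        ≤ r ^ (-(3 + α)) * r * (C * (r ^ (2 + α) * ‖z‖ ^ (2 + α))) :=
          mul_le_mul_of_nonneg_left h1 (by positivity)
      _ = (r ^ (-(3 + α)) * r ^ (1 : ℝ) * r ^ (2 + α)) * (C * ‖z‖ ^ (2 + α)) := by
          rw [Real.rpow_one]; ring
      _ = C * ‖z‖ ^ (2 + α) := by
          rw [← Real.rpow_add hr, ← Real.rpow_add hr,
            show -(3 + α) + 1 + (2 + α) = 0 by ring, Real.rpow_zero, one_mul]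
  · exact contDiffOn_const.mul (h.η_c1.comp ((hlin 1).contDiffOn)
      (fun z hz => hb z hz))
  · intro z hz
    have h1 := h.η_le _ (hb z hz)
    rw [F7_norm hr, hmul] at h1
    rw [abs_mul, abs_of_pos (Real.rpow_pos_of_pos hr _)]
    calc r ^ (-(1 + α)) * |η ((r : ℂ) * z)| ≤ r ^ (-(1 + α)) * (C * (r ^ (1 + α) * ‖z‖ ^ (1 + α))) :=
          mul_le_mul_of_nonneg_left h1 (Real.rpow_nonneg hr.le _)
      _ = (r ^ (-(1 + α)) * r ^ (1 + α)) * (C * ‖z‖ ^ (1 + α)) := by ring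
      _ = C * ‖z‖ ^ (1 + α) := by
          rw [← Real.rpow_add hr, neg_add_cancel, Real.rpow_zero, one_mul]
  · intro z hz z' hz'
    have h1 := h.dη_le _ (hb z hz) _ (hb z' hz')
    rw [← mul_sub, F7_norm hr, hmul] at h1
    rw [F7_fd, F7_fd, ← smul_sub, norm_smul, Real.norm_of_nonneg (by positivity)]
    calc r ^ (-(1 + α)) * r * ‖fderiv ℝ η ((r : ℂ) * z) - fderiv ℝ η ((r : ℂ) * z')‖
        ≤ r ^ (-(1 + α)) * r * (C * (r ^ α * ‖z - z'‖ ^ α)) :=
          mul_le_mul_of_nonneg_left h1 (by positivity)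
      _ = (r ^ (-(1 + α)) * r ^ (1 : ℝ) * r ^ α) * (C * ‖z - z'‖ ^ α) := by
          rw [Real.rpow_one]; ring
      _ = C * ‖z - z'‖ ^ α := by
          rw [← Real.rpow_add hr, ← Real.rpow_add hr,
            show -(1 + α) + 1 + α = 0 by ring, Real.rpow_zero, one_mul]
  · intro z hz
    have h1 := h.lap_s _ (hb z hz)
    have ex : dx (fun z : ℂ => r ^ (-(3 + α)) * s ((r : ℂ) * z)) =
        fun z : ℂ => (r ^ (-(3 + α)) * r) * dx s ((r : ℂ) * z) := by
      funext z; exact F7_dx _ _ _ _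
    have ey : dy (fun z : ℂ => r ^ (-(3 + α)) * s ((r : ℂ) * z)) =
        fun z : ℂ => (r ^ (-(3 + α)) * r) * dy s ((r : ℂ) * z) := by
      funext z; exact F7_dy _ _ _ _
    have e0 : r ^ (-(3 + α)) * r * r = r ^ (-(1 + α)) := by
      have : r ^ (-(3 + α)) * r ^ (1 : ℝ) * r ^ (1 : ℝ) = r ^ (-(1 + α)) := by
        rw [← Real.rpow_add hr, ← Real.rpow_add hr]; congr 1; ring
      rwa [Real.rpow_one] at this
    rw [← h1]
    simp only [lapG]
    rw [ex, ey, F7_dx, F7_dx, F7_dy, e0]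
    ring

/-- [YUR-F7] scaling: all bounds of `Slc` are homogeneous; `zet α r k (s_r) z = r⁻² zet α 1 k s (r z)`,
`omg α r β g (η_r) z = omg α 1 β g η (r z)`; for the transport identity apply the one at scale `1` to
`H' t z = H t (r⁻¹ z)` and substitute `z = r z'` in the integrals (factor `r²`,
`Measure.integral_comp_inv_smul_of_nonneg` or similar); `pb (zet_1) (H') (r z) = pb (zet_r) H z`. -/
theorem pic_scale {α C R β g : ℝ} (hα : 0 < α) (hα1 : α < 1) {w : ℂ → ℝ} {k : ℝ → Fin 4 → ℝ}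
    {γ μ ν : ℝ → ℝ} {s η : ℝ → ℂ → ℝ} {Y : ℝ → ℂ → ℂ} (h : Pic α C R 1 β g w k γ μ ν s η Y)
    {r : ℝ} (hr : 0 < r) (hr1 : r ≤ 1) :
    Pic α C (R / r) r β g (fun y => w ((r : ℂ) * y)) k γ μ ν
      (fun t z => r ^ (-(3 + α)) * s t ((r : ℂ) * z)) (fun t z => r ^ (-(1 + α)) * η t ((r : ℂ) * z))
      (fun t y => ((r⁻¹ : ℝ) : ℂ) * Y t ((r : ℂ) * y)) := by
  have hri : 0 < r⁻¹ := inv_pos.mpr hr
  have hrc : (r : ℂ) ≠ 0 := by exact_mod_cast hr.ne'
  have hcan : ∀ z : ℂ, (r : ℂ) * (((r⁻¹ : ℝ) : ℂ) * z) = z := by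
    intro z; push_cast; rw [← mul_assoc, mul_inv_cancel₀ hrc, one_mul]
  have hcan' : ∀ z : ℂ, ((r⁻¹ : ℝ) : ℂ) * ((r : ℂ) * z) = z := by
    intro z; push_cast; rw [← mul_assoc, inv_mul_cancel₀ hrc, one_mul]
  have hC : 0 < C := lt_of_lt_of_le one_pos h.one_le
  have hy : ∀ y : ℂ, ‖y‖ < R / r / C → ‖(r : ℂ) * y‖ < R / C := by
    intro y hy
    rw [F7_norm hr]
    rw [div_div, lt_div_iff₀ (by positivity)] at hy
    rw [lt_div_iff₀ hC]
    nlinarith [hy]
  -- stream functions and vorticities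
  have e0 : r ^ (1 + α) * r ^ (-(3 + α)) = (r ^ 2)⁻¹ := by
    rw [← Real.rpow_add hr, show 1 + α + -(3 + α) = -(2 : ℕ) by push_cast; ring, Real.rpow_neg hr.le,
      Real.rpow_natCast]
  have e1 : r ^ (1 + α) * r ^ (-(1 + α)) = 1 := by
    rw [← Real.rpow_add hr, add_neg_cancel, Real.rpow_zero]
  have e2 : r ^ α * r ^ (-(1 + α)) = r⁻¹ := by
    rw [← Real.rpow_add hr, show α + -(1 + α) = -1 by ring, Real.rpow_neg_one]
  have hcub : ∀ (k : Fin 4 → ℝ) (z : ℂ), cub k ((r : ℂ) * z) = r ^ 3 * cub k z := by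
    intro k z
    simp only [cub, Complex.mul_re, Complex.mul_im, Complex.ofReal_re, Complex.ofReal_im, zero_mul,
      sub_zero, add_zero]
    ring
  have hzet : ∀ (k : Fin 4 → ℝ) (s : ℂ → ℝ),
      zet α r k (fun z => r ^ (-(3 + α)) * s ((r : ℂ) * z)) =
        fun z => (r ^ 2)⁻¹ * zet α 1 k s ((r : ℂ) * z) := by
    intro k s
    funext z
    simp only [zet, Real.one_rpow, one_mul, hcub]
    rw [← mul_assoc, e0]
    field_simp
  have homg : ∀ (η : ℂ → ℝ) (z : ℂ), omg α r β g (fun z => r ^ (-(1 + α)) * η ((r : ℂ) * z)) z =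
      omg α 1 β g η ((r : ℂ) * z) := by
    intro η z
    simp only [omg, Real.one_rpow, one_mul, Complex.mul_im, Complex.ofReal_re, Complex.ofReal_im,
      zero_mul, add_zero]
    rw [← mul_assoc, e1, one_mul]
    ring
  have hcr : (r ^ 2)⁻¹ * r = r⁻¹ := by field_simp
  have hperp : ∀ (k : Fin 4 → ℝ) (s : ℂ → ℝ) (z : ℂ),
      perp (zet α r k (fun z => r ^ (-(3 + α)) * s ((r : ℂ) * z))) z =
        ((r⁻¹ : ℝ) : ℂ) * perp (zet α 1 k s) ((r : ℂ) * z) := by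
    intro k s z
    rw [hzet]
    simp only [perp]
    rw [F7_dx, F7_dy, hcr]
    apply Complex.ext <;> simp
  refine ⟨h.one_le, hr, hr1, h.β_pos, h.β_le, fun t => F7_slc (h.slc t) hr, h.k_cont, h.γ_cont,
    ?_, ?_, ?_, ?_, ?_⟩
  · intro y hy'
    rw [h.start _ (hy y hy'), hcan']
  · intro t ht y hy'
    have h1 := h.Y_le t ht _ (hy y hy')
    rw [F7_norm hr] at h1
    rw [F7_norm hri]
    calc r⁻¹ * ‖Y t ((r : ℂ) * y)‖ ≤ r⁻¹ * (C * (r * ‖y‖)) :=
          mul_le_mul_of_nonneg_left h1 hri.le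
      _ = C * ‖y‖ := by field_simp
  · intro t ht y hy'
    have h1 := h.ode t ht _ (hy y hy')
    rw [hperp, hcan]
    exact h1.const_mul _
  · intro t ht y hy'
    have h1 := h.vort t ht _ (hy y hy')
    rw [Real.one_rpow, one_mul, one_mul] at h1
    rw [hcan, ← mul_assoc, ← mul_assoc, e2]
    have i1 : (((r⁻¹ : ℝ) : ℂ) * Y t ((r : ℂ) * y)).im = r⁻¹ * (Y t ((r : ℂ) * y)).im := by
      simp [Complex.mul_im]
    have i2 : ((r : ℂ) * y).im = r * y.im := by simp [Complex.mul_im]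
    rw [i2] at h1
    rw [i1]
    have : β * y.im = r⁻¹ * (β * (r * y.im)) := by field_simp
    rw [this]
    linear_combination r⁻¹ * h1
  · intro H hH hH0 t ht
    set H' : ℝ → ℂ → ℝ := fun t z => H t (((r⁻¹ : ℝ) : ℂ) * z) with hH'
    have hHH : ∀ t z, H t z = H' t ((r : ℂ) * z) := fun t z => by simp only [hH']; rw [hcan']
    have hH'c : ContDiff ℝ 1 (fun p : ℝ × ℂ => H' p.1 p.2) :=
      hH.comp (contDiff_fst.prodMk (contDiff_const.mul contDiff_snd))
    have hH'0 : ∀ t z, R / C ≤ ‖z‖ → H' t z = 0 := by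
      intro t z hz
      refine hH0 t _ ?_
      rw [F7_norm hri, div_div, mul_comm r C, ← div_div, div_eq_inv_mul]
      exact mul_le_mul_of_nonneg_left hz hri.le
    have key := h.transport H' hH'c hH'0 t ht
    have hint : ∀ F : ℂ → ℝ, ∫ z, F ((r : ℂ) * z) = (r ^ 2)⁻¹ * ∫ z, F z := by
      intro F
      have h1 := Measure.integral_comp_smul (volume : Measure ℂ) F r
      simp only [Complex.real_smul, Complex.finrank_real_complex, smul_eq_mul] at h1
      rw [h1, abs_of_pos (by positivity)]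
    have hpb : ∀ τ z, pb (zet α r (k τ) (fun z => r ^ (-(3 + α)) * s τ ((r : ℂ) * z))) (H τ) z =
        pb (zet α 1 (k τ) (s τ)) (H' τ) ((r : ℂ) * z) := by
      intro τ z
      have eH : H τ = fun z => 1 * H' τ ((r : ℂ) * z) := by
        funext z; rw [one_mul]; exact hHH τ z
      rw [hzet]
      simp only [pb]
      rw [eH, F7_dx, F7_dy, F7_dx, F7_dy]
      field_simp
    have l1 : (∫ z, omg α r β g (fun z => r ^ (-(1 + α)) * η t ((r : ℂ) * z)) z * H t z) =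
        (r ^ 2)⁻¹ * ∫ z, omg α 1 β g (η t) z * H' t z := by
      rw [← hint]
      refine integral_congr_ae (Eventually.of_forall fun z => ?_)
      simp only
      rw [homg, hHH]
    have l2 : (∫ y, w ((r : ℂ) * y) * H 0 y) = (r ^ 2)⁻¹ * ∫ y, w y * H' 0 y := by
      rw [← hint]
      refine integral_congr_ae (Eventually.of_forall fun z => ?_)
      simp only
      rw [hHH]
    have l3 : (∫ τ in (0 : ℝ)..t, ∫ z, omg α r β g (fun z => r ^ (-(1 + α)) * η τ ((r : ℂ) * z)) z *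
          (deriv (fun t' => H t' z) τ +
            pb (zet α r (k τ) (fun z => r ^ (-(3 + α)) * s τ ((r : ℂ) * z))) (H τ) z)) =
        (r ^ 2)⁻¹ * ∫ τ in (0 : ℝ)..t, ∫ z, omg α 1 β g (η τ) z *
          (deriv (fun t' => H' t' z) τ + pb (zet α 1 (k τ) (s τ)) (H' τ) z) := by
      rw [← intervalIntegral.integral_const_mul]
      refine intervalIntegral.integral_congr fun τ _ => ?_
      rw [← hint]
      refine integral_congr_ae (Eventually.of_forall fun z => ?_)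
      simp only
      rw [homg, hpb]
      congr 2
      congr 1
      funext t'
      exact hHH t' z
    rw [l1, l2, l3, ← mul_sub, key]

end Pool.Agent.YUR
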