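import Pool.Agent.YUR.S3

open MeasureTheory Set Filter Topology
open scoped ContDiff

namespace Pool.Agent.YUR

open Pool.Agent.YUD Pool.Agent.YUT Pool.Agent.YUB

/-- [YUR-L1] the focusing time: `Λ t = ∫ τ in 0..t, r β / γ τ`. Its derivative is `r β/γ ≥ r β/C`, so it is strictly
increasing and unbounded; `T` by the intermediate value theorem; `r T ≤ C Λs/β`. -/
theorem focus_time {C r β Λs : ℝ} {γ : ℝ → ℝ} (hC : 1 ≤ C) (hγ : Continuous γ)
    (hγ0 : ∀ t, 1 ≤ C * γ t) (hγ1 : ∀ t, γ t ≤ C) (hr : 0 < r) (hβ : 0 < β) (hΛ : 0 < Λs) :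
    ∃ T : ℝ, 0 ≤ T ∧ r * T ≤ C * Λs / β ∧ (∫ τ in (0 : ℝ)..T, r * β / γ τ) = Λs ∧
      (∀ t, 0 ≤ t → t ≤ T → 0 ≤ (∫ τ in (0 : ℝ)..t, r * β / γ τ) ∧
        (∫ τ in (0 : ℝ)..t, r * β / γ τ) ≤ Λs) ∧
      ∀ t, HasDerivAt (fun t => ∫ τ in (0 : ℝ)..t, r * β / γ τ) (r * β / γ t) t := by
  have hC0 : 0 < C := by linarith
  have hγpos : ∀ t, 0 < γ t := fun t => by
    have h1 := hγ0 t
    by_contra h2
    push Not at h2
    nlinarith
  have hf : Continuous fun τ => r * β / γ τ :=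
    continuous_const.div hγ fun t => (hγpos t).ne'
  have hder : ∀ t, HasDerivAt (fun t => ∫ τ in (0 : ℝ)..t, r * β / γ τ) (r * β / γ t) t := fun t =>
    intervalIntegral.integral_hasDerivAt_right (hf.intervalIntegrable _ _)
      (hf.stronglyMeasurableAtFilter _ _) hf.continuousAt
  have hdiff : Differentiable ℝ fun t => ∫ τ in (0 : ℝ)..t, r * β / γ τ :=
    fun t => (hder t).differentiableAt
  have hmono : Monotone fun t => ∫ τ in (0 : ℝ)..t, r * β / γ τ := by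
    refine monotone_of_deriv_nonneg hdiff fun t => ?_
    rw [(hder t).deriv]
    have := hγpos t
    positivity
  have hlow : ∀ t, 0 ≤ t → r * β / C * t ≤ ∫ τ in (0 : ℝ)..t, r * β / γ τ := by
    intro t ht
    have h1 : ∫ _τ in (0 : ℝ)..t, r * β / C = r * β / C * t := by
      rw [intervalIntegral.integral_const, sub_zero, smul_eq_mul, mul_comm]
    rw [← h1]
    refine intervalIntegral.integral_mono_on ht intervalIntegrable_const
      (hf.intervalIntegrable _ _) fun x _ => ?_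
    exact div_le_div_of_nonneg_left (by positivity) (hγpos x) (hγ1 x)
  have hT1 : 0 ≤ C * Λs / (r * β) := by positivity
  have hz : (∫ τ in (0 : ℝ)..0, r * β / γ τ) = 0 := intervalIntegral.integral_same
  have hival := intermediate_value_Icc hT1 (hdiff.continuous.continuousOn
    (s := Icc 0 (C * Λs / (r * β))))
  have hmem : Λs ∈ Icc ((fun t => ∫ τ in (0 : ℝ)..t, r * β / γ τ) 0)
      ((fun t => ∫ τ in (0 : ℝ)..t, r * β / γ τ) (C * Λs / (r * β))) := by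
    refine ⟨?_, ?_⟩
    · simp only [hz]
      exact hΛ.le
    · refine le_trans (le_of_eq ?_) (hlow _ hT1)
      field_simp
  obtain ⟨T, hT, hTe⟩ := hival hmem
  refine ⟨T, hT.1, ?_, hTe, ?_, hder⟩
  · calc r * T ≤ r * (C * Λs / (r * β)) := mul_le_mul_of_nonneg_left hT.2 hr.le
      _ = C * Λs / β := by field_simp
  · intro t ht0 htT
    refine ⟨?_, ?_⟩
    · have h1 := hmono ht0
      simp only [hz] at h1
      exact h1
    · have h1 := hmono htT
      simp only at h1 hTe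
      linarith

private theorem L1_le2 {m : WithTop ℕ∞} [h : ENat.LEInfty m] : m ≤ ∞ := h.out

private theorem L1_cub (Q : Fin 4 → ℝ) (z : ℂ) :
    dx (cub Q) z = 3 * Q 0 * z.re ^ 2 + 2 * Q 1 * (z.re * z.im) + Q 2 * z.im ^ 2 ∧
      dy (cub Q) z = Q 1 * z.re ^ 2 + 2 * Q 2 * (z.re * z.im) + 3 * Q 3 * z.im ^ 2 := by
  have hre : HasFDerivAt (fun z : ℂ => z.re) Complex.reCLM z := Complex.reCLM.hasFDerivAt
  have him : HasFDerivAt (fun z : ℂ => z.im) Complex.imCLM z := Complex.imCLM.hasFDerivAt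
  have h0 := (hre.pow 3).const_mul (Q 0)
  have h1 := ((hre.pow 2).mul him).const_mul (Q 1)
  have h2 := (hre.mul (him.pow 2)).const_mul (Q 2)
  have h3 := (him.pow 3).const_mul (Q 3)
  have h4 := ((h0.add h1).add h2).add h3
  have h5 : HasFDerivAt (cub Q) _ z := h4
  unfold dx dy
  rw [h5.fderiv]
  constructor
  · simp
    ring
  · simp
    ring

private theorem L1_tst {P : ℝ} (hP : 0 < P) (b : ℝ → ℝ) :
    tst b P = fun z : ℂ => b z.re * vk 0 P z.im := by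
  funext z
  unfold tst
  rw [(vk_facts hP 0).2.2.2.2]

private theorem L1_vk1 {P : ℝ} (hP : 0 < P) : deriv (vk 0 P) = vk 1 P := by
  funext y
  exact ((vk_facts hP 0).2.1 y).deriv

private theorem L1_dtst {P : ℝ} (hP : 0 < P) {b : ℝ → ℝ} (hb : ContDiff ℝ 2 b) (z : ℂ) :
    dx (tst b P) z = deriv b z.re * vk 0 P z.im ∧ dy (tst b P) z = b z.re * vk 1 P z.im := by
  have h := prod_deriv hb ((vk_facts hP 0).1.of_le L1_le2) 0 0 0 z
  rw [L1_tst hP b, ← L1_vk1 hP]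
  exact ⟨h.1, h.2.1⟩

private theorem L1_pb {P : ℝ} (hP : 0 < P) {b : ℝ → ℝ} (hb : ContDiff ℝ 2 b) (Q : Fin 4 → ℝ)
    (z : ℂ) : pb (cub Q) (tst b P) z =
      (3 * Q 0 * z.re ^ 2 + 2 * Q 1 * (z.re * z.im) + Q 2 * z.im ^ 2) * (b z.re * vk 1 P z.im) -
      (Q 1 * z.re ^ 2 + 2 * Q 2 * (z.re * z.im) + 3 * Q 3 * z.im ^ 2) *
        (deriv b z.re * vk 0 P z.im) := by
  unfold pb
  rw [(L1_cub Q z).1, (L1_cub Q z).2, (L1_dtst hP hb z).1, (L1_dtst hP hb z).2]

private theorem L1_pb_mul {P : ℝ} (hP : 0 < P) {b : ℝ → ℝ} (hb : ContDiff ℝ 2 b) (Q : Fin 4 → ℝ)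
    (c : ℝ) (z : ℂ) : pb (cub Q) (fun z => c * tst b P z) z = c * pb (cub Q) (tst b P) z := by
  have hd : DifferentiableAt ℝ (tst b P) z := by
    rw [L1_tst hP b]
    have h1 : ContDiff ℝ 2 (fun z : ℂ => b z.re * vk 0 P z.im) :=
      (hb.comp Complex.reCLM.contDiff).mul
        (((vk_facts hP 0).1.of_le L1_le2).comp Complex.imCLM.contDiff)
    exact h1.contDiffAt.differentiableAt (by norm_num)
  unfold pb dx dy
  rw [fderiv_const_mul hd]
  simp only [FunLike.coe_smul, Pi.smul_apply, smul_eq_mul]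
  ring

private theorem L1_deriv_zero {f : ℝ → ℝ} {N : ℝ} (hf : Differentiable ℝ f) (hN : ∀ x, N ≤ |x| → f x = 0)
    (hN0 : 0 ≤ N) : ∀ x, N ≤ |x| → deriv f x = 0 := by
  intro x hx
  rcases le_total 0 x with h0 | h0
  · rw [abs_of_nonneg h0] at hx
    have h1 : HasDerivWithinAt f (deriv f x) (Ici N) x := (hf x).hasDerivAt.hasDerivWithinAt
    have h2 : HasDerivWithinAt f 0 (Ici N) x := by
      refine (hasDerivWithinAt_const x (Ici N) (0 : ℝ)).congr_of_mem (fun y hy => ?_) hx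
      exact hN y (by rw [abs_of_nonneg (hN0.trans hy)]; exact hy)
    exact (uniqueDiffOn_Ici N x hx).eq_deriv _ h1 h2
  · rw [abs_of_nonpos h0] at hx
    have hx' : x ∈ Iic (-N) := by
      rw [mem_Iic]
      linarith
    have h1 : HasDerivWithinAt f (deriv f x) (Iic (-N)) x := (hf x).hasDerivAt.hasDerivWithinAt
    have h2 : HasDerivWithinAt f 0 (Iic (-N)) x := by
      refine (hasDerivWithinAt_const x (Iic (-N)) (0 : ℝ)).congr_of_mem (fun y hy => ?_) hx'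
      rw [mem_Iic] at hy
      exact hN y (by rw [abs_of_nonpos (by linarith)]; linarith)
    exact (uniqueDiffOn_Iic (-N) x hx').eq_deriv _ h1 h2

/-- [YUR-L1] the test function of section 6 of the paper and its time derivative. `θ = Λs - Λ` is `C¹` with derivative
`-(r β/γ)`; `Q t i = ∫ τ in 0..t, k τ i` is `C¹` with derivative `k t i` (`k` continuous); `a 0` is smooth in `(Λ, x)`, `time`:
`∂_Λ a_0 = a_1 + e`. `pb (cub Q) f z` is an explicit polynomial combination of `Q i`, `z.re`, `z.im`,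
`(∂_x a_0)(θ t, z.re) win(z.im/P)` and `a_0(θ t, z.re) win'(z.im/P)/P`. For the time derivative of `pb (cub (Q t)) (f t) z` use that
`∂_x ∂_Λ a_0 = ∂_Λ ∂_x a_0` (`a 0` is smooth in both variables), so `d/dt dx (f t) z = dx (ft t) z`, the same for `dy`. -/
theorem H_facts {B κ S Λs τ N : ℝ} {a : ℕ → ℝ → ℝ → ℝ} {e : ℝ → ℝ → ℝ}
    (hp : Packet B κ S Λs τ N a e) {P : ℝ} (hP : 1 ≤ P) (hN : 1 ≤ N) {r : ℝ} {θ ρ : ℝ → ℝ}
    (hθ : ∀ t, HasDerivAt θ (ρ t) t) (hρ : Continuous ρ) {k : ℝ → Fin 4 → ℝ} (hk : Continuous k) :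
    ContDiff ℝ 1 (fun x : ℝ × ℂ => tst (a 0 (θ x.1)) P x.2 -
      r * pb (cub (fun i => ∫ τ in (0 : ℝ)..x.1, k τ i)) (tst (a 0 (θ x.1)) P) x.2) ∧
      (∀ t z, N + 2 * P ≤ ‖z‖ → tst (a 0 (θ t)) P z -
        r * pb (cub (fun i => ∫ τ in (0 : ℝ)..t, k τ i)) (tst (a 0 (θ t)) P) z = 0) ∧
      ∀ (t : ℝ) (ft : ℂ → ℝ), (ft = fun z => ρ t * tst (fun x => a 1 (θ t) x + e (θ t) x) P z) →
        ∀ z, deriv (fun t => tst (a 0 (θ t)) P z -
          r * pb (cub (fun i => ∫ τ in (0 : ℝ)..t, k τ i)) (tst (a 0 (θ t)) P) z) t =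
          ft z - r * pb (cub (k t)) (tst (a 0 (θ t)) P) z -
            r * pb (cub (fun i => ∫ τ in (0 : ℝ)..t, k τ i)) ft z := by
  have hP0 : 0 < P := by linarith
  -- the integrals
  have hki : ∀ i, Continuous fun t => k t i := fun i => (continuous_apply i).comp hk
  have hQd : ∀ i t, HasDerivAt (fun t => ∫ τ in (0 : ℝ)..t, k τ i) (k t i) t := fun i t =>
    intervalIntegral.integral_hasDerivAt_right ((hki i).intervalIntegrable _ _)
      ((hki i).stronglyMeasurableAtFilter _ _) (hki i).continuousAt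
  have hQc : ∀ i, ContDiff ℝ 1 fun t => ∫ τ in (0 : ℝ)..t, k τ i := by
    intro i
    rw [contDiff_one_iff_deriv]
    refine ⟨fun t => (hQd i t).differentiableAt, ?_⟩
    have e1 : deriv (fun t => ∫ τ in (0 : ℝ)..t, k τ i) = fun t => k t i := by
      funext t
      exact (hQd i t).deriv
    rw [e1]
    exact hki i
  have hθc : ContDiff ℝ 1 θ := by
    rw [contDiff_one_iff_deriv]
    refine ⟨fun t => (hθ t).differentiableAt, ?_⟩
    have e1 : deriv θ = ρ := by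
      funext t
      exact (hθ t).deriv
    rw [e1]
    exact hρ
  -- the profiles
  set G : ℝ × ℝ → ℝ := fun p => a 0 p.1 p.2 with hG
  have hGs : ContDiff ℝ ∞ G := hp.smooth 0
  have hGd : Differentiable ℝ G := hGs.differentiable (by norm_num)
  have hslice : ∀ Λ, ContDiff ℝ ∞ (a 0 Λ) := fun Λ =>
    hGs.comp (contDiff_const.prodMk contDiff_id)
  have hslice2 : ∀ Λ, ContDiff ℝ 2 (a 0 Λ) := fun Λ => (hslice Λ).of_le L1_le2
  have hDx : ∀ Λ x, deriv (a 0 Λ) x = fderiv ℝ G (Λ, x) (0, 1) := by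
    intro Λ x
    have h1 : HasDerivAt (fun x' : ℝ => (Λ, x')) (0, 1) x :=
      (hasDerivAt_const x Λ).prodMk (hasDerivAt_id x)
    have h2 := (hGd (Λ, x)).hasFDerivAt.comp_hasDerivAt x h1
    exact h2.deriv
  have hDL : ∀ Λ x, a 1 Λ x + e Λ x = fderiv ℝ G (Λ, x) (1, 0) := by
    intro Λ x
    have h1 : HasDerivAt (fun Λ' : ℝ => (Λ', x)) (1, 0) Λ :=
      (hasDerivAt_id Λ).prodMk (hasDerivAt_const Λ x)
    have h2 := (hGd (Λ, x)).hasFDerivAt.comp_hasDerivAt Λ h1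
    exact (hp.time Λ x).unique h2
  have hG1 : ContDiff ℝ ∞ (fderiv ℝ G) := hGs.fderiv_right (m := ∞) (by norm_num)
  have hG1d : Differentiable ℝ (fderiv ℝ G) := hG1.differentiable (by norm_num)
  have hDxL : ∀ Λ x, HasDerivAt (fun Λ' => deriv (a 0 Λ') x)
      (deriv (fun x' => a 1 Λ x' + e Λ x') x) Λ := by
    intro Λ x
    have e1 : (fun Λ' => deriv (a 0 Λ') x) = fun Λ' => fderiv ℝ G (Λ', x) (0, 1) := by
      funext Λ'
      exact hDx Λ' x
    have e2 : (fun x' => a 1 Λ x' + e Λ x') = fun x' => fderiv ℝ G (Λ, x') (1, 0) := by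
      funext x'
      exact hDL Λ x'
    have h1 : HasDerivAt (fun Λ' : ℝ => (Λ', x)) (1, 0) Λ :=
      (hasDerivAt_id Λ).prodMk (hasDerivAt_const Λ x)
    have h2 : HasDerivAt (fun x' : ℝ => (Λ, x')) (0, 1) x :=
      (hasDerivAt_const x Λ).prodMk (hasDerivAt_id x)
    have h3 := ((hG1d (Λ, x)).hasFDerivAt.comp_hasDerivAt Λ h1).clm_apply
      (hasDerivAt_const Λ ((0, 1) : ℝ × ℝ))
    have h4 := ((hG1d (Λ, x)).hasFDerivAt.comp_hasDerivAt x h2).clm_apply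
      (hasDerivAt_const x ((1, 0) : ℝ × ℝ))
    rw [e1, e2]
    have h5 : HasDerivAt (fun x' => fderiv ℝ G (Λ, x') (1, 0)) _ x := h4
    rw [h5.deriv]
    have h6 : HasDerivAt (fun Λ' => fderiv ℝ G (Λ', x) (0, 1)) _ Λ := h3
    refine h6.congr_deriv ?_
    have hsym := (hGs.contDiffAt (x := (Λ, x))).isSymmSndFDerivAt (by simp [L1_le2])
    simp only [map_zero, add_zero]
    exact hsym (1, 0) (0, 1)
  have hA1 : ContDiff ℝ 1 (fun p : ℝ × ℝ => deriv (a 0 p.1) p.2) := by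
    have e1 : (fun p : ℝ × ℝ => deriv (a 0 p.1) p.2) = fun p => fderiv ℝ G p (0, 1) := by
      funext p
      exact hDx p.1 p.2
    rw [e1]
    exact (hG1.of_le L1_le2).clm_apply contDiff_const
  have hA0 : ContDiff ℝ 1 (fun p : ℝ × ℝ => a 0 p.1 p.2) := hGs.of_le L1_le2
  have hform : ∀ (t : ℝ) (z : ℂ), tst (a 0 (θ t)) P z -
      r * pb (cub (fun i => ∫ τ in (0 : ℝ)..t, k τ i)) (tst (a 0 (θ t)) P) z =
      a 0 (θ t) z.re * vk 0 P z.im - r * ((3 * (∫ τ in (0 : ℝ)..t, k τ 0) * z.re ^ 2 +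
        2 * (∫ τ in (0 : ℝ)..t, k τ 1) * (z.re * z.im) + (∫ τ in (0 : ℝ)..t, k τ 2) * z.im ^ 2) *
        (a 0 (θ t) z.re * vk 1 P z.im) -
      ((∫ τ in (0 : ℝ)..t, k τ 1) * z.re ^ 2 + 2 * (∫ τ in (0 : ℝ)..t, k τ 2) * (z.re * z.im) +
        3 * (∫ τ in (0 : ℝ)..t, k τ 3) * z.im ^ 2) *
        (deriv (a 0 (θ t)) z.re * vk 0 P z.im)) := by
    intro t z
    rw [L1_pb hP0 (hslice2 (θ t)), L1_tst hP0]
  refine ⟨?_, ?_, ?_⟩
  · -- smoothness
    have e1 : (fun x : ℝ × ℂ => tst (a 0 (θ x.1)) P x.2 -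
        r * pb (cub (fun i => ∫ τ in (0 : ℝ)..x.1, k τ i)) (tst (a 0 (θ x.1)) P) x.2) =
        fun x : ℝ × ℂ => a 0 (θ x.1) x.2.re * vk 0 P x.2.im -
        r * ((3 * (∫ τ in (0 : ℝ)..x.1, k τ 0) * x.2.re ^ 2 +
        2 * (∫ τ in (0 : ℝ)..x.1, k τ 1) * (x.2.re * x.2.im) +
        (∫ τ in (0 : ℝ)..x.1, k τ 2) * x.2.im ^ 2) *
        (a 0 (θ x.1) x.2.re * vk 1 P x.2.im) -
        ((∫ τ in (0 : ℝ)..x.1, k τ 1) * x.2.re ^ 2 +
        2 * (∫ τ in (0 : ℝ)..x.1, k τ 2) * (x.2.re * x.2.im) +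
        3 * (∫ τ in (0 : ℝ)..x.1, k τ 3) * x.2.im ^ 2) *
        (deriv (a 0 (θ x.1)) x.2.re * vk 0 P x.2.im)) := by
      funext x
      exact hform x.1 x.2
    rw [e1]
    have c1 : ContDiff ℝ 1 fun x : ℝ × ℂ => θ x.1 := hθc.comp contDiff_fst
    have c2 : ContDiff ℝ 1 fun x : ℝ × ℂ => x.2.re := Complex.reCLM.contDiff.comp contDiff_snd
    have c3 : ContDiff ℝ 1 fun x : ℝ × ℂ => x.2.im := Complex.imCLM.contDiff.comp contDiff_snd
    have c4 : ContDiff ℝ 1 fun x : ℝ × ℂ => a 0 (θ x.1) x.2.re := hA0.comp (c1.prodMk c2)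
    have c5 : ContDiff ℝ 1 fun x : ℝ × ℂ => deriv (a 0 (θ x.1)) x.2.re := hA1.comp (c1.prodMk c2)
    have c6 : ∀ j, ContDiff ℝ 1 fun x : ℝ × ℂ => vk j P x.2.im := fun j =>
      ((vk_facts hP0 j).1.of_le L1_le2).comp c3
    have c7 : ∀ i, ContDiff ℝ 1 fun x : ℝ × ℂ => ∫ τ in (0 : ℝ)..x.1, k τ i := fun i =>
      (hQc i).comp contDiff_fst
    refine (c4.mul (c6 0)).sub (contDiff_const.mul ((ContDiff.mul ?_ (c4.mul (c6 1))).sub
      (ContDiff.mul ?_ (c5.mul (c6 0)))))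
    · exact (((contDiff_const.mul (c7 0)).mul (c2.pow 2)).add
        ((contDiff_const.mul (c7 1)).mul (c2.mul c3))).add ((c7 2).mul (c3.pow 2))
    · exact (((c7 1).mul (c2.pow 2)).add
        ((contDiff_const.mul (c7 2)).mul (c2.mul c3))).add ((contDiff_const.mul (c7 3)).mul (c3.pow 2))
  · -- support
    intro t z hz
    rw [hform]
    have hN0 : 0 ≤ N := by linarith
    by_cases hx : N ≤ |z.re|
    · have h1 : a 0 (θ t) z.re = 0 := hp.supp 0 (θ t) z.re hx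
      have h2 : deriv (a 0 (θ t)) z.re = 0 :=
        L1_deriv_zero ((hslice (θ t)).differentiable (by norm_num)) (hp.supp 0 (θ t)) hN0 z.re hx
      rw [h1, h2]
      ring
    · push Not at hx
      have h1 := Complex.norm_le_abs_re_add_abs_im z
      have h2 : 2 * P < |z.im| := by linarith
      have h3 : ∀ j, vk j P z.im = 0 := by
        intro j
        rcases lt_abs.1 h2 with h4 | h4
        · exact (vk_facts hP0 j).2.2.2.1 _ h4
        · exact (vk_facts hP0 j).2.2.1 _ (by linarith)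
      rw [h3 0, h3 1]
      ring
  · -- time derivative
    intro t ft hft z
    have hb1 : ContDiff ℝ 2 (fun x => a 1 (θ t) x + e (θ t) x) := by
      have h1 : ContDiff ℝ ∞ (fun x => a 1 (θ t) x + e (θ t) x) :=
        ((hp.smooth 1).comp (contDiff_const.prodMk contDiff_id)).add
          (hp.e_smooth.comp (contDiff_const.prodMk contDiff_id))
      exact h1.of_le L1_le2
    have hft_pb : ∀ Q : Fin 4 → ℝ, pb (cub Q) ft z =
        ρ t * pb (cub Q) (tst (fun x => a 1 (θ t) x + e (θ t) x) P) z := by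
      intro Q
      rw [hft]
      exact L1_pb_mul hP0 hb1 Q (ρ t) z
    have d0 : HasDerivAt (fun t => a 0 (θ t) z.re) ((a 1 (θ t) z.re + e (θ t) z.re) * ρ t) t :=
      (hp.time (θ t) z.re).comp t (hθ t)
    have d1 : HasDerivAt (fun t => deriv (a 0 (θ t)) z.re)
        (deriv (fun x' => a 1 (θ t) x' + e (θ t) x') z.re * ρ t) t :=
      (hDxL (θ t) z.re).comp t (hθ t)
    have d2 := (d0.mul_const (vk 0 P z.im)).sub ((((((((hQd 0 t).const_mul 3).mul_const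
      (z.re ^ 2)).add (((hQd 1 t).const_mul 2).mul_const (z.re * z.im))).add
      ((hQd 2 t).mul_const (z.im ^ 2))).mul (d0.mul_const (vk 1 P z.im))).sub
      (((((hQd 1 t).mul_const (z.re ^ 2)).add (((hQd 2 t).const_mul 2).mul_const
      (z.re * z.im))).add (((hQd 3 t).const_mul 3).mul_const (z.im ^ 2))).mul
      (d1.mul_const (vk 0 P z.im)))).const_mul r)
    have e1 : (fun t => tst (a 0 (θ t)) P z -
        r * pb (cub (fun i => ∫ τ in (0 : ℝ)..t, k τ i)) (tst (a 0 (θ t)) P) z) = _ :=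
      funext fun t => hform t z
    rw [e1]
    have d3 : HasDerivAt (fun t => a 0 (θ t) z.re * vk 0 P z.im -
      r * ((3 * (∫ τ in (0 : ℝ)..t, k τ 0) * z.re ^ 2 +
        2 * (∫ τ in (0 : ℝ)..t, k τ 1) * (z.re * z.im) + (∫ τ in (0 : ℝ)..t, k τ 2) * z.im ^ 2) *
        (a 0 (θ t) z.re * vk 1 P z.im) -
      ((∫ τ in (0 : ℝ)..t, k τ 1) * z.re ^ 2 + 2 * (∫ τ in (0 : ℝ)..t, k τ 2) * (z.re * z.im) +
        3 * (∫ τ in (0 : ℝ)..t, k τ 3) * z.im ^ 2) *
        (deriv (a 0 (θ t)) z.re * vk 0 P z.im))) _ t := d2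
    rw [d3.deriv, hft_pb, L1_pb hP0 hb1, L1_pb hP0 (hslice2 (θ t)), hft]
    simp only [L1_tst hP0, Pi.add_apply]
    ring

end Pool.Agent.YUR
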