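import Pool.Agent.YUR.S4
import Pool.Agent.YUR.S7

open MeasureTheory Set Filter Topology
open scoped ContDiff

namespace Pool.Agent.YUR

open Pool.Agent.YUD Pool.Agent.YUT Pool.Agent.YUB

theorem L2_dcub (Q : Fin 4 → ℝ) (z : ℂ) : HasFDerivAt (cub Q)
    ((3 * Q 0 * z.re ^ 2 + 2 * Q 1 * z.re * z.im + Q 2 * z.im ^ 2) • Complex.reCLM +
      (Q 1 * z.re ^ 2 + 2 * Q 2 * z.re * z.im + 3 * Q 3 * z.im ^ 2) • Complex.imCLM) z := by
  have hx : HasFDerivAt (fun z : ℂ => z.re) Complex.reCLM z := Complex.reCLM.hasFDerivAt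
  have hy : HasFDerivAt (fun z : ℂ => z.im) Complex.imCLM z := Complex.imCLM.hasFDerivAt
  have h := ((((hx.pow 3).const_mul (Q 0)).add (((hx.pow 2).mul hy).const_mul (Q 1))).add
    ((hx.mul (hy.pow 2)).const_mul (Q 2))).add ((hy.pow 3).const_mul (Q 3))
  have e : cub Q = fun z : ℂ => Q 0 * z.re ^ 3 + Q 1 * (z.re ^ 2 * z.im) +
      Q 2 * (z.re * z.im ^ 2) + Q 3 * z.im ^ 3 := rfl
  rw [e]
  refine h.congr_fderiv ?_
  ext v
  simp
  ring

theorem L2_dx (Q : Fin 4 → ℝ) (z : ℂ) : dx (cub Q) z =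
    3 * Q 0 * z.re ^ 2 + 2 * Q 1 * z.re * z.im + Q 2 * z.im ^ 2 := by
  unfold dx
  rw [(L2_dcub Q z).fderiv]
  simp

theorem L2_dy (Q : Fin 4 → ℝ) (z : ℂ) : dy (cub Q) z =
    Q 1 * z.re ^ 2 + 2 * Q 2 * z.re * z.im + 3 * Q 3 * z.im ^ 2 := by
  unfold dy
  rw [(L2_dcub Q z).fderiv]
  simp

theorem L2_cub_smooth (Q : Fin 4 → ℝ) : ContDiff ℝ ∞ (cub Q) := by
  have hx : ContDiff ℝ ∞ (fun z : ℂ => z.re) := Complex.reCLM.contDiff
  have hy : ContDiff ℝ ∞ (fun z : ℂ => z.im) := Complex.imCLM.contDiff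
  unfold cub
  exact (((contDiff_const.mul (hx.pow 3)).add (contDiff_const.mul ((hx.pow 2).mul hy))).add
    (contDiff_const.mul (hx.mul (hy.pow 2)))).add (contDiff_const.mul (hy.pow 3))

theorem L2_poly {ρ q a b c x y : ℝ} (hx : |x| ≤ ρ) (hy : |y| ≤ ρ) (ha : |a| ≤ q)
    (hb : |b| ≤ q) (hc : |c| ≤ q) :
    |3 * a * x ^ 2 + 2 * b * x * y + c * y ^ 2| ≤ 6 * ρ ^ 2 * q := by
  have hρ : 0 ≤ ρ := (abs_nonneg _).trans hx
  have hq : 0 ≤ q := (abs_nonneg _).trans ha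
  have h1 : |3 * a * x ^ 2| ≤ 3 * q * ρ ^ 2 := by
    rw [abs_mul, abs_mul, abs_pow, abs_of_pos (by norm_num : (0 : ℝ) < 3)]
    gcongr
  have h2 : |2 * b * x * y| ≤ 2 * q * ρ * ρ := by
    rw [abs_mul, abs_mul, abs_mul, abs_of_pos (by norm_num : (0 : ℝ) < 2)]
    gcongr
  have h3 : |c * y ^ 2| ≤ q * ρ ^ 2 := by
    rw [abs_mul, abs_pow]
    gcongr
  calc |3 * a * x ^ 2 + 2 * b * x * y + c * y ^ 2|
      ≤ |3 * a * x ^ 2| + |2 * b * x * y| + |c * y ^ 2| := abs_add_three _ _ _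
    _ ≤ 6 * ρ ^ 2 * q := by nlinarith

theorem L2_pb {ρ m : ℝ} {Q : Fin 4 → ℝ} {f : ℂ → ℝ} {z : ℂ} (hz : ‖z‖ ≤ ρ)
    (hm : ‖fderiv ℝ f z‖ ≤ m) : |pb (cub Q) f z| ≤ 12 * ρ ^ 2 * m * ‖Q‖ := by
  have hQ : ∀ i, |Q i| ≤ ‖Q‖ := fun i => by
    rw [← Real.norm_eq_abs]
    exact norm_le_pi_norm Q i
  have hx : |z.re| ≤ ρ := (Complex.abs_re_le_norm z).trans hz
  have hy : |z.im| ≤ ρ := (Complex.abs_im_le_norm z).trans hz
  have h1 : |dx (cub Q) z| ≤ 6 * ρ ^ 2 * ‖Q‖ := by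
    rw [L2_dx]
    exact L2_poly hx hy (hQ 0) (hQ 1) (hQ 2)
  have h2 : |dy (cub Q) z| ≤ 6 * ρ ^ 2 * ‖Q‖ := by
    rw [L2_dy]
    have e : Q 1 * z.re ^ 2 + 2 * Q 2 * z.re * z.im + 3 * Q 3 * z.im ^ 2 =
        3 * Q 3 * z.im ^ 2 + 2 * Q 2 * z.im * z.re + Q 1 * z.re ^ 2 := by ring
    rw [e]
    exact L2_poly hy hx (hQ 3) (hQ 2) (hQ 1)
  have h3 := (abs_dx_le f z).trans hm
  have h4 := (abs_dy_le f z).trans hm
  unfold pb
  calc |dx (cub Q) z * dy f z - dy (cub Q) z * dx f z|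
      ≤ |dx (cub Q) z * dy f z| + |dy (cub Q) z * dx f z| := abs_sub _ _
    _ ≤ 6 * ρ ^ 2 * ‖Q‖ * m + 6 * ρ ^ 2 * ‖Q‖ * m := by
        rw [abs_mul, abs_mul]
        gcongr
    _ = 12 * ρ ^ 2 * m * ‖Q‖ := by ring

theorem L2_win {P : ℝ} (hP : 0 < P) : ∫ y, |win (y / P)| ≤ P := by
  obtain ⟨hs, h01, h1, h2, -, -⟩ := win_facts
  have hle : ∀ y, |win (y / P)| ≤ (Icc P (2 * P)).indicator (fun _ => (1 : ℝ)) y := by
    intro y
    by_cases hy : y ∈ Icc P (2 * P)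
    · rw [indicator_of_mem hy, abs_of_nonneg (h01 _).1]
      exact (h01 _).2
    · rw [indicator_of_notMem hy]
      rw [mem_Icc, not_and_or, not_le, not_le] at hy
      have h0 : win (y / P) = 0 := by
        rcases hy with hy | hy
        · exact h1 _ (by rw [div_le_one hP]; exact hy.le)
        · exact h2 _ (by rw [le_div_iff₀ hP]; exact hy.le)
      rw [h0, abs_zero]
  have hi : Integrable ((Icc P (2 * P)).indicator (fun _ => (1 : ℝ))) := by
    rw [integrable_indicator_iff measurableSet_Icc]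
    exact integrableOn_const (by simp)
  calc ∫ y, |win (y / P)| ≤ ∫ y, (Icc P (2 * P)).indicator (fun _ => (1 : ℝ)) y :=
        integral_mono_of_nonneg (ae_of_all _ fun y => abs_nonneg _) hi (ae_of_all _ hle)
    _ = P := by
        rw [integral_indicator measurableSet_Icc]
        simp only [integral_const, smul_eq_mul, mul_one]
        rw [measureReal_restrict_apply MeasurableSet.univ, univ_inter, Real.volume_real_Icc_of_le
          (by linarith)]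
        ring

theorem L2_lin {f1 f2 f3 f4 f5 f6 : ℂ → ℝ} (i1 : Integrable f1) (i2 : Integrable f2)
    (i3 : Integrable f3) (i4 : Integrable f4) (i5 : Integrable f5) (i6 : Integrable f6)
    (c1 c2 c3 c4 c5 c6 : ℝ) :
    ∫ z, (c1 * f1 z - c2 * f2 z + c3 * f3 z - c4 * f4 z + c5 * f5 z - c6 * f6 z) =
      c1 * (∫ z, f1 z) - c2 * (∫ z, f2 z) + c3 * (∫ z, f3 z) - c4 * (∫ z, f4 z) +
        c5 * (∫ z, f5 z) - c6 * (∫ z, f6 z) := by
  have j1 : Integrable (fun z => c1 * f1 z - c2 * f2 z) := (i1.const_mul c1).sub (i2.const_mul c2)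
  have j2 : Integrable (fun z => c1 * f1 z - c2 * f2 z + c3 * f3 z) := j1.add (i3.const_mul c3)
  have j3 : Integrable (fun z => c1 * f1 z - c2 * f2 z + c3 * f3 z - c4 * f4 z) :=
    j2.sub (i4.const_mul c4)
  have j4 : Integrable (fun z => c1 * f1 z - c2 * f2 z + c3 * f3 z - c4 * f4 z + c5 * f5 z) :=
    j3.add (i5.const_mul c5)
  rw [integral_sub j4 (i6.const_mul c6), integral_add j3 (i5.const_mul c5),
    integral_sub j2 (i4.const_mul c4), integral_add j1 (i3.const_mul c3),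
    integral_sub (i1.const_mul c1) (i2.const_mul c2)]
  simp only [integral_const_mul]

/-- [YUR-L2] the value at the end: `f = tst (a 0 0) P`, `∫ f = ∫ y f = 0`, `∫ pb Q f = ∫ y pb Q f = 0` (`van`), so
`∫ ω (f - r pb Q f) = r^(1+α) [∫ η f - r ∫ η pb Q f]`; first term: `line_le` (moments: `packet_van`; `focus`; `vk_int` with `k = 0` or
`∫ win(y/P) ≤ P`), second term: `|η| ≤ C (N+2P)^(1+α)`, `|pb Q f| ≤ A' ‖Q‖` on `ball 0 (N+2P)`. -/
theorem end_bd {α C : ℝ} (hα : 0 < α) (hα1 : α < 1) (hC : 1 ≤ C) {B κ S Λs τ N : ℝ}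
    {a : ℕ → ℝ → ℝ → ℝ} {e : ℝ → ℝ → ℝ} {P : ℝ} (hp : Packet B κ S Λs τ N a e) (hP : 1 ≤ P)
    (hN : 1 ≤ N) : ∃ A : ℝ, 0 ≤ A ∧ ∀ (R : ℝ) (k : Fin 4 → ℝ) (γ μ ν : ℝ) (s η : ℂ → ℝ),
      Slc α C R k γ μ ν s η → 2 * (N + 2 * P) ≤ R → ∀ (Q : Fin 4 → ℝ) (r β g : ℝ), 0 < r →
        |∫ z, omg α r β g η z * (tst (a 0 0) P z - r * pb (cub Q) (tst (a 0 0) P) z)| ≤
          r ^ (1 + α) * (C * (B * P) + A * (r * ‖Q‖)) := by
  obtain ⟨hws, hw01, hw1, hw2, -, -⟩ := win_facts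
  have hP0 : 0 < P := by linarith
  have hN0 : 0 < N := by linarith
  obtain ⟨f, hf⟩ : ∃ f : ℂ → ℝ, f = tst (a 0 0) P := ⟨_, rfl⟩
  have hb : ContDiff ℝ ∞ (a 0 0) := by
    have h1 : ContDiff ℝ ∞ (fun x : ℝ => ((0 : ℝ), x)) := contDiff_const.prodMk contDiff_id
    exact (hp.smooth 0).comp h1
  have hh : ContDiff ℝ ∞ (fun y => win (y / P)) := hws.comp (contDiff_id.div_const P)
  have hhP : ∀ y, y < P → win (y / P) = 0 := fun y hy =>
    hw1 _ (by rw [div_le_one hP0]; exact hy.le)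
  have hhP' : ∀ y, 2 * P < y → win (y / P) = 0 := fun y hy =>
    hw2 _ (by rw [le_div_iff₀ hP0]; exact hy.le)
  obtain ⟨hfs, hfc, hft⟩ := prod_supp hb hh hN0 hP0 (hp.supp 0 0) hhP hhP'
  have hfe : (fun z : ℂ => a 0 0 z.re * win (z.im / P)) = f := by rw [hf]; rfl
  rw [hfe] at hfs hfc hft
  obtain ⟨ρ, hρ⟩ : ∃ ρ : ℝ, ρ = N + 2 * P := ⟨_, rfl⟩
  have hρ0 : 0 < ρ := by rw [hρ]; positivity
  rw [← hρ] at hft ⊢
  -- a bound for the derivative of `f`
  obtain ⟨m, hm⟩ := (hfs.continuous_fderiv (by simp)).bounded_above_of_compact_support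
    (hfc.fderiv (𝕜 := ℝ))
  have hm0 : 0 ≤ m := (norm_nonneg _).trans (hm 0)
  obtain ⟨V, hV⟩ : ∃ V : ℝ, V = (volume (Metric.closedBall (0 : ℂ) ρ)).toReal := ⟨_, rfl⟩
  have hV0 : 0 ≤ V := by rw [hV]; exact ENNReal.toReal_nonneg
  refine ⟨C * ρ ^ (1 + α) * (12 * ρ ^ 2 * m) * V, by positivity, ?_⟩
  intro R k γ μ ν s η h hR Q r β g hr
  have hR' : ρ < R := by linarith
  have hball : Metric.closedBall (0 : ℂ) ρ ⊆ Metric.ball 0 R := Metric.closedBall_subset_ball hR'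
  obtain ⟨φ, hφ⟩ : ∃ φ : ℂ → ℝ, φ = pb (cub Q) f := ⟨_, rfl⟩
  have hf2' : ContDiff ℝ (1 + 1 : ℕ) f := contDiff_infty.1 hfs 2
  have hc2' : ContDiff ℝ (1 + 1 : ℕ) (cub Q) := contDiff_infty.1 (L2_cub_smooth Q) 2
  have hφs : ContDiff ℝ (1 : ℕ) φ := by
    rw [hφ]
    unfold pb
    exact ((contDiff_dx (n := 1) hc2').mul (contDiff_dy (n := 1) hf2')).sub
      ((contDiff_dy (n := 1) hc2').mul (contDiff_dx (n := 1) hf2'))
  have hφ0 : ∀ z, z ∉ tsupport f → φ z = 0 := by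
    intro z hz
    rw [hφ]
    unfold pb
    rw [A3_dx_off hz, A3_dy_off hz]
    ring
  have hφc : HasCompactSupport φ := hfc.mono' fun z hz => by
    by_contra h1
    exact hz (hφ0 z h1)
  have hφt : tsupport φ ⊆ tsupport f :=
    closure_minimal (fun z hz => by
      by_contra h1
      exact hz (hφ0 z h1)) (isClosed_tsupport f)
  have hfz : ∀ z, z ∉ Metric.closedBall (0 : ℂ) ρ → f z = 0 := fun z hz =>
    image_eq_zero_of_notMem_tsupport fun h1 => hz (hft h1)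
  have hφz : ∀ z, z ∉ Metric.closedBall (0 : ℂ) ρ → φ z = 0 := fun z hz =>
    hφ0 z fun h1 => hz (hft h1)
  have hf1 : ContDiff ℝ (1 : ℕ) f := contDiff_infty.1 hfs 1
  have hη1 : ContDiffOn ℝ (1 : ℕ) η (Metric.ball 0 R) := h.η_c1
  -- integrability
  have i1 : Integrable f := hf1.continuous.integrable_of_hasCompactSupport hfc
  have i2 : Integrable φ := hφs.continuous.integrable_of_hasCompactSupport hφc
  have i3 : Integrable fun z : ℂ => z.im * f z :=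
    (Complex.continuous_im.mul hf1.continuous).integrable_of_hasCompactSupport hfc.mul_left
  have i4 : Integrable fun z : ℂ => z.im * φ z :=
    (Complex.continuous_im.mul hφs.continuous).integrable_of_hasCompactSupport hφc.mul_left
  have i5 : Integrable fun z : ℂ => f z * η z :=
    (contDiff_cut (n := 1) Metric.isOpen_ball hf1 (hft.trans hball) hη1).continuous.integrable_of_hasCompactSupport
      hfc.mul_right
  have i6 : Integrable fun z : ℂ => φ z * η z :=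
    (contDiff_cut (n := 1) Metric.isOpen_ball hφs ((hφt.trans hft).trans hball)
      hη1).continuous.integrable_of_hasCompactSupport hφc.mul_right
  -- the vanishing integrals
  obtain ⟨-, -, -, -, v1, v2, v3, v4, -, -⟩ := van hp hP hN Q Q 0
  rw [← hf] at v1 v2 v3 v4
  rw [← hφ] at v3 v4
  have key : ∫ z, omg α r β g η z * (f z - r * φ z) =
      r ^ (1 + α) * (∫ z, f z * η z) - r ^ (1 + α) * r * (∫ z, φ z * η z) := by
    have e : ∀ z, omg α r β g η z * (f z - r * φ z) =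
        g * f z - g * r * φ z + r * β * (z.im * f z) - r * β * r * (z.im * φ z) +
          r ^ (1 + α) * (f z * η z) - r ^ (1 + α) * r * (φ z * η z) := by
      intro z
      unfold omg
      ring
    simp only [e]
    rw [L2_lin i1 i2 i3 i4 i5 i6]
    rw [v1, v2, v3, v4]
    ring
  -- the main term
  have m0 : ∫ x, a 0 0 x = 0 := by simpa using packet_van hp 0 0 (by norm_num) 0
  have m1 : ∫ x, x * a 0 0 x = 0 := by simpa using packet_van hp 1 0 (by norm_num) 0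
  have b1 : |∫ z, f z * η z| ≤ C * (B * P) := by
    have h1 := line_le hα hα1 (by linarith) hN0 hP0 (by rw [hρ] at hR; linarith) h.η_c1 h.dη_le
      hb.continuous (hp.supp 0 0) hh.continuous hhP hhP' m0 m1
    have e : ∫ z, η z * (a 0 0 z.re * win (z.im / P)) = ∫ z, f z * η z := by
      refine integral_congr_ae (ae_of_all _ fun z => ?_)
      show η z * (a 0 0 z.re * win (z.im / P)) = f z * η z
      rw [← hfe, mul_comm]
    rw [e] at h1
    refine h1.trans ?_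
    have h2 := L2_win hP0
    have h3 := hp.focus
    have h4 : 0 ≤ ∫ y, |win (y / P)| := integral_nonneg fun y => abs_nonneg _
    have h5 : 0 ≤ ∫ x, (1 + |x|) ^ 2 * |a 0 0 x| := integral_nonneg fun y => by positivity
    have hB : 0 ≤ B := h5.trans h3
    gcongr
  have b2 : |∫ z, φ z * η z| ≤ C * ρ ^ (1 + α) * (12 * ρ ^ 2 * m) * V * ‖Q‖ := by
    have e : ∫ z, φ z * η z = ∫ z in Metric.closedBall (0 : ℂ) ρ, φ z * η z := by
      symm
      refine setIntegral_eq_integral_of_forall_compl_eq_zero fun z hz => ?_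
      rw [hφz z hz, zero_mul]
    rw [e, ← Real.norm_eq_abs]
    have h1 : ∀ z ∈ Metric.closedBall (0 : ℂ) ρ, ‖φ z * η z‖ ≤
        12 * ρ ^ 2 * m * ‖Q‖ * (C * ρ ^ (1 + α)) := by
      intro z hz
      have hz' : ‖z‖ ≤ ρ := by rwa [mem_closedBall_zero_iff] at hz
      rw [norm_mul, Real.norm_eq_abs, Real.norm_eq_abs]
      have h2 : |φ z| ≤ 12 * ρ ^ 2 * m * ‖Q‖ := by
        rw [hφ]
        exact L2_pb hz' (hm z)
      have h3 : |η z| ≤ C * ρ ^ (1 + α) := by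
        refine (h.η_le z (hball hz)).trans ?_
        gcongr
      exact mul_le_mul h2 h3 (abs_nonneg _) (by positivity)
    have h2 := norm_setIntegral_le_of_norm_le_const (μ := volume) (s := Metric.closedBall (0 : ℂ) ρ)
      measure_closedBall_lt_top h1
    refine h2.trans (le_of_eq ?_)
    rw [hV, Measure.real]
    ring
  have e0 : (∫ z, omg α r β g η z * (tst (a 0 0) P z - r * pb (cub Q) (tst (a 0 0) P) z)) =
      ∫ z, omg α r β g η z * (f z - r * φ z) := by rw [hφ, hf]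
  rw [e0, key]
  have hr1 : 0 ≤ r ^ (1 + α) := by positivity
  calc |r ^ (1 + α) * (∫ z, f z * η z) - r ^ (1 + α) * r * (∫ z, φ z * η z)|
      ≤ |r ^ (1 + α) * (∫ z, f z * η z)| + |r ^ (1 + α) * r * (∫ z, φ z * η z)| := abs_sub _ _
    _ ≤ r ^ (1 + α) * (C * (B * P)) +
        r ^ (1 + α) * r * (C * ρ ^ (1 + α) * (12 * ρ ^ 2 * m) * V * ‖Q‖) := by
        rw [abs_mul, abs_mul, abs_of_nonneg hr1, abs_of_nonneg (mul_nonneg hr1 hr.le)]
        gcongr
    _ = _ := by ring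

end Pool.Agent.YUR
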