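import Pool.Agent.YUR.S5
import Pool.Agent.YUR.S6
import Pool.Agent.YUR.S7

open MeasureTheory Set Filter Topology
open scoped ContDiff

namespace Pool.Agent.YUR

open Pool.Agent.YUD Pool.Agent.YUT Pool.Agent.YUB

/-- a function which is `C¹` on an open set times a `C¹` function with compact support in this set -/
theorem s8_int {U : Set ℂ} (hU : IsOpen U) {s G : ℂ → ℝ} (hs : ContDiffOn ℝ 1 s U) (hG : ContDiff ℝ 1 G)
    (hc : HasCompactSupport G) (hsu : tsupport G ⊆ U) : Integrable (fun z => s z * G z) := by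
  have h1 : ContDiff ℝ 1 (fun x => G x * s x) := contDiff_cut (n := 1) hU hG hsu hs
  have h2 : HasCompactSupport (fun x => G x * s x) := hc.mul_right
  have h3 := h1.continuous.integrable_of_hasCompactSupport (μ := volume) h2
  refine h3.congr (Filter.Eventually.of_forall fun z => ?_)
  exact mul_comm _ _

/-- Green's formula for `a_1 v` -/
theorem s8_green {α C R : ℝ} {k : Fin 4 → ℝ} {γ μ ν : ℝ} {s η : ℂ → ℝ} (h : Slc α C R k γ μ ν s η)
    {B κ S Λs τ N : ℝ} {a : ℕ → ℝ → ℝ → ℝ} {e : ℝ → ℝ → ℝ} (hp : Packet B κ S Λs τ N a e) {P : ℝ}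
    (hP : 1 ≤ P) (hN : 1 ≤ N) (hR : 2 * (N + 2 * P) ≤ R) (Λ : ℝ) :
    (∫ z, η z * tst (fun x => a 1 Λ x + e Λ x) P z) = γ * (∫ z, s z * dx (tst (a 0 Λ) P) z) +
      2 * μ * (∫ z, s z * (a 0 Λ z.re * vk 1 P z.im)) + ν * (∫ z, s z * (a 1 Λ z.re * vk 2 P z.im)) +
        ∫ z, η z * (e Λ z.re * vk 0 P z.im) := by
  have hP0 : 0 < P := by linarith
  have hN0 : 0 < N := by linarith
  obtain ⟨v0s, v0d, v0l, v0r, v0e⟩ := vk_facts hP0 0
  obtain ⟨v1s, v1d, v1l, v1r, _⟩ := vk_facts hP0 1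
  obtain ⟨v2s, _, v2l, v2r, _⟩ := vk_facts hP0 2
  have as : ∀ j, ContDiff ℝ ∞ (a j Λ) := fun j => (hp.smooth j).comp (contDiff_prodMk_right Λ)
  have es : ContDiff ℝ ∞ (e Λ) := hp.e_smooth.comp (contDiff_prodMk_right Λ)
  have hU : IsOpen (Metric.ball (0 : ℂ) R) := Metric.isOpen_ball
  have hsub : Metric.closedBall (0 : ℂ) (N + 2 * P) ⊆ Metric.ball 0 R :=
    Metric.closedBall_subset_ball (by linarith)
  have hs1 : ContDiffOn ℝ 1 s (Metric.ball 0 R) := h.s_c2.of_le (by norm_num)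
  -- products
  have pr : ∀ {b : ℝ → ℝ} {m : ℕ}, ContDiff ℝ ∞ b → (∀ x, N ≤ |x| → b x = 0) →
      ContDiff ℝ ∞ (fun z : ℂ => b z.re * vk m P z.im) ∧ HasCompactSupport (fun z : ℂ => b z.re * vk m P z.im) ∧
      tsupport (fun z : ℂ => b z.re * vk m P z.im) ⊆ Metric.ball 0 R := by
    intro b m hb hbN
    obtain ⟨w1, _, w2, w3, _⟩ := vk_facts hP0 m
    obtain ⟨p1, p2, p3⟩ := prod_supp hb w1 hN0 hP0 hbN w2 w3
    exact ⟨p1, p2, p3.trans hsub⟩
  have le1 : (1 : WithTop ℕ∞) ≤ ∞ := by exact_mod_cast le_top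
  have le2 : (2 : WithTop ℕ∞) ≤ ∞ := WithTop.coe_le_coe.2 le_top
  -- `f = a_0 v`
  have hf : tst (a 0 Λ) P = fun z => a 0 Λ z.re * vk 0 P z.im := by
    funext z
    rw [tst, v0e]
  obtain ⟨q1, q2, q3⟩ := pr (m := 0) (as 0) (hp.supp 0 Λ)
  have i0 : Integrable (fun z => s z * dx (tst (a 0 Λ) P) z) := by
    rw [hf]
    refine s8_int hU hs1 ?_ ?_ ?_
    · exact contDiff_dx (n := 1) (q1.of_le le2)
    · exact q2.fderiv_apply ℝ 1
    · exact (tsupport_fderiv_apply_subset ℝ (f := fun z : ℂ => a 0 Λ z.re * vk 0 P z.im) 1).trans q3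
  obtain ⟨q4, q5, q6⟩ := pr (m := 1) (as 0) (hp.supp 0 Λ)
  have i1 : Integrable (fun z => s z * (a 0 Λ z.re * vk 1 P z.im)) := s8_int hU hs1 (q4.of_le le1) q5 q6
  obtain ⟨q7, q8, q9⟩ := pr (m := 2) (as 1) (hp.supp 1 Λ)
  have i2 : Integrable (fun z => s z * (a 1 Λ z.re * vk 2 P z.im)) := s8_int hU hs1 (q7.of_le le1) q8 q9
  obtain ⟨u1, u2, u3⟩ := pr (m := 0) (as 1) (hp.supp 1 Λ)
  have i3 : Integrable (fun z => η z * (a 1 Λ z.re * vk 0 P z.im)) := s8_int hU h.η_c1 (u1.of_le le1) u2 u3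
  obtain ⟨u4, u5, u6⟩ := pr (m := 0) es (hp.e_supp Λ)
  have i4 : Integrable (fun z => η z * (e Λ z.re * vk 0 P z.im)) := s8_int hU h.η_c1 (u4.of_le le1) u5 u6
  -- split `F₁`
  have e1 : (∫ z, η z * tst (fun x => a 1 Λ x + e Λ x) P z) = (∫ z, η z * (a 1 Λ z.re * vk 0 P z.im)) +
      ∫ z, η z * (e Λ z.re * vk 0 P z.im) := by
    rw [← integral_add i3 i4]
    refine integral_congr_ae (Filter.Eventually.of_forall fun z => ?_)
    simp only [tst, v0e]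
    ring
  -- Green
  have e2 := green hU γ μ ν h.s_c2 (u1.of_le le2) u2 u3
  have e3 : (∫ z, lapG γ μ ν s z * (a 1 Λ z.re * vk 0 P z.im)) = ∫ z, η z * (a 1 Λ z.re * vk 0 P z.im) := by
    refine integral_congr_ae (Filter.Eventually.of_forall fun z => ?_)
    by_cases hz : z ∈ Metric.ball (0 : ℂ) R
    · simp only [h.lap_s z hz]
    · have h0 : a 1 Λ z.re * vk 0 P z.im = 0 :=
        image_eq_zero_of_notMem_tsupport (f := fun z : ℂ => a 1 Λ z.re * vk 0 P z.im) fun h4 => hz (u3 h4)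
      simp only [h0, mul_zero]
  have d1 : deriv (a 1 Λ) = a 0 Λ := funext fun x => (hp.chain 0 (by norm_num) Λ x).deriv
  have d2 : deriv (vk 0 P) = vk 1 P := funext fun y => (v0d y).deriv
  have d3 : deriv (vk 1 P) = vk 2 P := funext fun y => (v1d y).deriv
  have e4 : (∫ z, s z * lapG γ μ ν (fun z => a 1 Λ z.re * vk 0 P z.im) z) =
      γ * (∫ z, s z * dx (tst (a 0 Λ) P) z) + 2 * μ * (∫ z, s z * (a 0 Λ z.re * vk 1 P z.im)) +
        ν * (∫ z, s z * (a 1 Λ z.re * vk 2 P z.im)) := by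
    have i5 : Integrable (fun z => γ * (s z * dx (tst (a 0 Λ) P) z) + 2 * μ * (s z * (a 0 Λ z.re * vk 1 P z.im))) :=
      (i0.const_mul γ).add (i1.const_mul (2 * μ))
    rw [← integral_const_mul, ← integral_const_mul, ← integral_const_mul, ← integral_add (i0.const_mul γ)
      (i1.const_mul (2 * μ)), ← integral_add i5 (i2.const_mul ν)]
    refine integral_congr_ae (Filter.Eventually.of_forall fun z => ?_)
    have g1 := (prod_deriv ((as 1).of_le le2) (v0s.of_le le2) γ μ ν z).2.2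
    have g2 := (prod_deriv ((as 0).of_le le2) (v0s.of_le le2) γ μ ν z).1
    simp only
    rw [g1, hf, g2, d1, d2, d3]
    ring
  rw [e1, ← e3, e2, e4]

/-- [YUR-S8] the slice lemma (section 5 of the paper): `slice_id`; by `green` (`F = a_1 v`, `chain`, `lap_s`)
`∫ η a_1 v = γ ∫ s a_0' v + 2 μ ∫ s a_0 v' + ν ∫ s a_1 v''`, so the first two terms of the identity are
`-r^(2+α) (β/γ) [2 μ ∫ s a_0 v' + ν ∫ s a_1 v'' + ∫ η e v]`; `main_bd`; `line_le` for `e` (`e_van`, `e_mom`, `vk_int` with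
`k = 0`); `err_bd` for the other terms; `β/γ ≤ C²`, `r ≤ 1`. -/
theorem slice {α C S : ℝ} (hα : 0 < α) (hα1 : α < 1) (hC : 1 ≤ C) (hS : 0 ≤ S) :
    ∃ C₁ : ℝ, 0 ≤ C₁ ∧ ∀ (B κ Λs τ N : ℝ) (a : ℕ → ℝ → ℝ → ℝ) (e : ℝ → ℝ → ℝ) (P : ℝ),
      Packet B κ S Λs τ N a e → 1 ≤ P → 1 ≤ N → 0 ≤ τ → ∃ A : ℝ, 0 ≤ A ∧
        ∀ (R r β g : ℝ) (k : Fin 4 → ℝ) (γ μ ν : ℝ) (s η : ℂ → ℝ), 0 < r → r ≤ 1 → 0 < β → β ≤ C →
          Slc α C R k γ μ ν s η → 2 * (N + 2 * P) ≤ R →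
          ∀ (Q : Fin 4 → ℝ) (Λ : ℝ), 0 ≤ Λ → Λ ≤ Λs → ∀ f ft : ℂ → ℝ, f = tst (a 0 Λ) P →
            (ft = fun z => -(r * β / γ) * tst (fun x => a 1 Λ x + e Λ x) P z) →
            |∫ z, omg α r β g η z * (ft z - r * pb (cub k) f z - r * pb (cub Q) ft z +
              pb (zet α r k s) (fun z => f z - r * pb (cub Q) f z) z)| ≤
              r ^ (2 + α) * (C₁ * P ^ α + C₁ * τ * P + A * (r ^ α + r * ‖Q‖)) := by
  obtain ⟨M, hM0, hM⟩ := main_bd hα hα1 hC hS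
  obtain ⟨D, hD0, hD⟩ := vk_int
  have hC0 : 0 ≤ C := by linarith
  refine ⟨3 * C ^ 3 * M + C ^ 3 * D, by positivity, ?_⟩
  intro B κ Λs τ N a e P hp hP hN hτ
  obtain ⟨A, hA0, hA⟩ := err_bd hα hα1 hC hp hP hN
  refine ⟨(C ^ 2 + C + 1) * A, by positivity, ?_⟩
  intro R r β g k γ μ ν s η hr hr1 hβ hβC h hR Q Λ hΛ hΛs f ft hf hft
  have hP0 : 0 < P := by linarith
  have hN0 : 0 < N := by linarith
  obtain ⟨v0s, _, v0l, v0r, _⟩ := vk_facts hP0 0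
  have es : ContDiff ℝ ∞ (e Λ) := hp.e_smooth.comp (contDiff_prodMk_right Λ)
  rw [slice_id h hp hP hN hR Q Λ g β hr hf rfl rfl hft, s8_green h hp hP hN hR Λ, hf]
  obtain ⟨m1, m2⟩ := hM B κ Λs τ N a e P hp hP hN R k γ μ ν s η h hR Λ hΛ hΛs
  obtain ⟨a1, a2, a3, a4⟩ := hA R k γ μ ν s η h hR Q r Λ hr hr1 hΛ hΛs
  have l1 := line_le hα hα1 hC0 hN0 hP0 hR h.η_c1 h.dη_le es.continuous (hp.e_supp Λ) v0s.continuous v0l v0r
    (by simpa using hp.e_van 0 (by norm_num) Λ) (by simpa using hp.e_van 1 (by norm_num) Λ)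
  have l2 := (hD 0 (by norm_num) P hP).2
  rw [pow_zero, mul_one] at l2
  have l3 := hp.e_mom Λ hΛ hΛs
  have l4 : 0 ≤ ∫ y, |vk 0 P y| := integral_nonneg fun y => abs_nonneg _
  have l5 : 0 ≤ ∫ x, (1 + |x|) ^ 2 * |e Λ x| := integral_nonneg fun x => by positivity
  have l6 : |∫ z, η z * (e Λ z.re * vk 0 P z.im)| ≤ C * (τ * (D * P)) :=
    l1.trans (mul_le_mul_of_nonneg_left (mul_le_mul l3 l2 l4 hτ) hC0)
  -- names for the integrals
  generalize (∫ z, s z * dx (tst (a 0 Λ) P) z) = J0 at *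
  generalize (∫ z, s z * (a 0 Λ z.re * vk 1 P z.im)) = I1 at *
  generalize (∫ z, s z * (a 1 Λ z.re * vk 2 P z.im)) = I2 at *
  generalize (∫ z, η z * (e Λ z.re * vk 0 P z.im)) = I3 at *
  generalize (∫ z, η z * pb s (tst (a 0 Λ) P) z) = E1 at *
  generalize (∫ z, η z * pb (cub Q) (tst (fun x => a 1 Λ x + e Λ x) P) z) = E2 at *
  generalize (∫ z, z.im * pb s (pb (cub Q) (tst (a 0 Λ) P)) z) = E3 at *
  generalize (∫ z, η z * pb (zet α r k s) (pb (cub Q) (tst (a 0 Λ) P)) z) = E4 at *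
  have hγ : 0 < γ := by
    by_contra hcon
    have := mul_nonpos_of_nonneg_of_nonpos hC0 (not_lt.1 hcon)
    linarith [h.γ_lo]
  have hγ1 : 1 / γ ≤ C := by
    rw [div_le_iff₀ hγ]
    exact h.γ_lo
  have hbg : β / γ ≤ C ^ 2 := by
    have : β / γ = β * (1 / γ) := by ring
    rw [this, sq]
    exact mul_le_mul hβC hγ1 (by positivity) hC0
  have hbg0 : 0 ≤ β / γ := by positivity
  have p1 : r * r ^ (1 + α) = r ^ (2 + α) := by
    rw [show (2 + α : ℝ) = 1 + (1 + α) by ring, Real.rpow_add hr 1 (1 + α), Real.rpow_one]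
  have p2 : r ^ (2 + 2 * α) = r ^ (2 + α) * r ^ α := by
    rw [← Real.rpow_add hr]
    congr 1
    ring
  have p3 : r ^ (3 + α) = r ^ (2 + α) * r := by
    rw [show (3 + α : ℝ) = (2 + α) + 1 by ring, Real.rpow_add hr, Real.rpow_one]
  have hW : 0 < r ^ (2 + α) := Real.rpow_pos_of_pos hr _
  have hra : 0 < r ^ α := Real.rpow_pos_of_pos hr _
  have hPa : 0 < P ^ α := Real.rpow_pos_of_pos hP0 _
  have hQ : 0 ≤ ‖Q‖ := norm_nonneg _
  -- the identity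
  have id1 : -(r * β / γ) * r ^ (1 + α) * (γ * J0 + 2 * μ * I1 + ν * I2 + I3) + r ^ (2 + α) * β * J0 +
      r ^ (2 + 2 * α) * E1 + r ^ (3 + α) * (β / γ) * E2 - r ^ (3 + α) * β * E3 - r ^ (2 + α) * E4 =
      r ^ (2 + α) * (-(β / γ) * (2 * μ * I1 + ν * I2 + I3) + (r ^ α * E1 + r * (β / γ) * E2 - r * β * E3 - E4)) := by
    have : -(r * β / γ) * r ^ (1 + α) * (γ * J0 + 2 * μ * I1 + ν * I2 + I3) =
        -(β / γ) * (r * r ^ (1 + α)) * (2 * μ * I1 + ν * I2 + I3) - (r * r ^ (1 + α)) * β * J0 := by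
      field_simp
      ring
    rw [this, p1, p2, p3]
    ring
  rw [id1, abs_mul, abs_of_pos hW]
  refine mul_le_mul_of_nonneg_left ?_ hW.le
  -- the main terms
  have b1 : |2 * μ * I1 + ν * I2 + I3| ≤ 3 * C * (M * P ^ α) + C * (τ * (D * P)) := by
    have t1 : |2 * μ * I1| ≤ 2 * C * (M * P ^ α) := by
      rw [abs_mul, abs_mul, abs_of_pos (by norm_num : (0 : ℝ) < 2)]
      exact mul_le_mul (mul_le_mul_of_nonneg_left h.μ_le (by norm_num)) m1 (abs_nonneg _) (by positivity)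
    have t2 : |ν * I2| ≤ C * (M * P ^ α) := by
      rw [abs_mul]
      exact mul_le_mul h.ν_le m2 (abs_nonneg _) hC0
    calc |2 * μ * I1 + ν * I2 + I3| ≤ |2 * μ * I1 + ν * I2| + |I3| := abs_add_le _ _
      _ ≤ |2 * μ * I1| + |ν * I2| + |I3| := by linarith [abs_add_le (2 * μ * I1) (ν * I2)]
      _ ≤ _ := by linarith
  have b2 : |-(β / γ) * (2 * μ * I1 + ν * I2 + I3)| ≤ C ^ 2 * (3 * C * (M * P ^ α) + C * (τ * (D * P))) := by
    rw [abs_mul, abs_neg, abs_of_nonneg hbg0]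
    exact mul_le_mul hbg b1 (abs_nonneg _) (by positivity)
  -- the error terms
  have c1 : |r ^ α * E1| ≤ A * r ^ α := by
    rw [abs_mul, abs_of_pos hra, mul_comm]
    exact mul_le_mul_of_nonneg_right a1 hra.le
  have c2 : |r * (β / γ) * E2| ≤ C ^ 2 * A * (r * ‖Q‖) := by
    rw [abs_mul, abs_mul, abs_of_pos hr, abs_of_nonneg hbg0]
    calc r * (β / γ) * |E2| ≤ r * C ^ 2 * (A * ‖Q‖) :=
          mul_le_mul (mul_le_mul_of_nonneg_left hbg hr.le) a2 (abs_nonneg _) (by positivity)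
      _ = _ := by ring
  have c3 : |r * β * E3| ≤ C * A * (r * ‖Q‖) := by
    rw [abs_mul, abs_mul, abs_of_pos hr, abs_of_pos hβ]
    calc r * β * |E3| ≤ r * C * (A * ‖Q‖) :=
          mul_le_mul (mul_le_mul_of_nonneg_left hβC hr.le) a3 (abs_nonneg _) (by positivity)
      _ = _ := by ring
  have c4 : |E4| ≤ A * (r * ‖Q‖) := a4.trans (le_of_eq (by ring))
  have c5 : |r ^ α * E1 + r * (β / γ) * E2 - r * β * E3 - E4| ≤ (C ^ 2 + C + 1) * A * (r ^ α + r * ‖Q‖) := by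
    have t1 := abs_sub (r ^ α * E1 + r * (β / γ) * E2 - r * β * E3) E4
    have t2 := abs_sub (r ^ α * E1 + r * (β / γ) * E2) (r * β * E3)
    have t3 := abs_add_le (r ^ α * E1) (r * (β / γ) * E2)
    have t4 : A * r ^ α ≤ (C ^ 2 + C + 1) * A * r ^ α := by
      have : 0 ≤ (C ^ 2 + C) * (A * r ^ α) := by positivity
      nlinarith
    calc |r ^ α * E1 + r * (β / γ) * E2 - r * β * E3 - E4| ≤
          A * r ^ α + C ^ 2 * A * (r * ‖Q‖) + C * A * (r * ‖Q‖) + A * (r * ‖Q‖) := by linarith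
      _ ≤ (C ^ 2 + C + 1) * A * r ^ α + C ^ 2 * A * (r * ‖Q‖) + C * A * (r * ‖Q‖) + A * (r * ‖Q‖) := by linarith
      _ = _ := by ring
  have d1 : C ^ 2 * (3 * C * (M * P ^ α) + C * (τ * (D * P))) ≤
      (3 * C ^ 3 * M + C ^ 3 * D) * P ^ α + (3 * C ^ 3 * M + C ^ 3 * D) * τ * P := by
    have t1 : 0 ≤ C ^ 3 * D * P ^ α := by positivity
    have t2 : 0 ≤ 3 * C ^ 3 * M * τ * P := by positivity
    nlinarith
  calc |-(β / γ) * (2 * μ * I1 + ν * I2 + I3) + (r ^ α * E1 + r * (β / γ) * E2 - r * β * E3 - E4)| ≤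
        |-(β / γ) * (2 * μ * I1 + ν * I2 + I3)| + |r ^ α * E1 + r * (β / γ) * E2 - r * β * E3 - E4| := abs_add_le _ _
    _ ≤ _ := by linarith

end Pool.Agent.YUR
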