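import Pool.Agent.YUR.Q2
import Pool.Agent.YUR.S8
import Pool.Agent.YUR.L1
import Pool.Agent.YUR.L2
import Pool.Agent.YUR.W0

open MeasureTheory Set Filter Topology
open scoped ContDiff

namespace Pool.Agent.YUR

open Pool.Agent.YUD Pool.Agent.YUT Pool.Agent.YUB

theorem L3_pb_cub_zero {Q : Fin 4 → ℝ} (hQ : ∀ i, Q i = 0) (f : ℂ → ℝ) (z : ℂ) :
    pb (cub Q) f z = 0 := by
  have h1 : cub Q = fun _ => (0 : ℝ) := by
    funext w
    simp only [cub, hQ, zero_mul, add_zero]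
  have h2 : fderiv ℝ (fun _ : ℂ => (0 : ℝ)) z = 0 := fderiv_const_apply 0
  rw [h1]
  simp only [pb, dx, dy, h2, zero_apply, zero_mul, sub_zero]

/-- [YUR-L3] section 6 of the paper for one packet and one profile: transport of `H = f - r pb Q_t f`,
`f t = tst (a 0 (Λs - Λ t)) P`, `Λ t = ∫ r β/γ`, `Q t = ∫ k`. `focus_time` gives `T`; `H_facts` (`θ = Λs - Λ`, `ρ t = -(r β/γ t)`);
`Pic.transport` up to `T` (the support condition: `N + 2P ≤ R/C`), at time `0`: `Q 0 = 0`, `H 0 = tst (a 0 Λs) P`; at `T`: `θ T = 0`,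
`end_bd`; the time integral: `intervalIntegral.norm_integral_le_of_norm_le_const` with `slice` at each `t ∈ [0,T]`
(`r ‖Q t‖ ≤ ε`: `prim_small`, sup norm), `T r^(2+α) ≤ (C Λs/β) r^(1+α)`. -/
theorem one_packet {α C S : ℝ} (hα : 0 < α) (hα1 : α < 1) (hC : 1 ≤ C) (hS : 0 ≤ S) :
    ∃ C₁ : ℝ, 0 ≤ C₁ ∧ ∀ (B κ Λs τ N : ℝ) (a : ℕ → ℝ → ℝ → ℝ) (e : ℝ → ℝ → ℝ) (P : ℝ),
      Packet B κ S Λs τ N a e → 1 ≤ P → 1 ≤ N → 0 ≤ τ → 1 ≤ Λs → 0 < B →
      ∀ β : ℝ, 0 < β → ∀ ε : ℝ, 0 < ε → ∃ R₀ r₁ : ℝ, 0 < r₁ ∧ ∀ (R r g : ℝ) (w : ℂ → ℝ)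
        (k : ℝ → Fin 4 → ℝ) (γ μ ν : ℝ → ℝ) (s η : ℝ → ℂ → ℝ) (Y : ℝ → ℂ → ℂ),
        Pic α C R r β g w k γ μ ν s η Y → R₀ ≤ R → r ≤ r₁ →
          |∫ y, w y * tst (a 0 Λs) P y| ≤ r ^ (1 + α) * (C * (B * P) +
            C * Λs / β * (C₁ * P ^ α + C₁ * τ * P) + ε) := by
  obtain ⟨C₁, hC₁, hsl⟩ := slice (S := S) hα hα1 hC hS
  refine ⟨C₁, hC₁, ?_⟩
  intro B κ Λs τ N a e P hp hP hN hτ hΛ hB β hβ ε hε
  obtain ⟨A, hA, hsl⟩ := hsl B κ Λs τ N a e P hp hP hN hτ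
  obtain ⟨A', hA', hend⟩ := end_bd hα hα1 hC hp hP hN
  have hC0 : 0 < C := by linarith
  have hΛ0 : 0 < Λs := by linarith
  set T' : ℝ := C * Λs / β with hT'
  have hT'0 : 0 < T' := by positivity
  set D : ℝ := A' + T' * A + 1 with hD
  have hD0 : 0 < D := by positivity
  set ε₁ : ℝ := ε / (2 * D) with hε₁
  have hε₁0 : 0 < ε₁ := by positivity
  have hε₁D : (A' + 2 * (T' * A)) * ε₁ ≤ ε := by
    have h1 : A' + 2 * (T' * A) ≤ 2 * D := by
      rw [hD]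
      linarith
    calc (A' + 2 * (T' * A)) * ε₁ ≤ 2 * D * ε₁ := mul_le_mul_of_nonneg_right h1 hε₁0.le
      _ = ε := by
        rw [hε₁]
        field_simp
  obtain ⟨R₀', r₁', hr₁', hprim⟩ := prim_small (C := C) hα hα1 hβ hT'0 hε₁0
  set r₂ : ℝ := ε₁ ^ (1 / α) with hr₂
  have hr₂0 : 0 < r₂ := Real.rpow_pos_of_pos hε₁0 _
  refine ⟨max R₀' (max (2 * (N + 2 * P)) (C * (N + 2 * P))), min r₁' r₂, lt_min hr₁' hr₂0, ?_⟩
  intro R r g w k γ μ ν s η Y pic hR hr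
  have hR1 : R₀' ≤ R := (le_max_left _ _).trans hR
  have hR2 : 2 * (N + 2 * P) ≤ R := ((le_max_left _ _).trans (le_max_right _ _)).trans hR
  have hR3 : C * (N + 2 * P) ≤ R := ((le_max_right _ _).trans (le_max_right _ _)).trans hR
  have hrr1 : r ≤ r₁' := hr.trans (min_le_left _ _)
  have hrr2 : r ≤ r₂ := hr.trans (min_le_right _ _)
  have hr0 := pic.r_pos
  have hrα : r ^ α ≤ ε₁ := by
    calc r ^ α ≤ r₂ ^ α := Real.rpow_le_rpow hr0.le hrr2 hα.le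
      _ = ε₁ := by
        rw [hr₂, ← Real.rpow_mul hε₁0.le, one_div, inv_mul_cancel₀ hα.ne', Real.rpow_one]
  have hγ0 : ∀ t, 1 ≤ C * γ t := fun t => (pic.slc t).γ_lo
  have hγpos : ∀ t, 0 < γ t := by
    intro t
    by_contra hcon
    have h1 : C * γ t ≤ 0 := mul_nonpos_of_nonneg_of_nonpos hC0.le (not_lt.1 hcon)
    linarith [hγ0 t]
  obtain ⟨T, hT0, hrT, hΛT, hΛt, hΛd⟩ := focus_time (Λs := Λs) hC pic.γ_cont hγ0
    (fun t => (pic.slc t).γ_le) hr0 hβ hΛ0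
  set Λ : ℝ → ℝ := fun t => ∫ τ in (0 : ℝ)..t, r * β / γ τ with hΛdef
  set θ : ℝ → ℝ := fun t => Λs - Λ t with hθdef
  set ρ : ℝ → ℝ := fun t => -(r * β / γ t) with hρdef
  have hθ : ∀ t, HasDerivAt θ (ρ t) t := by
    intro t
    exact (hΛd t).const_sub Λs
  have hρ : Continuous ρ := by
    refine Continuous.neg (Continuous.div continuous_const pic.γ_cont fun t => (hγpos t).ne')
  obtain ⟨hH1, hH2, hH3⟩ := H_facts hp hP hN (r := r) hθ hρ pic.k_cont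
  set Q : ℝ → Fin 4 → ℝ := fun t i => ∫ τ in (0 : ℝ)..t, k τ i with hQdef
  set H : ℝ → ℂ → ℝ := fun t z => tst (a 0 (θ t)) P z -
    r * pb (cub (Q t)) (tst (a 0 (θ t)) P) z with hHdef
  have htr := pic.transport H hH1 (fun t z hz => hH2 t z (by
    refine le_trans ?_ hz
    rw [le_div_iff₀ hC0]
    linarith)) T hT0
  have hQs : ∀ t, 0 ≤ t → t ≤ T → r * ‖Q t‖ ≤ ε₁ := by
    intro t ht0 htT
    have h1 : r * t ≤ T' := (mul_le_mul_of_nonneg_left htT hr0.le).trans hrT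
    have h2 := hprim R r β g w k γ μ ν s η Y pic le_rfl hR1 hrr1 t ht0 h1
    have h3 : ‖r • Q t‖ ≤ ε₁ := by
      rw [pi_norm_le_iff_of_nonneg hε₁0.le]
      intro i
      rw [Pi.smul_apply, smul_eq_mul, Real.norm_eq_abs]
      exact h2 i
    rwa [norm_smul, Real.norm_eq_abs, abs_of_pos hr0] at h3
  -- time zero
  have hΛ00 : Λ 0 = 0 := intervalIntegral.integral_same
  have hH0 : ∀ y, H 0 y = tst (a 0 Λs) P y := by
    intro y
    have h1 : θ 0 = Λs := by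
      show Λs - Λ 0 = Λs
      rw [hΛ00, sub_zero]
    have h2 : ∀ i, Q 0 i = 0 := fun i => intervalIntegral.integral_same
    show tst (a 0 (θ 0)) P y - r * pb (cub (Q 0)) (tst (a 0 (θ 0)) P) y = _
    rw [L3_pb_cub_zero h2, mul_zero, sub_zero, h1]
  -- time T
  have hθT : θ T = 0 := by
    show Λs - Λ T = 0
    rw [hΛdef]
    simp only
    rw [hΛT, sub_self]
  have hHT : |∫ z, omg α r β g (η T) z * H T z| ≤ r ^ (1 + α) * (C * (B * P) + A' * ε₁) := by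
    have h1 := hend R (k T) (γ T) (μ T) (ν T) (s T) (η T) (pic.slc T) hR2 (Q T) r β g hr0
    have h2 : ∀ z, H T z = tst (a 0 0) P z - r * pb (cub (Q T)) (tst (a 0 0) P) z := by
      intro z
      show tst (a 0 (θ T)) P z - r * pb (cub (Q T)) (tst (a 0 (θ T)) P) z = _
      rw [hθT]
    simp only [h2]
    refine h1.trans (mul_le_mul_of_nonneg_left ?_ (Real.rpow_nonneg hr0.le _))
    exact add_le_add_right (mul_le_mul_of_nonneg_left (hQs T hT0 le_rfl) hA') _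
  -- the integrand
  have hDt : ∀ t, 0 ≤ t → t ≤ T → |∫ z, omg α r β g (η t) z *
      (deriv (fun t' => H t' z) t + pb (zet α r (k t) (s t)) (H t) z)| ≤
      r ^ (2 + α) * (C₁ * P ^ α + C₁ * τ * P + A * (2 * ε₁)) := by
    intro t ht0 htT
    have h1 := hΛt t ht0 htT
    have h2 := hsl R r β g (k t) (γ t) (μ t) (ν t) (s t) (η t) hr0 pic.r_le hβ pic.β_le
      (pic.slc t) hR2 (Q t) (θ t) (by
        show 0 ≤ Λs - Λ t
        linarith [h1.2]) (by
        show Λs - Λ t ≤ Λs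
        linarith [h1.1]) (tst (a 0 (θ t)) P)
      (fun z => -(r * β / γ t) * tst (fun x => a 1 (θ t) x + e (θ t) x) P z) rfl rfl
    have h3 : ∀ z, deriv (fun t' => H t' z) t =
        (fun z => -(r * β / γ t) * tst (fun x => a 1 (θ t) x + e (θ t) x) P z) z -
          r * pb (cub (k t)) (tst (a 0 (θ t)) P) z -
          r * pb (cub (Q t))
            (fun z => -(r * β / γ t) * tst (fun x => a 1 (θ t) x + e (θ t) x) P z) z :=
      fun z => hH3 t _ rfl z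
    simp only [h3]
    refine h2.trans (mul_le_mul_of_nonneg_left ?_ (Real.rpow_nonneg hr0.le _))
    have h4 : r ^ α + r * ‖Q t‖ ≤ 2 * ε₁ := by linarith [hQs t ht0 htT]
    have h5 := mul_le_mul_of_nonneg_left h4 hA
    linarith
  have hint : |∫ t in (0 : ℝ)..T, ∫ z, omg α r β g (η t) z *
      (deriv (fun t' => H t' z) t + pb (zet α r (k t) (s t)) (H t) z)| ≤
      r ^ (1 + α) * (T' * (C₁ * P ^ α + C₁ * τ * P + A * (2 * ε₁))) := by
    have h1 := intervalIntegral.norm_integral_le_of_norm_le_const (a := (0 : ℝ)) (b := T)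
      (C := r ^ (2 + α) * (C₁ * P ^ α + C₁ * τ * P + A * (2 * ε₁)))
      (f := fun t => ∫ z, omg α r β g (η t) z *
        (deriv (fun t' => H t' z) t + pb (zet α r (k t) (s t)) (H t) z)) (by
        intro t ht
        rw [uIoc_of_le hT0] at ht
        rw [Real.norm_eq_abs]
        exact hDt t ht.1.le ht.2)
    rw [Real.norm_eq_abs, sub_zero, abs_of_nonneg hT0] at h1
    refine h1.trans ?_
    have h2 : r ^ (2 + α) = r ^ (1 + α) * r := by
      rw [show 2 + α = (1 + α) + 1 by ring, Real.rpow_add_one hr0.ne']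
    have hP0 : 0 < P := by linarith
    have h3 : 0 ≤ C₁ * P ^ α + C₁ * τ * P + A * (2 * ε₁) := by positivity
    calc r ^ (2 + α) * (C₁ * P ^ α + C₁ * τ * P + A * (2 * ε₁)) * T
        = r ^ (1 + α) * ((r * T) * (C₁ * P ^ α + C₁ * τ * P + A * (2 * ε₁))) := by
          rw [h2]
          ring
      _ ≤ r ^ (1 + α) * (T' * (C₁ * P ^ α + C₁ * τ * P + A * (2 * ε₁))) :=
          mul_le_mul_of_nonneg_left (mul_le_mul_of_nonneg_right hrT h3)
            (Real.rpow_nonneg hr0.le _)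
  have hw : (∫ y, w y * tst (a 0 Λs) P y) = (∫ z, omg α r β g (η T) z * H T z) -
      ∫ t in (0 : ℝ)..T, ∫ z, omg α r β g (η t) z *
        (deriv (fun t' => H t' z) t + pb (zet α r (k t) (s t)) (H t) z) := by
    have h1 : (∫ y, w y * H 0 y) = ∫ y, w y * tst (a 0 Λs) P y := by
      simp only [hH0]
    rw [← h1, ← htr]
    ring
  rw [hw]
  refine (abs_sub _ _).trans ?_
  have hrp : 0 ≤ r ^ (1 + α) := Real.rpow_nonneg hr0.le _
  calc |∫ z, omg α r β g (η T) z * H T z| + |∫ t in (0 : ℝ)..T, ∫ z, omg α r β g (η t) z *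
        (deriv (fun t' => H t' z) t + pb (zet α r (k t) (s t)) (H t) z)|
      ≤ r ^ (1 + α) * (C * (B * P) + A' * ε₁) +
        r ^ (1 + α) * (T' * (C₁ * P ^ α + C₁ * τ * P + A * (2 * ε₁))) := add_le_add hHT hint
    _ = r ^ (1 + α) * (C * (B * P) + T' * (C₁ * P ^ α + C₁ * τ * P) +
        (A' + 2 * (T' * A)) * ε₁) := by ring
    _ ≤ r ^ (1 + α) * (C * (B * P) + T' * (C₁ * P ^ α + C₁ * τ * P) + ε) :=
        mul_le_mul_of_nonneg_left (by linarith) hrp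

end Pool.Agent.YUR
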