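import Pool.Agent.YUR.P6

/-!
# [YUR-P] packets: see `P6`
-/
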