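import Mathlib

/-!
# YUR, section 4: the functions `GG p q = A^(p/2) B^(q/2) exp (-2 (A B)^(1/2))`,
`A = 1 - i x`, `B = 1 + i L`
-/

open Complex MeasureTheory Set Filter Topology

noncomputable section

namespace Pool.Agent.YUR.Pkt

/-- `A (x) = 1 - i x` -/
def cA (x : ℝ) : ℂ := 1 - x * I

/-- `B (L) = 1 + i L` -/
def cB (L : ℝ) : ℂ := 1 + L * I

/-- `log A` -/
def lA (x : ℝ) : ℂ := Complex.log (cA x)

/-- `log B` -/
def lB (L : ℝ) : ℂ := Complex.log (cB L)

/-- `A^(p/2) B^(q/2) exp (-2 (A B)^(1/2))` -/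
def GG (p q : ℤ) (L x : ℝ) : ℂ :=
  Complex.exp ((p : ℂ) / 2 * lA x + (q : ℂ) / 2 * lB L - 2 * Complex.exp ((lA x + lB L) / 2))

lemma cA_re (x : ℝ) : (cA x).re = 1 := by simp [cA]
lemma cA_im (x : ℝ) : (cA x).im = -x := by simp [cA]
lemma cB_re (L : ℝ) : (cB L).re = 1 := by simp [cB]
lemma cB_im (L : ℝ) : (cB L).im = L := by simp [cB]

lemma cA_mem (x : ℝ) : cA x ∈ slitPlane := by
  rw [mem_slitPlane_iff]; left; rw [cA_re]; norm_num

lemma cB_mem (L : ℝ) : cB L ∈ slitPlane := by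
  rw [mem_slitPlane_iff]; left; rw [cB_re]; norm_num

lemma cA_ne (x : ℝ) : cA x ≠ 0 := slitPlane_ne_zero (cA_mem x)
lemma cB_ne (L : ℝ) : cB L ≠ 0 := slitPlane_ne_zero (cB_mem L)

lemma exp_lA (x : ℝ) : Complex.exp (lA x) = cA x := Complex.exp_log (cA_ne x)
lemma exp_lB (L : ℝ) : Complex.exp (lB L) = cB L := Complex.exp_log (cB_ne L)

lemma hasDerivAt_cA (x : ℝ) : HasDerivAt cA (-I) x := by
  have h : HasDerivAt (fun y : ℝ => (y : ℂ)) 1 x := Complex.ofRealCLM.hasDerivAt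
  exact ((h.mul_const I).const_sub 1).congr_deriv (by ring)

lemma hasDerivAt_cB (L : ℝ) : HasDerivAt cB I L := by
  have h : HasDerivAt (fun y : ℝ => (y : ℂ)) 1 L := Complex.ofRealCLM.hasDerivAt
  exact ((h.mul_const I).const_add 1).congr_deriv (by ring)

lemma hasDerivAt_lA (x : ℝ) : HasDerivAt lA (-I * Complex.exp (-lA x)) x := by
  have h := (hasDerivAt_cA x).clog_real (cA_mem x)
  rw [Complex.exp_neg, exp_lA]
  exact h

lemma hasDerivAt_lB (L : ℝ) : HasDerivAt lB (I * Complex.exp (-lB L)) L := by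
  have h := (hasDerivAt_cB L).clog_real (cB_mem L)
  rw [Complex.exp_neg, exp_lB]
  exact h

lemma contDiff_cA : ContDiff ℝ ⊤ cA := by
  unfold cA
  exact contDiff_const.sub (Complex.ofRealCLM.contDiff.mul contDiff_const)

lemma contDiff_cB : ContDiff ℝ ⊤ cB := by
  unfold cB
  exact contDiff_const.add (Complex.ofRealCLM.contDiff.mul contDiff_const)

lemma contDiff_lA : ContDiff ℝ ⊤ lA := by
  rw [contDiff_iff_contDiffAt]
  intro x
  have h : ContDiffAt ℝ ⊤ Complex.log (cA x) :=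
    (Complex.contDiffAt_log (cA_mem x)).restrict_scalars ℝ
  exact h.comp x contDiff_cA.contDiffAt

lemma contDiff_lB : ContDiff ℝ ⊤ lB := by
  rw [contDiff_iff_contDiffAt]
  intro x
  have h : ContDiffAt ℝ ⊤ Complex.log (cB x) :=
    (Complex.contDiffAt_log (cB_mem x)).restrict_scalars ℝ
  exact h.comp x contDiff_cB.contDiffAt

/-- joint smoothness -/
lemma contDiff_GG (p q : ℤ) : ContDiff ℝ ⊤ (fun z : ℝ × ℝ => GG p q z.1 z.2) := by
  unfold GG
  have h1 : ContDiff ℝ ⊤ (fun z : ℝ × ℝ => lA z.2) := contDiff_lA.comp contDiff_snd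
  have h2 : ContDiff ℝ ⊤ (fun z : ℝ × ℝ => lB z.1) := contDiff_lB.comp contDiff_fst
  have h3 : ContDiff ℝ ⊤ (fun z : ℝ × ℝ => Complex.exp ((lA z.2 + lB z.1) / 2)) :=
    ((h1.add h2).div_const 2).cexp
  exact (((contDiff_const.mul h1).add (contDiff_const.mul h2)).sub
    (contDiff_const.mul h3)).cexp

/-- `d_x` of `GG` -/
lemma hasDerivAt_GG_x (p q : ℤ) (L x : ℝ) :
    HasDerivAt (fun y => GG p q L y)
      (-(I / 2) * p * GG (p - 2) q L x + I * GG (p - 1) (q + 1) L x) x := by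
  have h1 := hasDerivAt_lA x
  have h3 : HasDerivAt (fun y => Complex.exp ((lA y + lB L) / 2))
      (Complex.exp ((lA x + lB L) / 2) * ((-I * Complex.exp (-lA x)) / 2)) x :=
    ((h1.add_const (lB L)).div_const 2).cexp
  have h4 := (((h1.const_mul ((p : ℂ) / 2)).add_const ((q : ℂ) / 2 * lB L)).fun_sub
    (h3.const_mul 2)).cexp
  refine h4.congr_deriv ?_
  have e1 : GG (p - 2) q L x = GG p q L x * Complex.exp (-lA x) := by
    unfold GG
    rw [← Complex.exp_add]
    congr 1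
    push_cast
    ring
  have e2 : GG (p - 1) (q + 1) L x
      = GG p q L x * (Complex.exp ((lA x + lB L) / 2) * Complex.exp (-lA x)) := by
    unfold GG
    rw [← Complex.exp_add, ← Complex.exp_add]
    congr 1
    push_cast
    ring
  rw [e1, e2]
  unfold GG
  ring

/-- `d_L` of `GG` -/
lemma hasDerivAt_GG_L (p q : ℤ) (L x : ℝ) :
    HasDerivAt (fun y => GG p q y x)
      ((I / 2) * q * GG p (q - 2) L x - I * GG (p + 1) (q - 1) L x) L := by
  have h1 := hasDerivAt_lB L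
  have h3 : HasDerivAt (fun y => Complex.exp ((lA x + lB y) / 2))
      (Complex.exp ((lA x + lB L) / 2) * ((I * Complex.exp (-lB L)) / 2)) L :=
    ((h1.const_add (lA x)).div_const 2).cexp
  have h4 := (((h1.const_mul ((q : ℂ) / 2)).const_add ((p : ℂ) / 2 * lA x)).fun_sub
    (h3.const_mul 2)).cexp
  refine h4.congr_deriv ?_
  have e1 : GG p (q - 2) L x = GG p q L x * Complex.exp (-lB L) := by
    unfold GG
    rw [← Complex.exp_add]
    congr 1
    push_cast
    ring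
  have e2 : GG (p + 1) (q - 1) L x
      = GG p q L x * (Complex.exp ((lA x + lB L) / 2) * Complex.exp (-lB L)) := by
    unfold GG
    rw [← Complex.exp_add, ← Complex.exp_add]
    congr 1
    push_cast
    ring
  rw [e1, e2]
  unfold GG
  ring

end Pool.Agent.YUR.Pkt
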