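import Pool.Agent.YUR.P1

/-!
# YUR, section 4: bounds for the functions `GG`
-/

open Complex MeasureTheory Set Filter Topology

noncomputable section

namespace Pool.Agent.YUR.Pkt

lemma norm_cA_sq (x : ℝ) : ‖cA x‖ ^ 2 = 1 + x ^ 2 := by
  rw [← Complex.normSq_eq_norm_sq, Complex.normSq_apply, cA_re, cA_im]; ring

lemma norm_cB_sq (L : ℝ) : ‖cB L‖ ^ 2 = 1 + L ^ 2 := by
  rw [← Complex.normSq_eq_norm_sq, Complex.normSq_apply, cB_re, cB_im]; ring

lemma one_le_norm_cA (x : ℝ) : 1 ≤ ‖cA x‖ := by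
  have h := norm_cA_sq x
  have h0 := norm_nonneg (cA x)
  nlinarith [sq_nonneg x]

lemma one_le_norm_cB (L : ℝ) : 1 ≤ ‖cB L‖ := by
  have h := norm_cB_sq L
  have h0 := norm_nonneg (cB L)
  nlinarith [sq_nonneg L]

lemma abs_le_norm_cB (L : ℝ) : |L| ≤ ‖cB L‖ := by
  have := Complex.abs_im_le_norm (cB L)
  rwa [cB_im] at this

lemma one_add_abs_le_norm_cA (x : ℝ) : 1 + |x| ≤ 2 * ‖cA x‖ := by
  have h1 := one_le_norm_cA x
  have h2 := Complex.abs_im_le_norm (cA x)
  rw [cA_im, abs_neg] at h2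
  linarith

lemma norm_cB_le (L : ℝ) : ‖cB L‖ ≤ 1 + |L| := by
  have h := norm_cB_sq L
  have h0 := norm_nonneg (cB L)
  have h1 := abs_nonneg L
  have h2 := sq_abs L
  nlinarith

/-- the square root of `A B` -/
def rt (L x : ℝ) : ℂ := Complex.exp ((lA x + lB L) / 2)

lemma rt_sq (L x : ℝ) : rt L x * rt L x = cA x * cB L := by
  unfold rt
  rw [← Complex.exp_add, ← exp_lA, ← exp_lB, ← Complex.exp_add]
  congr 1
  ring

lemma rt_re_pos (L x : ℝ) : 0 < (rt L x).re := by
  unfold rt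
  rw [Complex.exp_re]
  refine mul_pos (Real.exp_pos _) ?_
  have him : ((lA x + lB L) / 2).im = ((lA x).im + (lB L).im) / 2 := by
    simp
  rw [him]
  have h1 : |(lA x).im| < Real.pi / 2 := by
    rw [lA, Complex.log_im]
    exact Complex.abs_arg_lt_pi_div_two_iff.2 (Or.inl (by rw [cA_re]; norm_num))
  have h2 : |(lB L).im| < Real.pi / 2 := by
    rw [lB, Complex.log_im]
    exact Complex.abs_arg_lt_pi_div_two_iff.2 (Or.inl (by rw [cB_re]; norm_num))
  rw [abs_lt] at h1 h2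
  exact Real.cos_pos_of_mem_Ioo ⟨by linarith, by linarith⟩

lemma rt_re_sq (L x : ℝ) :
    2 * (rt L x).re ^ 2 = ‖cA x‖ * ‖cB L‖ + (1 + x * L) := by
  have h := rt_sq L x
  have h1 : ‖rt L x‖ ^ 2 = ‖cA x‖ * ‖cB L‖ := by
    rw [pow_two, ← norm_mul, h, norm_mul]
  have h2 : (rt L x * rt L x).re = 1 + x * L := by
    rw [h, Complex.mul_re, cA_re, cA_im, cB_re, cB_im]; ring
  rw [Complex.mul_re] at h2
  rw [← Complex.normSq_eq_norm_sq, Complex.normSq_apply] at h1
  nlinarith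

/-- half the logarithm of `|A| / |B|` -/
def uu (L x : ℝ) : ℝ := (Real.log ‖cA x‖ - Real.log ‖cB L‖) / 2

lemma rt_re_ge (L x : ℝ) : Real.exp |uu L x| ≤ 2 * (rt L x).re := by
  have ha := one_le_norm_cA x
  have hb := one_le_norm_cB L
  have ha2 := norm_cA_sq x
  have hb2 := norm_cB_sq L
  have hr := rt_re_sq L x
  have hrp := rt_re_pos L x
  set a := ‖cA x‖ with hadef
  set b := ‖cB L‖ with hbdef
  set r := (rt L x).re with hrdef
  have hab : 0 < a * b := by positivity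
  have key : 1 + x ^ 2 + L ^ 2 ≤ 4 * r ^ 2 * (a * b) := by
    have e1 : (a * b) ^ 2 = (1 + x ^ 2) * (1 + L ^ 2) := by
      rw [mul_pow, ha2, hb2]
    have e2 : 4 * r ^ 2 * (a * b) = (a * b + x * L) ^ 2 + ((a * b) ^ 2 - (x * L) ^ 2) + 2 * (a * b) := by
      have : 4 * r ^ 2 * (a * b) = 2 * (2 * r ^ 2) * (a * b) := by ring
      rw [this, hr]; ring
    rw [e2, e1]
    nlinarith [sq_nonneg (a * b + x * L)]
  have k1 : a ≤ 4 * r ^ 2 * b := by
    have : a * a ≤ (4 * r ^ 2 * b) * a := by nlinarith [sq_nonneg L]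
    exact le_of_mul_le_mul_right this (by linarith)
  have k2 : b ≤ 4 * r ^ 2 * a := by
    have : b * b ≤ (4 * r ^ 2 * a) * b := by nlinarith [sq_nonneg x]
    exact le_of_mul_le_mul_right this (by linarith)
  have hu : uu L x = (Real.log a - Real.log b) / 2 := rfl
  have hexp : ∀ v : ℝ, Real.exp (2 * v) ≤ 4 * r ^ 2 → Real.exp v ≤ 2 * r := by
    intro v hv
    have h1 : Real.exp v ^ 2 ≤ (2 * r) ^ 2 := by
      rw [← Real.exp_nat_mul]
      push_cast
      linarith
    exact (abs_le_of_sq_le_sq' h1 (by linarith)).2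
  rcases abs_cases (uu L x) with ⟨h, -⟩ | ⟨h, -⟩
  · rw [h]
    apply hexp
    have : 2 * uu L x = Real.log (a / b) := by
      rw [hu, Real.log_div (by positivity) (by positivity)]; ring
    rw [this, Real.exp_log (by positivity), div_le_iff₀ (by positivity)]
    exact k1
  · rw [h]
    apply hexp
    have : 2 * (-uu L x) = Real.log (b / a) := by
      rw [hu, Real.log_div (by positivity) (by positivity)]; ring
    rw [this, Real.exp_log (by positivity), div_le_iff₀ (by positivity)]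
    exact k2

lemma norm_GG (p q : ℤ) (L x : ℝ) :
    ‖GG p q L x‖ = Real.exp (((p + q : ℤ) : ℝ) / 2 * Real.log ‖cB L‖ + p * uu L x
      - 2 * (rt L x).re) := by
  unfold GG
  rw [Complex.norm_exp]
  congr 1
  have h1 : (lA x).re = Real.log ‖cA x‖ := by rw [lA, Complex.log_re]
  have h2 : (lB L).re = Real.log ‖cB L‖ := by rw [lB, Complex.log_re]
  have e1 : ((p : ℂ) / 2 * lA x).re = (p : ℝ) / 2 * Real.log ‖cA x‖ := by
    have : (p : ℂ) / 2 = (((p : ℝ) / 2 : ℝ) : ℂ) := by push_cast; ring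
    rw [this, Complex.re_ofReal_mul, h1]
  have e2 : ((q : ℂ) / 2 * lB L).re = (q : ℝ) / 2 * Real.log ‖cB L‖ := by
    have : (q : ℂ) / 2 = (((q : ℝ) / 2 : ℝ) : ℂ) := by push_cast; ring
    rw [this, Complex.re_ofReal_mul, h2]
  have e3 : (2 * Complex.exp ((lA x + lB L) / 2)).re = 2 * (rt L x).re := by
    rw [show (2 : ℂ) = ((2 : ℝ) : ℂ) by norm_num, Complex.re_ofReal_mul]
    rfl
  rw [Complex.sub_re, Complex.add_re, e1, e2, e3, uu]
  push_cast
  ring

/-- the basic bound, with decay in `x` -/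
lemma GG_bound (p q : ℤ) (n : ℕ) (L x : ℝ) :
    (1 + |x|) ^ n * ‖GG p q L x‖ ≤
      2 ^ n * ((p + 2 * n).natAbs.factorial : ℝ) * (1 + |L|) ^ n *
        Real.exp (((p + q : ℤ) : ℝ) / 2 * Real.log ‖cB L‖) := by
  have ha := one_le_norm_cA x
  have hb := one_le_norm_cB L
  have hx := one_add_abs_le_norm_cA x
  have hL := norm_cB_le L
  have hr := rt_re_ge L x
  have hw : ‖cA x‖ = ‖cB L‖ * Real.exp (2 * uu L x) := by
    have : 2 * uu L x = Real.log (‖cA x‖ / ‖cB L‖) := by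
      rw [uu, Real.log_div (by positivity) (by positivity)]; ring
    rw [this, Real.exp_log (by positivity)]
    field_simp
  have h1 : (1 + |x|) ^ n ≤ 2 ^ n * (1 + |L|) ^ n * Real.exp ((2 * n : ℕ) * uu L x) := by
    have e : Real.exp ((2 * n : ℕ) * uu L x) = Real.exp (2 * uu L x) ^ n := by
      rw [← Real.exp_nat_mul]; push_cast; ring_nf
    rw [e, ← mul_pow, ← mul_pow]
    refine pow_le_pow_left₀ (by positivity) ?_ n
    calc 1 + |x| ≤ 2 * ‖cA x‖ := hx
      _ = 2 * ‖cB L‖ * Real.exp (2 * uu L x) := by rw [hw]; ring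
      _ ≤ 2 * (1 + |L|) * Real.exp (2 * uu L x) := by gcongr
  have h2 : ‖GG p q L x‖ ≤ Real.exp (((p + q : ℤ) : ℝ) / 2 * Real.log ‖cB L‖) *
      Real.exp (p * uu L x - Real.exp |uu L x|) := by
    rw [norm_GG, ← Real.exp_add]
    apply Real.exp_le_exp.2
    linarith
  have h3 : Real.exp ((2 * n : ℕ) * uu L x) * Real.exp (p * uu L x - Real.exp |uu L x|) ≤
      ((p + 2 * n).natAbs.factorial : ℝ) := by
    rw [← Real.exp_add]
    set k := (p + 2 * n).natAbs with hk
    have hM : (Real.exp |uu L x|) ^ k ≤ (k.factorial : ℝ) * Real.exp (Real.exp |uu L x|) := by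
      have := Real.pow_div_factorial_le_exp (Real.exp |uu L x|) (Real.exp_pos _).le k
      rw [div_le_iff₀ (by positivity)] at this
      linarith
    have hk2 : ((p : ℝ) + 2 * n) * uu L x ≤ k * |uu L x| := by
      have e : |((p : ℝ) + 2 * n)| = k := by
        rw [hk]
        have h5 : (((p + 2 * (n : ℤ)).natAbs : ℕ) : ℤ) = |p + 2 * (n : ℤ)| :=
          Int.natCast_natAbs _
        have h6 : ((((p + 2 * (n : ℤ)).natAbs : ℕ) : ℤ) : ℝ) = ((|p + 2 * (n : ℤ)| : ℤ) : ℝ) := by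
          rw [h5]
        rw [Int.cast_natCast] at h6
        rw [h6, Int.cast_abs]
        push_cast
        rfl
      rw [← e, ← abs_mul]
      exact le_abs_self _
    have : ((2 * n : ℕ) : ℝ) * uu L x + (p * uu L x - Real.exp |uu L x|) ≤
        k * |uu L x| - Real.exp |uu L x| := by
      push_cast
      nlinarith
    calc Real.exp (((2 * n : ℕ) : ℝ) * uu L x + (p * uu L x - Real.exp |uu L x|))
        ≤ Real.exp (k * |uu L x| - Real.exp |uu L x|) := Real.exp_le_exp.2 this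
      _ = (Real.exp |uu L x|) ^ k / Real.exp (Real.exp |uu L x|) := by
          rw [Real.exp_sub, ← Real.exp_nat_mul]
      _ ≤ (k.factorial : ℝ) := by
          rw [div_le_iff₀ (Real.exp_pos _)]; exact hM
  calc (1 + |x|) ^ n * ‖GG p q L x‖
      ≤ (2 ^ n * (1 + |L|) ^ n * Real.exp ((2 * n : ℕ) * uu L x)) *
        (Real.exp (((p + q : ℤ) : ℝ) / 2 * Real.log ‖cB L‖) *
          Real.exp (p * uu L x - Real.exp |uu L x|)) := by
        apply mul_le_mul h1 h2 (norm_nonneg _) (by positivity)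
    _ = 2 ^ n * (1 + |L|) ^ n * Real.exp (((p + q : ℤ) : ℝ) / 2 * Real.log ‖cB L‖) *
        (Real.exp ((2 * n : ℕ) * uu L x) * Real.exp (p * uu L x - Real.exp |uu L x|)) := by ring
    _ ≤ 2 ^ n * (1 + |L|) ^ n * Real.exp (((p + q : ℤ) : ℝ) / 2 * Real.log ‖cB L‖) *
        ((p + 2 * n).natAbs.factorial : ℝ) := by gcongr
    _ = _ := by ring

end Pool.Agent.YUR.Pkt
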