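import Pool.Agent.YUR.P2

/-!
# YUR, section 4: finite combinations of the functions `GG`, and the two differentiations
-/

open Complex MeasureTheory Set Filter Topology

noncomputable section

namespace Pool.Agent.YUR.Pkt

/-- coefficient families -/
abbrev CC := (ℤ × ℤ) →₀ ℂ

/-- evaluation -/
def evl (L x : ℝ) : CC →ₗ[ℂ] ℂ :=
  Finsupp.linearCombination ℂ (fun pq : ℤ × ℤ => GG pq.1 pq.2 L x)

/-- the differentiation in `x` -/
def dX : CC →ₗ[ℂ] CC :=
  Finsupp.linearCombination ℂ (fun pq : ℤ × ℤ =>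
    (Finsupp.single (pq.1 - 2, pq.2) (-(I / 2) * pq.1) +
      Finsupp.single (pq.1 - 1, pq.2 + 1) I : CC))

/-- the differentiation in `L` -/
def dL : CC →ₗ[ℂ] CC :=
  Finsupp.linearCombination ℂ (fun pq : ℤ × ℤ =>
    (Finsupp.single (pq.1, pq.2 - 2) ((I / 2) * pq.2) -
      Finsupp.single (pq.1 + 1, pq.2 - 1) I : CC))

lemma evl_single (L x : ℝ) (p q : ℤ) (a : ℂ) :
    evl L x (Finsupp.single (p, q) a) = a * GG p q L x := by
  simp [evl, Finsupp.linearCombination_single]

lemma dX_single (p q : ℤ) (a : ℂ) :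
    dX (Finsupp.single (p, q) a) =
      Finsupp.single (p - 2, q) (a * (-(I / 2) * p)) + Finsupp.single (p - 1, q + 1) (a * I) := by
  rw [dX, Finsupp.linearCombination_single, smul_add, Finsupp.smul_single, Finsupp.smul_single,
    smul_eq_mul, smul_eq_mul]

lemma dL_single (p q : ℤ) (a : ℂ) :
    dL (Finsupp.single (p, q) a) =
      Finsupp.single (p, q - 2) (a * ((I / 2) * q)) - Finsupp.single (p + 1, q - 1) (a * I) := by
  rw [dL, Finsupp.linearCombination_single, smul_sub, Finsupp.smul_single, Finsupp.smul_single,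
    smul_eq_mul, smul_eq_mul]

lemma hasDerivAt_evl_x (c : CC) (L x : ℝ) :
    HasDerivAt (fun y => evl L y c) (evl L x (dX c)) x := by
  induction c using Finsupp.induction_linear with
  | zero => simpa using hasDerivAt_const x (0 : ℂ)
  | add f g hf hg =>
    simp only [map_add]
    exact hf.add hg
  | single pq a =>
    obtain ⟨p, q⟩ := pq
    rw [dX_single, map_add, evl_single, evl_single]
    simp only [evl_single]
    refine ((hasDerivAt_GG_x p q L x).const_mul a).congr_deriv ?_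
    ring

lemma hasDerivAt_evl_L (c : CC) (L x : ℝ) :
    HasDerivAt (fun y => evl y x c) (evl L x (dL c)) L := by
  induction c using Finsupp.induction_linear with
  | zero => simpa using hasDerivAt_const L (0 : ℂ)
  | add f g hf hg =>
    simp only [map_add]
    exact hf.add hg
  | single pq a =>
    obtain ⟨p, q⟩ := pq
    rw [dL_single, map_sub, evl_single, evl_single]
    simp only [evl_single]
    refine ((hasDerivAt_GG_L p q L x).const_mul a).congr_deriv ?_
    ring

lemma contDiff_evl (c : CC) : ContDiff ℝ ⊤ (fun z : ℝ × ℝ => evl z.1 z.2 c) := by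
  induction c using Finsupp.induction_linear with
  | zero => simpa using contDiff_const
  | add f g hf hg =>
    simp only [map_add]
    exact hf.add hg
  | single pq a =>
    obtain ⟨p, q⟩ := pq
    simp only [evl_single]
    exact contDiff_const.mul (contDiff_GG p q)

lemma dX_dL (c : CC) : dX (dL c) = dL (dX c) := by
  induction c using Finsupp.induction_linear with
  | zero => simp
  | add f g hf hg => simp only [map_add, hf, hg]
  | single pq a =>
    obtain ⟨p, q⟩ := pq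
    rw [dL_single, dX_single, map_sub, map_add, dX_single, dX_single, dL_single, dL_single]
    have e1 : (p + 1 - 2 : ℤ) = p - 1 := by ring
    have e2 : (p + 1 - 1 : ℤ) = p := by ring
    have e3 : (q - 1 + 1 : ℤ) = q := by ring
    have e4 : (p - 2 + 1 : ℤ) = p - 1 := by ring
    have e5 : (q + 1 - 2 : ℤ) = q - 1 := by ring
    have e6 : (p - 1 + 1 : ℤ) = p := by ring
    have e7 : (q + 1 - 1 : ℤ) = q := by ring
    have e8 : (q - 2 + 1 : ℤ) = q - 1 := by ring
    simp only [e1, e2, e3, e4, e5, e6, e7, e8]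
    ext pq
    simp only [Finsupp.add_apply, Finsupp.sub_apply, Finsupp.single_apply]
    push_cast
    split_ifs <;> ring

/-- the starting function -/
def e0 : CC := Finsupp.single (-1, 0) 1

lemma dX_dL_e0 : dX (dL e0) = e0 := by
  unfold e0
  rw [dL_single, map_sub, dX_single, dX_single]
  simp

/-- the functions `F_j` -/
def eL (j : ℕ) : CC := dL^[j] e0

lemma eL_succ (j : ℕ) : eL (j + 1) = dL (eL j) := by
  rw [eL, Function.iterate_succ_apply']; rfl

lemma dX_eL (j : ℕ) : dX (eL (j + 1)) = eL j := by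
  induction j with
  | zero => exact dX_dL_e0
  | succ j ih => rw [eL_succ, dX_dL, ih, eL_succ]

/-- total degree at most `-1` -/
def gd : Submodule ℂ CC := Finsupp.supported ℂ ℂ {pq : ℤ × ℤ | pq.1 + pq.2 ≤ -1}

lemma single_mem_gd {p q : ℤ} (h : p + q ≤ -1) (a : ℂ) : Finsupp.single (p, q) a ∈ gd :=
  Finsupp.single_mem_supported ℂ a h

lemma dX_mem_gd {c : CC} (h : c ∈ gd) : dX c ∈ gd := by
  rw [dX, Finsupp.linearCombination_apply, Finsupp.sum]
  refine Submodule.sum_mem _ fun pq hpq => Submodule.smul_mem _ _ ?_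
  have h1 : pq.1 + pq.2 ≤ -1 := (Finsupp.mem_supported ℂ c).1 h hpq
  exact Submodule.add_mem _ (single_mem_gd (by linarith) _) (single_mem_gd (by linarith) _)

lemma dL_mem_gd {c : CC} (h : c ∈ gd) : dL c ∈ gd := by
  rw [dL, Finsupp.linearCombination_apply, Finsupp.sum]
  refine Submodule.sum_mem _ fun pq hpq => Submodule.smul_mem _ _ ?_
  have h1 : pq.1 + pq.2 ≤ -1 := (Finsupp.mem_supported ℂ c).1 h hpq
  exact Submodule.sub_mem _ (single_mem_gd (by linarith) _) (single_mem_gd (by linarith) _)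

lemma e0_mem_gd : e0 ∈ gd := single_mem_gd (by norm_num) _

lemma eL_mem_gd (j : ℕ) : eL j ∈ gd := by
  induction j with
  | zero => exact e0_mem_gd
  | succ j ih => rw [eL_succ]; exact dL_mem_gd ih

/-- the decay factor -/
def dcy (L : ℝ) : ℝ := Real.exp (-(1 / 2) * Real.log ‖cB L‖)

lemma dcy_pos (L : ℝ) : 0 < dcy L := Real.exp_pos _

lemma dcy_le_one (L : ℝ) : dcy L ≤ 1 := by
  have := Real.log_nonneg (one_le_norm_cB L)
  rw [dcy]
  apply Real.exp_le_one_iff.2
  linarith

lemma dcy_le (L : ℝ) (h : 0 < L) : dcy L ≤ 1 / √L := by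
  have h1 : L ≤ ‖cB L‖ := (le_abs_self L).trans (abs_le_norm_cB L)
  have h2 : Real.log L ≤ Real.log ‖cB L‖ := Real.log_le_log h h1
  rw [dcy]
  have h3 : 1 / √L = Real.exp (-(1 / 2) * Real.log L) := by
    rw [Real.sqrt_eq_rpow, Real.rpow_def_of_pos h, one_div, ← Real.exp_neg]
    congr 1
    ring
  rw [h3]
  apply Real.exp_le_exp.2
  linarith

lemma evl_bound {c : CC} (h : c ∈ gd) (n : ℕ) :
    ∃ C : ℝ, 0 ≤ C ∧ ∀ L x : ℝ, (1 + |x|) ^ n * ‖evl L x c‖ ≤ C * (1 + |L|) ^ n * dcy L := by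
  refine ⟨∑ pq ∈ c.support, ‖c pq‖ * (2 ^ n * ((pq.1 + 2 * n).natAbs.factorial : ℝ)),
    Finset.sum_nonneg fun _ _ => by positivity, fun L x => ?_⟩
  rw [evl, Finsupp.linearCombination_apply, Finsupp.sum, Finset.sum_mul, Finset.sum_mul]
  calc (1 + |x|) ^ n * ‖∑ pq ∈ c.support, c pq • GG pq.1 pq.2 L x‖
      ≤ (1 + |x|) ^ n * ∑ pq ∈ c.support, ‖c pq • GG pq.1 pq.2 L x‖ := by
        gcongr; exact norm_sum_le _ _
    _ = ∑ pq ∈ c.support, ‖c pq‖ * ((1 + |x|) ^ n * ‖GG pq.1 pq.2 L x‖) := by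
        rw [Finset.mul_sum]
        refine Finset.sum_congr rfl fun pq _ => ?_
        rw [norm_smul]; ring
    _ ≤ _ := by
        refine Finset.sum_le_sum fun pq hpq => ?_
        have h1 : pq.1 + pq.2 ≤ -1 := (Finsupp.mem_supported ℂ c).1 h hpq
        have h2 := GG_bound pq.1 pq.2 n L x
        have h3 : Real.exp (((pq.1 + pq.2 : ℤ) : ℝ) / 2 * Real.log ‖cB L‖) ≤ dcy L := by
          rw [dcy]
          apply Real.exp_le_exp.2
          have h4 := Real.log_nonneg (one_le_norm_cB L)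
          have h5 : ((pq.1 + pq.2 : ℤ) : ℝ) ≤ -1 := by exact_mod_cast h1
          nlinarith
        calc ‖c pq‖ * ((1 + |x|) ^ n * ‖GG pq.1 pq.2 L x‖)
            ≤ ‖c pq‖ * (2 ^ n * ((pq.1 + 2 * n).natAbs.factorial : ℝ) * (1 + |L|) ^ n *
              Real.exp (((pq.1 + pq.2 : ℤ) : ℝ) / 2 * Real.log ‖cB L‖)) := by gcongr
          _ ≤ ‖c pq‖ * (2 ^ n * ((pq.1 + 2 * n).natAbs.factorial : ℝ) * (1 + |L|) ^ n *
              dcy L) := by gcongr
          _ = _ := by ring

/-- the real part -/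
def RR (c : CC) (L x : ℝ) : ℝ := (evl L x c).re

lemma hasDerivAt_RR_x (c : CC) (L x : ℝ) :
    HasDerivAt (fun y => RR c L y) (RR (dX c) L x) x :=
  (Complex.reCLM.hasFDerivAt.comp_hasDerivAt x (hasDerivAt_evl_x c L x))

lemma hasDerivAt_RR_L (c : CC) (L x : ℝ) :
    HasDerivAt (fun y => RR c y x) (RR (dL c) L x) L :=
  (Complex.reCLM.hasFDerivAt.comp_hasDerivAt L (hasDerivAt_evl_L c L x))

lemma contDiff_RR (c : CC) : ContDiff ℝ ⊤ (fun z : ℝ × ℝ => RR c z.1 z.2) :=
  Complex.reCLM.contDiff.comp (contDiff_evl c)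

lemma contDiff_RR_x (c : CC) (L : ℝ) : ContDiff ℝ ⊤ (fun x : ℝ => RR c L x) := by
  have h1 : ContDiff ℝ ⊤ (fun x : ℝ => ((L, x) : ℝ × ℝ)) := contDiff_const.prodMk contDiff_id
  have h2 := ContDiff.comp (g := fun z : ℝ × ℝ => RR c z.1 z.2) (contDiff_RR c) h1
  simp only [Function.comp_def] at h2
  exact h2

lemma RR_bound {c : CC} (h : c ∈ gd) (n : ℕ) :
    ∃ C : ℝ, 0 ≤ C ∧ ∀ L x : ℝ, (1 + |x|) ^ n * |RR c L x| ≤ C * (1 + |L|) ^ n * dcy L := by
  obtain ⟨C, hC, hb⟩ := evl_bound h n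
  refine ⟨C, hC, fun L x => le_trans ?_ (hb L x)⟩
  gcongr
  exact Complex.abs_re_le_norm _

end Pool.Agent.YUR.Pkt
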