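import Pool.Agent.YUR.P3

/-!
# YUR, section 4: the conservation of the `L²` norm
-/

open Complex MeasureTheory Set Filter Topology

noncomputable section

namespace Pool.Agent.YUR.Pkt

lemma decay_pointwise {f : ℝ → ℝ} {C : ℝ} (h : ∀ x, (1 + |x|) ^ 2 * |f x| ≤ C) (x : ℝ) :
    |f x| ≤ C * (1 + x ^ 2)⁻¹ := by
  have h1 : 1 + x ^ 2 ≤ (1 + |x|) ^ 2 := by
    have := abs_nonneg x
    have := sq_abs x
    nlinarith
  have h2 : (1 + x ^ 2) * |f x| ≤ C :=
    (mul_le_mul_of_nonneg_right h1 (abs_nonneg _)).trans (h x)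
  have h3 : 0 < 1 + x ^ 2 := by positivity
  rw [← div_eq_mul_inv, le_div_iff₀ h3]
  linarith

lemma integrable_of_decay {f : ℝ → ℝ} (hf : Continuous f) {C : ℝ}
    (h : ∀ x, (1 + |x|) ^ 2 * |f x| ≤ C) : Integrable f := by
  refine Integrable.mono' (integrable_inv_one_add_sq.const_mul C) hf.aestronglyMeasurable ?_
  exact Eventually.of_forall fun x => by
    rw [Real.norm_eq_abs]; exact decay_pointwise h x

lemma integral_abs_of_decay {f : ℝ → ℝ} (hf : Continuous f) {C : ℝ}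
    (h : ∀ x, (1 + |x|) ^ 2 * |f x| ≤ C) : ∫ x, |f x| ≤ C * Real.pi := by
  calc ∫ x, |f x| ≤ ∫ x, C * (1 + x ^ 2)⁻¹ :=
        integral_mono (integrable_of_decay hf h).abs (integrable_inv_one_add_sq.const_mul C)
          fun x => decay_pointwise h x
    _ = C * Real.pi := by
        rw [integral_const_mul, integral_univ_inv_one_add_sq]

lemma prod_decay {f g : ℝ → ℝ} {C D : ℝ} (hC : 0 ≤ C)
    (hf : ∀ x, (1 + |x|) ^ 1 * |f x| ≤ C) (hg : ∀ x, (1 + |x|) ^ 1 * |g x| ≤ D) (x : ℝ) :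
    (1 + |x|) ^ 2 * |f x * g x| ≤ C * D := by
  rw [abs_mul]
  calc (1 + |x|) ^ 2 * (|f x| * |g x|) = ((1 + |x|) ^ 1 * |f x|) * ((1 + |x|) ^ 1 * |g x|) := by
        ring
    _ ≤ C * D := mul_le_mul (hf x) (hg x) (by positivity) hC

lemma RR_decay_loc {c : CC} (h : c ∈ gd) (n : ℕ) (T : ℝ) :
    ∃ C : ℝ, 0 ≤ C ∧ ∀ L : ℝ, |L| ≤ T → ∀ x : ℝ, (1 + |x|) ^ n * |RR c L x| ≤ C := by
  obtain ⟨C, hC, hb⟩ := RR_bound h n
  refine ⟨C * (1 + |T|) ^ n, by positivity, fun L hL x => (hb L x).trans ?_⟩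
  calc C * (1 + |L|) ^ n * dcy L ≤ C * (1 + |L|) ^ n * 1 := by
        gcongr; exact dcy_le_one L
    _ ≤ C * (1 + |T|) ^ n := by
        rw [mul_one]
        have h5 : 1 + |L| ≤ 1 + |T| := by linarith [hL.trans (le_abs_self T)]
        exact mul_le_mul_of_nonneg_left (pow_le_pow_left₀ (by positivity) h5 n) hC

lemma continuous_RR_x (c : CC) (L : ℝ) : Continuous (fun x : ℝ => RR c L x) :=
  (contDiff_RR_x c L).continuous

lemma integral_F0_F1 (L : ℝ) : ∫ x, 2 * (RR e0 L x * RR (eL 1) L x) = 0 := by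
  obtain ⟨C, hC, hb⟩ := RR_decay_loc e0_mem_gd 1 |L|
  obtain ⟨D, hD, hd⟩ := RR_decay_loc (eL_mem_gd 1) 1 |L|
  have hc0 := continuous_RR_x e0 L
  have hc1 := continuous_RR_x (eL 1) L
  have i1 : Integrable (fun x => RR e0 L x * RR (eL 1) L x) :=
    integrable_of_decay (hc0.mul hc1) (prod_decay hC (hb L le_rfl) (hd L le_rfl))
  have i2 : Integrable (fun x => RR (eL 1) L x * RR (eL 1) L x) :=
    integrable_of_decay (hc1.mul hc1) (prod_decay hD (hd L le_rfl) (hd L le_rfl))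
  refine integral_eq_zero_of_hasDerivAt_of_integrable
    (f := fun x => RR (eL 1) L x * RR (eL 1) L x) (fun x => ?_) (i1.const_mul 2) i2
  have h := hasDerivAt_RR_x (eL 1) L x
  rw [dX_eL 0] at h
  exact (h.mul h).congr_deriv (by change _ = 2 * (RR (eL 0) L x * _); ring)

lemma hasDerivAt_mass (L : ℝ) : HasDerivAt (fun L => ∫ x, RR e0 L x ^ 2) 0 L := by
  obtain ⟨C, hC, hb⟩ := RR_decay_loc e0_mem_gd 1 (|L| + 1)
  obtain ⟨D, hD, hd⟩ := RR_decay_loc (eL_mem_gd 1) 1 (|L| + 1)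
  have hball : ∀ L' ∈ Metric.ball L 1, |L'| ≤ |L| + 1 := by
    intro L' hL'
    rw [Metric.mem_ball, Real.dist_eq] at hL'
    have : |L'| ≤ |L| + |L' - L| := by
      calc |L'| = |L + (L' - L)| := by ring_nf
        _ ≤ _ := abs_add_le _ _
    linarith
  have hLL : |L| ≤ |L| + 1 := by linarith
  have key := hasDerivAt_integral_of_dominated_loc_of_deriv_le (𝕜 := ℝ) (μ := volume)
    (F := fun L x => RR e0 L x ^ 2) (F' := fun L x => 2 * (RR e0 L x * RR (eL 1) L x))
    (x₀ := L) (s := Metric.ball L 1) (bound := fun x => 2 * (C * D * (1 + x ^ 2)⁻¹))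
    (Metric.ball_mem_nhds L one_pos)
    (Eventually.of_forall fun L' => ((continuous_RR_x e0 L').pow 2).aestronglyMeasurable)
    (by
      have : Integrable (fun x => RR e0 L x * RR e0 L x) :=
        integrable_of_decay ((continuous_RR_x e0 L).mul (continuous_RR_x e0 L))
          (prod_decay hC (hb L hLL) (hb L hLL))
      simpa [pow_two] using this)
    ((((continuous_RR_x e0 L).mul (continuous_RR_x (eL 1) L)).const_mul 2).aestronglyMeasurable)
    (Eventually.of_forall fun x L' hL' => by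
      rw [Real.norm_eq_abs, abs_mul, abs_of_pos (by norm_num : (0 : ℝ) < 2)]
      have := decay_pointwise (prod_decay hC (hb L' (hball L' hL')) (hd L' (hball L' hL'))) x
      linarith)
    ((integrable_inv_one_add_sq.const_mul (C * D)).const_mul 2)
    (Eventually.of_forall fun x L' hL' => by
      have h := hasDerivAt_RR_L e0 L' x
      refine (h.pow 2).congr_deriv ?_
      change _ = 2 * (RR e0 L' x * RR (dL e0) L' x)
      ring)
  have h2 := key.2
  rw [integral_F0_F1] at h2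
  exact h2

lemma mass_const (L : ℝ) : ∫ x, RR e0 L x ^ 2 = ∫ x, RR e0 0 x ^ 2 :=
  is_const_of_deriv_eq_zero (fun L => (hasDerivAt_mass L).differentiableAt)
    (fun L => (hasDerivAt_mass L).deriv) L 0

lemma RR_e0_zero : RR e0 0 0 ≠ 0 := by
  have h1 : GG (-1) 0 0 0 = Complex.exp (-2) := by
    have ha : lA 0 = 0 := by simp [lA, cA]
    have hb : lB 0 = 0 := by simp [lB, cB]
    unfold GG
    rw [ha, hb]
    simp
  have h2 : RR e0 0 0 = Real.exp (-2) := by
    rw [RR, e0, evl_single, h1, one_mul]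
    have : (-2 : ℂ) = ((-2 : ℝ) : ℂ) := by norm_num
    rw [this, ← Complex.ofReal_exp, Complex.ofReal_re]
  rw [h2]
  exact (Real.exp_pos _).ne'

lemma mass_pos : 0 < ∫ x, RR e0 0 x ^ 2 := by
  obtain ⟨C, hC, hb⟩ := RR_decay_loc e0_mem_gd 1 0
  have h0 : |(0 : ℝ)| ≤ 0 := by simp
  have hc := continuous_RR_x e0 0
  have hi : Integrable (fun x => RR e0 0 x ^ 2) := by
    have : Integrable (fun x => RR e0 0 x * RR e0 0 x) :=
      integrable_of_decay (hc.mul hc) (prod_decay hC (hb 0 h0) (hb 0 h0))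
    simpa [pow_two] using this
  exact integral_pos_of_integrable_nonneg_nonzero (x := 0) (hc.pow 2) hi
    (fun x => sq_nonneg _) (pow_ne_zero 2 RR_e0_zero)

end Pool.Agent.YUR.Pkt
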