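import Pool.Agent.YUR.P4

/-!
# YUR, section 4: the cut off functions and their derivatives
-/

open Complex MeasureTheory Set Filter Topology
open scoped ContDiff

noncomputable section

namespace Pool.Agent.YUR.Pkt

/-- smooth, supported in `[-2, 2]` -/
structure Cut (g : ℝ → ℝ) : Prop where
  smooth : ContDiff ℝ ∞ g
  supp : tsupport g ⊆ Metric.closedBall 0 2

/-- the bump -/
def chiB : ContDiffBump (0 : ℝ) := ⟨1, 2, one_pos, one_lt_two⟩

/-- the cutoff -/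
def chi : ℝ → ℝ := chiB

lemma cut_chi : Cut chi where
  smooth := chiB.contDiff
  supp := by
    have : tsupport chi = Metric.closedBall 0 2 := chiB.tsupport_eq
    rw [this]

lemma Cut.deriv {g : ℝ → ℝ} (h : Cut g) : Cut (deriv g) where
  smooth := (contDiff_infty_iff_deriv.mp h.smooth).2
  supp := tsupport_deriv_subset.trans h.supp

lemma chi_one {x : ℝ} (h : |x| ≤ 1) : chi x = 1 :=
  chiB.one_of_mem_closedBall (by
    rw [Metric.mem_closedBall, Real.dist_eq, sub_zero]; exact h)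

lemma chi_nonneg (x : ℝ) : 0 ≤ chi x := chiB.nonneg

lemma chi_le_one (x : ℝ) : chi x ≤ 1 := chiB.le_one

lemma abs_chi_sub_one (x : ℝ) : |chi x - 1| ≤ |x| := by
  rcases le_or_gt |x| 1 with h | h
  · rw [chi_one h]; simp
  · have h1 := chi_nonneg x
    have h2 := chi_le_one x
    rw [abs_le]
    constructor <;> linarith

lemma iteratedDeriv_of_notMem {g : ℝ → ℝ} {x : ℝ} (h : x ∉ tsupport g) (n : ℕ) :
    iteratedDeriv n g x = 0 := by
  have h1 : g =ᶠ[𝓝 x] fun _ => 0 := notMem_tsupport_iff_eventuallyEq.1 h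
  rw [h1.iteratedDeriv_eq n]
  simp

lemma Cut.notMem {g : ℝ → ℝ} (h : Cut g) {x : ℝ} (hx : 2 < |x|) : x ∉ tsupport g := by
  intro h1
  have := h.supp h1
  rw [Metric.mem_closedBall, Real.dist_eq, sub_zero] at this
  linarith

lemma Cut.bdd {g : ℝ → ℝ} (h : Cut g) (n : ℕ) :
    ∃ X : ℝ, 0 ≤ X ∧ ∀ x, |iteratedDeriv n g x| ≤ X := by
  have hc : Continuous (iteratedDeriv n g) :=
    h.smooth.continuous_iteratedDeriv n (by exact_mod_cast le_top)
  obtain ⟨X, hX⟩ := (isCompact_closedBall (0 : ℝ) 2).exists_bound_of_continuousOn hc.continuousOn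
  refine ⟨max X 0, le_max_right _ _, fun x => ?_⟩
  by_cases hx : x ∈ tsupport g
  · exact (hX x (h.supp hx)).trans (le_max_left _ _)
  · rw [iteratedDeriv_of_notMem hx]; simp

/-- derivatives of the cut off functions -/
def DD (g : ℝ → ℝ) (n : ℕ) (c : CC) (M L x : ℝ) : ℝ :=
  iteratedDeriv n (fun y => g (M⁻¹ * y) * RR c L y) x

lemma contDiff_inner {g : ℝ → ℝ} (h : Cut g) (M : ℝ) :
    ContDiff ℝ ∞ (fun y => g (M⁻¹ * y)) :=
  h.smooth.comp (contDiff_const.mul contDiff_id)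

lemma contDiff_RR_x' (c : CC) (L : ℝ) : ContDiff ℝ ∞ (fun x : ℝ => RR c L x) :=
  (contDiff_RR_x c L).of_le le_top

lemma contDiff_body {g : ℝ → ℝ} (h : Cut g) (c : CC) (M L : ℝ) :
    ContDiff ℝ ∞ (fun y => g (M⁻¹ * y) * RR c L y) :=
  (contDiff_inner h M).mul (contDiff_RR_x' c L)

lemma hasDerivAt_iteratedDeriv {f : ℝ → ℝ} (hf : ContDiff ℝ ∞ f) (n : ℕ) (x : ℝ) :
    HasDerivAt (iteratedDeriv n f) (iteratedDeriv (n + 1) f x) x := by
  have h1 : DifferentiableAt ℝ (iteratedDeriv n f) x :=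
    (hf.differentiable_iteratedDeriv n (by exact_mod_cast WithTop.coe_lt_top n)) x
  rw [iteratedDeriv_succ]
  exact h1.hasDerivAt

lemma iteratedDeriv_RR (c : CC) (L : ℝ) (n : ℕ) :
    iteratedDeriv n (fun x => RR c L x) = fun x => RR (dX^[n] c) L x := by
  induction n with
  | zero => simp
  | succ n ih =>
    rw [iteratedDeriv_succ, ih]
    funext x
    rw [(hasDerivAt_RR_x _ L x).deriv, Function.iterate_succ_apply']

lemma DD_eq {g : ℝ → ℝ} (h : Cut g) (n : ℕ) (c : CC) (M L x : ℝ) :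
    DD g n c M L x = ∑ i ∈ Finset.range (n + 1),
      (n.choose i : ℝ) * (M⁻¹ ^ i * iteratedDeriv i g (M⁻¹ * x)) * RR (dX^[n - i] c) L x := by
  have h1 : ContDiffAt ℝ n (fun y => g (M⁻¹ * y)) x :=
    ((contDiff_inner h M).of_le (by exact_mod_cast le_top)).contDiffAt
  have h2 : ContDiffAt ℝ n (fun y => RR c L y) x :=
    ((contDiff_RR_x' c L).of_le (by exact_mod_cast le_top)).contDiffAt
  rw [DD, iteratedDeriv_fun_mul h1 h2]
  refine Finset.sum_congr rfl fun i _ => ?_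
  have h3 : ContDiff ℝ i g := h.smooth.of_le (by exact_mod_cast le_top)
  rw [iteratedDeriv_RR, iteratedDeriv_comp_const_mul h3]

lemma hasDerivAt_DD_x {g : ℝ → ℝ} (h : Cut g) (n : ℕ) (c : CC) (M L x : ℝ) :
    HasDerivAt (fun y => DD g n c M L y) (DD g (n + 1) c M L x) x :=
  hasDerivAt_iteratedDeriv (contDiff_body h c M L) n x

lemma contDiff_DD {g : ℝ → ℝ} (h : Cut g) (n : ℕ) (c : CC) (M : ℝ) :
    ContDiff ℝ ∞ (fun z : ℝ × ℝ => DD g n c M z.1 z.2) := by
  simp only [DD_eq h]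
  refine ContDiff.sum fun i _ => ?_
  have h1 : ContDiff ℝ ∞ (iteratedDeriv i g) := by
    rw [iteratedDeriv_eq_iterate]
    exact h.smooth.iterate_deriv i
  have h2 : ContDiff ℝ ∞ (fun z : ℝ × ℝ => M⁻¹ * z.2) := contDiff_const.mul contDiff_snd
  have h3 : ContDiff ℝ ∞ (fun z : ℝ × ℝ => RR (dX^[n - i] c) z.1 z.2) :=
    (contDiff_RR _).of_le le_top
  exact (contDiff_const.mul (contDiff_const.mul (h1.comp h2))).mul h3

lemma dX_iter_dL (k : ℕ) (c : CC) : dX^[k] (dL c) = dL (dX^[k] c) := by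
  induction k with
  | zero => rfl
  | succ k ih => rw [Function.iterate_succ_apply', ih, dX_dL, Function.iterate_succ_apply']

lemma hasDerivAt_DD_L {g : ℝ → ℝ} (h : Cut g) (n : ℕ) (c : CC) (M L x : ℝ) :
    HasDerivAt (fun L' => DD g n c M L' x) (DD g n (dL c) M L x) L := by
  simp only [DD_eq h]
  refine HasDerivAt.fun_sum fun i _ => ?_
  rw [dX_iter_dL]
  exact (hasDerivAt_RR_L (dX^[n - i] c) L x).const_mul _

lemma DD_succ {g : ℝ → ℝ} (h : Cut g) (n : ℕ) (c : CC) (M L x : ℝ) :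
    DD g (n + 1) c M L x = M⁻¹ * DD (deriv g) n c M L x + DD g n (dX c) M L x := by
  have h1 : deriv (fun y => g (M⁻¹ * y) * RR c L y) =
      fun y => M⁻¹ * (deriv g (M⁻¹ * y) * RR c L y) + g (M⁻¹ * y) * RR (dX c) L y := by
    funext y
    have e1 : HasDerivAt (fun y => g (M⁻¹ * y)) (deriv g (M⁻¹ * y) * M⁻¹) y := by
      have e2 : HasDerivAt (fun y : ℝ => M⁻¹ * y) M⁻¹ y := by
        simpa using (hasDerivAt_id y).const_mul M⁻¹
      have e3 : HasDerivAt g (deriv g (M⁻¹ * y)) (M⁻¹ * y) :=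
        ((h.smooth.differentiable (by simp)) _).hasDerivAt
      exact e3.comp y e2
    rw [(e1.fun_mul (hasDerivAt_RR_x c L y)).deriv]
    ring
  have h2 : ContDiff ℝ ∞ (fun y => deriv g (M⁻¹ * y) * RR c L y) := contDiff_body h.deriv c M L
  have h3 : ContDiff ℝ ∞ (fun y => g (M⁻¹ * y) * RR (dX c) L y) := contDiff_body h (dX c) M L
  unfold DD
  rw [iteratedDeriv_succ', h1, iteratedDeriv_fun_add, iteratedDeriv_const_mul_field]
  · exact ((contDiff_const.mul h2).of_le (by exact_mod_cast le_top)).contDiffAt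
  · exact (h3.of_le (by exact_mod_cast le_top)).contDiffAt

lemma DD_supp {g : ℝ → ℝ} (h : Cut g) (n : ℕ) (c : CC) {M : ℝ} (hM : 0 < M) (L : ℝ) {x : ℝ}
    (hx : 3 * M ≤ |x|) : DD g n c M L x = 0 := by
  rw [DD_eq h]
  refine Finset.sum_eq_zero fun i _ => ?_
  have h1 : 2 < |M⁻¹ * x| := by
    rw [abs_mul, abs_of_pos (inv_pos.2 hM), inv_mul_eq_div, lt_div_iff₀ hM]
    linarith
  rw [iteratedDeriv_of_notMem (h.notMem h1)]
  simp

lemma DD_bound {g : ℝ → ℝ} (h : Cut g) {c : CC} (hc : c ∈ gd) (n m : ℕ) :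
    ∃ C : ℝ, 0 ≤ C ∧ ∀ M : ℝ, 1 ≤ M → ∀ L x : ℝ,
      (1 + |x|) ^ m * |DD g n c M L x| ≤ C * (1 + |L|) ^ m * dcy L := by
  have hgd : ∀ k : ℕ, dX^[k] c ∈ gd := by
    intro k
    induction k with
    | zero => exact hc
    | succ k ih => rw [Function.iterate_succ_apply']; exact dX_mem_gd ih
  choose X hX0 hX using fun i => h.bdd i
  choose Y hY0 hY using fun i => RR_bound (hgd (n - i)) m
  refine ⟨∑ i ∈ Finset.range (n + 1), (n.choose i : ℝ) * X i * Y i,
    Finset.sum_nonneg fun i _ => mul_nonneg (mul_nonneg (by positivity) (hX0 i)) (hY0 i),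
    fun M hM L x => ?_⟩
  rw [DD_eq h, Finset.sum_mul, Finset.sum_mul]
  calc (1 + |x|) ^ m * |∑ i ∈ Finset.range (n + 1),
      (n.choose i : ℝ) * (M⁻¹ ^ i * iteratedDeriv i g (M⁻¹ * x)) * RR (dX^[n - i] c) L x|
      ≤ (1 + |x|) ^ m * ∑ i ∈ Finset.range (n + 1),
      |(n.choose i : ℝ) * (M⁻¹ ^ i * iteratedDeriv i g (M⁻¹ * x)) * RR (dX^[n - i] c) L x| := by
        gcongr; exact Finset.abs_sum_le_sum_abs _ _
    _ = ∑ i ∈ Finset.range (n + 1), ((n.choose i : ℝ) * |M⁻¹ ^ i * iteratedDeriv i g (M⁻¹ * x)|) *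
        ((1 + |x|) ^ m * |RR (dX^[n - i] c) L x|) := by
        rw [Finset.mul_sum]
        refine Finset.sum_congr rfl fun i _ => ?_
        rw [abs_mul, abs_mul, Nat.abs_cast]; ring
    _ ≤ _ := by
        refine Finset.sum_le_sum fun i _ => ?_
        have h1 : |M⁻¹ ^ i * iteratedDeriv i g (M⁻¹ * x)| ≤ X i := by
          rw [abs_mul]
          have h2 : |M⁻¹ ^ i| ≤ 1 := by
            rw [abs_pow, abs_of_nonneg (by positivity)]
            exact pow_le_one₀ (by positivity) (inv_le_one_of_one_le₀ hM)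
          calc |M⁻¹ ^ i| * |iteratedDeriv i g (M⁻¹ * x)| ≤ 1 * X i :=
                mul_le_mul h2 (hX i _) (abs_nonneg _) zero_le_one
            _ = X i := one_mul _
        calc ((n.choose i : ℝ) * |M⁻¹ ^ i * iteratedDeriv i g (M⁻¹ * x)|) *
            ((1 + |x|) ^ m * |RR (dX^[n - i] c) L x|)
            ≤ ((n.choose i : ℝ) * X i) * (Y i * (1 + |L|) ^ m * dcy L) := by
              refine mul_le_mul (mul_le_mul_of_nonneg_left h1 (by positivity)) (hY i L x)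
                (by positivity) (mul_nonneg (by positivity) (hX0 i))
          _ = _ := by ring

lemma DD_zero (g : ℝ → ℝ) (c : CC) (M L x : ℝ) : DD g 0 c M L x = g (M⁻¹ * x) * RR c L x := by
  simp [DD]

lemma DD_main (n : ℕ) :
    ∃ C : ℝ, 0 ≤ C ∧ ∀ M : ℝ, 1 ≤ M → ∀ L x : ℝ,
      (1 + |x|) ^ 1 * |DD chi n (eL n) M L x - chi (M⁻¹ * x) * RR e0 L x| ≤
        M⁻¹ * (C * (1 + |L|) ^ 1) := by
  induction n with
  | zero =>
    refine ⟨0, le_rfl, fun M _ L x => ?_⟩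
    rw [DD_zero]
    change (1 + |x|) ^ 1 * |chi (M⁻¹ * x) * RR e0 L x - chi (M⁻¹ * x) * RR e0 L x| ≤ _
    rw [sub_self]
    simp
  | succ n ih =>
    obtain ⟨C, hC, hb⟩ := ih
    obtain ⟨D, hD, hd⟩ := DD_bound cut_chi.deriv (eL_mem_gd (n + 1)) n 1
    refine ⟨C + D, by positivity, fun M hM L x => ?_⟩
    rw [DD_succ cut_chi, dX_eL]
    have hMi : 0 ≤ M⁻¹ := by positivity
    have h1 := hb M hM L x
    have h2 : (1 + |x|) ^ 1 * |DD (deriv chi) n (eL (n + 1)) M L x| ≤ D * (1 + |L|) ^ 1 := by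
      refine (hd M hM L x).trans ?_
      calc D * (1 + |L|) ^ 1 * dcy L ≤ D * (1 + |L|) ^ 1 * 1 := by
            gcongr; exact dcy_le_one L
        _ = _ := mul_one _
    have e : M⁻¹ * DD (deriv chi) n (eL (n + 1)) M L x + DD chi n (eL n) M L x -
        chi (M⁻¹ * x) * RR e0 L x = M⁻¹ * DD (deriv chi) n (eL (n + 1)) M L x +
        (DD chi n (eL n) M L x - chi (M⁻¹ * x) * RR e0 L x) := by ring
    rw [e]
    calc (1 + |x|) ^ 1 * |M⁻¹ * DD (deriv chi) n (eL (n + 1)) M L x +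
        (DD chi n (eL n) M L x - chi (M⁻¹ * x) * RR e0 L x)|
        ≤ (1 + |x|) ^ 1 * (|M⁻¹ * DD (deriv chi) n (eL (n + 1)) M L x| +
        |DD chi n (eL n) M L x - chi (M⁻¹ * x) * RR e0 L x|) := by
          gcongr; exact abs_add_le _ _
      _ = M⁻¹ * ((1 + |x|) ^ 1 * |DD (deriv chi) n (eL (n + 1)) M L x|) +
        (1 + |x|) ^ 1 * |DD chi n (eL n) M L x - chi (M⁻¹ * x) * RR e0 L x| := by
          rw [abs_mul, abs_of_nonneg hMi]; ring
      _ ≤ M⁻¹ * (D * (1 + |L|) ^ 1) + M⁻¹ * (C * (1 + |L|) ^ 1) := by gcongr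
      _ = _ := by ring

end Pool.Agent.YUR.Pkt
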