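import Pool.Agent.YUR.P5
import Pool.Agent.YUR.Defs

/-!
# YUR, section 4: the packet
-/

open Complex MeasureTheory Set Filter Topology
open scoped ContDiff

noncomputable section

namespace Pool.Agent.YUR.Pkt

lemma integral_pow_mul_iteratedDeriv {h : ℝ → ℝ} (hs : ContDiff ℝ ∞ h)
    (hc : HasCompactSupport h) (i : ℕ) : ∀ k, i < k →
      ∫ x, x ^ i * iteratedDeriv k h x = 0 := by
  have hcc : ∀ k, HasCompactSupport (iteratedDeriv k h) := by
    intro k
    refine HasCompactSupport.intro hc fun x hx => ?_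
    exact iteratedDeriv_of_notMem hx k
  have hcont : ∀ k, Continuous (iteratedDeriv k h) := fun k =>
    hs.continuous_iteratedDeriv k (by exact_mod_cast le_top)
  have hint : ∀ i k : ℕ, Integrable (fun x => x ^ i * iteratedDeriv k h x) := by
    intro i k
    exact ((continuous_id.pow i).mul (hcont k)).integrable_of_hasCompactSupport
      (hcc k).mul_left
  induction i with
  | zero =>
    intro k hk
    obtain ⟨k, rfl⟩ : ∃ k', k = k' + 1 := ⟨k - 1, by omega⟩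
    refine integral_eq_zero_of_hasDerivAt_of_integrable
      (f := fun x => x ^ 0 * iteratedDeriv k h x) (fun x => ?_) (hint 0 (k + 1)) (hint 0 k)
    simpa using hasDerivAt_iteratedDeriv hs k x
  | succ i ih =>
    intro k hk
    obtain ⟨k, rfl⟩ : ∃ k', k = k' + 1 := ⟨k - 1, by omega⟩
    have h1 := ih k (by omega)
    have h2 : ∫ x, (((i : ℝ) + 1) * (x ^ i * iteratedDeriv k h x) +
        x ^ (i + 1) * iteratedDeriv (k + 1) h x) = 0 := by
      refine integral_eq_zero_of_hasDerivAt_of_integrable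
        (f := fun x => x ^ (i + 1) * iteratedDeriv k h x) (fun x => ?_)
        (((hint i k).const_mul _).add (hint (i + 1) (k + 1))) (hint (i + 1) k)
      refine ((hasDerivAt_pow (i + 1) x).mul (hasDerivAt_iteratedDeriv hs k x)).congr_deriv ?_
      have e9 : i + 1 - 1 = i := by omega
      rw [e9]
      push_cast
      ring
    rw [integral_add ((hint i k).const_mul _) (hint (i + 1) (k + 1)), integral_const_mul, h1,
      mul_zero, zero_add] at h2
    exact h2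

/-- the packet functions -/
def pa (M : ℝ) (j : ℕ) (L x : ℝ) : ℝ := DD chi (8 - j) (eL 8) M L x

/-- the error -/
def pe (M : ℝ) (L x : ℝ) : ℝ := M⁻¹ * DD (deriv chi) 7 (eL 9) M L x

lemma cut_body_compact {g : ℝ → ℝ} (h : Cut g) {M : ℝ} (hM : 0 < M) (c : CC) (L : ℝ) :
    HasCompactSupport (fun y => g (M⁻¹ * y) * RR c L y) := by
  refine HasCompactSupport.intro (isCompact_closedBall (0 : ℝ) (3 * M)) fun x hx => ?_
  rw [Metric.mem_closedBall, Real.dist_eq, sub_zero, not_le] at hx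
  have := DD_supp h 0 c hM L hx.le
  rw [DD_zero] at this
  exact this

lemma continuous_DD {g : ℝ → ℝ} (h : Cut g) (n : ℕ) (c : CC) (M L : ℝ) :
    Continuous (fun x => DD g n c M L x) := by
  rw [continuous_iff_continuousAt]
  intro x
  exact (hasDerivAt_DD_x h n c M L x).continuousAt

lemma pe_van {M : ℝ} (hM : 0 < M) (i : ℕ) (hi : i ≤ 3) (L : ℝ) :
    ∫ x, x ^ i * pe M L x = 0 := by
  have h := integral_pow_mul_iteratedDeriv (contDiff_body cut_chi.deriv (eL 9) M L)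
    (cut_body_compact cut_chi.deriv hM (eL 9) L) i 7 (by omega)
  have e : (fun x => x ^ i * pe M L x) = fun x => M⁻¹ * (x ^ i *
      iteratedDeriv 7 (fun y => deriv chi (M⁻¹ * y) * RR (eL 9) L y) x) := by
    funext x
    rw [pe, DD]
    ring
  rw [e, integral_const_mul, h, mul_zero]

lemma pa_time (M L x : ℝ) : HasDerivAt (fun L' => pa M 0 L' x) (pa M 1 L x + pe M L x) L := by
  refine (hasDerivAt_DD_L cut_chi 8 (eL 8) M L x).congr_deriv ?_
  rw [← eL_succ, DD_succ cut_chi, dX_eL, pa, pe]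
  exact add_comm _ _

lemma pa_chain (M : ℝ) (j : ℕ) (hj : j < 8) (L x : ℝ) :
    HasDerivAt (pa M (j + 1) L) (pa M j L x) x := by
  have h := hasDerivAt_DD_x cut_chi (8 - (j + 1)) (eL 8) M L x
  have e : 8 - (j + 1) + 1 = 8 - j := by omega
  rw [e] at h
  exact h

lemma deriv_pa_zero (M L : ℝ) : deriv (pa M 0 L) = fun x => DD chi 9 (eL 8) M L x := by
  funext x
  exact (hasDerivAt_DD_x cut_chi 8 (eL 8) M L x).deriv

lemma deriv_deriv_pa_zero (M L : ℝ) :
    deriv (deriv (pa M 0 L)) = fun x => DD chi 10 (eL 8) M L x := by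
  rw [deriv_pa_zero]
  funext x
  exact (hasDerivAt_DD_x cut_chi 9 (eL 8) M L x).deriv

lemma DD_bound_le {g : ℝ → ℝ} (h : Cut g) {c : CC} (hc : c ∈ gd) (n m : ℕ) :
    ∃ C : ℝ, 0 ≤ C ∧ ∀ M : ℝ, 1 ≤ M → ∀ T L x : ℝ, 0 ≤ L → L ≤ T →
      (1 + |x|) ^ m * |DD g n c M L x| ≤ C * (1 + |T|) ^ m := by
  obtain ⟨C, hC, hb⟩ := DD_bound h hc n m
  refine ⟨C, hC, fun M hM T L x h0 hT => (hb M hM L x).trans ?_⟩
  have h5 : 1 + |L| ≤ 1 + |T| := by
    rw [abs_of_nonneg h0, abs_of_nonneg (h0.trans hT)]; linarith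
  calc C * (1 + |L|) ^ m * dcy L ≤ C * (1 + |L|) ^ m * 1 := by
        gcongr; exact dcy_le_one L
    _ = C * (1 + |L|) ^ m := mul_one _
    _ ≤ _ := mul_le_mul_of_nonneg_left (pow_le_pow_left₀ (by positivity) h5 m) hC

lemma DD_disp {g : ℝ → ℝ} (h : Cut g) {c : CC} (hc : c ∈ gd) (n : ℕ) :
    ∃ C : ℝ, 0 ≤ C ∧ ∀ M : ℝ, 1 ≤ M → ∀ T x : ℝ, 1 ≤ T →
      |DD g n c M T x| ≤ C / √T := by
  obtain ⟨C, hC, hb⟩ := DD_bound h hc n 0
  refine ⟨C, hC, fun M hM T x hT => ?_⟩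
  have h1 := hb M hM T x
  rw [pow_zero, pow_zero, one_mul, mul_one] at h1
  calc |DD g n c M T x| ≤ C * dcy T := h1
    _ ≤ C * (1 / √T) := by
        gcongr; exact dcy_le T (by linarith)
    _ = _ := by ring

lemma weighted_integral {f : ℝ → ℝ} (hf : Continuous f) (m : ℕ) {C : ℝ}
    (h : ∀ x, (1 + |x|) ^ (m + 2) * |f x| ≤ C) :
    ∫ x, (1 + |x|) ^ m * |f x| ≤ C * Real.pi := by
  have hc : Continuous (fun x => (1 + |x|) ^ m * f x) :=
    ((continuous_const.add continuous_abs).pow m).mul hf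
  have h1 : ∀ x, |(1 + |x|) ^ m * f x| = (1 + |x|) ^ m * |f x| := fun x => by
    rw [abs_mul, abs_of_nonneg (by positivity)]
  have h2 := integral_abs_of_decay hc (C := C) (fun x => by
    rw [h1]
    calc (1 + |x|) ^ 2 * ((1 + |x|) ^ m * |f x|) = (1 + |x|) ^ (m + 2) * |f x| := by ring
      _ ≤ C := h x)
  simpa only [h1] using h2

lemma mass_bound {T : ℝ} (hT : 0 ≤ T) : ∃ M₀ : ℝ, 1 ≤ M₀ ∧ ∀ M, M₀ ≤ M →
    (∫ x, RR e0 0 x ^ 2) / 4 ≤ ∫ x, pa M 0 T x ^ 2 := by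
  obtain ⟨C, hC, hb⟩ := DD_main 8
  obtain ⟨D, hD, hd⟩ := RR_decay_loc e0_mem_gd 2 T
  obtain ⟨E, hE, he⟩ := RR_decay_loc e0_mem_gd 1 T
  set K : ℝ := C * (1 + |T|) ^ 1 + D with hK
  have hK0 : 0 ≤ K := by positivity
  have hm := mass_pos
  set m : ℝ := ∫ x, RR e0 0 x ^ 2 with hmdef
  refine ⟨max 1 (4 * (K ^ 2 * Real.pi) / m), le_max_left _ _, fun M hM => ?_⟩
  have hM1 : 1 ≤ M := (le_max_left _ _).trans hM
  have hM2 : 4 * (K ^ 2 * Real.pi) / m ≤ M := (le_max_right _ _).trans hM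
  have hM0 : 0 < M := by linarith
  have hTa : |T| ≤ T := by rw [abs_of_nonneg hT]
  -- the difference
  have hdiff : ∀ x, (1 + |x|) ^ 1 * |pa M 0 T x - RR e0 T x| ≤ M⁻¹ * K := by
    intro x
    have h1 := hb M hM1 T x
    have h2 : (1 + |x|) ^ 1 * |chi (M⁻¹ * x) * RR e0 T x - RR e0 T x| ≤ M⁻¹ * D := by
      have e : chi (M⁻¹ * x) * RR e0 T x - RR e0 T x = (chi (M⁻¹ * x) - 1) * RR e0 T x := by ring
      rw [e, abs_mul]
      have h3 : |chi (M⁻¹ * x) - 1| ≤ M⁻¹ * (1 + |x|) := by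
        refine (abs_chi_sub_one _).trans ?_
        rw [abs_mul, abs_of_pos (inv_pos.2 hM0)]
        have : 0 < M⁻¹ := inv_pos.2 hM0
        nlinarith [abs_nonneg x]
      calc (1 + |x|) ^ 1 * (|chi (M⁻¹ * x) - 1| * |RR e0 T x|)
          ≤ (1 + |x|) ^ 1 * ((M⁻¹ * (1 + |x|)) * |RR e0 T x|) := by gcongr
        _ = M⁻¹ * ((1 + |x|) ^ 2 * |RR e0 T x|) := by ring
        _ ≤ M⁻¹ * D := by
          gcongr; exact hd T hTa x
    have e : pa M 0 T x - RR e0 T x = (DD chi 8 (eL 8) M T x - chi (M⁻¹ * x) * RR e0 T x) +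
        (chi (M⁻¹ * x) * RR e0 T x - RR e0 T x) := by
      rw [pa]; ring
    rw [e]
    calc (1 + |x|) ^ 1 * |(DD chi 8 (eL 8) M T x - chi (M⁻¹ * x) * RR e0 T x) +
        (chi (M⁻¹ * x) * RR e0 T x - RR e0 T x)|
        ≤ (1 + |x|) ^ 1 * (|DD chi 8 (eL 8) M T x - chi (M⁻¹ * x) * RR e0 T x| +
        |chi (M⁻¹ * x) * RR e0 T x - RR e0 T x|) := by
          gcongr; exact abs_add_le _ _
      _ = (1 + |x|) ^ 1 * |DD chi 8 (eL 8) M T x - chi (M⁻¹ * x) * RR e0 T x| +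
        (1 + |x|) ^ 1 * |chi (M⁻¹ * x) * RR e0 T x - RR e0 T x| := by ring
      _ ≤ M⁻¹ * (C * (1 + |T|) ^ 1) + M⁻¹ * D := add_le_add h1 h2
      _ = M⁻¹ * K := by rw [hK]; ring
  have hcp : Continuous (fun x => pa M 0 T x) := continuous_DD cut_chi 8 (eL 8) M T
  have hcr : Continuous (fun x => RR e0 T x) := continuous_RR_x e0 T
  have hMK : 0 ≤ M⁻¹ * K := by positivity
  have i1 : Integrable (fun x => (pa M 0 T x - RR e0 T x) * (pa M 0 T x - RR e0 T x)) :=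
    integrable_of_decay ((hcp.sub hcr).mul (hcp.sub hcr)) (prod_decay hMK hdiff hdiff)
  have i2 : Integrable (fun x => RR e0 T x * RR e0 T x) :=
    integrable_of_decay (hcr.mul hcr) (prod_decay hE (he T hTa) (he T hTa))
  have hpe : ∀ x, (1 + |x|) ^ 1 * |pa M 0 T x| ≤ M⁻¹ * K + E := by
    intro x
    have e : pa M 0 T x = (pa M 0 T x - RR e0 T x) + RR e0 T x := by ring
    rw [e]
    calc (1 + |x|) ^ 1 * |(pa M 0 T x - RR e0 T x) + RR e0 T x|
        ≤ (1 + |x|) ^ 1 * (|pa M 0 T x - RR e0 T x| + |RR e0 T x|) := by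
          gcongr; exact abs_add_le _ _
      _ = (1 + |x|) ^ 1 * |pa M 0 T x - RR e0 T x| + (1 + |x|) ^ 1 * |RR e0 T x| := by ring
      _ ≤ _ := add_le_add (hdiff x) (he T hTa x)
  have i3 : Integrable (fun x => pa M 0 T x * pa M 0 T x) :=
    integrable_of_decay (hcp.mul hcp) (prod_decay (by positivity) hpe hpe)
  have b1 : ∫ x, (pa M 0 T x - RR e0 T x) * (pa M 0 T x - RR e0 T x) ≤
      (M⁻¹ * K) * (M⁻¹ * K) * Real.pi := by
    have := integral_abs_of_decay ((hcp.sub hcr).mul (hcp.sub hcr)) (prod_decay hMK hdiff hdiff)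
    refine le_trans (le_of_eq ?_) this
    refine integral_congr_ae (Eventually.of_forall fun x => ?_)
    change (pa M 0 T x - RR e0 T x) * (pa M 0 T x - RR e0 T x) =
      |(pa M 0 T x - RR e0 T x) * (pa M 0 T x - RR e0 T x)|
    rw [abs_mul_self]
  have b2 : m / 2 - ∫ x, (pa M 0 T x - RR e0 T x) * (pa M 0 T x - RR e0 T x) ≤
      ∫ x, pa M 0 T x * pa M 0 T x := by
    have h1 : m / 2 = ∫ x, (1 / 2) * (RR e0 T x * RR e0 T x) := by
      rw [integral_const_mul]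
      have h3 := mass_const T
      rw [← hmdef] at h3
      rw [← h3]
      have h4 : ∫ x, RR e0 T x ^ 2 = ∫ x, RR e0 T x * RR e0 T x := by
        simp only [pow_two]
      rw [h4]
      ring
    rw [h1, ← integral_sub (i2.const_mul _) i1]
    refine integral_mono ((i2.const_mul _).sub i1) i3 fun x => ?_
    simp only
    nlinarith [sq_nonneg (2 * (pa M 0 T x - RR e0 T x) + RR e0 T x)]
  have b3 : (M⁻¹ * K) * (M⁻¹ * K) * Real.pi ≤ m / 4 := by
    have h1 : 4 * (K ^ 2 * Real.pi) ≤ M * m := by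
      rwa [div_le_iff₀ hm] at hM2
    have h2 : M⁻¹ * M⁻¹ ≤ M⁻¹ := by
      have : M⁻¹ ≤ 1 := inv_le_one_of_one_le₀ hM1
      have h0 : 0 < M⁻¹ := inv_pos.2 hM0
      nlinarith
    have hp := Real.pi_pos
    calc (M⁻¹ * K) * (M⁻¹ * K) * Real.pi = (M⁻¹ * M⁻¹) * (K ^ 2 * Real.pi) := by ring
      _ ≤ M⁻¹ * (K ^ 2 * Real.pi) := by gcongr
      _ ≤ M⁻¹ * (M * m / 4) := by gcongr; linarith
      _ = m / 4 := by field_simp
  have e : ∫ x, pa M 0 T x ^ 2 = ∫ x, pa M 0 T x * pa M 0 T x := by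
    simp only [pow_two]
  rw [e]
  linarith

end Pool.Agent.YUR.Pkt

namespace Pool.Agent.YUR

open Pkt

/-- block P: the packet -/
theorem exists_packet : ∃ (B κ : ℝ) (S : ℝ → ℝ), 0 < B ∧ 0 < κ ∧ (∀ x, 0 ≤ S x) ∧
    ∀ Λs τ : ℝ, 1 ≤ Λs → 0 < τ → ∃ (N : ℝ) (a : ℕ → ℝ → ℝ → ℝ) (e : ℝ → ℝ → ℝ), 1 ≤ N ∧
      Packet B κ (S Λs) Λs τ N a e := by
  choose C hC0 hC using fun j : ℕ => DD_bound_le cut_chi (eL_mem_gd 8) (8 - j) 7
  obtain ⟨E, hE0, hE⟩ := DD_bound_le cut_chi.deriv (eL_mem_gd 9) 7 4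
  obtain ⟨G, hG0, hG⟩ := DD_bound_le cut_chi (eL_mem_gd 8) 8 4
  obtain ⟨B0, hB00, hB0⟩ := DD_disp cut_chi (eL_mem_gd 8) 8
  obtain ⟨B1, hB10, hB1⟩ := DD_disp cut_chi (eL_mem_gd 8) 9
  obtain ⟨B2, hB20, hB2⟩ := DD_disp cut_chi (eL_mem_gd 8) 10
  have hpi := Real.pi_pos
  refine ⟨G * Real.pi + B0 + B1 + B2 + 1, (∫ x, RR e0 0 x ^ 2) / 4,
    fun Λs => (∑ j ∈ Finset.range 9, C j) * (1 + |Λs|) ^ 7 * Real.pi, by positivity,
    by have := mass_pos; positivity,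
    fun x => by
      have : 0 ≤ ∑ j ∈ Finset.range 9, C j := Finset.sum_nonneg fun j _ => hC0 j
      positivity, ?_⟩
  intro Λs τ hΛs hτ
  obtain ⟨M₀, hM₀, hmass⟩ := mass_bound (T := Λs) (by linarith)
  set M : ℝ := max M₀ (E * (1 + |Λs|) ^ 4 * Real.pi / τ) with hMdef
  have hM1 : 1 ≤ M := hM₀.trans (le_max_left _ _)
  have hM0 : 0 < M := by linarith
  have hM2 : E * (1 + |Λs|) ^ 4 * Real.pi / τ ≤ M := le_max_right _ _
  have hsq : 0 < √Λs := Real.sqrt_pos.2 (by linarith)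
  refine ⟨3 * M, pa M, pe M, by linarith, ?_⟩
  constructor
  · intro j
    exact contDiff_DD cut_chi (8 - j) (eL 8) M
  · exact contDiff_const.mul (contDiff_DD cut_chi.deriv 7 (eL 9) M)
  · intro j L x hx
    exact DD_supp cut_chi (8 - j) (eL 8) hM0 L hx
  · intro L x hx
    rw [pe, DD_supp cut_chi.deriv 7 (eL 9) hM0 L hx, mul_zero]
  · exact pa_chain M
  · exact pa_time M
  · exact fun i hi L => pe_van hM0 i hi L
  · intro j hj L h0 hL
    have h1 := weighted_integral (continuous_DD cut_chi (8 - j) (eL 8) M L) 5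
      (C := C j * (1 + |Λs|) ^ 7) (fun x => hC j M hM1 Λs L x h0 hL)
    refine h1.trans ?_
    have h2 : C j ≤ ∑ j ∈ Finset.range 9, C j :=
      Finset.single_le_sum (fun j _ => hC0 j) (Finset.mem_range.2 (by omega))
    exact mul_le_mul_of_nonneg_right (mul_le_mul_of_nonneg_right h2 (by positivity)) hpi.le
  · intro L h0 hL
    have h1 := weighted_integral (f := fun x => pe M L x)
      ((continuous_DD cut_chi.deriv 7 (eL 9) M L).const_mul M⁻¹ |> fun h => h) 2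
      (C := M⁻¹ * (E * (1 + |Λs|) ^ 4)) (fun x => by
        have h2 := hE M hM1 Λs L x h0 hL
        rw [pe, abs_mul, abs_of_pos (inv_pos.2 hM0)]
        calc (1 + |x|) ^ (2 + 2) * (M⁻¹ * |DD (deriv chi) 7 (eL 9) M L x|)
            = M⁻¹ * ((1 + |x|) ^ 4 * |DD (deriv chi) 7 (eL 9) M L x|) := by ring
          _ ≤ _ := by gcongr)
    refine h1.trans ?_
    rw [div_le_iff₀ hτ] at hM2
    calc M⁻¹ * (E * (1 + |Λs|) ^ 4) * Real.pi = M⁻¹ * (E * (1 + |Λs|) ^ 4 * Real.pi) := by ring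
      _ ≤ M⁻¹ * (M * τ) := by gcongr
      _ = τ := by field_simp
  · have h1 := weighted_integral (continuous_DD cut_chi 8 (eL 8) M 0) 2
      (C := G) (fun x => by
        have := hG M hM1 0 0 x le_rfl le_rfl
        simpa using this)
    refine h1.trans ?_
    linarith
  · intro x
    refine (hB0 M hM1 Λs x hΛs).trans ?_
    gcongr
    nlinarith [mul_nonneg hG0 hpi.le]
  · intro x
    rw [deriv_pa_zero]
    refine (hB1 M hM1 Λs x hΛs).trans ?_
    gcongr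
    nlinarith [mul_nonneg hG0 hpi.le]
  · intro x
    rw [deriv_deriv_pa_zero]
    refine (hB2 M hM1 Λs x hΛs).trans ?_
    gcongr
    nlinarith [mul_nonneg hG0 hpi.le]
  · exact hmass M (le_max_left _ _)

end Pool.Agent.YUR
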