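import Pool.Agent.YUR.Defs

open MeasureTheory Set Filter Topology
open scoped ContDiff

namespace Pool.Agent.YUR

open Pool.Agent.YUD Pool.Agent.YUT Pool.Agent.YUB

theorem Q1_hcub (k : Fin 4 → ℝ) (z : ℂ) : HasFDerivAt (𝕜 := ℝ) (cub k)
    ((3 * k 0 * z.re ^ 2 + 2 * k 1 * (z.re * z.im) + k 2 * z.im ^ 2) • Complex.reCLM +
      (k 1 * z.re ^ 2 + 2 * k 2 * (z.re * z.im) + 3 * k 3 * z.im ^ 2) • Complex.imCLM) z := by
  have h1 : HasFDerivAt (𝕜 := ℝ) (fun z : ℂ => z.re) Complex.reCLM z := Complex.reCLM.hasFDerivAt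
  have h2 : HasFDerivAt (𝕜 := ℝ) (fun z : ℂ => z.im) Complex.imCLM z := Complex.imCLM.hasFDerivAt
  have h3 := ((((h1.pow 3).const_mul (k 0)).add (((h1.pow 2).mul h2).const_mul (k 1))).add
    ((h1.mul (h2.pow 2)).const_mul (k 2))).add ((h2.pow 3).const_mul (k 3))
  refine HasFDerivAt.congr_fderiv h3 ?_
  ext <;> simp <;> ring

theorem Q1_dcub (k : Fin 4 → ℝ) (z h : ℂ) : fderiv ℝ (cub k) z h =
    (3 * k 0 * z.re ^ 2 + 2 * k 1 * (z.re * z.im) + k 2 * z.im ^ 2) * h.re +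
      (k 1 * z.re ^ 2 + 2 * k 2 * (z.re * z.im) + 3 * k 3 * z.im ^ 2) * h.im := by
  rw [(Q1_hcub k z).fderiv]
  rfl

theorem Q1_dzet {α r : ℝ} {k : Fin 4 → ℝ} {s : ℂ → ℝ} {z : ℂ} (hs : DifferentiableAt ℝ s z)
    (h : ℂ) : fderiv ℝ (zet α r k s) z h =
      r * fderiv ℝ (cub k) z h + r ^ (1 + α) * fderiv ℝ s z h := by
  have h1 : HasFDerivAt (𝕜 := ℝ) (zet α r k s)
      (r • fderiv ℝ (cub k) z + r ^ (1 + α) • fderiv ℝ s z) z := by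
    have h2 := (Q1_hcub k z).differentiableAt.hasFDerivAt
    exact (h2.const_mul r).add (hs.hasFDerivAt.const_mul (r ^ (1 + α)))
  rw [h1.fderiv]
  rfl

theorem Q1_facts {α C R r β g : ℝ} {w : ℂ → ℝ} {k : ℝ → Fin 4 → ℝ}
    {γ μ ν : ℝ → ℝ} {s η : ℝ → ℂ → ℝ} {Y : ℝ → ℂ → ℂ} (h : Pic α C R r β g w k γ μ ν s η Y)
    {y : ℂ} (hy : ‖y‖ < R / C) {t : ℝ} (ht : 0 ≤ t) :
    Y t y ∈ Metric.ball (0 : ℂ) R ∧
    HasDerivWithinAt (fun t => (Y t y).re) (-(r * (k t 1 * (Y t y).re ^ 2 +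
      2 * k t 2 * ((Y t y).re * (Y t y).im) + 3 * k t 3 * (Y t y).im ^ 2) +
        r ^ (1 + α) * dy (s t) (Y t y))) (Ici 0) t ∧
    HasDerivWithinAt (fun t => (Y t y).im) (r * (3 * k t 0 * (Y t y).re ^ 2 +
      2 * k t 1 * ((Y t y).re * (Y t y).im) + k t 2 * (Y t y).im ^ 2) +
        r ^ (1 + α) * dx (s t) (Y t y)) (Ici 0) t ∧
    |dx (s t) (Y t y)| ≤ C * ‖Y t y‖ ^ (2 + α) ∧ |dy (s t) (Y t y)| ≤ C * ‖Y t y‖ ^ (2 + α) := by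
  have hC : 0 < C := lt_of_lt_of_le one_pos h.one_le
  have hY := h.Y_le t ht y hy
  have hYR : Y t y ∈ Metric.ball (0 : ℂ) R := by
    rw [Metric.mem_ball, dist_zero_right]
    refine hY.trans_lt ?_
    rw [lt_div_iff₀ hC] at hy
    linarith
  have hs : DifferentiableAt ℝ (s t) (Y t y) :=
    ((h.slc t).s_c2.differentiableOn two_ne_zero).differentiableAt
      (Metric.isOpen_ball.mem_nhds hYR)
  have hode := h.ode t ht y hy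
  have hb := (h.slc t).ds_le _ hYR
  refine ⟨hYR, ?_, ?_, ?_, ?_⟩
  · have h1 := Complex.reCLM.hasFDerivAt.comp_hasDerivWithinAt t hode
    refine HasDerivWithinAt.congr_deriv h1 ?_
    change -dy (zet α r (k t) (s t)) (Y t y) = _
    unfold dy
    rw [Q1_dzet hs, Q1_dcub]
    simp
  · have h1 := Complex.imCLM.hasFDerivAt.comp_hasDerivWithinAt t hode
    refine HasDerivWithinAt.congr_deriv h1 ?_
    change dx (zet α r (k t) (s t)) (Y t y) = _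
    unfold dx
    rw [Q1_dzet hs, Q1_dcub]
    simp
  · unfold dx
    have h1 := (fderiv ℝ (s t) (Y t y)).le_opNorm 1
    rw [norm_one, mul_one, Real.norm_eq_abs] at h1
    exact h1.trans hb
  · unfold dy
    have h1 := (fderiv ℝ (s t) (Y t y)).le_opNorm Complex.I
    rw [Complex.norm_I, mul_one, Real.norm_eq_abs] at h1
    exact h1.trans hb

theorem Q1_prim {k : ℝ → Fin 4 → ℝ} (hk : Continuous k) (i : Fin 4) (t : ℝ) :
    HasDerivAt (fun t => ∫ τ in (0 : ℝ)..t, k τ i) (k t i) t := by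
  have h1 : Continuous fun τ => k τ i := (continuous_apply i).comp hk
  exact intervalIntegral.integral_hasDerivAt_right (h1.intervalIntegrable _ _)
    (h1.stronglyMeasurableAtFilter _ _) h1.continuousAt

theorem Q1_mul4 {a b c A B D : ℝ} (ha : |a| ≤ A) (hb : |b| ≤ B) (hc : |c| ≤ D) :
    |a * b * c| ≤ A * B * D := by
  rw [abs_mul, abs_mul]
  have hA : 0 ≤ A := (abs_nonneg _).trans ha
  have hB : 0 ≤ B := (abs_nonneg _).trans hb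
  exact mul_le_mul (mul_le_mul ha hb (abs_nonneg _) hA) hc (abs_nonneg _) (mul_nonneg hA hB)

theorem Q1_path {x y x' e k0 k1 k2 q0 q1 q2 : ℝ → ℝ} {T r m ρ F E : ℝ} (hT : 0 ≤ T)
    (hx : ∀ t ∈ Icc 0 T, HasDerivWithinAt x (x' t) (Icc 0 T) t)
    (hy : ∀ t ∈ Icc 0 T, HasDerivWithinAt y (r * (3 * k0 t * x t ^ 2 + 2 * k1 t * (x t * y t) +
      k2 t * y t ^ 2) + e t) (Icc 0 T) t)
    (hq0 : ∀ t, HasDerivAt q0 (k0 t) t) (hq1 : ∀ t, HasDerivAt q1 (k1 t) t)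
    (hq2 : ∀ t, HasDerivAt q2 (k2 t) t) (z0 : q0 0 = 0) (z1 : q1 0 = 0) (z2 : q2 0 = 0)
    (bx : ∀ t ∈ Icc 0 T, |x t| ≤ ρ) (by_ : ∀ t ∈ Icc 0 T, |y t| ≤ ρ)
    (bx' : ∀ t ∈ Icc 0 T, |x' t| ≤ F)
    (by' : ∀ t ∈ Icc 0 T, |r * (3 * k0 t * x t ^ 2 + 2 * k1 t * (x t * y t) +
      k2 t * y t ^ 2) + e t| ≤ F)
    (be : ∀ t ∈ Icc 0 T, |e t| ≤ E)
    (b0 : ∀ t ∈ Icc 0 T, |r * q0 t| ≤ m) (b1 : ∀ t ∈ Icc 0 T, |r * q1 t| ≤ m)
    (b2 : ∀ t ∈ Icc 0 T, |r * q2 t| ≤ m) :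
    |r * (3 * q0 T * x T ^ 2 + 2 * q1 T * (x T * y T) + q2 T * y T ^ 2) - (y T - y 0)| ≤
      (12 * (m * ρ * F) + E) * T := by
  obtain ⟨y', hy'⟩ : ∃ y' : ℝ → ℝ, y' = fun t => r * (3 * k0 t * x t ^ 2 +
    2 * k1 t * (x t * y t) + k2 t * y t ^ 2) + e t := ⟨_, rfl⟩
  have hder : ∀ t ∈ Icc 0 T, HasDerivWithinAt (fun t => r * (3 * q0 t * x t ^ 2 +
      2 * q1 t * (x t * y t) + q2 t * y t ^ 2) - y t)
      (6 * (r * q0 t * x t * x' t) + 2 * (r * q1 t * y t * x' t) + 2 * (r * q1 t * x t * y' t) +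
        2 * (r * q2 t * y t * y' t) - e t) (Icc 0 T) t := by
    intro t ht
    have a0 := ((hq0 t).hasDerivWithinAt (s := Icc 0 T)).const_mul 3
    have a1 := ((hq1 t).hasDerivWithinAt (s := Icc 0 T)).const_mul 2
    have a2 := (hq2 t).hasDerivWithinAt (s := Icc 0 T)
    have ax := hx t ht
    have ay := hy t ht
    have a3 := (((a0.mul (ax.pow 2)).add (a1.mul (ax.mul ay))).add
      (a2.mul (ay.pow 2))).const_mul r |>.sub ay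
    refine HasDerivWithinAt.congr_deriv a3 ?_
    simp only [hy', Pi.pow_apply, Pi.mul_apply]
    push_cast
    ring
  have hbd : ∀ t ∈ Icc 0 T, ‖6 * (r * q0 t * x t * x' t) + 2 * (r * q1 t * y t * x' t) +
      2 * (r * q1 t * x t * y' t) + 2 * (r * q2 t * y t * y' t) - e t‖ ≤
        12 * (m * ρ * F) + E := by
    intro t ht
    have hyt : |y' t| ≤ F := by rw [hy']; exact by' t ht
    have c1 := Q1_mul4 (b0 t ht) (bx t ht) (bx' t ht)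
    have c2 := Q1_mul4 (b1 t ht) (by_ t ht) (bx' t ht)
    have c3 := Q1_mul4 (b1 t ht) (bx t ht) hyt
    have c4 := Q1_mul4 (b2 t ht) (by_ t ht) hyt
    have c5 := be t ht
    rw [Real.norm_eq_abs]
    rw [abs_le] at c1 c2 c3 c4 c5 ⊢
    constructor <;> linarith [c1.1, c1.2, c2.1, c2.2, c3.1, c3.2, c4.1, c4.2, c5.1, c5.2]
  have h1 := Convex.norm_image_sub_le_of_norm_hasDerivWithin_le hder hbd (convex_Icc 0 T)
    (left_mem_Icc.2 hT) (right_mem_Icc.2 hT)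
  beta_reduce at h1
  rw [z0, z1, z2, Real.norm_eq_abs, Real.norm_eq_abs, sub_zero, abs_of_nonneg hT] at h1
  refine le_trans (le_of_eq ?_) h1
  congr 1
  ring


/-- bounds along a trajectory of a label close to the origin -/
theorem Q1_near {α C R r β g : ℝ} {w : ℂ → ℝ} {k : ℝ → Fin 4 → ℝ}
    {γ μ ν : ℝ → ℝ} {s η : ℝ → ℂ → ℝ} {Y : ℝ → ℂ → ℂ} (hα : 0 < α)
    (h : Pic α C R r β g w k γ μ ν s η Y)
    {y : ℂ} {ρ : ℝ} (hy : ‖y‖ < R / C) (hyρ : C * ‖y‖ ≤ ρ) (hρ1 : ρ ≤ 1) {t : ℝ} (ht : 0 ≤ t) :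
    |(Y t y).re| ≤ ρ ∧ |(Y t y).im| ≤ ρ ∧
    |-(r * (k t 1 * (Y t y).re ^ 2 +
      2 * k t 2 * ((Y t y).re * (Y t y).im) + 3 * k t 3 * (Y t y).im ^ 2) +
        r ^ (1 + α) * dy (s t) (Y t y))| ≤ 7 * C * r * ρ ^ 2 ∧
    |r * (3 * k t 0 * (Y t y).re ^ 2 +
      2 * k t 1 * ((Y t y).re * (Y t y).im) + k t 2 * (Y t y).im ^ 2) +
        r ^ (1 + α) * dx (s t) (Y t y)| ≤ 7 * C * r * ρ ^ 2 ∧
    |r ^ (1 + α) * dx (s t) (Y t y)| ≤ C * (r * r ^ α) ∧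
    |(Y t y).im - y.im| ≤ 2 * C / β * r ^ α := by
  have hC : 0 < C := lt_of_lt_of_le one_pos h.one_le
  obtain ⟨hball, -, -, hdx, hdy⟩ := Q1_facts h hy ht
  have hY := (h.Y_le t ht y hy).trans hyρ
  have hρ0 : 0 ≤ ρ := (norm_nonneg _).trans hY
  have hr := h.r_pos
  have hre : |(Y t y).re| ≤ ρ := (Complex.abs_re_le_norm _).trans hY
  have him : |(Y t y).im| ≤ ρ := (Complex.abs_im_le_norm _).trans hY
  have hk := (h.slc t).k_le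
  have hp : ‖Y t y‖ ^ (2 + α) ≤ ρ ^ 2 := by
    have h1 : ‖Y t y‖ ^ (2 + α) ≤ ‖Y t y‖ ^ (2 : ℝ) :=
      Real.rpow_le_rpow_of_exponent_ge_of_imp (norm_nonneg _) (hY.trans hρ1) (by linarith)
        (fun _ h2 => absurd h2 (by linarith))
    refine h1.trans ?_
    have h2 : ‖Y t y‖ ^ (2 : ℝ) = ‖Y t y‖ ^ 2 := by exact_mod_cast Real.rpow_natCast _ 2
    rw [h2]
    exact pow_le_pow_left₀ (norm_nonneg _) hY 2
  have hp1 : ρ ^ 2 ≤ 1 := pow_le_one₀ hρ0 hρ1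
  have hrα : r ^ (1 + α) = r * r ^ α := by rw [Real.rpow_add hr, Real.rpow_one]
  have hrα0 : 0 ≤ r ^ α := Real.rpow_nonneg hr.le _
  have hrα1 : r ^ α ≤ 1 := Real.rpow_le_one hr.le h.r_le hα.le
  have hdx1 : |dx (s t) (Y t y)| ≤ C * ρ ^ 2 := hdx.trans (mul_le_mul_of_nonneg_left hp hC.le)
  have hdy1 : |dy (s t) (Y t y)| ≤ C * ρ ^ 2 := hdy.trans (mul_le_mul_of_nonneg_left hp hC.le)
  have hterm : ∀ d : ℝ, |d| ≤ C * ρ ^ 2 → |r ^ (1 + α) * d| ≤ C * r * ρ ^ 2 := by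
    intro d hd
    rw [abs_mul, hrα, abs_of_nonneg (mul_nonneg hr.le hrα0)]
    calc r * r ^ α * |d| ≤ r * 1 * (C * ρ ^ 2) := by
          apply mul_le_mul _ hd (abs_nonneg _) (by positivity)
          exact mul_le_mul_of_nonneg_left hrα1 hr.le
      _ = _ := by ring
  have hm : ∀ (c x y : ℝ), |c| ≤ C → |x| ≤ ρ → |y| ≤ ρ → |c * x * y| ≤ C * ρ ^ 2 := by
    intro c x y hc hx hy
    refine (Q1_mul4 hc hx hy).trans (le_of_eq ?_)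
    ring
  refine ⟨hre, him, ?_, ?_, ?_, ?_⟩
  · have c1 := hm _ _ _ (hk 1) hre hre
    have c2 := hm _ _ _ (hk 2) hre him
    have c3 := hm _ _ _ (hk 3) him him
    have c4 := hterm _ hdy1
    have c5 : |k t 1 * (Y t y).re ^ 2 + 2 * k t 2 * ((Y t y).re * (Y t y).im) +
        3 * k t 3 * (Y t y).im ^ 2| ≤ 6 * (C * ρ ^ 2) := by
      rw [abs_le] at c1 c2 c3 ⊢
      constructor <;> nlinarith [c1.1, c1.2, c2.1, c2.2, c3.1, c3.2]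
    rw [abs_neg]
    refine (abs_add_le _ _).trans ?_
    rw [abs_mul, abs_of_pos hr]
    have c6 := mul_le_mul_of_nonneg_left c5 hr.le
    linarith
  · have c1 := hm _ _ _ (hk 0) hre hre
    have c2 := hm _ _ _ (hk 1) hre him
    have c3 := hm _ _ _ (hk 2) him him
    have c4 := hterm _ hdx1
    have c5 : |3 * k t 0 * (Y t y).re ^ 2 + 2 * k t 1 * ((Y t y).re * (Y t y).im) +
        k t 2 * (Y t y).im ^ 2| ≤ 6 * (C * ρ ^ 2) := by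
      rw [abs_le] at c1 c2 c3 ⊢
      constructor <;> nlinarith [c1.1, c1.2, c2.1, c2.2, c3.1, c3.2]
    refine (abs_add_le _ _).trans ?_
    rw [abs_mul, abs_of_pos hr]
    have c6 := mul_le_mul_of_nonneg_left c5 hr.le
    linarith
  · rw [abs_mul, hrα, abs_of_nonneg (mul_nonneg hr.le hrα0)]
    calc r * r ^ α * |dx (s t) (Y t y)| ≤ r * r ^ α * (C * 1) := by
          apply mul_le_mul_of_nonneg_left _ (by positivity)
          exact hdx1.trans (mul_le_mul_of_nonneg_left hp1 hC.le)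
      _ = _ := by ring
  · have hβ := h.β_pos
    have hv := h.vort t ht y hy
    have hball0 : y ∈ Metric.ball (0 : ℂ) R := by
      rw [Metric.mem_ball, dist_zero_right]
      have h1 : ‖y‖ * C < R := (lt_div_iff₀ hC).1 hy
      have h2 : ‖y‖ * 1 ≤ ‖y‖ * C := mul_le_mul_of_nonneg_left h.one_le (norm_nonneg _)
      linarith
    have hy1 : ‖y‖ ≤ 1 := by
      have h2 : 1 * ‖y‖ ≤ C * ‖y‖ := mul_le_mul_of_nonneg_right h.one_le (norm_nonneg _)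
      linarith
    have e1 : |η t (Y t y)| ≤ C := by
      refine ((h.slc t).η_le _ hball).trans ?_
      have h1 : ‖Y t y‖ ^ (1 + α) ≤ 1 :=
        Real.rpow_le_one (norm_nonneg _) (hY.trans hρ1) (by linarith)
      calc C * ‖Y t y‖ ^ (1 + α) ≤ C * 1 := mul_le_mul_of_nonneg_left h1 hC.le
        _ = C := mul_one C
    have e2 : |η 0 y| ≤ C := by
      refine ((h.slc 0).η_le _ hball0).trans ?_
      have h1 : ‖y‖ ^ (1 + α) ≤ 1 := Real.rpow_le_one (norm_nonneg _) hy1 (by linarith)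
      calc C * ‖y‖ ^ (1 + α) ≤ C * 1 := mul_le_mul_of_nonneg_left h1 hC.le
        _ = C := mul_one C
    have e3 : β * ((Y t y).im - y.im) = r ^ α * (η 0 y - η t (Y t y)) := by linarith
    have e4 : β * |(Y t y).im - y.im| ≤ r ^ α * (2 * C) := by
      have e5 : β * |(Y t y).im - y.im| = |β * ((Y t y).im - y.im)| := by
        rw [abs_mul, abs_of_pos hβ]
      rw [e5, e3, abs_mul, abs_of_nonneg hrα0]
      apply mul_le_mul_of_nonneg_left _ hrα0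
      rw [abs_le] at e1 e2 ⊢
      constructor <;> linarith [e1.1, e1.2, e2.1, e2.2]
    rw [div_mul_eq_mul_div, le_div_iff₀ hβ]
    linarith

/-- the displacement of a label close to the origin -/
theorem Q1_disp {α C R r β g : ℝ} {w : ℂ → ℝ} {k : ℝ → Fin 4 → ℝ}
    {γ μ ν : ℝ → ℝ} {s η : ℝ → ℂ → ℝ} {Y : ℝ → ℂ → ℂ} (hα : 0 < α)
    (h : Pic α C R r β g w k γ μ ν s η Y)
    {y : ℂ} {ρ : ℝ} (hy : ‖y‖ < R / C) (hyρ : C * ‖y‖ ≤ ρ) (hρ1 : ρ ≤ 1) {t : ℝ} (ht : 0 ≤ t) :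
    |(Y t y).re - y.re| ≤ 7 * C * r * ρ ^ 2 * t ∧ |(Y t y).im - y.im| ≤ 7 * C * r * ρ ^ 2 * t := by
  have hsub : Icc 0 t ⊆ Ici (0 : ℝ) := Icc_subset_Ici_self
  constructor
  · have h1 := Convex.norm_image_sub_le_of_norm_hasDerivWithin_le (s := Icc 0 t)
      (f := fun t => (Y t y).re)
      (fun τ hτ => (Q1_facts h hy hτ.1).2.1.mono hsub)
      (fun τ hτ => (Q1_near hα h hy hyρ hρ1 hτ.1).2.2.1) (convex_Icc 0 t)
      (left_mem_Icc.2 ht) (right_mem_Icc.2 ht)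
    beta_reduce at h1
    rw [h.start y hy, Real.norm_eq_abs, Real.norm_eq_abs, sub_zero, abs_of_nonneg ht] at h1
    exact h1
  · have h1 := Convex.norm_image_sub_le_of_norm_hasDerivWithin_le (s := Icc 0 t)
      (f := fun t => (Y t y).im)
      (fun τ hτ => (Q1_facts h hy hτ.1).2.2.1.mono hsub)
      (fun τ hτ => (Q1_near hα h hy hyρ hρ1 hτ.1).2.2.2.1) (convex_Icc 0 t)
      (left_mem_Icc.2 ht) (right_mem_Icc.2 ht)
    beta_reduce at h1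
    rw [h.start y hy, Real.norm_eq_abs, Real.norm_eq_abs, sub_zero, abs_of_nonneg ht] at h1
    exact h1

theorem Q1_alg {r q0 q1 q2 a b x y m ρ d : ℝ} (hd : 0 ≤ d) (hρ : 0 ≤ ρ) (ha : |a| ≤ ρ)
    (hb : |b| ≤ ρ)
    (hx : |x| ≤ ρ) (hy : |y| ≤ ρ) (h0 : |r * q0| ≤ m) (h1 : |r * q1| ≤ m) (h2 : |r * q2| ≤ m)
    (dx : |x - a| ≤ d) (dy : |y - b| ≤ d) :
    |r * (3 * q0 * a ^ 2 + 2 * q1 * (a * b) + q2 * b ^ 2) -
      r * (3 * q0 * x ^ 2 + 2 * q1 * (x * y) + q2 * y ^ 2)| ≤ 12 * (m * ρ * d) := by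
  have e1 := Q1_mul4 h0 hx dx
  have e2 := Q1_mul4 h0 ha dx
  have e3 := Q1_mul4 h1 hy dx
  have e4 := Q1_mul4 h1 ha dy
  have e5 := Q1_mul4 h2 hy dy
  have e6 := Q1_mul4 h2 hb dy
  have e7 : r * (3 * q0 * a ^ 2 + 2 * q1 * (a * b) + q2 * b ^ 2) -
      r * (3 * q0 * x ^ 2 + 2 * q1 * (x * y) + q2 * y ^ 2) =
      -(3 * (r * q0 * x * (x - a)) + 3 * (r * q0 * a * (x - a)) + 2 * (r * q1 * y * (x - a)) +
        2 * (r * q1 * a * (y - b)) + (r * q2 * y * (y - b)) + (r * q2 * b * (y - b))) := by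
    ring
  rw [e7, abs_neg]
  rw [abs_le] at e1 e2 e3 e4 e5 e6 ⊢
  constructor <;> linarith [e1.1, e1.2, e2.1, e2.2, e3.1, e3.2, e4.1, e4.2, e5.1, e5.2, e6.1, e6.2]

theorem Q1_label {α C R r β g : ℝ} {w : ℂ → ℝ} {k : ℝ → Fin 4 → ℝ}
    {γ μ ν : ℝ → ℝ} {s η : ℝ → ℂ → ℝ} {Y : ℝ → ℂ → ℂ} (hα : 0 < α)
    (h : Pic α C R r β g w k γ μ ν s η Y)
    {y : ℂ} {ρ : ℝ} (hy : ‖y‖ < R / C) (hyρ : C * ‖y‖ ≤ ρ) (hρ1 : ρ ≤ 1) {T T' m : ℝ}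
    (hT : 0 ≤ T) (hT' : r * T ≤ T')
    (b0 : ∀ t ∈ Icc 0 T, |r * ∫ τ in (0 : ℝ)..t, k τ 0| ≤ m)
    (b1 : ∀ t ∈ Icc 0 T, |r * ∫ τ in (0 : ℝ)..t, k τ 1| ≤ m)
    (b2 : ∀ t ∈ Icc 0 T, |r * ∫ τ in (0 : ℝ)..t, k τ 2| ≤ m) :
    |r * (3 * (∫ τ in (0 : ℝ)..T, k τ 0) * y.re ^ 2 +
      2 * (∫ τ in (0 : ℝ)..T, k τ 1) * (y.re * y.im) + (∫ τ in (0 : ℝ)..T, k τ 2) * y.im ^ 2)| ≤
      (2 * C / β + C * T') * r ^ α + 168 * C * T' * m * ρ ^ 3 := by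
  have hC : 0 < C := lt_of_lt_of_le one_pos h.one_le
  have hr := h.r_pos
  have hβ := h.β_pos
  have hρ0 : 0 ≤ ρ := (mul_nonneg hC.le (norm_nonneg _)).trans hyρ
  have hrα0 : 0 ≤ r ^ α := Real.rpow_nonneg hr.le _
  have hm0 : 0 ≤ m := (abs_nonneg _).trans (b0 T (right_mem_Icc.2 hT))
  have hT'0 : 0 ≤ T' := (mul_nonneg hr.le hT).trans hT'
  have hsub : Icc 0 T ⊆ Ici (0 : ℝ) := Icc_subset_Ici_self
  have hyn : ‖y‖ ≤ ρ := by
    have h2 : 1 * ‖y‖ ≤ C * ‖y‖ := mul_le_mul_of_nonneg_right h.one_le (norm_nonneg _)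
    linarith
  have h1 := Q1_path (x := fun t => (Y t y).re) (y := fun t => (Y t y).im)
    (x' := fun t => -(r * (k t 1 * (Y t y).re ^ 2 +
      2 * k t 2 * ((Y t y).re * (Y t y).im) + 3 * k t 3 * (Y t y).im ^ 2) +
        r ^ (1 + α) * dy (s t) (Y t y)))
    (e := fun t => r ^ (1 + α) * dx (s t) (Y t y)) (k0 := fun t => k t 0) (k1 := fun t => k t 1)
    (k2 := fun t => k t 2) (q0 := fun t => ∫ τ in (0 : ℝ)..t, k τ 0)
    (q1 := fun t => ∫ τ in (0 : ℝ)..t, k τ 1) (q2 := fun t => ∫ τ in (0 : ℝ)..t, k τ 2)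
    (r := r) (m := m) (ρ := ρ) (F := 7 * C * r * ρ ^ 2) (E := C * (r * r ^ α)) hT
    (fun t ht => (Q1_facts h hy ht.1).2.1.mono hsub)
    (fun t ht => (Q1_facts h hy ht.1).2.2.1.mono hsub)
    (fun t => Q1_prim h.k_cont 0 t) (fun t => Q1_prim h.k_cont 1 t) (fun t => Q1_prim h.k_cont 2 t)
    intervalIntegral.integral_same intervalIntegral.integral_same intervalIntegral.integral_same
    (fun t ht => (Q1_near hα h hy hyρ hρ1 ht.1).1)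
    (fun t ht => (Q1_near hα h hy hyρ hρ1 ht.1).2.1)
    (fun t ht => (Q1_near hα h hy hyρ hρ1 ht.1).2.2.1)
    (fun t ht => (Q1_near hα h hy hyρ hρ1 ht.1).2.2.2.1)
    (fun t ht => (Q1_near hα h hy hyρ hρ1 ht.1).2.2.2.2.1) b0 b1 b2
  beta_reduce at h1
  rw [h.start y hy] at h1
  obtain ⟨n1, n2, -, -, -, n6⟩ := Q1_near hα h hy hyρ hρ1 hT
  obtain ⟨d1, d2⟩ := Q1_disp hα h hy hyρ hρ1 hT
  have hd : 7 * C * r * ρ ^ 2 * T ≤ 7 * C * ρ ^ 2 * T' := by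
    calc 7 * C * r * ρ ^ 2 * T = 7 * C * ρ ^ 2 * (r * T) := by ring
      _ ≤ _ := mul_le_mul_of_nonneg_left hT' (by positivity)
  have hTm := right_mem_Icc.2 hT
  have h2 := Q1_alg (d := 7 * C * ρ ^ 2 * T') (by positivity) hρ0
    ((Complex.abs_re_le_norm y).trans hyn)
    ((Complex.abs_im_le_norm y).trans hyn) n1 n2 (b0 T hTm) (b1 T hTm) (b2 T hTm)
    (d1.trans hd) (d2.trans hd)
  have h3 : (12 * (m * ρ * (7 * C * r * ρ ^ 2)) + C * (r * r ^ α)) * T ≤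
      84 * C * T' * m * ρ ^ 3 + C * T' * r ^ α := by
    calc (12 * (m * ρ * (7 * C * r * ρ ^ 2)) + C * (r * r ^ α)) * T =
        (84 * C * m * ρ ^ 3 + C * r ^ α) * (r * T) := by ring
      _ ≤ (84 * C * m * ρ ^ 3 + C * r ^ α) * T' :=
          mul_le_mul_of_nonneg_left hT' (by positivity)
      _ = _ := by ring
  have h4 : 12 * (m * ρ * (7 * C * ρ ^ 2 * T')) = 84 * C * T' * m * ρ ^ 3 := by ring
  rw [h4] at h2
  rw [abs_le] at h1 h2 n6 ⊢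
  constructor <;> linarith [h1.1, h1.2, h2.1, h2.2, n6.1, n6.2]

/-- [YUR-Q1] step 1 of Lemma Q (section 3 of the paper): the coefficients `k 0, k 1, k 2`. -/
theorem prim_one {α C β₀ T' : ℝ} (hα : 0 < α) (hα1 : α < 1) (hβ₀ : 0 < β₀) (hT : 0 < T') :
    ∃ R₀ r₁ D : ℝ, 0 < r₁ ∧ 0 ≤ D ∧ ∀ (R r β g : ℝ) (w : ℂ → ℝ) (k : ℝ → Fin 4 → ℝ)
      (γ μ ν : ℝ → ℝ) (s η : ℝ → ℂ → ℝ) (Y : ℝ → ℂ → ℂ), Pic α C R r β g w k γ μ ν s η Y →
        β₀ ≤ β → R₀ ≤ R → r ≤ r₁ → ∀ t, 0 ≤ t → r * t ≤ T' →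
          ∀ i : Fin 4, i ≠ 3 → |r * ∫ τ in (0 : ℝ)..t, k τ i| ≤ D * r ^ α := by
  by_cases hC1 : 1 ≤ C
  swap
  · exact ⟨1, 1, 0, one_pos, le_rfl, fun R r β g w k γ μ ν s η Y h => absurd h.one_le hC1⟩
  have hC : 0 < C := lt_of_lt_of_le one_pos hC1
  obtain ⟨D0, hD0⟩ : ∃ D0, D0 = 2 * C / β₀ + C * T' := ⟨_, rfl⟩
  obtain ⟨D1, hD1⟩ : ∃ D1, D1 = 168 * C * T' := ⟨_, rfl⟩
  have hD0' : 0 < D0 := by rw [hD0]; positivity
  have hD1' : 0 < D1 := by rw [hD1]; positivity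
  obtain ⟨ρ, hρ⟩ : ∃ ρ, ρ = 1 / (1 + 24 * C ^ 2 * D1) := ⟨_, rfl⟩
  have hρ0 : 0 < ρ := by rw [hρ]; positivity
  have hρ1 : ρ ≤ 1 := by
    rw [hρ, div_le_one (by positivity)]
    have : 0 ≤ 24 * C ^ 2 * D1 := by positivity
    linarith
  have hρD : 24 * C ^ 2 * D1 * ρ ≤ 1 := by
    rw [hρ, mul_one_div, div_le_one (by positivity)]
    linarith
  refine ⟨2, 1, 48 * C ^ 2 * D0 / ρ ^ 2, one_pos, by positivity, ?_⟩
  intro R r β g w k γ μ ν s η Y h hβ hR _ t ht hrt i hi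
  have hr := h.r_pos
  have hrα0 : 0 ≤ r ^ α := Real.rpow_nonneg hr.le _
  have hβ0 : 0 < β := h.β_pos
  -- the maximum
  have hqc : ∀ j : Fin 4, Continuous fun t => ∫ τ in (0 : ℝ)..t, k τ j := fun j =>
    continuous_iff_continuousAt.2 fun t => (Q1_prim h.k_cont j t).continuousAt
  obtain ⟨S, hS⟩ : ∃ S : ℝ → ℝ, S = fun t => |r * ∫ τ in (0 : ℝ)..t, k τ 0| +
    |r * ∫ τ in (0 : ℝ)..t, k τ 1| + |r * ∫ τ in (0 : ℝ)..t, k τ 2| := ⟨_, rfl⟩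
  have hSc : Continuous S := by
    rw [hS]
    exact (((continuous_const.mul (hqc 0)).abs.add (continuous_const.mul (hqc 1)).abs).add
      (continuous_const.mul (hqc 2)).abs)
  obtain ⟨T, hTm, hmax⟩ := isCompact_Icc.exists_isMaxOn (nonempty_Icc.2 ht) hSc.continuousOn
  have hmax' : ∀ τ ∈ Icc 0 t, S τ ≤ S T := fun τ hτ => hmax hτ
  obtain ⟨m, hm⟩ : ∃ m, m = S T := ⟨_, rfl⟩
  have hb : ∀ τ ∈ Icc 0 t, |r * ∫ τ in (0 : ℝ)..τ, k τ 0| ≤ m ∧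
      |r * ∫ τ in (0 : ℝ)..τ, k τ 1| ≤ m ∧ |r * ∫ τ in (0 : ℝ)..τ, k τ 2| ≤ m := by
    intro τ hτ
    have h1 := hmax' τ hτ
    rw [← hm, hS] at h1
    beta_reduce at h1
    have a0 := abs_nonneg (r * ∫ τ in (0 : ℝ)..τ, k τ 0)
    have a1 := abs_nonneg (r * ∫ τ in (0 : ℝ)..τ, k τ 1)
    have a2 := abs_nonneg (r * ∫ τ in (0 : ℝ)..τ, k τ 2)
    refine ⟨?_, ?_, ?_⟩ <;> linarith
  have hsub : Icc 0 T ⊆ Icc 0 t := Icc_subset_Icc_right hTm.2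
  have hrT : r * T ≤ T' := (mul_le_mul_of_nonneg_left hTm.2 hr.le).trans hrt
  obtain ⟨θ, hθ⟩ : ∃ θ, θ = ρ / (2 * C) := ⟨_, rfl⟩
  have hθ0 : 0 < θ := by rw [hθ]; positivity
  have hlab : ∀ y : ℂ, ‖y‖ ≤ 2 * θ → |r * (3 * (∫ τ in (0 : ℝ)..T, k τ 0) * y.re ^ 2 +
      2 * (∫ τ in (0 : ℝ)..T, k τ 1) * (y.re * y.im) + (∫ τ in (0 : ℝ)..T, k τ 2) * y.im ^ 2)| ≤
      D0 * r ^ α + D1 * m * ρ ^ 3 := by
    intro y hy
    have e1 : C * ‖y‖ ≤ ρ := by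
      calc C * ‖y‖ ≤ C * (2 * θ) := mul_le_mul_of_nonneg_left hy hC.le
        _ = ρ := by rw [hθ]; field_simp
    have e2 : ‖y‖ < R / C := by
      rw [lt_div_iff₀ hC]
      linarith
    refine (Q1_label hα h e2 e1 hρ1 hTm.1 hrT (fun τ hτ => (hb τ (hsub hτ)).1)
      (fun τ hτ => (hb τ (hsub hτ)).2.1) (fun τ hτ => (hb τ (hsub hτ)).2.2)).trans ?_
    have e3 : 2 * C / β ≤ 2 * C / β₀ := div_le_div_of_nonneg_left (by positivity) hβ₀ hβ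
    have e4 : (2 * C / β + C * T') * r ^ α ≤ D0 * r ^ α := by
      apply mul_le_mul_of_nonneg_right _ hrα0
      rw [hD0]
      linarith
    rw [hD1]
    linarith
  obtain ⟨B, hB⟩ : ∃ B, B = D0 * r ^ α + D1 * m * ρ ^ 3 := ⟨_, rfl⟩
  rw [← hB] at hlab
  have l1 := hlab ⟨θ, 0⟩ (by
    have : (⟨θ, 0⟩ : ℂ) = (θ : ℂ) := rfl
    rw [this, Complex.norm_real, Real.norm_eq_abs, abs_of_pos hθ0]
    linarith)
  have l2 := hlab ⟨0, θ⟩ (by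
    refine (Complex.norm_le_abs_re_add_abs_im _).trans ?_
    simp only [abs_zero, zero_add]
    rw [abs_of_pos hθ0]
    linarith)
  have l3 := hlab ⟨θ, θ⟩ (by
    refine (Complex.norm_le_abs_re_add_abs_im _).trans ?_
    simp only []
    rw [abs_of_pos hθ0]
    linarith)
  simp only [] at l1 l2 l3
  have hST : S T = |r * ∫ τ in (0 : ℝ)..T, k τ 0| + |r * ∫ τ in (0 : ℝ)..T, k τ 1| +
    |r * ∫ τ in (0 : ℝ)..T, k τ 2| := by rw [hS]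
  obtain ⟨a0, ha0⟩ : ∃ a0, a0 = r * ∫ τ in (0 : ℝ)..T, k τ 0 := ⟨_, rfl⟩
  obtain ⟨a1, ha1⟩ : ∃ a1, a1 = r * ∫ τ in (0 : ℝ)..T, k τ 1 := ⟨_, rfl⟩
  obtain ⟨a2, ha2⟩ : ∃ a2, a2 = r * ∫ τ in (0 : ℝ)..T, k τ 2 := ⟨_, rfl⟩
  rw [← hm, ← ha0, ← ha1, ← ha2] at hST
  have f1 : |3 * (θ ^ 2 * a0)| ≤ B := by
    refine le_trans (le_of_eq ?_) l1
    congr 1
    rw [ha0]
    ring
  have f2 : |θ ^ 2 * a2| ≤ B := by
    refine le_trans (le_of_eq ?_) l2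
    congr 1
    rw [ha2]
    ring
  have f3 : |3 * (θ ^ 2 * a0) + 2 * (θ ^ 2 * a1) + θ ^ 2 * a2| ≤ B := by
    refine le_trans (le_of_eq ?_) l3
    congr 1
    rw [ha0, ha1, ha2]
    ring
  have g0 : |θ ^ 2 * a0| ≤ B := by
    rw [abs_le] at f1 ⊢
    have := (abs_nonneg _).trans f2
    constructor <;> linarith [f1.1, f1.2]
  have g1 : |θ ^ 2 * a1| ≤ 3 / 2 * B := by
    rw [abs_le] at f1 f2 f3 ⊢
    constructor <;> linarith [f1.1, f1.2, f2.1, f2.2, f3.1, f3.2]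
  have g3 : θ ^ 2 * m ≤ 4 * B := by
    have e1 : θ ^ 2 * m = |θ ^ 2 * a0| + |θ ^ 2 * a1| + |θ ^ 2 * a2| := by
      rw [hST, abs_mul, abs_mul, abs_mul, abs_of_nonneg (sq_nonneg θ)]
      ring
    have hB0 := (abs_nonneg _).trans f2
    rw [e1]
    linarith
  have hm0 : 0 ≤ m := (abs_nonneg _).trans (hb 0 (left_mem_Icc.2 ht)).1
  have g4 : ρ ^ 2 * m ≤ 48 * C ^ 2 * D0 * r ^ α := by
    have e1 : ρ ^ 2 * m = 4 * C ^ 2 * (θ ^ 2 * m) := by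
      rw [hθ]
      field_simp
      ring
    have e2 : 4 * C ^ 2 * (θ ^ 2 * m) ≤ 4 * C ^ 2 * (4 * B) :=
      mul_le_mul_of_nonneg_left g3 (by positivity)
    have e3 : 4 * C ^ 2 * (4 * B) = 16 * C ^ 2 * D0 * r ^ α +
        2 / 3 * (m * ρ ^ 2) * (24 * C ^ 2 * D1 * ρ) := by
      rw [hB]
      ring
    have e4 : 2 / 3 * (m * ρ ^ 2) * (24 * C ^ 2 * D1 * ρ) ≤ 2 / 3 * (m * ρ ^ 2) * 1 :=
      mul_le_mul_of_nonneg_left hρD (by positivity)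
    linarith
  have g5 : m ≤ 48 * C ^ 2 * D0 / ρ ^ 2 * r ^ α := by
    rw [div_mul_eq_mul_div, le_div_iff₀ (by positivity)]
    linarith
  obtain ⟨c0, c1, c2⟩ := hb t (right_mem_Icc.2 ht)
  fin_cases i
  · exact c0.trans g5
  · exact c1.trans g5
  · exact c2.trans g5
  · exact absurd rfl hi

end Pool.Agent.YUR
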