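import Pool.Agent.YUR.Q1

open MeasureTheory Set Filter Topology
open scoped ContDiff

namespace Pool.Agent.YUR

open Pool.Agent.YUD Pool.Agent.YUT Pool.Agent.YUB

/-- bounds along a trajectory of a label far from the origin -/
theorem Q2_far {α C R r β g : ℝ} {w : ℂ → ℝ} {k : ℝ → Fin 4 → ℝ}
    {γ μ ν : ℝ → ℝ} {s η : ℝ → ℂ → ℝ} {Y : ℝ → ℂ → ℂ} (hα : 0 < α) (hα1 : α < 1)
    (h : Pic α C R r β g w k γ μ ν s η Y)
    {y : ℂ} {ρ : ℝ} (hy : ‖y‖ < R / C) (hyρ : C * ‖y‖ ≤ ρ) (hρ1 : 1 ≤ ρ) {t : ℝ} (ht : 0 ≤ t) :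
    |(Y t y).re| ≤ ρ ∧ |(Y t y).im| ≤ ρ ∧
    |-(r * (k t 1 * (Y t y).re ^ 2 +
      2 * k t 2 * ((Y t y).re * (Y t y).im) + 3 * k t 3 * (Y t y).im ^ 2) +
        r ^ (1 + α) * dy (s t) (Y t y))| ≤ 7 * C * r * ρ ^ 3 ∧
    |r * (3 * k t 0 * (Y t y).re ^ 2 +
      2 * k t 1 * ((Y t y).re * (Y t y).im) + k t 2 * (Y t y).im ^ 2) +
        r ^ (1 + α) * dx (s t) (Y t y)| ≤ 7 * C * r * ρ ^ 3 ∧
    |r ^ (1 + α) * dy (s t) (Y t y)| ≤ C * ρ ^ 3 * (r * r ^ α) ∧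
    |(Y t y).im - y.im| ≤ 2 * C * ρ ^ 2 / β * r ^ α := by
  have hC : 0 < C := lt_of_lt_of_le one_pos h.one_le
  obtain ⟨hball, -, -, hdx, hdy⟩ := Q1_facts h hy ht
  have hY := (h.Y_le t ht y hy).trans hyρ
  have hρ0 : 0 < ρ := by linarith
  have hr := h.r_pos
  have hre : |(Y t y).re| ≤ ρ := (Complex.abs_re_le_norm _).trans hY
  have him : |(Y t y).im| ≤ ρ := (Complex.abs_im_le_norm _).trans hY
  have hk := (h.slc t).k_le
  have hp : ‖Y t y‖ ^ (2 + α) ≤ ρ ^ 3 := by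
    have h1 : ‖Y t y‖ ^ (2 + α) ≤ ρ ^ (2 + α) :=
      Real.rpow_le_rpow (norm_nonneg _) hY (by linarith)
    have h2 : ρ ^ (2 + α) ≤ ρ ^ (3 : ℝ) := Real.rpow_le_rpow_of_exponent_le hρ1 (by linarith)
    have h3 : ρ ^ (3 : ℝ) = ρ ^ 3 := by exact_mod_cast Real.rpow_natCast _ 3
    rw [h3] at h2
    exact h1.trans h2
  have hp23 : ρ ^ 2 ≤ ρ ^ 3 := pow_le_pow_right₀ hρ1 (by norm_num)
  have hrα : r ^ (1 + α) = r * r ^ α := by rw [Real.rpow_add hr, Real.rpow_one]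
  have hrα0 : 0 ≤ r ^ α := Real.rpow_nonneg hr.le _
  have hrα1 : r ^ α ≤ 1 := Real.rpow_le_one hr.le h.r_le hα.le
  have hdx1 : |dx (s t) (Y t y)| ≤ C * ρ ^ 3 := hdx.trans (mul_le_mul_of_nonneg_left hp hC.le)
  have hdy1 : |dy (s t) (Y t y)| ≤ C * ρ ^ 3 := hdy.trans (mul_le_mul_of_nonneg_left hp hC.le)
  have hterm0 : ∀ d : ℝ, |d| ≤ C * ρ ^ 3 → |r ^ (1 + α) * d| ≤ C * ρ ^ 3 * (r * r ^ α) := by
    intro d hd
    rw [abs_mul, hrα, abs_of_nonneg (mul_nonneg hr.le hrα0)]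
    calc r * r ^ α * |d| ≤ r * r ^ α * (C * ρ ^ 3) :=
          mul_le_mul_of_nonneg_left hd (by positivity)
      _ = _ := by ring
  have hterm : ∀ d : ℝ, |d| ≤ C * ρ ^ 3 → |r ^ (1 + α) * d| ≤ C * r * ρ ^ 3 := by
    intro d hd
    refine (hterm0 d hd).trans ?_
    calc C * ρ ^ 3 * (r * r ^ α) ≤ C * ρ ^ 3 * (r * 1) := by
          apply mul_le_mul_of_nonneg_left _ (by positivity)
          exact mul_le_mul_of_nonneg_left hrα1 hr.le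
      _ = _ := by ring
  have hm : ∀ (c x y : ℝ), |c| ≤ C → |x| ≤ ρ → |y| ≤ ρ → |c * x * y| ≤ C * ρ ^ 3 := by
    intro c x y hc hx hy
    refine (Q1_mul4 hc hx hy).trans ?_
    calc C * ρ * ρ = C * ρ ^ 2 := by ring
      _ ≤ _ := mul_le_mul_of_nonneg_left hp23 hC.le
  refine ⟨hre, him, ?_, ?_, ?_, ?_⟩
  · have c1 := hm _ _ _ (hk 1) hre hre
    have c2 := hm _ _ _ (hk 2) hre him
    have c3 := hm _ _ _ (hk 3) him him
    have c4 := hterm _ hdy1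
    have c5 : |k t 1 * (Y t y).re ^ 2 + 2 * k t 2 * ((Y t y).re * (Y t y).im) +
        3 * k t 3 * (Y t y).im ^ 2| ≤ 6 * (C * ρ ^ 3) := by
      rw [abs_le] at c1 c2 c3 ⊢
      constructor <;> nlinarith [c1.1, c1.2, c2.1, c2.2, c3.1, c3.2]
    rw [abs_neg]
    refine (abs_add_le _ _).trans ?_
    rw [abs_mul, abs_of_pos hr]
    have c6 := mul_le_mul_of_nonneg_left c5 hr.le
    linarith
  · have c1 := hm _ _ _ (hk 0) hre hre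
    have c2 := hm _ _ _ (hk 1) hre him
    have c3 := hm _ _ _ (hk 2) him him
    have c4 := hterm _ hdx1
    have c5 : |3 * k t 0 * (Y t y).re ^ 2 + 2 * k t 1 * ((Y t y).re * (Y t y).im) +
        k t 2 * (Y t y).im ^ 2| ≤ 6 * (C * ρ ^ 3) := by
      rw [abs_le] at c1 c2 c3 ⊢
      constructor <;> nlinarith [c1.1, c1.2, c2.1, c2.2, c3.1, c3.2]
    refine (abs_add_le _ _).trans ?_
    rw [abs_mul, abs_of_pos hr]
    have c6 := mul_le_mul_of_nonneg_left c5 hr.le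
    linarith
  · exact hterm0 _ hdy1
  · have hβ := h.β_pos
    have hv := h.vort t ht y hy
    have hball0 : y ∈ Metric.ball (0 : ℂ) R := by
      rw [Metric.mem_ball, dist_zero_right]
      have h1 : ‖y‖ * C < R := (lt_div_iff₀ hC).1 hy
      have h2 : ‖y‖ * 1 ≤ ‖y‖ * C := mul_le_mul_of_nonneg_left h.one_le (norm_nonneg _)
      linarith
    have hy1 : ‖y‖ ≤ ρ := by
      have h2 : 1 * ‖y‖ ≤ C * ‖y‖ := mul_le_mul_of_nonneg_right h.one_le (norm_nonneg _)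
      linarith
    have hpow : ∀ x : ℝ, 0 ≤ x → x ≤ ρ → C * x ^ (1 + α) ≤ C * ρ ^ 2 := by
      intro x hx0 hx
      apply mul_le_mul_of_nonneg_left _ hC.le
      have h1 : x ^ (1 + α) ≤ ρ ^ (1 + α) := Real.rpow_le_rpow hx0 hx (by linarith)
      have h2 : ρ ^ (1 + α) ≤ ρ ^ (2 : ℝ) := Real.rpow_le_rpow_of_exponent_le hρ1 (by linarith)
      have h3 : ρ ^ (2 : ℝ) = ρ ^ 2 := by exact_mod_cast Real.rpow_natCast _ 2
      rw [h3] at h2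
      exact h1.trans h2
    have e1 : |η t (Y t y)| ≤ C * ρ ^ 2 :=
      ((h.slc t).η_le _ hball).trans (hpow _ (norm_nonneg _) hY)
    have e2 : |η 0 y| ≤ C * ρ ^ 2 := ((h.slc 0).η_le _ hball0).trans (hpow _ (norm_nonneg _) hy1)
    have e3 : β * ((Y t y).im - y.im) = r ^ α * (η 0 y - η t (Y t y)) := by linarith
    have e4 : β * |(Y t y).im - y.im| ≤ r ^ α * (2 * (C * ρ ^ 2)) := by
      have e5 : β * |(Y t y).im - y.im| = |β * ((Y t y).im - y.im)| := by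
        rw [abs_mul, abs_of_pos hβ]
      rw [e5, e3, abs_mul, abs_of_nonneg hrα0]
      apply mul_le_mul_of_nonneg_left _ hrα0
      rw [abs_le] at e1 e2 ⊢
      constructor <;> linarith [e1.1, e1.2, e2.1, e2.2]
    rw [div_mul_eq_mul_div, le_div_iff₀ hβ]
    linarith

theorem Q2_path {x y y' e k1 k2 k3 q1 q2 q3 : ℝ → ℝ} {T r m ρ F E L δ K : ℝ} (hT : 0 ≤ T)
    (hr : 0 < r)
    (hx : ∀ t ∈ Icc 0 T, HasDerivWithinAt x (-(r * (k1 t * x t ^ 2 + 2 * k2 t * (x t * y t) +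
      3 * k3 t * y t ^ 2) + e t)) (Icc 0 T) t)
    (hy : ∀ t ∈ Icc 0 T, HasDerivWithinAt y (y' t) (Icc 0 T) t)
    (hq1 : ∀ t, HasDerivAt q1 (k1 t) t) (hq2 : ∀ t, HasDerivAt q2 (k2 t) t)
    (hq3 : ∀ t, HasDerivAt q3 (k3 t) t) (z1 : q1 0 = 0) (z2 : q2 0 = 0) (z3 : q3 0 = 0)
    (bx : ∀ t ∈ Icc 0 T, |x t| ≤ ρ) (by_ : ∀ t ∈ Icc 0 T, |y t| ≤ ρ)
    (bx' : ∀ t ∈ Icc 0 T, |-(r * (k1 t * x t ^ 2 + 2 * k2 t * (x t * y t) +
      3 * k3 t * y t ^ 2) + e t)| ≤ F)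
    (by' : ∀ t ∈ Icc 0 T, |y' t| ≤ F)
    (be : ∀ t ∈ Icc 0 T, |e t| ≤ E) (bk : ∀ t ∈ Icc 0 T, |k3 t| ≤ K)
    (bL : |L| ≤ ρ) (bd : ∀ t ∈ Icc 0 T, |y t - L| ≤ δ)
    (b1 : ∀ t ∈ Icc 0 T, |r * q1 t| ≤ m)
    (b2 : ∀ t ∈ Icc 0 T, |r * q2 t| ≤ m) :
    |(x T - x 0) + r * (q1 T * x T ^ 2 + 2 * q2 T * (x T * y T)) + 3 * (r * q3 T) * L ^ 2| ≤
      (6 * (K * δ * ρ) * r + E + 6 * (m * ρ * F)) * T := by
  obtain ⟨x', hx'⟩ : ∃ x' : ℝ → ℝ, x' = fun t => -(r * (k1 t * x t ^ 2 + 2 * k2 t * (x t * y t) +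
      3 * k3 t * y t ^ 2) + e t) := ⟨_, rfl⟩
  have hder : ∀ t ∈ Icc 0 T, HasDerivWithinAt (fun t => x t + r * (q1 t * x t ^ 2 +
      2 * q2 t * (x t * y t)) + 3 * (r * q3 t) * L ^ 2)
      (-3 * r * (k3 t * (y t - L) * y t) - 3 * r * (k3 t * (y t - L) * L) - e t +
        2 * (r * q1 t * x t * x' t) + 2 * (r * q2 t * y t * x' t) + 2 * (r * q2 t * x t * y' t))
      (Icc 0 T) t := by
    intro t ht
    have a1 := (hq1 t).hasDerivWithinAt (s := Icc 0 T)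
    have a2 := ((hq2 t).hasDerivWithinAt (s := Icc 0 T)).const_mul 2
    have a3 := ((((hq3 t).hasDerivWithinAt (s := Icc 0 T)).const_mul r).const_mul 3).mul_const
      (L ^ 2)
    have ax := hx t ht
    have ay := hy t ht
    have a4 := (ax.add (((a1.mul (ax.pow 2)).add (a2.mul (ax.mul ay))).const_mul r)).add a3
    refine HasDerivWithinAt.congr_deriv a4 ?_
    simp only [hx', Pi.pow_apply, Pi.mul_apply]
    push_cast
    ring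
  have hbd : ∀ t ∈ Icc 0 T, ‖-3 * r * (k3 t * (y t - L) * y t) -
      3 * r * (k3 t * (y t - L) * L) - e t +
        2 * (r * q1 t * x t * x' t) + 2 * (r * q2 t * y t * x' t) + 2 * (r * q2 t * x t * y' t)‖ ≤
        6 * (K * δ * ρ) * r + E + 6 * (m * ρ * F) := by
    intro t ht
    have hxt : |x' t| ≤ F := by rw [hx']; exact bx' t ht
    have c1 := Q1_mul4 (bk t ht) (bd t ht) (by_ t ht)
    have c2 := Q1_mul4 (bk t ht) (bd t ht) bL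
    have c3 := Q1_mul4 (b1 t ht) (bx t ht) hxt
    have c4 := Q1_mul4 (b2 t ht) (by_ t ht) hxt
    have c5 := Q1_mul4 (b2 t ht) (bx t ht) (by' t ht)
    have c6 := be t ht
    have c1' : |r * (k3 t * (y t - L) * y t)| ≤ r * (K * δ * ρ) := by
      rw [abs_mul, abs_of_pos hr]
      exact mul_le_mul_of_nonneg_left c1 hr.le
    have c2' : |r * (k3 t * (y t - L) * L)| ≤ r * (K * δ * ρ) := by
      rw [abs_mul, abs_of_pos hr]
      exact mul_le_mul_of_nonneg_left c2 hr.le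
    rw [Real.norm_eq_abs]
    rw [abs_le] at c1' c2' c3 c4 c5 c6 ⊢
    constructor <;> linarith [c1'.1, c1'.2, c2'.1, c2'.2, c3.1, c3.2, c4.1, c4.2, c5.1, c5.2,
      c6.1, c6.2]
  have h1 := Convex.norm_image_sub_le_of_norm_hasDerivWithin_le hder hbd (convex_Icc 0 T)
    (left_mem_Icc.2 hT) (right_mem_Icc.2 hT)
  beta_reduce at h1
  rw [z1, z2, z3, Real.norm_eq_abs, Real.norm_eq_abs, sub_zero, abs_of_nonneg hT] at h1
  refine le_trans (le_of_eq ?_) h1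
  congr 1
  ring

/-- the coefficient `k 3` -/
theorem Q2_label {α C R r β g : ℝ} {w : ℂ → ℝ} {k : ℝ → Fin 4 → ℝ}
    {γ μ ν : ℝ → ℝ} {s η : ℝ → ℂ → ℝ} {Y : ℝ → ℂ → ℂ} (hα : 0 < α) (hα1 : α < 1)
    (h : Pic α C R r β g w k γ μ ν s η Y)
    {L ρ : ℝ} (hL : 1 ≤ L) (hR : C * L < R) (hρ : ρ = C * L) {T T' D : ℝ}
    (hT : 0 ≤ T) (hT' : r * T ≤ T')
    (b1 : ∀ t ∈ Icc 0 T, |r * ∫ τ in (0 : ℝ)..t, k τ 1| ≤ D * r ^ α)
    (b2 : ∀ t ∈ Icc 0 T, |r * ∫ τ in (0 : ℝ)..t, k τ 2| ≤ D * r ^ α) :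
    3 * |r * ∫ τ in (0 : ℝ)..T, k τ 3| * L ^ 2 ≤ ρ + (T' * (12 * C ^ 2 * ρ ^ 3 / β +
      C * ρ ^ 3 + 42 * C * D * ρ ^ 4) + 3 * D * ρ ^ 2) * r ^ α := by
  have hC : 0 < C := lt_of_lt_of_le one_pos h.one_le
  have hr := h.r_pos
  have hβ := h.β_pos
  have hL0 : 0 < L := by linarith
  have hρ1 : 1 ≤ ρ := by
    rw [hρ]
    nlinarith [h.one_le]
  have hρ0 : 0 < ρ := by linarith
  have hrα0 : 0 ≤ r ^ α := Real.rpow_nonneg hr.le _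
  have hsub : Icc 0 T ⊆ Ici (0 : ℝ) := Icc_subset_Ici_self
  obtain ⟨y, hy0⟩ : ∃ y : ℂ, y = ⟨0, L⟩ := ⟨_, rfl⟩
  have hyre : y.re = 0 := by rw [hy0]
  have hyim : y.im = L := by rw [hy0]
  have hyn : ‖y‖ ≤ L := by
    refine (Complex.norm_le_abs_re_add_abs_im _).trans ?_
    rw [hyre, hyim, abs_zero, zero_add, abs_of_pos hL0]
  have hy : ‖y‖ < R / C := by
    rw [lt_div_iff₀ hC]
    nlinarith
  have hyρ : C * ‖y‖ ≤ ρ := by
    rw [hρ]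
    exact mul_le_mul_of_nonneg_left hyn hC.le
  have hLρ : |L| ≤ ρ := by
    rw [abs_of_pos hL0, hρ]
    nlinarith [h.one_le]
  have hm0 : 0 ≤ D * r ^ α := (abs_nonneg _).trans (b1 T (right_mem_Icc.2 hT))
  have hT'0 : 0 ≤ T' := (mul_nonneg hr.le hT).trans hT'
  have h1 := Q2_path (x := fun t => (Y t y).re) (y := fun t => (Y t y).im)
    (y' := fun t => r * (3 * k t 0 * (Y t y).re ^ 2 +
      2 * k t 1 * ((Y t y).re * (Y t y).im) + k t 2 * (Y t y).im ^ 2) +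
        r ^ (1 + α) * dx (s t) (Y t y))
    (e := fun t => r ^ (1 + α) * dy (s t) (Y t y)) (k1 := fun t => k t 1) (k2 := fun t => k t 2)
    (k3 := fun t => k t 3) (q1 := fun t => ∫ τ in (0 : ℝ)..t, k τ 1)
    (q2 := fun t => ∫ τ in (0 : ℝ)..t, k τ 2) (q3 := fun t => ∫ τ in (0 : ℝ)..t, k τ 3)
    (r := r) (m := D * r ^ α) (ρ := ρ) (F := 7 * C * r * ρ ^ 3) (E := C * ρ ^ 3 * (r * r ^ α))
    (L := L) (δ := 2 * C * ρ ^ 2 / β * r ^ α) (K := C) hT hr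
    (fun t ht => (Q1_facts h hy ht.1).2.1.mono hsub)
    (fun t ht => (Q1_facts h hy ht.1).2.2.1.mono hsub)
    (fun t => Q1_prim h.k_cont 1 t) (fun t => Q1_prim h.k_cont 2 t) (fun t => Q1_prim h.k_cont 3 t)
    intervalIntegral.integral_same intervalIntegral.integral_same intervalIntegral.integral_same
    (fun t ht => (Q2_far hα hα1 h hy hyρ hρ1 ht.1).1)
    (fun t ht => (Q2_far hα hα1 h hy hyρ hρ1 ht.1).2.1)
    (fun t ht => (Q2_far hα hα1 h hy hyρ hρ1 ht.1).2.2.1)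
    (fun t ht => (Q2_far hα hα1 h hy hyρ hρ1 ht.1).2.2.2.1)
    (fun t ht => (Q2_far hα hα1 h hy hyρ hρ1 ht.1).2.2.2.2.1)
    (fun t _ => (h.slc t).k_le 3) hLρ
    (fun t ht => by
      have := (Q2_far hα hα1 h hy hyρ hρ1 ht.1).2.2.2.2.2
      rw [hyim] at this
      exact this) b1 b2
  beta_reduce at h1
  rw [h.start y hy, hyre, sub_zero] at h1
  obtain ⟨n1, n2, -⟩ := Q2_far hα hα1 h hy hyρ hρ1 hT
  have hTm := right_mem_Icc.2 hT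
  have c1 := Q1_mul4 (b1 T hTm) n1 n1
  have c2 := Q1_mul4 (b2 T hTm) n1 n2
  have h3 : (6 * (C * (2 * C * ρ ^ 2 / β * r ^ α) * ρ) * r + C * ρ ^ 3 * (r * r ^ α) +
      6 * (D * r ^ α * ρ * (7 * C * r * ρ ^ 3))) * T ≤
      T' * (12 * C ^ 2 * ρ ^ 3 / β + C * ρ ^ 3 + 42 * C * D * ρ ^ 4) * r ^ α := by
    have e1 : 0 ≤ 12 * C ^ 2 * ρ ^ 3 / β * r ^ α := by positivity
    have e2 : 0 ≤ C * ρ ^ 3 * r ^ α := by positivity
    have e3 : 0 ≤ 42 * C * ρ ^ 4 * (D * r ^ α) := by positivity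
    calc (6 * (C * (2 * C * ρ ^ 2 / β * r ^ α) * ρ) * r + C * ρ ^ 3 * (r * r ^ α) +
        6 * (D * r ^ α * ρ * (7 * C * r * ρ ^ 3))) * T =
        (12 * C ^ 2 * ρ ^ 3 / β * r ^ α + C * ρ ^ 3 * r ^ α + 42 * C * ρ ^ 4 * (D * r ^ α)) *
          (r * T) := by ring
      _ ≤ (12 * C ^ 2 * ρ ^ 3 / β * r ^ α + C * ρ ^ 3 * r ^ α + 42 * C * ρ ^ 4 * (D * r ^ α)) *
          T' := mul_le_mul_of_nonneg_left hT' (by positivity)
      _ = _ := by ring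
  have h4 : 3 * |r * ∫ τ in (0 : ℝ)..T, k τ 3| * L ^ 2 =
      |3 * (r * ∫ τ in (0 : ℝ)..T, k τ 3) * L ^ 2| := by
    rw [abs_mul, abs_mul, abs_of_nonneg (sq_nonneg L)]
    norm_num
  rw [h4]
  rw [abs_le] at h1 c1 c2 n1 ⊢
  constructor <;> linarith [h1.1, h1.2, c1.1, c1.2, c2.1, c2.2, n1.1, n1.2]

/-- [YUR-Q2] step 2 of Lemma Q (section 3 of the paper): the coefficient `k 3`, and the conclusion -/
theorem prim_small {α C β₀ T' ε : ℝ} (hα : 0 < α) (hα1 : α < 1) (hβ₀ : 0 < β₀) (hT : 0 < T')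
    (hε : 0 < ε) : ∃ R₀ r₁ : ℝ, 0 < r₁ ∧ ∀ (R r β g : ℝ) (w : ℂ → ℝ) (k : ℝ → Fin 4 → ℝ)
      (γ μ ν : ℝ → ℝ) (s η : ℝ → ℂ → ℝ) (Y : ℝ → ℂ → ℂ), Pic α C R r β g w k γ μ ν s η Y →
        β₀ ≤ β → R₀ ≤ R → r ≤ r₁ → ∀ t, 0 ≤ t → r * t ≤ T' →
          ∀ i, |r * ∫ τ in (0 : ℝ)..t, k τ i| ≤ ε := by
  by_cases hC1 : 1 ≤ C
  swap
  · exact ⟨1, 1, one_pos, fun R r β g w k γ μ ν s η Y h => absurd h.one_le hC1⟩
  have hC : 0 < C := lt_of_lt_of_le one_pos hC1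
  obtain ⟨R₀, r₁, D, hr₁, hD, hone⟩ := prim_one (C := C) hα hα1 hβ₀ hT
  obtain ⟨L, hLd⟩ : ∃ L, L = 1 + C / ε := ⟨_, rfl⟩
  have hCε : 0 < C / ε := by positivity
  have hL : 1 ≤ L := by rw [hLd]; linarith
  have hL0 : 0 < L := by linarith
  obtain ⟨ρ, hρ⟩ : ∃ ρ, ρ = C * L := ⟨_, rfl⟩
  have hρ0 : 0 < ρ := by rw [hρ]; positivity
  obtain ⟨D4, hD4⟩ : ∃ D4, D4 = T' * (12 * C ^ 2 * ρ ^ 3 / β₀ +
      C * ρ ^ 3 + 42 * C * D * ρ ^ 4) + 3 * D * ρ ^ 2 := ⟨_, rfl⟩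
  have hD40 : 0 ≤ D4 := by rw [hD4]; positivity
  obtain ⟨r₂, hr₂⟩ : ∃ r₂, r₂ = (ε / (D4 + D + 1)) ^ (1 / α) := ⟨_, rfl⟩
  have hq : 0 < ε / (D4 + D + 1) := by positivity
  have hr₂0 : 0 < r₂ := by rw [hr₂]; exact Real.rpow_pos_of_pos hq _
  have hr₂α : r₂ ^ α = ε / (D4 + D + 1) := by
    rw [hr₂, ← Real.rpow_mul hq.le, one_div_mul_cancel hα.ne', Real.rpow_one]
  refine ⟨max R₀ (C * L + 1), min r₁ r₂, lt_min hr₁ hr₂0, ?_⟩
  intro R r β g w k γ μ ν s η Y h hβ hR hr t ht hrt i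
  have hR1 := (le_max_left _ _).trans hR
  have hR2 := (le_max_right _ _).trans hR
  have hr1 := hr.trans (min_le_left _ _)
  have hr2 := hr.trans (min_le_right _ _)
  have hr0 := h.r_pos
  have hrα0 : 0 ≤ r ^ α := Real.rpow_nonneg hr0.le _
  have hrα : r ^ α ≤ ε / (D4 + D + 1) := by
    rw [← hr₂α]
    exact Real.rpow_le_rpow hr0.le hr2 hα.le
  have hsum : (D4 + D + 1) * r ^ α ≤ ε := by
    have h1 := mul_le_mul_of_nonneg_left hrα (by positivity : 0 ≤ D4 + D + 1)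
    rwa [mul_div_cancel₀ _ (by positivity)] at h1
  have hDr : D * r ^ α ≤ ε := by
    have h1 : 0 ≤ (D4 + 1) * r ^ α := by positivity
    linarith
  by_cases hi : i = 3
  swap
  · exact (hone R r β g w k γ μ ν s η Y h hβ hR1 hr1 t ht hrt i hi).trans hDr
  rw [hi]
  have hrt' : ∀ τ ∈ Icc 0 t, r * τ ≤ T' := fun τ hτ =>
    (mul_le_mul_of_nonneg_left hτ.2 hr0.le).trans hrt
  have h1 := Q2_label hα hα1 h hL (by linarith) hρ ht hrt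
    (fun τ hτ => hone R r β g w k γ μ ν s η Y h hβ hR1 hr1 τ hτ.1 (hrt' τ hτ) 1 (by decide))
    (fun τ hτ => hone R r β g w k γ μ ν s η Y h hβ hR1 hr1 τ hτ.1 (hrt' τ hτ) 2 (by decide))
  have h2 : 12 * C ^ 2 * ρ ^ 3 / β ≤ 12 * C ^ 2 * ρ ^ 3 / β₀ :=
    div_le_div_of_nonneg_left (by positivity) hβ₀ hβ
  have h3 : (T' * (12 * C ^ 2 * ρ ^ 3 / β + C * ρ ^ 3 + 42 * C * D * ρ ^ 4) +
      3 * D * ρ ^ 2) * r ^ α ≤ D4 * r ^ α := by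
    apply mul_le_mul_of_nonneg_right _ hrα0
    rw [hD4]
    have h4 := mul_le_mul_of_nonneg_left h2 hT.le
    linarith
  have h5 : D4 * r ^ α ≤ ε := by
    have h1 : 0 ≤ (D + 1) * r ^ α := by positivity
    linarith
  obtain ⟨a, ha⟩ : ∃ a, a = |r * ∫ τ in (0 : ℝ)..t, k τ 3| := ⟨_, rfl⟩
  rw [← ha] at h1 ⊢
  have ha0 : 0 ≤ a := by rw [ha]; exact abs_nonneg _
  have h6 : 3 * a * L ^ 2 ≤ C * L + ε := by
    rw [← hρ]
    linarith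
  have h7 : C ≤ ε * L := by
    rw [hLd, mul_add, mul_div_cancel₀ _ hε.ne']
    linarith
  have h8 : 3 * a * L ^ 2 ≤ 2 * ε * L ^ 2 := by
    have h9 : C * L ≤ ε * L * L := mul_le_mul_of_nonneg_right h7 hL0.le
    have h10 : ε * 1 ≤ ε * L ^ 2 := by
      apply mul_le_mul_of_nonneg_left _ hε.le
      nlinarith
    nlinarith
  have h11 : 3 * a ≤ 2 * ε := le_of_mul_le_mul_right h8 (by positivity)
  linarith

end Pool.Agent.YUR
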