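import Pool.Agent.YUR.Defs
import Pool.Agent.YUT.R2
import Pool.Agent.YUB.E4

open MeasureTheory Set Filter Topology
open scoped ContDiff

namespace Pool.Agent.YUR

open Pool.Agent.YUD Pool.Agent.YUT Pool.Agent.YUB

/-- [YUR-R] `rough_holder_one` (`YUT/R2.lean`, complete; copy its proof) localised exactly as `rough_local` (`YUB/E4.lean`)
localises `rough_holder` (`YUT/R1.lean`): `Φ` maps the open set `U` into the open set `N`, and the norm bound for `w` is on `N`. -/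
theorem rough_local_one {U N : Set ℂ} (hU : IsOpen U) (hN : IsOpen N) {α c K : ℝ} (hα0 : 0 < α)
    (hα1 : α < 1) {w₀ w : ℂ → ℝ} {Φ : ℂ → ℂ} (hΦ : ContDiffOn ℝ 2 Φ U) (hmap : MapsTo Φ U N)
    (hdet : ∀ x ∈ U, (fderiv ℝ Φ x).det = 1) (hw : ∀ x ∈ U, w (Φ x) = w₀ x)
    (hr : RoughC U (1 + α) c w₀) (hK : NormLe N α K w) :
    ∀ x₀ ∈ U, c * ‖fderiv ℝ Φ x₀‖ ^ (1 + α) ≤ 2 * K := by
  intro x₀ hx₀
  obtain ⟨hwd, ka, kb, kc, hka, hkb, hkc, hsum, -, hwb, hwh⟩ := hK
  set A := fderiv ℝ Φ x₀ with hAdef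
  have hl := one_le_norm A (hdet x₀ hx₀)
  obtain ⟨e, he, hAe⟩ := exists_contracted A (hdet x₀ hx₀)
  have hl0 : 0 < ‖A‖ := lt_of_lt_of_le one_pos hl
  have hAe' : ‖A e‖ ≤ 1 / ‖A‖ := by
    rw [le_div_iff₀ hl0]
    exact hAe
  have key : ∀ ε > 0, c ≤ ε + 2 * K * (1 / ‖A‖ + ε) ^ (1 + α) := by
    intro ε hε
    obtain ⟨r₁, hr₁, hb₁⟩ := Metric.isOpen_iff.1 hN (Φ x₀) (hmap hx₀)
    have hΦa : ContDiffAt ℝ 2 Φ x₀ := hΦ.contDiffAt (hU.mem_nhds hx₀)
    have hcont : ContinuousAt Φ x₀ := hΦa.continuousAt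
    obtain ⟨δ₁, hδ₁, hb₂⟩ := Metric.isOpen_iff.1 hU x₀ hx₀
    obtain ⟨δ₂, hδ₂, hb₃⟩ := Metric.continuousAt_iff.1 hcont r₁ hr₁
    have hf1 : ContDiffAt ℝ 1 (fderiv ℝ Φ) x₀ := hΦa.fderiv_right (m := 1) (by norm_num)
    obtain ⟨L, t, ht, hLip⟩ := hf1.exists_lipschitzOnWith
    obtain ⟨δ₃, hδ₃, hb₄⟩ := Metric.mem_nhds_iff.1 ht
    set D : ℝ := 2 * (kb * L) + 1 with hD
    have hD0 : 0 < D := by positivity
    have h1α : 0 < 1 - α := by linarith
    obtain ⟨δ, hδ0, hd1, hd2, hd3, hd4, hd5⟩ : ∃ δ > 0, 2 * δ ≤ δ₁ ∧ 2 * δ ≤ δ₂ ∧ 2 * δ ≤ δ₃ ∧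
        (L : ℝ) * (2 * δ) ≤ ε ∧ δ ≤ (ε / D) ^ (1 / (1 - α)) := by
      refine ⟨min (min (δ₁ / 2) (δ₂ / 2)) (min (δ₃ / 2) (min (ε / (2 * (L + 1))) ((ε / D) ^ (1 / (1 - α))))),
        ?_, ?_, ?_, ?_, ?_, ?_⟩
      · have h5 : 0 < (ε / D) ^ (1 / (1 - α)) := Real.rpow_pos_of_pos (by positivity) _
        have h6 : (0 : ℝ) < ε / (2 * (L + 1)) := by positivity
        simp only [lt_min_iff, gt_iff_lt]
        exact ⟨⟨by linarith, by linarith⟩, by linarith, h6, h5⟩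
      · linarith [min_le_left (min (δ₁ / 2) (δ₂ / 2)) (min (δ₃ / 2) (min (ε / (2 * (L + 1)))
          ((ε / D) ^ (1 / (1 - α))))), min_le_left (δ₁ / 2) (δ₂ / 2)]
      · linarith [min_le_left (min (δ₁ / 2) (δ₂ / 2)) (min (δ₃ / 2) (min (ε / (2 * (L + 1)))
          ((ε / D) ^ (1 / (1 - α))))), min_le_right (δ₁ / 2) (δ₂ / 2)]
      · linarith [min_le_right (min (δ₁ / 2) (δ₂ / 2)) (min (δ₃ / 2) (min (ε / (2 * (L + 1)))
          ((ε / D) ^ (1 / (1 - α))))), min_le_left (δ₃ / 2) (min (ε / (2 * ((L : ℝ) + 1)))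
          ((ε / D) ^ (1 / (1 - α))))]
      · have h5 : min (min (δ₁ / 2) (δ₂ / 2)) (min (δ₃ / 2) (min (ε / (2 * ((L : ℝ) + 1)))
            ((ε / D) ^ (1 / (1 - α))))) ≤ ε / (2 * (L + 1)) :=
          (min_le_right _ _).trans ((min_le_right _ _).trans (min_le_left _ _))
        have h6 : (0 : ℝ) ≤ L := L.coe_nonneg
        have h7 : (L : ℝ) * (2 * (ε / (2 * (L + 1)))) ≤ ε := by
          have h8 : (L : ℝ) * (2 * (ε / (2 * (L + 1)))) = ε * (L / (L + 1)) := by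
            field_simp
          rw [h8]
          have h9 : (L : ℝ) / (L + 1) ≤ 1 := by
            rw [div_le_one (by positivity)]
            linarith
          calc ε * (L / (L + 1)) ≤ ε * 1 := mul_le_mul_of_nonneg_left h9 hε.le
            _ = ε := mul_one ε
        refine (mul_le_mul_of_nonneg_left (mul_le_mul_of_nonneg_left h5 (by norm_num)) h6).trans h7
      · exact (min_le_right _ _).trans ((min_le_right _ _).trans (min_le_right _ _))
    obtain ⟨x, s, hs0, hsδ, hxδ, hball, hrough⟩ := hr x₀ hx₀ e he δ hδ0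
    -- the ball
    have hmemB : ∀ y, ‖y - x‖ ≤ s → y ∈ Metric.ball x₀ (2 * δ) := by
      intro y hy
      rw [Metric.mem_ball, dist_eq_norm]
      have h5 : y - x₀ = (y - x) + (x - x₀) := by ring
      rw [h5]
      refine (norm_add_le _ _).trans_lt ?_
      linarith
    have hBM : Metric.ball x₀ (2 * δ) ⊆ U := (Metric.ball_subset_ball hd1).trans hb₂
    have hdiff : ∀ y ∈ Metric.ball x₀ (2 * δ), DifferentiableAt ℝ Φ y := fun y hy =>
      (hΦ.contDiffAt (hU.mem_nhds (hBM hy))).differentiableAt (by norm_num)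
    have hlip : ∀ y ∈ Metric.ball x₀ (2 * δ), ∀ z ∈ Metric.ball x₀ (2 * δ),
        ‖fderiv ℝ Φ y - fderiv ℝ Φ z‖ ≤ L * ‖y - z‖ := by
      intro y hy z hz
      have h5 := hLip.dist_le_mul y (hb₄ (Metric.ball_subset_ball hd3 hy)) z
        (hb₄ (Metric.ball_subset_ball hd3 hz))
      rwa [dist_eq_norm, dist_eq_norm] at h5
    have hx0B : x₀ ∈ Metric.ball x₀ (2 * δ) := Metric.mem_ball_self (by linarith)
    have hxB : x ∈ Metric.ball x₀ (2 * δ) := hmemB x (by rw [sub_self, norm_zero]; exact hs0.le)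
    have hse : ‖s • e‖ = s := by
      rw [norm_smul, he, mul_one, Real.norm_of_nonneg hs0.le]
    -- first estimate
    have hest1 : ∀ v : ℂ, ‖v‖ = s → ‖A v‖ ≤ s * (1 / ‖A‖) → ‖Φ (x + v) - Φ x‖ ≤ s * (1 / ‖A‖ + ε) := by
      intro v hv hAv
      have hvB : x + v ∈ Metric.ball x₀ (2 * δ) := hmemB _ (by rw [add_sub_cancel_left, hv])
      have h5 := (convex_ball x₀ (2 * δ)).norm_image_sub_le_of_norm_fderiv_le' (f := Φ) (φ := A)
        (C := ε) hdiff ?_ hxB hvB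
      · rw [add_sub_cancel_left, hv] at h5
        have h6 : Φ (x + v) - Φ x = (Φ (x + v) - Φ x - A v) + A v := by ring
        rw [h6]
        refine (norm_add_le _ _).trans ?_
        linarith
      · intro y hy
        have h6 := hlip y hy x₀ hx0B
        have h7 : ‖y - x₀‖ ≤ 2 * δ := by
          have h8 := hy
          rw [Metric.mem_ball, dist_eq_norm] at h8
          exact h8.le
        exact h6.trans ((mul_le_mul_of_nonneg_left h7 L.coe_nonneg).trans hd4)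
    -- second estimate
    have hest2 : ∀ v : ℂ, ‖v‖ = s → ‖Φ (x + v) - Φ x - fderiv ℝ Φ x v‖ ≤ L * s * s := by
      intro v hv
      have h5 := (convex_closedBall x s).norm_image_sub_le_of_norm_fderiv_le' (f := Φ)
        (φ := fderiv ℝ Φ x) (C := L * s) (fun y hy => hdiff y (hmemB y (by
          rwa [Metric.mem_closedBall, dist_eq_norm] at hy))) ?_ (Metric.mem_closedBall_self hs0.le)
        (y := x + v) (by rw [Metric.mem_closedBall, dist_eq_norm, add_sub_cancel_left, hv])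
      · rwa [add_sub_cancel_left, hv] at h5
      · intro y hy
        rw [Metric.mem_closedBall, dist_eq_norm] at hy
        exact (hlip y (hmemB y hy) x hxB).trans (mul_le_mul_of_nonneg_left hy L.coe_nonneg)
    have hΦball : ∀ y, ‖y - x‖ ≤ s → Φ y ∈ Metric.ball (Φ x₀) r₁ := by
      intro y hy
      have h5 := hmemB y hy
      rw [Metric.mem_ball] at h5 ⊢
      exact hb₃ (h5.trans_le hd2)
    -- third estimate
    have hest3 : ∀ v : ℂ, ‖v‖ = s → ‖A v‖ ≤ s * (1 / ‖A‖) →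
        |w (Φ (x + v)) - w (Φ x) - fderiv ℝ w (Φ x) (Φ (x + v) - Φ x)| ≤
          kc * (s * (1 / ‖A‖ + ε)) ^ (1 + α) := by
      intro v hv hAv
      refine (R2_taylor (convex_ball (Φ x₀) r₁) hα0 hkc (hΦball x (by rw [sub_self, norm_zero]; exact hs0.le))
        (hΦball (x + v) (by rw [add_sub_cancel_left, hv])) ?_ ?_).trans ?_
      · intro y hy
        exact (hwd y (hb₁ hy)).differentiableAt (hN.mem_nhds (hb₁ hy))
      · intro y hy
        exact hwh y (hb₁ hy) (Φ x) (hb₁ (hΦball x (by rw [sub_self, norm_zero]; exact hs0.le)))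
      · exact mul_le_mul_of_nonneg_left (Real.rpow_le_rpow (norm_nonneg _) (hest1 v hv hAv) (by linarith)) hkc
    have hn1 : ‖s • e‖ = s := hse
    have hn2 : ‖-(s • e)‖ = s := by rw [norm_neg, hse]
    have hA1 : ‖A (s • e)‖ ≤ s * (1 / ‖A‖) := by
      rw [map_smul, norm_smul, Real.norm_of_nonneg hs0.le]
      exact mul_le_mul_of_nonneg_left hAe' hs0.le
    have hA2 : ‖A (-(s • e))‖ ≤ s * (1 / ‖A‖) := by
      rw [map_neg, norm_neg]
      exact hA1
    have e1 := hest3 _ hn1 hA1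
    have e2 := hest3 _ hn2 hA2
    have e3 := hest2 _ hn1
    have e4 := hest2 _ hn2
    have hxM : x ∈ U := hBM hxB
    have hpM : x + s • e ∈ U := hBM (hmemB _ (by rw [add_sub_cancel_left, hse]))
    have hmM : x + -(s • e) ∈ U := hBM (hmemB _ (by rw [add_sub_cancel_left, hn2]))
    rw [sub_eq_add_neg x (s • e), ← hw _ hpM, ← hw _ hmM, ← hw _ hxM] at hrough
    have hXX : Φ x ∈ N := hmap hxM
    have e5 : |fderiv ℝ w (Φ x) ((Φ (x + s • e) - Φ x) + (Φ (x + -(s • e)) - Φ x))| ≤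
        kb * (2 * (L * s * s)) := by
      rw [← Real.norm_eq_abs]
      refine (ContinuousLinearMap.le_opNorm _ _).trans ?_
      refine mul_le_mul (hwb _ hXX) ?_ (norm_nonneg _) hkb
      have h6 : (Φ (x + s • e) - Φ x) + (Φ (x + -(s • e)) - Φ x) =
          (Φ (x + s • e) - Φ x - fderiv ℝ Φ x (s • e)) +
          (Φ (x + -(s • e)) - Φ x - fderiv ℝ Φ x (-(s • e))) := by
        rw [map_neg]
        ring
      rw [h6]
      refine (norm_add_le _ _).trans ?_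
      linarith
    have e6 : |w (Φ (x + s • e)) + w (Φ (x + -(s • e))) - 2 * w (Φ x)| ≤
        kb * (2 * (L * s * s)) + 2 * (kc * (s * (1 / ‖A‖ + ε)) ^ (1 + α)) := by
      have h6 : w (Φ (x + s • e)) + w (Φ (x + -(s • e))) - 2 * w (Φ x) =
          (w (Φ (x + s • e)) - w (Φ x) - fderiv ℝ w (Φ x) (Φ (x + s • e) - Φ x)) +
          (w (Φ (x + -(s • e))) - w (Φ x) - fderiv ℝ w (Φ x) (Φ (x + -(s • e)) - Φ x)) +
          fderiv ℝ w (Φ x) ((Φ (x + s • e) - Φ x) + (Φ (x + -(s • e)) - Φ x)) := by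
        rw [map_add]
        ring
      rw [h6]
      refine (abs_add_le _ _).trans ?_
      have h7 := abs_add_le (w (Φ (x + s • e)) - w (Φ x) - fderiv ℝ w (Φ x) (Φ (x + s • e) - Φ x))
        (w (Φ (x + -(s • e))) - w (Φ x) - fderiv ℝ w (Φ x) (Φ (x + -(s • e)) - Φ x))
      linarith
    have hpow : 0 < s ^ (1 + α) := Real.rpow_pos_of_pos hs0 _
    have hle0 : 0 ≤ 1 / ‖A‖ + ε := by positivity
    rw [Real.mul_rpow hs0.le hle0] at e6
    have hss : s * s = s ^ (1 + α) * s ^ (1 - α) := by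
      rw [← Real.rpow_add hs0]
      have h6 : 1 + α + (1 - α) = (2 : ℝ) := by ring
      rw [h6, Real.rpow_two]
      ring
    have e7 : c * s ^ (1 + α) ≤ (2 * (kb * L) * s ^ (1 - α) + 2 * kc * (1 / ‖A‖ + ε) ^ (1 + α)) *
        s ^ (1 + α) := by
      refine (hrough.trans e6).trans (le_of_eq ?_)
      have h6 : kb * (2 * (L * s * s)) = 2 * (kb * L) * (s * s) := by ring
      rw [h6, hss]
      ring
    have e8 := le_of_mul_le_mul_right e7 hpow
    have e9 : 2 * (kb * L) * s ^ (1 - α) ≤ ε := by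
      have h6 : s ^ (1 - α) ≤ ε / D := by
        have h7 : s ≤ (ε / D) ^ (1 / (1 - α)) := hsδ.le.trans hd5
        have h8 := Real.rpow_le_rpow hs0.le h7 h1α.le
        rwa [← Real.rpow_mul (by positivity), one_div, inv_mul_cancel₀ h1α.ne', Real.rpow_one] at h8
      have h7 : 2 * (kb * L) * s ^ (1 - α) ≤ D * (ε / D) := by
        refine mul_le_mul (by rw [hD]; linarith) h6 (Real.rpow_nonneg hs0.le _) hD0.le
      rwa [mul_div_cancel₀ _ hD0.ne'] at h7
    have e10 : 2 * kc * (1 / ‖A‖ + ε) ^ (1 + α) ≤ 2 * K * (1 / ‖A‖ + ε) ^ (1 + α) :=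
      mul_le_mul_of_nonneg_right (by linarith) (Real.rpow_nonneg hle0 _)
    linarith
  have hlim : Tendsto (fun ε : ℝ => ε + 2 * K * (1 / ‖A‖ + ε) ^ (1 + α)) (𝓝[>] 0)
      (𝓝 (0 + 2 * K * (1 / ‖A‖ + 0) ^ (1 + α))) := by
    refine Tendsto.mono_left ?_ nhdsWithin_le_nhds
    have h1 : Continuous (fun ε : ℝ => ε + 2 * K * (1 / ‖A‖ + ε) ^ (1 + α)) := by
      refine continuous_id.add (continuous_const.mul ?_)
      exact (continuous_const.add continuous_id).rpow_const (fun _ => Or.inr (by linarith))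
    exact h1.tendsto 0
  have h1 : c ≤ 0 + 2 * K * (1 / ‖A‖ + 0) ^ (1 + α) := by
    refine ge_of_tendsto hlim ?_
    filter_upwards [self_mem_nhdsWithin] with ε hε
    exact key ε hε
  rw [zero_add, add_zero, one_div, Real.inv_rpow hl0.le] at h1
  have hpow : 0 < ‖A‖ ^ (1 + α) := Real.rpow_pos_of_pos hl0 _
  have h2 := mul_le_mul_of_nonneg_right h1 hpow.le
  rwa [mul_assoc, inv_mul_cancel₀ hpow.ne', mul_one] at h2

end Pool.Agent.YUR
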