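import Pool.Agent.YUR.Defs
import Pool.Agent.YUB.G7
import Pool.Agent.YUB.M2

open MeasureTheory Set Filter Topology
open scoped ContDiff

namespace Pool.Agent.YUR

open Pool.Agent.YUD Pool.Agent.YUT Pool.Agent.YUB

private theorem T1_cs {F : Type} [NormedAddCommGroup F] [NormedSpace ℝ F] {f : ℂ → F}
    {f' : ℂ →L[ℝ] F} {x c : ℂ} (h : HasFDerivAt f f' (x - c)) :
    HasFDerivAt (fun y => f (y - c)) f' x := by
  have h0 : HasFDerivAt (fun y : ℂ => y - c) (ContinuousLinearMap.id ℝ ℂ) x :=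
    (hasFDerivAt_id x).sub_const c
  have h1 := HasFDerivAt.comp x h h0
  rwa [ContinuousLinearMap.comp_id] at h1

private theorem T1_ca {F : Type} [NormedAddCommGroup F] [NormedSpace ℝ F] {f : ℂ → F}
    {f' : ℂ →L[ℝ] F} {x c : ℂ} (h : HasFDerivAt f f' (x + c)) :
    HasFDerivAt (fun y => f (y + c)) f' x := by
  have h0 : HasFDerivAt (fun y : ℂ => y + c) (ContinuousLinearMap.id ℝ ℂ) x :=
    (hasFDerivAt_id x).add_const c
  have h1 := HasFDerivAt.comp x h h0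
  rwa [ContinuousLinearMap.comp_id] at h1

private theorem T1_far {a : ℂ} {ρ : ℝ} {g : ℂ → ℝ}
    (h0 : ∀ x, x ∉ Metric.ball a (ρ / 2) → g x = 0) {x y : ℂ} (hx : x ∉ Metric.ball a ρ)
    (hy : y ∈ Metric.ball x (ρ / 2)) : g y = 0 := by
  apply h0
  intro h
  apply hx
  rw [Metric.mem_ball] at *
  have h1 := dist_triangle x y a
  rw [dist_comm x y] at h1
  linarith

private theorem T1_fderiv_zero {a : ℂ} {ρ : ℝ} (hρ : 0 < ρ) {g : ℂ → ℝ}
    (h0 : ∀ x, x ∉ Metric.ball a (ρ / 2) → g x = 0) {x : ℂ} (hx : x ∉ Metric.ball a ρ) :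
    fderiv ℝ g x = 0 := by
  have h1 : g =ᶠ[𝓝 x] fun _ => 0 := by
    filter_upwards [Metric.ball_mem_nhds x (half_pos hρ)] with y hy
    exact T1_far h0 hx hy
  rw [h1.fderiv_eq]
  simp

private theorem T1_in {p q : ℝ} (hp : p = 0 ∨ 0 < p) (hq : q = 0 ∨ 0 < q) {a : ℂ} {ρ : ℝ}
    (hρp : 0 < p → 2 * ρ ≤ p) (hρq : 0 < q → 2 * ρ ≤ q) {g : ℂ → ℝ} (hd : Differentiable ℝ g)
    {x : ℂ} {l : ℤ × ℤ} (hl : x - G7_L p q l ∈ Metric.ball a ρ) :
    HasFDerivAt (pz2 p q a ρ g) (fderiv ℝ g (x - G7_L p q l)) x := by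
  have h1 : pz2 p q a ρ g =ᶠ[𝓝 x] fun y => g (y - G7_L p q l) := by
    have h2 : {y : ℂ | y - G7_L p q l ∈ Metric.ball a ρ} ∈ 𝓝 x := by
      have h3 : IsOpen {y : ℂ | y - G7_L p q l ∈ Metric.ball a ρ} :=
        Metric.isOpen_ball.preimage (continuous_id.sub continuous_const)
      exact h3.mem_nhds hl
    filter_upwards [h2] with y hy
    exact G7_eq hp hq hρp hρq g hy
  have h3 : HasFDerivAt (fun y => g (y - G7_L p q l)) (fderiv ℝ g (x - G7_L p q l)) x :=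
    T1_cs (hd (x - G7_L p q l)).hasFDerivAt
  exact h3.congr_of_eventuallyEq h1

private theorem T1_out {p q : ℝ} (hp : p = 0 ∨ 0 < p) (hq : q = 0 ∨ 0 < q) {a : ℂ} {ρ : ℝ}
    (hρ : 0 < ρ) (hρp : 0 < p → 2 * ρ ≤ p) (hρq : 0 < q → 2 * ρ ≤ q) {g : ℂ → ℝ}
    (h0 : ∀ x, x ∉ Metric.ball a (ρ / 2) → g x = 0)
    {x : ℂ} (hl : ∀ l : ℤ × ℤ, x - G7_L p q l ∉ Metric.ball a ρ) :
    HasFDerivAt (pz2 p q a ρ g) (0 : ℂ →L[ℝ] ℝ) x := by
  have h1 : pz2 p q a ρ g =ᶠ[𝓝 x] fun _ => 0 := by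
    filter_upwards [Metric.ball_mem_nhds x (half_pos hρ)] with y hy
    by_cases h : ∃ l : ℤ × ℤ, y - G7_L p q l ∈ Metric.ball a ρ
    · obtain ⟨l, hl'⟩ := h
      rw [G7_eq hp hq hρp hρq g hl']
      apply T1_far h0 (hl l)
      rw [Metric.mem_ball, dist_eq_norm] at hy ⊢
      rwa [sub_sub_sub_cancel_right]
    · push Not at h
      exact G7_zero g h
  exact (hasFDerivAt_const (0 : ℝ) x).congr_of_eventuallyEq h1

/-- [YUR-T1] periodization in `C^{1,α}`; cf. `pz2_facts` (`YUB/G7.lean`, with `G7_eq`, `G7_zero`, `G7_far`, `G7_per`). Because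
`g = 0` off the smaller ball `ball a (ρ/2)`: near every point `x` the function `pz2` is either `0` or `y ↦ g (y - l)` with one lattice
vector `l` (if `x - l ∉ ball a ρ` for all `l`, then `pz2 = 0` on `ball x (ρ/2)`). So it is differentiable with the derivative
`fderiv g (x - l)` or `0`, and the Hölder bound for the derivative follows as for `pz2_facts` (both points in the same translate,
or insert a point of the segment outside the ball, where `fderiv g = 0`; or use `G7_far` for the functions `x ↦ fderiv g x v`). -/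
theorem pz2_norm_one {p q : ℝ} (hp : p = 0 ∨ 0 < p) (hq : q = 0 ∨ 0 < q) {a : ℂ} {ρ : ℝ}
    (hρ : 0 < ρ) (hρp : 0 < p → 2 * ρ ≤ p) (hρq : 0 < q → 2 * ρ ≤ q) {g : ℂ → ℝ} {α C : ℝ}
    (hα : 0 < α) (h0 : ∀ x, x ∉ Metric.ball a (ρ / 2) → g x = 0) (hg : NormLe univ α C g) :
    (∀ x, pz2 p q a ρ g (x + p) = pz2 p q a ρ g x ∧
      pz2 p q a ρ g (x + q * Complex.I) = pz2 p q a ρ g x) ∧
      (∀ x ∈ Metric.ball a ρ, pz2 p q a ρ g x = g x) ∧
      NormLe univ α (2 * C) (pz2 p q a ρ g) := by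
  obtain ⟨hdo, A, b, c, hA, hb, hc, hAc, hgA, hgb, hgc⟩ := hg
  have hd : Differentiable ℝ g := differentiableOn_univ.1 hdo
  have hH' : ∀ x y, ‖fderiv ℝ g x - fderiv ℝ g y‖ ≤ c * ‖x - y‖ ^ α :=
    fun x y => hgc x (mem_univ x) y (mem_univ y)
  have hval : ∀ x, (∃ l : ℤ × ℤ, x - G7_L p q l ∈ Metric.ball a ρ ∧
      fderiv ℝ (pz2 p q a ρ g) x = fderiv ℝ g (x - G7_L p q l)) ∨
      (∀ l : ℤ × ℤ, x - G7_L p q l ∉ Metric.ball a ρ) ∧ fderiv ℝ (pz2 p q a ρ g) x = 0 := by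
    intro x
    by_cases hx : ∃ l : ℤ × ℤ, x - G7_L p q l ∈ Metric.ball a ρ
    · obtain ⟨l, hl⟩ := hx
      exact Or.inl ⟨l, hl, (T1_in hp hq hρp hρq hd hl).fderiv⟩
    · push Not at hx
      exact Or.inr ⟨hx, (T1_out hp hq hρ hρp hρq h0 hx).fderiv⟩
  have hfar : ∀ x y, (∀ l : ℤ × ℤ, ¬ (x - G7_L p q l ∈ Metric.ball a ρ ∧
      y - G7_L p q l ∈ Metric.ball a ρ)) → ‖fderiv ℝ (pz2 p q a ρ g) x‖ ≤ c * ‖x - y‖ ^ α := by
    intro x y h
    rcases hval x with ⟨l, hl, e1⟩ | ⟨_, e1⟩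
    · have h1 : fderiv ℝ g (y - G7_L p q l) = 0 :=
        T1_fderiv_zero hρ h0 fun h2 => h l ⟨hl, h2⟩
      have h2 := hH' (x - G7_L p q l) (y - G7_L p q l)
      rw [e1]
      rwa [h1, sub_zero, sub_sub_sub_cancel_right] at h2
    · rw [e1, norm_zero]
      exact mul_nonneg hc (Real.rpow_nonneg (norm_nonneg _) _)
  refine ⟨fun x => ⟨?_, ?_⟩, fun x hx => ?_, ?_, A, b, 2 * c, hA, hb, by positivity, by linarith,
    fun x _ => ?_, fun x _ => ?_, fun x _ y _ => ?_⟩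
  · have h1 : G7_L p q (1, 0) = p := by
      unfold G7_L
      simp
    rw [← h1]
    exact G7_per hp hq hρp hρq g x (1, 0)
  · have h1 : G7_L p q (0, 1) = q * Complex.I := by
      unfold G7_L
      simp
    rw [← h1]
    exact G7_per hp hq hρp hρq g x (0, 1)
  · have h1 : G7_L p q (0, 0) = 0 := by
      unfold G7_L
      simp
    rw [G7_eq (l := (0, 0)) hp hq hρp hρq g (by rw [h1, sub_zero]; exact hx), h1, sub_zero]
  · intro x _
    apply DifferentiableAt.differentiableWithinAt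
    by_cases hx : ∃ l : ℤ × ℤ, x - G7_L p q l ∈ Metric.ball a ρ
    · obtain ⟨l, hl⟩ := hx
      exact (T1_in hp hq hρp hρq hd hl).differentiableAt
    · push Not at hx
      exact (T1_out hp hq hρ hρp hρq h0 hx).differentiableAt
  · by_cases hx : ∃ l : ℤ × ℤ, x - G7_L p q l ∈ Metric.ball a ρ
    · obtain ⟨l, hl⟩ := hx
      rw [G7_eq hp hq hρp hρq g hl]
      exact hgA _ (mem_univ _)
    · push Not at hx
      rw [G7_zero g hx, abs_zero]
      exact hA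
  · rcases hval x with ⟨l, _, e1⟩ | ⟨_, e1⟩
    · rw [e1]
      exact hgb _ (mem_univ _)
    · rw [e1, norm_zero]
      exact hb
  · have hn : 0 ≤ c * ‖x - y‖ ^ α := mul_nonneg hc (Real.rpow_nonneg (norm_nonneg _) _)
    by_cases h : ∃ l : ℤ × ℤ, x - G7_L p q l ∈ Metric.ball a ρ ∧ y - G7_L p q l ∈ Metric.ball a ρ
    · obtain ⟨l, hl, hl'⟩ := h
      rw [(T1_in hp hq hρp hρq hd hl).fderiv, (T1_in hp hq hρp hρq hd hl').fderiv]
      have h2 := hH' (x - G7_L p q l) (y - G7_L p q l)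
      rw [sub_sub_sub_cancel_right] at h2
      linarith
    · push Not at h
      have h1 := hfar x y fun l hl => h l hl.1 hl.2
      have h2 := hfar y x fun l hl => h l hl.2 hl.1
      rw [norm_sub_rev] at h2
      have h3 := norm_sub_le (fderiv ℝ (pz2 p q a ρ g) x) (fderiv ℝ (pz2 p q a ρ g) y)
      linarith

/-- [YUR-T1] second differences of `C^{1,α}` functions (mean value inequality twice) -/
theorem second_diff_le {α C : ℝ} {h : ℂ → ℝ} (hα : 0 < α) (hh : NormLe univ α C h) (x v : ℂ) :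
    |h (x + v) + h (x - v) - 2 * h x| ≤ 2 * C * ‖v‖ ^ (1 + α) := by
  obtain ⟨hdo, A, b, c, hA, hb, hc, hAc, hgA, hgb, hgc⟩ := hh
  have hd : Differentiable ℝ h := differentiableOn_univ.1 hdo
  have h1 : ∀ z, HasFDerivAt (fun z => h (z + v) - h z) (fderiv ℝ h (z + v) - fderiv ℝ h z) z := by
    intro z
    exact (T1_ca (hd (z + v)).hasFDerivAt).sub (hd z).hasFDerivAt
  have h2 : ∀ z, ‖fderiv ℝ h (z + v) - fderiv ℝ h z‖ ≤ c * ‖v‖ ^ α := by
    intro z
    have := hgc (z + v) (mem_univ _) z (mem_univ _)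
    rwa [add_sub_cancel_left] at this
  have h3 := Convex.norm_image_sub_le_of_norm_hasFDerivWithin_le (s := (univ : Set ℂ))
    (x := x - v) (y := x) (fun z _ => (h1 z).hasFDerivWithinAt) (fun z _ => h2 z) convex_univ
    (mem_univ _) (mem_univ _)
  rw [sub_add_cancel, sub_sub_cancel, Real.norm_eq_abs] at h3
  have h4 : h (x + v) - h x - (h x - h (x - v)) = h (x + v) + h (x - v) - 2 * h x := by ring
  rw [h4] at h3
  refine h3.trans ?_
  rcases eq_or_lt_of_le (norm_nonneg v) with hv | hv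
  · rw [← hv, mul_zero]
    exact mul_nonneg (by linarith) (Real.rpow_nonneg le_rfl _)
  · rw [Real.rpow_add hv, Real.rpow_one]
    have h5 : 0 ≤ ‖v‖ * ‖v‖ ^ α := mul_nonneg hv.le (Real.rpow_nonneg hv.le _)
    calc c * ‖v‖ ^ α * ‖v‖ = c * (‖v‖ * ‖v‖ ^ α) := by ring
      _ ≤ 2 * C * (‖v‖ * ‖v‖ ^ α) := mul_le_mul_of_nonneg_right (by linarith) h5

/-- [YUR-T1] roughness survives a perturbation with small second differences -/
theorem rough_add {U : Set ℂ} {α c D : ℝ} {f h : ℂ → ℝ} (hf : RoughC U (1 + α) c f)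
    (hh : ∀ x v : ℂ, |h (x + v) + h (x - v) - 2 * h x| ≤ D * ‖v‖ ^ (1 + α)) :
    RoughC U (1 + α) (c - D) (fun x => f x + h x) := by
  intro x₀ hx₀ e he δ hδ
  obtain ⟨x, s, hs, hsδ, hx, hsub, hc⟩ := hf x₀ hx₀ e he δ hδ
  refine ⟨x, s, hs, hsδ, hx, hsub, ?_⟩
  have h1 := hh x (s • e)
  have h2 : ‖s • e‖ = s := by rw [norm_smul, he, mul_one, Real.norm_of_nonneg hs.le]
  rw [h2] at h1
  have h3 : f (x + s • e) + h (x + s • e) + (f (x - s • e) + h (x - s • e)) -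
      2 * (f x + h x) = (f (x + s • e) + f (x - s • e) - 2 * f x) -
        -(h (x + s • e) + h (x - s • e) - 2 * h x) := by ring
  show (c - D) * s ^ (1 + α) ≤ |f (x + s • e) + h (x + s • e) + (f (x - s • e) + h (x - s • e)) -
      2 * (f x + h x)|
  rw [h3]
  have h4 := abs_sub_abs_le_abs_sub (f (x + s • e) + f (x - s • e) - 2 * f x)
    (-(h (x + s • e) + h (x - s • e) - 2 * h x))
  rw [abs_neg] at h4
  rw [sub_mul]
  linarith

/-- [YUR-T1] rotations and translations: `x ↦ τ⁻¹ (x - a)`, `‖τ‖ = 1`, is an isometry preserving the area;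
`fderiv (h ∘ T) x = (fderiv h (T x)) ∘ (τ⁻¹ * ·)`. -/
theorem norm_rot {α C : ℝ} {h : ℂ → ℝ} {τ a : ℂ} (hτ : ‖τ‖ = 1) (hh : NormLe univ α C h) :
    NormLe univ α C (fun x => h (τ⁻¹ * (x - a))) ∧
      (∫ x, h (τ⁻¹ * (x - a))) = ∫ x, h x ∧
      (∀ v, fderiv ℝ (fun x => h (τ⁻¹ * (x - a))) a v = fderiv ℝ h 0 (τ⁻¹ * v)) := by
  obtain ⟨hdo, A, b, c, hA, hb, hc, hAc, hgA, hgb, hgc⟩ := hh
  have hd : Differentiable ℝ h := differentiableOn_univ.1 hdo
  have hτi : ‖τ⁻¹‖ = 1 := by rw [norm_inv, hτ, inv_one]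
  set M : ℂ →L[ℝ] ℂ := ContinuousLinearMap.mul ℝ ℂ τ⁻¹ with hM
  have hMv : ∀ v, M v = τ⁻¹ * v := fun v => by rw [hM, ContinuousLinearMap.mul_apply']
  have hMn : ‖M‖ ≤ 1 := by
    apply ContinuousLinearMap.opNorm_le_bound _ zero_le_one
    intro v
    rw [hMv, norm_mul, hτi]
  have hder : ∀ x, HasFDerivAt (fun x => h (τ⁻¹ * (x - a)))
      ((fderiv ℝ h (τ⁻¹ * (x - a))).comp M) x := by
    intro x
    have h1 : HasFDerivAt (fun x : ℂ => τ⁻¹ * (x - a)) M x := by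
      have h2 : HasFDerivAt (fun x : ℂ => M (x - a)) M x := T1_cs M.hasFDerivAt
      have h3 : (fun x : ℂ => M (x - a)) = fun x : ℂ => τ⁻¹ * (x - a) := funext fun x => hMv _
      rwa [h3] at h2
    exact (hd (τ⁻¹ * (x - a))).hasFDerivAt.comp x h1
  refine ⟨⟨?_, A, b, c, hA, hb, hc, hAc, fun x _ => hgA _ (mem_univ _), fun x _ => ?_,
    fun x _ y _ => ?_⟩, ?_, fun v => ?_⟩
  · exact fun x _ => (hder x).differentiableAt.differentiableWithinAt
  · rw [(hder x).fderiv]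
    refine (ContinuousLinearMap.opNorm_comp_le _ _).trans ?_
    calc ‖fderiv ℝ h (τ⁻¹ * (x - a))‖ * ‖M‖ ≤ ‖fderiv ℝ h (τ⁻¹ * (x - a))‖ * 1 :=
          mul_le_mul_of_nonneg_left hMn (norm_nonneg _)
      _ ≤ b := by rw [mul_one]; exact hgb _ (mem_univ _)
  · rw [(hder x).fderiv, (hder y).fderiv, ← ContinuousLinearMap.sub_comp]
    refine (ContinuousLinearMap.opNorm_comp_le _ _).trans ?_
    have h1 := hgc (τ⁻¹ * (x - a)) (mem_univ _) (τ⁻¹ * (y - a)) (mem_univ _)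
    rw [← mul_sub, sub_sub_sub_cancel_right, norm_mul, hτi, one_mul] at h1
    refine le_trans ?_ h1
    exact mul_le_of_le_one_right (norm_nonneg _) hMn
  · rw [integral_sub_right_eq_self (fun x => h (τ⁻¹ * x)) a]
    have hmem : τ⁻¹ ∈ Submonoid.unitSphere ℂ := by
      rw [← SetLike.mem_coe, Submonoid.coe_unitSphere, mem_sphere_zero_iff_norm]
      exact hτi
    have h1 := (rotation (⟨τ⁻¹, hmem⟩ : Circle)).measurePreserving.integral_comp
      (rotation (⟨τ⁻¹, hmem⟩ : Circle)).toHomeomorph.measurableEmbedding h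
    exact h1
  · rw [(hder a).fderiv, sub_self, mul_zero]
    show fderiv ℝ h 0 (M v) = _
    rw [hMv]

end Pool.Agent.YUR
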