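import Pool.Agent.YUR.T1
import Pool.Agent.YUT.C9b

open MeasureTheory Set Filter Topology
open scoped ContDiff

namespace Pool.Agent.YUR

open Pool.Agent.YUD Pool.Agent.YUT Pool.Agent.YUB

/-- [YUR-T2] smooth functions with compact support are small in `C^{1,α}` after multiplication by a small constant -/
theorem smooth_norm {α : ℝ} (hα : 0 < α) (hα1 : α < 1) {k : ℂ → ℝ} (hk : ContDiff ℝ ∞ k)
    (hc : HasCompactSupport k) : ∃ C : ℝ, 0 ≤ C ∧ (∀ t : ℝ, NormLe univ α (|t| * C) (fun x => t * k x)) ∧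
      ∀ x v : ℂ, |k (x + v) + k (x - v) - 2 * k x| ≤ C * ‖v‖ ^ 2 := by
  have hd : Differentiable ℝ k := hk.differentiable (by simp)
  have hk' : ContDiff ℝ ∞ (fderiv ℝ k) := hk.fderiv_right (by simp)
  have hc' : HasCompactSupport (fderiv ℝ k) := hc.fderiv ℝ
  obtain ⟨A, hA⟩ := hc.exists_bound_of_continuous hk.continuous
  obtain ⟨B, hB⟩ := hc'.exists_bound_of_continuous hk'.continuous
  obtain ⟨L, hL⟩ := ContDiff.lipschitzWith_of_hasCompactSupport hc' hk' (by simp)
  have hA0 : 0 ≤ A := (norm_nonneg _).trans (hA 0)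
  have hB0 : 0 ≤ B := (norm_nonneg _).trans (hB 0)
  have hL0 : 0 ≤ (L : ℝ) := L.2
  have hlip : ∀ x y, ‖fderiv ℝ k x - fderiv ℝ k y‖ ≤ L * ‖x - y‖ := fun x y => by
    have h := hL.dist_le_mul x y
    rwa [dist_eq_norm, dist_eq_norm] at h
  have hN : NormLe univ α (A + B + (2 * L + 2 * B)) k := by
    refine ⟨hd.differentiableOn, A, B, 2 * L + 2 * B, hA0, hB0, by positivity, le_rfl,
      fun x _ => hA x, fun x _ => hB x, ?_⟩
    intro x _ y _
    rcases le_total ‖x - y‖ 1 with h | h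
    · have h1 : ‖x - y‖ ≤ ‖x - y‖ ^ α := by
        have h2 := Real.rpow_le_rpow_of_exponent_ge' (norm_nonneg _) h hα.le hα1.le
        rwa [Real.rpow_one] at h2
      have h2 : 0 ≤ ‖x - y‖ ^ α := by positivity
      have h3 : (L : ℝ) * ‖x - y‖ ≤ L * ‖x - y‖ ^ α := mul_le_mul_of_nonneg_left h1 hL0
      have h4 := mul_nonneg hL0 h2
      have h5 := mul_nonneg hB0 h2
      linarith [hlip x y]
    · have h1 : 1 ≤ ‖x - y‖ ^ α := Real.one_le_rpow h hα.le
      have h2 : ‖fderiv ℝ k x - fderiv ℝ k y‖ ≤ 2 * B := by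
        refine (norm_sub_le _ _).trans ?_
        linarith [hB x, hB y]
      have h3 := mul_le_mul_of_nonneg_left h1 (by positivity : (0 : ℝ) ≤ 2 * L + 2 * B)
      linarith
  refine ⟨A + B + (2 * L + 2 * B), by positivity, fun t => hN.const_mul isOpen_univ t, ?_⟩
  intro x v
  have key : ∀ w : ℂ, ‖w‖ ≤ ‖v‖ → ‖k (x + w) - k x - fderiv ℝ k x w‖ ≤ L * ‖v‖ * ‖v‖ := by
    intro w hw
    have h1 := (convex_closedBall x ‖v‖).norm_image_sub_le_of_norm_fderiv_le' (𝕜 := ℝ) (f := k)
      (φ := fderiv ℝ k x) (C := L * ‖v‖) (x := x) (y := x + w) (fun z _ => hd z) (fun z hz => by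
        refine (hlip z x).trans (mul_le_mul_of_nonneg_left ?_ hL0)
        rwa [Metric.mem_closedBall, dist_eq_norm] at hz) (Metric.mem_closedBall_self (norm_nonneg _))
      (by
        rw [Metric.mem_closedBall, dist_eq_norm, add_sub_cancel_left]
        exact hw)
    rw [add_sub_cancel_left] at h1
    exact h1.trans (mul_le_mul_of_nonneg_left hw (by positivity))
  have h1 := key v le_rfl
  have h2 := key (-v) (norm_neg v).le
  have e1 : k (x + v) + k (x - v) - 2 * k x =
      (k (x + v) - k x - fderiv ℝ k x v) + (k (x + -v) - k x - fderiv ℝ k x (-v)) := by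
    rw [map_neg, ← sub_eq_add_neg]
    ring
  rw [e1, ← Real.norm_eq_abs]
  refine (norm_add_le _ _).trans ((add_le_add h1 h2).trans ?_)
  have h3 : 0 ≤ ‖v‖ ^ 2 := by positivity
  nlinarith [mul_nonneg hA0 h3, mul_nonneg hB0 h3]

/-- [YUR-T2] a small perturbation `g` supported in `ball a ρ`, of mean zero, such that `f + g` is rough on `ball a ρ` and has a
nonzero gradient at `a`. `exists_rough_add_one` (`U = ball a ρ`, `ε/3`) gives `g₂` (rough constant `c`). `b x = bump` (smooth, `1` near `a`,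
supported in `ball a ρ`, `∫ b > 0`: `ContDiffBump`), `k x = b x * (x - a).re` (gradient `dx = 1` at `a`). `g = g₂ + t k + s b`, where `t = 0`
or `t` small nonzero (one of the two gives a nonzero gradient at `a`; the gradient of `b` at `a` is `0`), `s = -(∫ g₂ + t ∫ k)/∫ b`.
For `|s| ‖b‖ ≤ ε/3`: take `g₂` with the norm bound `ε₂` so small that `|∫ g₂| ≤ ε₂ vol(ball)` is small, and `t` small. Roughness: the second
differences of `t k + s b` are `≤ D ‖v‖²`, and in `RoughC` the scales `s` may be taken so small that `D s² ≤ (c/2) s^(1+α)`. -/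
theorem exists_base {a : ℂ} {ρ : ℝ} (hρ : 0 < ρ) {α : ℝ} (hα : 0 < α) (hα1 : α < 1) {f : ℂ → ℝ}
    {K : ℝ} (hf : NormLe (Metric.ball a ρ) α K f) {ε : ℝ} (hε : 0 < ε) :
    ∃ (g : ℂ → ℝ) (c : ℝ), (∀ x, x ∉ Metric.ball a ρ → g x = 0) ∧ NormLe univ α ε g ∧
      ∫ x, g x = 0 ∧ 0 < c ∧ RoughC (Metric.ball a ρ) (1 + α) c (fun x => f x + g x) ∧
      fderiv ℝ (fun x => f x + g x) a ≠ 0 := by
  let β : ContDiffBump a := ⟨ρ / 4, ρ / 2, by positivity, by linarith⟩
  set b : ℂ → ℝ := fun x => β x with hbdef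
  have hb : ContDiff ℝ ∞ b := β.contDiff
  have hbc : HasCompactSupport b := β.hasCompactSupport
  have hbI : 0 < ∫ x, b x := β.integral_pos
  set k : ℂ → ℝ := fun x => b x * (x - a).re with hkdef
  have hre : ContDiff ℝ ∞ (fun x : ℂ => (x - a).re) :=
    Complex.reCLM.contDiff.comp (contDiff_id.sub contDiff_const)
  have hk : ContDiff ℝ ∞ k := hb.mul hre
  have hkc : HasCompactSupport k := hbc.mul_right
  obtain ⟨Cb, hCb0, hCb1, hCb2⟩ := smooth_norm hα hα1 hb hbc
  obtain ⟨Ck, hCk0, hCk1, hCk2⟩ := smooth_norm hα hα1 hk hkc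
  have hb0 : ∀ x, x ∉ Metric.ball a ρ → b x = 0 := by
    intro x hx
    refine β.zero_of_le_dist ?_
    rw [Metric.mem_ball, not_lt] at hx
    show ρ / 2 ≤ dist x a
    linarith
  have hb1 : b =ᶠ[𝓝 a] fun _ => (1 : ℝ) := β.eventuallyEq_one
  have hdb : fderiv ℝ b a = 0 := by
    rw [hb1.fderiv_eq]
    exact fderiv_const_apply _
  have hdk : fderiv ℝ k a 1 = 1 := by
    have h1 : k =ᶠ[𝓝 a] fun x => (x - a).re := by
      filter_upwards [hb1] with x hx
      show b x * (x - a).re = (x - a).re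
      rw [hx, one_mul]
    have h2 : HasFDerivAt (fun x : ℂ => (x - a).re) Complex.reCLM a :=
      Complex.reCLM.hasFDerivAt.comp a ((hasFDerivAt_id a).sub_const a)
    rw [h1.fderiv_eq, h2.fderiv]
    simp
  set I : ℝ := ∫ x, b x with hI
  set J : ℝ := |∫ x, k x| with hJ
  have hJ0 : 0 ≤ J := abs_nonneg _
  set V : ℝ := volume.real (Metric.ball a ρ) with hV
  have hV0 : 0 ≤ V := measureReal_nonneg
  set Q : ℝ := (V + J) / I with hQ
  have hQ0 : 0 ≤ Q := by positivity
  set M : ℝ := 1 + Ck + Q * Cb with hM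
  have hM0 : 0 < M := by positivity
  set ε₂ : ℝ := ε / M with hε₂
  have hε₂0 : 0 < ε₂ := by positivity
  obtain ⟨g₂, hg0, hgN, c₂, hc₂, hR⟩ := exists_rough_add_one Metric.isOpen_ball
    ⟨a, Metric.mem_ball_self hρ⟩ hα hα1 hf hε₂0
  have hgd : Differentiable ℝ g₂ := fun x => hgN.differentiableAt isOpen_univ (mem_univ x)
  have hgc : HasCompactSupport g₂ := by
    refine HasCompactSupport.of_support_subset_isCompact (isCompact_closedBall a ρ) ?_
    intro x hx
    by_contra h
    exact hx (hg0 x fun h1 => h (Metric.ball_subset_closedBall h1))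
  have hgi : Integrable g₂ := hgd.continuous.integrable_of_hasCompactSupport hgc
  have hbi : Integrable b := hb.continuous.integrable_of_hasCompactSupport hbc
  have hki : Integrable k := hk.continuous.integrable_of_hasCompactSupport hkc
  have hint : |∫ x, g₂ x| ≤ ε₂ * V := by
    have h1 : ∫ x in Metric.ball a ρ, g₂ x = ∫ x, g₂ x :=
      setIntegral_eq_integral_of_forall_compl_eq_zero fun x hx => hg0 x hx
    rw [← h1, ← Real.norm_eq_abs]
    exact norm_setIntegral_le_of_norm_le_const measure_ball_lt_top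
      fun x _ => hgN.abs_le (mem_univ x)
  obtain ⟨t, ht, hgrad⟩ : ∃ t : ℝ, |t| ≤ ε₂ ∧ fderiv ℝ (fun x => f x + g₂ x) a 1 + t ≠ 0 := by
    by_cases h : fderiv ℝ (fun x => f x + g₂ x) a 1 = 0
    · refine ⟨ε₂, (abs_of_pos hε₂0).le, ?_⟩
      rw [h, zero_add]
      exact hε₂0.ne'
    · refine ⟨0, ?_, ?_⟩
      · rw [abs_zero]
        exact hε₂0.le
      · rwa [add_zero]
  set s : ℝ := -((∫ x, g₂ x) + t * ∫ x, k x) / I with hs
  have hs1 : |s| ≤ ε₂ * Q := by
    rw [hs, abs_div, abs_neg, abs_of_pos hbI, hQ, mul_div_assoc']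
    refine div_le_div_of_nonneg_right ((abs_add_le _ _).trans ?_) hbI.le
    rw [abs_mul, ← hJ]
    have h1 := mul_le_mul_of_nonneg_right ht hJ0
    linarith
  have hs2 : s * I = -((∫ x, g₂ x) + t * ∫ x, k x) := by
    rw [hs]
    exact div_mul_cancel₀ _ hbI.ne'
  set h : ℂ → ℝ := fun x => t * k x + s * b x with hh
  set D : ℝ := |t| * Ck + |s| * Cb with hD
  have hD0 : 0 ≤ D := by positivity
  have hhN : NormLe univ α D h := (hCk1 t).add isOpen_univ (hCb1 s)
  have hh2 : ∀ x v : ℂ, |h (x + v) + h (x - v) - 2 * h x| ≤ D * ‖v‖ ^ 2 := by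
    intro x v
    have e1 : h (x + v) + h (x - v) - 2 * h x = t * (k (x + v) + k (x - v) - 2 * k x) +
        s * (b (x + v) + b (x - v) - 2 * b x) := by
      rw [hh]
      ring
    rw [e1]
    refine (abs_add_le _ _).trans ?_
    rw [abs_mul, abs_mul, hD]
    have h1 := mul_le_mul_of_nonneg_left (hCk2 x v) (abs_nonneg t)
    have h2 := mul_le_mul_of_nonneg_left (hCb2 x v) (abs_nonneg s)
    linarith
  have hhd : Differentiable ℝ h := fun x => hhN.differentiableAt isOpen_univ (mem_univ x)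
  refine ⟨fun x => g₂ x + h x, c₂ / 2, ?_, ?_, ?_, by positivity, ?_, ?_⟩
  · intro x hx
    show g₂ x + (t * (b x * (x - a).re) + s * b x) = 0
    rw [hg0 x hx, hb0 x hx]
    ring
  · refine (hgN.add isOpen_univ hhN).mono ?_
    have h1 := mul_le_mul_of_nonneg_right ht hCk0
    have h2 := mul_le_mul_of_nonneg_right hs1 hCb0
    have h3 : ε₂ * M = ε := div_mul_cancel₀ _ hM0.ne'
    rw [hD, ← h3, hM]
    linarith
  · have e1 : ∫ x, (g₂ x + (t * k x + s * b x)) = (∫ x, g₂ x) + (t * (∫ x, k x) + s * I) := by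
      have e2 : ∫ x, (t * k x + s * b x) = t * (∫ x, k x) + s * I := by
        rw [integral_add (hki.const_mul t) (hbi.const_mul s), integral_const_mul,
          integral_const_mul]
      have e3 : Integrable (fun x => t * k x + s * b x) := (hki.const_mul t).add (hbi.const_mul s)
      rw [integral_add hgi e3, e2]
    show ∫ x, (g₂ x + (t * k x + s * b x)) = 0
    rw [e1, hs2]
    ring
  · intro x₀ hx₀ e he δ hδ
    set δ₀ : ℝ := (c₂ / (2 * (D + 1))) ^ (1 / (1 - α)) with hδ₀
    have hq : 0 < c₂ / (2 * (D + 1)) := by positivity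
    have hδ₀0 : 0 < δ₀ := Real.rpow_pos_of_pos hq _
    obtain ⟨x, r, hr0, hr1, hx1, hx2, hx3⟩ := hR x₀ hx₀ e he (min δ δ₀) (lt_min hδ hδ₀0)
    refine ⟨x, r, hr0, hr1.trans_le (min_le_left _ _), hx1.trans_le (min_le_left _ _), hx2, ?_⟩
    have h1α : 0 < 1 - α := by linarith
    have hr2 : r ^ (1 - α) ≤ c₂ / (2 * (D + 1)) := by
      have h1 : r ^ (1 - α) ≤ δ₀ ^ (1 - α) :=
        Real.rpow_le_rpow hr0.le (hr1.le.trans (min_le_right _ _)) h1α.le
      rw [hδ₀, ← Real.rpow_mul hq.le, one_div_mul_cancel h1α.ne', Real.rpow_one] at h1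
      exact h1
    have hr3 : D * r ^ (1 - α) ≤ c₂ / 2 := by
      have h1 := mul_le_mul_of_nonneg_left hr2 (by linarith : (0 : ℝ) ≤ D + 1)
      have h2 : (D + 1) * (c₂ / (2 * (D + 1))) = c₂ / 2 := by
        field_simp
      rw [h2] at h1
      have h3 : 0 ≤ r ^ (1 - α) := (Real.rpow_pos_of_pos hr0 _).le
      linarith
    have hr4 : r ^ 2 = r ^ (1 - α) * r ^ (1 + α) := by
      rw [← Real.rpow_add hr0, ← Real.rpow_natCast]
      congr 1
      push_cast
      ring
    have hr5 : 0 < r ^ (1 + α) := Real.rpow_pos_of_pos hr0 _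
    have h4 := hh2 x (r • e)
    rw [norm_smul, Real.norm_eq_abs, abs_of_pos hr0, he, mul_one, hr4, ← mul_assoc] at h4
    have h5 := mul_le_mul_of_nonneg_right hr3 hr5.le
    have e3 : f (x + r • e) + (g₂ (x + r • e) + h (x + r • e)) +
        (f (x - r • e) + (g₂ (x - r • e) + h (x - r • e))) - 2 * (f x + (g₂ x + h x)) =
        (f (x + r • e) + g₂ (x + r • e) + (f (x - r • e) + g₂ (x - r • e)) - 2 * (f x + g₂ x)) +
        (h (x + r • e) + h (x - r • e) - 2 * h x) := by ring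
    show c₂ / 2 * r ^ (1 + α) ≤ |f (x + r • e) + (g₂ (x + r • e) + h (x + r • e)) +
        (f (x - r • e) + (g₂ (x - r • e) + h (x - r • e))) - 2 * (f x + (g₂ x + h x))|
    rw [e3]
    have h6 := abs_sub_abs_le_abs_add
      (f (x + r • e) + g₂ (x + r • e) + (f (x - r • e) + g₂ (x - r • e)) - 2 * (f x + g₂ x))
      (h (x + r • e) + h (x - r • e) - 2 * h x)
    have hx3' : c₂ * r ^ (1 + α) ≤
      |f (x + r • e) + g₂ (x + r • e) + (f (x - r • e) + g₂ (x - r • e)) - 2 * (f x + g₂ x)| := hx3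
    linarith
  · intro h0
    apply hgrad
    have hfa : DifferentiableAt ℝ f a :=
      hf.differentiableAt Metric.isOpen_ball (Metric.mem_ball_self hρ)
    have e1 : (fun x => f x + (g₂ x + h x)) = fun x => (f x + g₂ x) + h x := by
      funext x
      ring
    have e2 : fderiv ℝ (fun x => (f x + g₂ x) + h x) a =
        fderiv ℝ (fun x => f x + g₂ x) a + fderiv ℝ h a :=
      fderiv_fun_add (hfa.add (hgd a)) (hhd a)
    have e3 : fderiv ℝ h a = t • fderiv ℝ k a + s • fderiv ℝ b a := by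
      have hka : DifferentiableAt ℝ k a := (hk.differentiable (by simp)) a
      have hba : DifferentiableAt ℝ b a := (hb.differentiable (by simp)) a
      have e4 : fderiv ℝ h a = fderiv ℝ (fun x => t * k x) a + fderiv ℝ (fun x => s * b x) a :=
        fderiv_fun_add (hka.const_mul t) (hba.const_mul s)
      rw [e4, fderiv_const_mul hka, fderiv_const_mul hba]
    have e5 : fderiv ℝ (fun x => f x + (g₂ x + h x)) a 1 = 0 := by
      rw [h0]
      rfl
    rw [e1, e2, e3, hdb, smul_zero, add_zero] at e5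
    have e6 : (fderiv ℝ (fun x => f x + g₂ x) a + t • fderiv ℝ k a) 1 =
        fderiv ℝ (fun x => f x + g₂ x) a 1 + t * fderiv ℝ k a 1 := rfl
    rw [e6, hdk, mul_one] at e5
    exact e5

end Pool.Agent.YUR
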