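import Pool.Agent.YUR.Defs
import Pool.Agent.YUT.D2b

open MeasureTheory Set Filter Topology
open scoped ContDiff

namespace Pool.Agent.YUR

open Pool.Agent.YUD Pool.Agent.YUT Pool.Agent.YUB

/-- lacunary series of rescaled profiles: the norm and the derivative at `0` -/
theorem W_series {α B : ℝ} (hα : 0 < α) (hα1 : α < 1) (hB : 0 < B) : ∃ C : ℝ, 0 < C ∧
    ∀ (V : ℕ → ℂ → ℝ) (r σ : ℕ → ℝ), (∀ j, WProf B (V j)) → (∀ j, 0 < r j) → (∀ j, r j ≤ 1) →
      (∀ j, r (j + 1) ≤ 1 / 2 * r j) → (∀ j, |σ j| ≤ 1) →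
      NormLe univ α C (fun x => ∑' j, σ j * (r j ^ (1 + α) * V j ((r j)⁻¹ • x))) ∧
        fderiv ℝ (fun x => ∑' j, σ j * (r j ^ (1 + α) * V j ((r j)⁻¹ • x))) 0 = 0 ∧
        (∀ j x, |σ j * (r j ^ (1 + α) * V j ((r j)⁻¹ • x))| ≤ ((1 / 2 : ℝ) ^ α) ^ j * B) := by
  set θ : ℝ := 1 / 2 with hθdef
  have hθ : 0 < θ := by norm_num [hθdef]
  have hθ1 : θ < 1 := by norm_num [hθdef]
  obtain ⟨C0, hC0, hC⟩ := series_bound (E := ℂ →L[ℝ] ℝ) hθ hθ1 hα hα1 hB.le
  have hq0 : 0 < θ ^ α := Real.rpow_pos_of_pos hθ α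
  have hq1 : θ ^ α < 1 := Real.rpow_lt_one hθ.le hθ1 hα
  have hpos : 0 < (1 - θ ^ α)⁻¹ := inv_pos.mpr (by linarith)
  refine ⟨(1 - θ ^ α)⁻¹ * B + C0 + C0, by positivity, ?_⟩
  intro U r σ hU hr hr1 hrθ hσ
  have hgeo : ∀ j, r j ≤ θ ^ j := by
    intro j
    induction j with
    | zero => simpa using hr1 0
    | succ n ih =>
      calc r (n + 1) ≤ θ * r n := hrθ n
        _ ≤ θ * θ ^ n := by gcongr
        _ = θ ^ (n + 1) := by ring
  have hgeoα : ∀ j, r j ^ α ≤ (θ ^ α) ^ j := by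
    intro j
    calc r j ^ α ≤ (θ ^ j) ^ α := Real.rpow_le_rpow (hr j).le (hgeo j) hα.le
      _ = (θ ^ α) ^ j := by
        rw [← Real.rpow_natCast, ← Real.rpow_natCast, ← Real.rpow_mul hθ.le, ← Real.rpow_mul hθ.le,
          mul_comm]
  set V : ℕ → ℂ → (ℂ →L[ℝ] ℝ) := fun j x => σ j • fderiv ℝ (U j) ((r j)⁻¹ • x) with hV
  have hVB : ∀ j x, ‖V j x‖ ≤ B := by
    intro j x
    simp only [hV, norm_smul, Real.norm_eq_abs]
    calc |σ j| * ‖fderiv ℝ (U j) ((r j)⁻¹ • x)‖ ≤ 1 * B := by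
          gcongr
          · exact hσ j
          · exact (hU j).fderiv_le _
      _ = B := one_mul B
  have hVL : ∀ j x y, ‖V j x - V j y‖ ≤ B * ‖x - y‖ / r j := by
    intro j x y
    have h0 : V j x - V j y = σ j • (fderiv ℝ (U j) ((r j)⁻¹ • x) -
        fderiv ℝ (U j) ((r j)⁻¹ • y)) := by
      simp only [hV]
      exact (smul_sub (σ j) _ _).symm
    rw [h0, norm_smul, Real.norm_eq_abs]
    have h1 : ‖fderiv ℝ (U j) ((r j)⁻¹ • x) - fderiv ℝ (U j) ((r j)⁻¹ • y)‖
        ≤ B * ‖x - y‖ / r j := by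
      refine ((hU j).fderiv_lip _ _).trans (le_of_eq ?_)
      rw [← smul_sub, norm_smul, Real.norm_eq_abs, abs_inv, abs_of_pos (hr j)]
      field_simp
    calc |σ j| * ‖fderiv ℝ (U j) ((r j)⁻¹ • x) - fderiv ℝ (U j) ((r j)⁻¹ • y)‖
        ≤ 1 * (B * ‖x - y‖ / r j) := by
          gcongr
          exact hσ j
      _ = _ := one_mul _
  obtain ⟨hs, hn, hh⟩ := hC r V hr hr1 hrθ hVB hVL
  set F : ℕ → ℂ → ℝ := fun j x => σ j * (r j ^ (1 + α) * U j ((r j)⁻¹ • x)) with hF
  have hFd : ∀ j x, HasFDerivAt (F j) (r j ^ α • V j x) x := by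
    intro j x
    have h1 : HasFDerivAt (fun x : ℂ => (r j)⁻¹ • x)
        ((r j)⁻¹ • (ContinuousLinearMap.id ℝ ℂ)) x :=
      (hasFDerivAt_id x).const_smul (r j)⁻¹
    have h2 : HasFDerivAt (U j) (fderiv ℝ (U j) ((r j)⁻¹ • x)) ((r j)⁻¹ • x) :=
      ((hU j).smooth.differentiable (by norm_num) _).hasFDerivAt
    have h3 := (h2.comp x h1)
    have h4 := (h3.const_mul (r j ^ (1 + α))).const_mul (σ j)
    refine (h4.congr_fderiv ?_)
    ext v
    simp only [hV, _root_.smul_apply, ContinuousLinearMap.comp_apply,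
      ContinuousLinearMap.id_apply, smul_eq_mul, map_smul]
    rw [Real.rpow_add (hr j), Real.rpow_one]
    have := (hr j).ne'
    field_simp
  have hu : Summable fun j : ℕ => (θ ^ α) ^ j * B :=
    (summable_geometric_of_lt_one hq0.le hq1).mul_right B
  have hFn : ∀ j x, ‖F j x‖ ≤ (θ ^ α) ^ j * B := by
    intro j x
    simp only [hF, norm_mul, Real.norm_eq_abs]
    have h1 : |r j ^ (1 + α)| ≤ (θ ^ α) ^ j := by
      rw [abs_of_pos (Real.rpow_pos_of_pos (hr j) _)]
      refine le_trans ?_ (hgeoα j)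
      exact Real.rpow_le_rpow_of_exponent_ge (hr j) (hr1 j) (by linarith)
    calc |σ j| * (|r j ^ (1 + α)| * |U j ((r j)⁻¹ • x)|) ≤ 1 * ((θ ^ α) ^ j * B) := by
          gcongr
          · exact hσ j
          · exact (hU j).abs_le _
      _ = _ := by ring
  have hsF : ∀ x, Summable fun j => F j x := fun x =>
    Summable.of_norm_bounded hu (fun j => hFn j x)
  have hD : ∀ x, HasFDerivAt (fun x => ∑' j, F j x) (∑' j, r j ^ α • V j x) x := by
    intro x
    refine hasFDerivAt_tsum (u := fun j : ℕ => (θ ^ α) ^ j * B) (f := F)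
      (f' := fun j x => r j ^ α • V j x) hu hFd ?_ (hsF 0) x
    intro j x
    rw [norm_smul, Real.norm_eq_abs, abs_of_pos (Real.rpow_pos_of_pos (hr j) _)]
    gcongr
    · exact hgeoα j
    · exact hVB j x
  refine ⟨⟨fun x _ => (hD x).differentiableAt.differentiableWithinAt, (1 - θ ^ α)⁻¹ * B, C0, C0,
    by positivity, hC0, hC0, le_rfl, ?_, ?_, ?_⟩, ?_, hFn⟩
  · intro x _
    have := tsum_of_norm_bounded ((hasSum_geometric_of_lt_one hq0.le hq1).mul_right B)
      (fun j => hFn j x)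
    exact this
  · intro x _
    show ‖fderiv ℝ (fun x => ∑' j, F j x) x‖ ≤ C0
    rw [(hD x).fderiv]
    exact hn x
  · intro x _ y _
    show ‖fderiv ℝ (fun x => ∑' j, F j x) x - fderiv ℝ (fun x => ∑' j, F j x) y‖ ≤ _
    rw [(hD x).fderiv, (hD y).fderiv]
    exact hh x y
  · show fderiv ℝ (fun x => ∑' j, F j x) 0 = 0
    rw [(hD 0).fderiv]
    have h1 : ∀ j, r j ^ α • V j 0 = 0 := by
      intro j
      have h2 : fderiv ℝ (U j) 0 = 0 := by
        have h3 : U j =ᶠ[𝓝 0] fun _ => 0 := by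
          filter_upwards [Metric.ball_mem_nhds (0 : ℂ) one_pos] with z hz
          exact (hU j).near z (by rwa [mem_ball_zero_iff] at hz)
        rw [h3.fderiv_eq]
        simp
      simp only [hV]
      rw [smul_zero, h2, smul_zero, smul_zero]
    simp only [h1, tsum_zero]

/-- the radii -/
noncomputable def W_rad (R : ℕ → ℝ) (ρ : ℝ) : ℕ → ℝ
  | 0 => min 1 (ρ / (2 * R 0))
  | n + 1 => W_rad R ρ n / (2 * R (n + 1))

theorem W_rad_facts {R : ℕ → ℝ} {ρ : ℝ} (hR : ∀ n, 1 ≤ R n) (hρ : 0 < ρ) :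
    (∀ n, 0 < W_rad R ρ n) ∧ (∀ n, W_rad R ρ n ≤ 1) ∧
      (∀ n, W_rad R ρ (n + 1) ≤ 1 / 2 * W_rad R ρ n) ∧
      (∀ n, W_rad R ρ (n + 1) * R (n + 1) ≤ W_rad R ρ n) ∧
      (∀ n, W_rad R ρ n * R n < ρ) ∧ (∀ n, W_rad R ρ n ≤ (1 / 2) ^ n) ∧
      (∀ m n, m < n → W_rad R ρ n * R n ≤ W_rad R ρ m) := by
  have hpos : ∀ n, 0 < W_rad R ρ n := by
    intro n
    induction n with
    | zero =>
      have := hR 0
      simp only [W_rad]
      positivity
    | succ n ih =>
      have := hR (n + 1)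
      simp only [W_rad]
      positivity
  have hhalf : ∀ n, W_rad R ρ (n + 1) ≤ 1 / 2 * W_rad R ρ n := by
    intro n
    have h1 := hR (n + 1)
    have h2 := hpos n
    simp only [W_rad]
    rw [div_le_iff₀ (by positivity)]
    nlinarith
  have hle1 : ∀ n, W_rad R ρ n ≤ 1 := by
    intro n
    induction n with
    | zero => exact min_le_left _ _
    | succ n ih => linarith [hhalf n, hpos n]
  have hpow : ∀ n, W_rad R ρ n ≤ (1 / 2) ^ n := by
    intro n
    induction n with
    | zero => simpa using hle1 0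
    | succ n ih =>
      calc W_rad R ρ (n + 1) ≤ 1 / 2 * W_rad R ρ n := hhalf n
        _ ≤ 1 / 2 * (1 / 2) ^ n := by gcongr
        _ = (1 / 2) ^ (n + 1) := by ring
  have hmul : ∀ n, W_rad R ρ (n + 1) * R (n + 1) ≤ W_rad R ρ n := by
    intro n
    have h1 := hR (n + 1)
    have h2 := hpos n
    simp only [W_rad]
    rw [div_mul_eq_mul_div, div_le_iff₀ (by positivity)]
    nlinarith
  have hanti : ∀ m n, m ≤ n → W_rad R ρ n ≤ W_rad R ρ m := by
    intro m n hmn
    induction n, hmn using Nat.le_induction with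
    | base => exact le_rfl
    | succ n _ ih => linarith [hhalf n, hpos n]
  have hρ0 : W_rad R ρ 0 * R 0 ≤ ρ / 2 := by
    have h1 := hR 0
    calc W_rad R ρ 0 * R 0 ≤ ρ / (2 * R 0) * R 0 := by
          gcongr
          exact min_le_right _ _
      _ = ρ / 2 := by field_simp
  have hρ1 : W_rad R ρ 0 ≤ ρ / 2 := by
    have h1 := hR 0
    nlinarith [hpos 0]
  refine ⟨hpos, hle1, hhalf, hmul, ?_, hpow, ?_⟩
  · intro n
    cases n with
    | zero => linarith
    | succ n => linarith [hmul n, hanti 0 n (Nat.zero_le n)]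
  · intro m n hmn
    cases n with
    | zero => exact absurd hmn (Nat.not_lt_zero m)
    | succ n => exact (hmul n).trans (hanti m n (Nat.lt_succ_iff.1 hmn))

/-- [YUR-W] waves can be added (section 7 of the paper). -/
theorem exists_waves {α B : ℝ} (hα : 0 < α) (hα1 : α < 1) (hB : 0 < B) : ∃ C : ℝ, 0 < C ∧
    ∀ (U : ℕ → ℂ → ℝ), (∀ i, WProf B (U i)) → ∀ (f : ℂ → ℝ) (ρ δ : ℝ), 0 < ρ → 0 < δ →
      ContinuousOn f (Metric.ball 0 ρ) →
      ∃ h : ℂ → ℝ, (∀ x, x ∉ Metric.ball 0 ρ → h x = 0) ∧ NormLe univ α (C * δ) h ∧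
        ∫ x, h x = 0 ∧ h 0 = 0 ∧ fderiv ℝ h 0 = 0 ∧ Wavy (δ / 2) α U (fun x => f x + h x) := by
  obtain ⟨C, hC, hser⟩ := W_series hα hα1 hB
  refine ⟨C, hC, fun U hU f ρ δ hρ hδ hf => ?_⟩
  -- supports
  have hsup : ∀ i, ∃ R : ℝ, 1 ≤ R ∧ ∀ z, R ≤ ‖z‖ → U i z = 0 := by
    intro i
    obtain ⟨R, hR⟩ := (hU i).supp
    exact ⟨max 1 R, le_max_left _ _, fun z hz => hR z ((le_max_right _ _).trans hz)⟩
  choose R hR1 hR0 using hsup
  set ix : ℕ → ℕ := fun n => (Nat.unpair n).1 with hix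
  set r : ℕ → ℝ := W_rad (fun n => R (ix n)) ρ with hr
  obtain ⟨hr0, hr1, hrh, -, hrρ, hrp, hrd⟩ := W_rad_facts (R := fun n => R (ix n)) (fun n => hR1 _) hρ
  rw [← hr] at hr0 hr1 hrh hrρ hrp hrd
  set I : ℕ → ℝ := fun n => ∫ z, f ((r n : ℂ) * z) * U (ix n) z with hI
  set σ : ℕ → ℝ := fun n => if 0 ≤ I n then 1 else -1 with hσ
  have hσ1 : ∀ n, |σ n| ≤ 1 := by
    intro n
    simp only [hσ]
    split_ifs <;> simp
  obtain ⟨hN, hfd, hterm⟩ := hser (fun n => U (ix n)) r σ (fun n => hU _) hr0 hr1 hrh hσ1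
  set F : ℕ → ℂ → ℝ := fun j x => σ j * (r j ^ (1 + α) * U (ix j) ((r j)⁻¹ • x)) with hF
  set G : ℂ → ℝ := fun x => ∑' j, F j x with hG
  have hFz : ∀ j x, r j * R (ix j) ≤ ‖x‖ → F j x = 0 := by
    intro j x hx
    have h1 : U (ix j) ((r j)⁻¹ • x) = 0 := by
      apply hR0
      rw [norm_smul, norm_inv, Real.norm_of_nonneg (hr0 j).le, inv_mul_eq_div, le_div_iff₀ (hr0 j),
        mul_comm]
      exact hx
    simp only [hF]
    rw [h1, mul_zero, mul_zero]
  have hFn : ∀ j x, ‖x‖ < r j → F j x = 0 := by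
    intro j x hx
    have h1 : U (ix j) ((r j)⁻¹ • x) = 0 := by
      apply (hU _).near
      rw [norm_smul, norm_inv, Real.norm_of_nonneg (hr0 j).le, inv_mul_eq_div, div_lt_one (hr0 j)]
      exact hx
    simp only [hF]
    rw [h1, mul_zero, mul_zero]
  have hG0 : ∀ x, x ∉ Metric.ball (0 : ℂ) ρ → G x = 0 := by
    intro x hx
    rw [mem_ball_zero_iff, not_lt] at hx
    have h1 : ∀ j, F j x = 0 := fun j => hFz j x ((hrρ j).le.trans hx)
    simp only [hG, h1, tsum_zero]
  have hGN : NormLe univ α C G := hN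
  have hhN : NormLe univ α (C * δ) (fun x => δ * G x) := by
    have h1 := hGN.const_mul isOpen_univ δ
    rwa [abs_of_pos hδ, mul_comm] at h1
  -- continuity and integrals of the terms
  have hFc : ∀ j, Continuous (F j) := by
    intro j
    have h1 : Continuous (U (ix j)) := (hU _).smooth.continuous
    simp only [hF]
    fun_prop
  have hFi : ∀ j, Integrable (F j) := by
    intro j
    refine (hFc j).integrable_of_hasCompactSupport
      (HasCompactSupport.intro (isCompact_closedBall 0 ρ) fun x hx => hFz j x ?_)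
    rw [mem_closedBall_zero_iff, not_le] at hx
    exact (hrρ j).le.trans hx.le
  have hFint : ∀ j, ∫ x, F j x = 0 := by
    intro j
    simp only [hF]
    rw [integral_const_mul, integral_const_mul, Measure.integral_comp_smul volume (U (ix j)) (r j)⁻¹,
      (hU _).mean, smul_zero, mul_zero, mul_zero]
  have hq0 : 0 < (1 / 2 : ℝ) ^ α := by positivity
  have hq1 : (1 / 2 : ℝ) ^ α < 1 := Real.rpow_lt_one (by norm_num) (by norm_num) hα
  have hGint : ∫ x, G x = 0 := by
    have h1 : ∀ j, ∫ x, ‖F j x‖ ≤ ((1 / 2 : ℝ) ^ α) ^ j * (B * volume.real (Metric.ball (0 : ℂ) ρ)) := by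
      intro j
      have h2 : ∫ x, ‖F j x‖ = ∫ x in Metric.ball (0 : ℂ) ρ, ‖F j x‖ := by
        rw [setIntegral_eq_integral_of_forall_compl_eq_zero]
        intro x hx
        rw [mem_ball_zero_iff, not_lt] at hx
        rw [hFz j x ((hrρ j).le.trans hx), norm_zero]
      rw [h2]
      have h3 : ∀ x ∈ Metric.ball (0 : ℂ) ρ, ‖‖F j x‖‖ ≤ ((1 / 2 : ℝ) ^ α) ^ j * B := by
        intro x _
        rw [norm_norm]
        exact hterm j x
      have h4 := norm_setIntegral_le_of_norm_le_const (μ := volume) (s := Metric.ball (0 : ℂ) ρ)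
        measure_ball_lt_top h3
      rw [Real.norm_eq_abs] at h4
      rw [← mul_assoc]
      exact (le_abs_self _).trans h4
    have h2 : Summable fun j => ∫ x, ‖F j x‖ :=
      Summable.of_nonneg_of_le (fun j => integral_nonneg fun x => norm_nonneg _) h1
        ((summable_geometric_of_lt_one hq0.le hq1).mul_right _)
    have h3 := integral_tsum_of_summable_integral_norm hFi h2
    simp only [hG]
    rw [← h3]
    simp only [hFint, tsum_zero]
  refine ⟨fun x => δ * G x, fun x hx => ?_, hhN, ?_, ?_, ?_, ?_⟩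
  · show δ * G x = 0
    rw [hG0 x hx, mul_zero]
  · rw [integral_const_mul, hGint, mul_zero]
  · have h1 : ∀ j, F j 0 = 0 := fun j => hFn j 0 (by rw [norm_zero]; exact hr0 j)
    show δ * G 0 = 0
    simp only [hG, h1, tsum_zero, mul_zero]
  · have h1 : DifferentiableAt ℝ G 0 := hGN.differentiableAt isOpen_univ (mem_univ _)
    rw [fderiv_const_mul h1 δ]
    have h2 : fderiv ℝ G 0 = 0 := hfd
    rw [h2, smul_zero]
  · intro i ε hε
    obtain ⟨m, hm⟩ := exists_pow_lt_of_lt_one hε (by norm_num : (1 / 2 : ℝ) < 1)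
    set n := Nat.pair i m with hn
    have hixn : ix n = i := by
      simp only [hix, hn, Nat.unpair_pair]
    have hnm : m ≤ n := Nat.right_le_pair i m
    have hrn : r n < ε := by
      calc r n ≤ (1 / 2) ^ n := hrp n
        _ ≤ (1 / 2) ^ m := pow_le_pow_of_le_one (by norm_num) (by norm_num) hnm
        _ < ε := hm
    refine ⟨r n, hr0 n, hrn, ?_⟩
    -- only the wave number `n` is seen
    have hkey : ∀ z, G ((r n : ℂ) * z) * U i z = σ n * r n ^ (1 + α) * U i z ^ 2 := by
      intro z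
      by_cases hz1 : ‖z‖ < 1
      · rw [(hU i).near z hz1]
        ring
      by_cases hz2 : R i ≤ ‖z‖
      · rw [hR0 i z hz2]
        ring
      push Not at hz1 hz2
      have hnz : ‖(r n : ℂ) * z‖ = r n * ‖z‖ := by
        rw [norm_mul, Complex.norm_real, Real.norm_of_nonneg (hr0 n).le]
      have h1 : ∀ j, j ≠ n → F j ((r n : ℂ) * z) = 0 := by
        intro j hj
        rcases lt_or_gt_of_ne hj with h | h
        · apply hFn
          rw [hnz]
          have h2 := hrd j n h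
          simp only [hixn] at h2
          exact (mul_lt_mul_of_pos_left hz2 (hr0 n)).trans_le h2
        · apply hFz
          rw [hnz]
          have h2 := hrd n j h
          nlinarith [hr0 n]
      have h2 : G ((r n : ℂ) * z) = F n ((r n : ℂ) * z) := by
        simp only [hG]
        exact tsum_eq_single n h1
      rw [h2]
      simp only [hF]
      have h3 : (r n)⁻¹ • ((r n : ℂ) * z) = z := by
        rw [Complex.real_smul, ← mul_assoc, ← Complex.ofReal_mul, inv_mul_cancel₀ (hr0 n).ne',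
          Complex.ofReal_one, one_mul]
      rw [h3, hixn]
      ring
    have hUc : Continuous (U i) := (hU i).smooth.continuous
    have hcs : HasCompactSupport (U i) := by
      refine HasCompactSupport.intro (isCompact_closedBall 0 (R i)) fun x hx => hR0 i x ?_
      rw [mem_closedBall_zero_iff, not_le] at hx
      exact hx.le
    have hi1 : Integrable (fun z => f ((r n : ℂ) * z) * U i z) := by
      have hsub : Function.support (fun z => f ((r n : ℂ) * z) * U i z) ⊆
          Metric.closedBall (0 : ℂ) (R i) := by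
        intro z hz
        by_contra h
        rw [mem_closedBall_zero_iff, not_le] at h
        apply hz
        show f ((r n : ℂ) * z) * U i z = 0
        rw [hR0 i z h.le, mul_zero]
      rw [← integrableOn_iff_integrable_of_support_subset hsub]
      refine ContinuousOn.integrableOn_compact (isCompact_closedBall _ _) ?_
      refine ContinuousOn.mul (hf.comp (by fun_prop) fun z hz => ?_) hUc.continuousOn
      rw [mem_closedBall_zero_iff] at hz
      rw [mem_ball_zero_iff, norm_mul, Complex.norm_real, Real.norm_of_nonneg (hr0 n).le]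
      have h1 := hrρ n
      simp only [hixn] at h1
      exact (mul_le_mul_of_nonneg_left hz (hr0 n).le).trans_lt h1
    have hi2 : Integrable (fun z => U i z ^ 2) := by
      have h1 : Continuous fun z => U i z ^ 2 := hUc.pow 2
      refine h1.integrable_of_hasCompactSupport
        (HasCompactSupport.intro (isCompact_closedBall 0 (R i)) fun x hx => ?_)
      rw [mem_closedBall_zero_iff, not_le] at hx
      rw [hR0 i x hx.le]
      norm_num
    have hint : ∫ z, (f ((r n : ℂ) * z) + δ * G ((r n : ℂ) * z)) * U i z =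
        I n + δ * (σ n * r n ^ (1 + α)) * ∫ z, U i z ^ 2 := by
      have h1 : ∀ z, (f ((r n : ℂ) * z) + δ * G ((r n : ℂ) * z)) * U i z =
          f ((r n : ℂ) * z) * U i z + δ * (σ n * r n ^ (1 + α)) * U i z ^ 2 := by
        intro z
        rw [add_mul, mul_assoc δ, hkey z]
        ring
      simp only [h1]
      rw [integral_add hi1 (hi2.const_mul _), integral_const_mul]
      simp only [hI, hixn]
    show δ / 2 * r n ^ (1 + α) * (∫ z, U i z ^ 2) ≤
      |∫ z, (f ((r n : ℂ) * z) + δ * G ((r n : ℂ) * z)) * U i z|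
    rw [hint]
    have hU2 : 0 ≤ ∫ z, U i z ^ 2 := integral_nonneg fun z => sq_nonneg _
    have hrp' : 0 < r n ^ (1 + α) := Real.rpow_pos_of_pos (hr0 n) _
    have hb : 0 ≤ δ * r n ^ (1 + α) * ∫ z, U i z ^ 2 := by positivity
    simp only [hσ]
    split_ifs with h
    · rw [abs_of_nonneg (by nlinarith)]
      nlinarith
    · push Not at h
      rw [abs_of_neg (by nlinarith)]
      nlinarith

end Pool.Agent.YUR
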