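import Pool.Agent.YUR.T2
import Pool.Agent.YUR.W
import Pool.Agent.YUR.W0
import Pool.Agent.YUR.P

open MeasureTheory Set Filter Topology
open scoped ContDiff

namespace Pool.Agent.YUR

open Pool.Agent.YUD Pool.Agent.YUT Pool.Agent.YUB

/-- [YUR-T3] the rotation of the frame: `n = ⟨dx f a, dy f a⟩`, `β = ‖n‖`, `τ = -i n/‖n‖` -/
theorem exists_rot {f : ℂ → ℝ} {a : ℂ} (h : fderiv ℝ f a ≠ 0) : ∃ (β : ℝ) (τ : ℂ), 0 < β ∧
    ‖τ‖ = 1 ∧ ∀ z : ℂ, fderiv ℝ f a (τ * z) = β * z.im := by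
  have hL : ∀ z : ℂ, fderiv ℝ f a z = z.re * fderiv ℝ f a 1 + z.im * fderiv ℝ f a Complex.I := by
    intro z
    have h1 : z = z.re • (1 : ℂ) + z.im • Complex.I := by
      simp
    calc fderiv ℝ f a z = fderiv ℝ f a (z.re • (1 : ℂ) + z.im • Complex.I) := by rw [← h1]
      _ = _ := by rw [map_add, map_smul, map_smul]; rfl
  set p := fderiv ℝ f a 1 with hp
  set q := fderiv ℝ f a Complex.I with hq
  have hn : 0 < p ^ 2 + q ^ 2 := by
    by_contra hcon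
    have h2 : p ^ 2 + q ^ 2 = 0 := le_antisymm (not_lt.1 hcon) (by positivity)
    have hp0 : p = 0 := by nlinarith [sq_nonneg p, sq_nonneg q]
    have hq0 : q = 0 := by nlinarith [sq_nonneg p, sq_nonneg q]
    apply h
    ext z
    rw [hL z, hp0, hq0]
    simp
  set β := √(p ^ 2 + q ^ 2) with hβ
  have hβ0 : 0 < β := Real.sqrt_pos.2 hn
  have hβ2 : β ^ 2 = p ^ 2 + q ^ 2 := Real.sq_sqrt hn.le
  refine ⟨β, ⟨q / β, -(p / β)⟩, hβ0, ?_, ?_⟩
  · have h3 : ‖(⟨q / β, -(p / β)⟩ : ℂ)‖ ^ 2 = 1 := by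
      rw [← Complex.normSq_eq_norm_sq, Complex.normSq_mk]
      field_simp
      rw [hβ2]; ring
    nlinarith [norm_nonneg (⟨q / β, -(p / β)⟩ : ℂ)]
  · intro z
    rw [hL]
    simp only [Complex.mul_re, Complex.mul_im]
    field_simp
    rw [hβ2]; ring

/-- [YUR-T3] the initial vorticity near `a` (section 7 of the paper): `exists_base` with `ε/2`, `exists_rot` for `f₁ = f + g`, `exists_packet`
for all `Λs = i.1 + 1`, `τ = 1/(i.2 + 1)` (`choose`), `prof_wprof`, `exists_waves` for an enumeration `ℕ → (ℕ × ℕ) × ℕ` (`Denumerable`/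
surjection; `Wavy` is transported) of the profiles, applied to `y ↦ f₁ (a + τ y)` on `ball 0 ρ` with `δ` so small that `C δ ≤ ε/2` and
`2 C δ ≤ c/2`; the wave part is `h (τ⁻¹ (x - a))` (`norm_rot`); roughness: `second_diff_le`, `rough_add`; the gradient at `a` does not
change (`fderiv h 0 = 0`), nor the value. -/
theorem exists_data {a : ℂ} {ρ : ℝ} (hρ : 0 < ρ) {α : ℝ} (hα : 0 < α) (hα1 : α < 1) {f : ℂ → ℝ}
    {K : ℝ} (hf : NormLe (Metric.ball a ρ) α K f) {ε : ℝ} (hε : 0 < ε) :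
    ∃ (g : ℂ → ℝ) (c β δ B κ : ℝ) (τ : ℂ) (S : ℝ → ℝ) (N : ℕ × ℕ → ℝ)
      (A : ℕ × ℕ → ℕ → ℝ → ℝ → ℝ) (e : ℕ × ℕ → ℝ → ℝ → ℝ),
      (∀ x, x ∉ Metric.ball a ρ → g x = 0) ∧ NormLe univ α ε g ∧ ∫ x, g x = 0 ∧ 0 < c ∧
      RoughC (Metric.ball a ρ) (1 + α) c (fun x => f x + g x) ∧ 0 < β ∧ ‖τ‖ = 1 ∧
      (∀ z : ℂ, fderiv ℝ (fun x => f x + g x) a (τ * z) = β * z.im) ∧ 0 < δ ∧ 0 < B ∧ 0 < κ ∧
      (∀ x, 0 ≤ S x) ∧ (∀ i, 1 ≤ N i) ∧
      (∀ i : ℕ × ℕ, Packet B κ (S (i.1 + 1)) (i.1 + 1) (1 / (i.2 + 1)) (N i) (A i) (e i)) ∧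
      Wavy δ α (fun (i : (ℕ × ℕ) × ℕ) => prof (i.1.1 + 1) (A i.1 0 (i.1.1 + 1)) (i.2 + 1))
        (fun y => f (a + τ * y) + g (a + τ * y)) := by
  obtain ⟨g₁, c₁, hg0, hgn, hgm, hc₁, hrough, hgrad⟩ := exists_base hρ hα hα1 hf (half_pos hε)
  obtain ⟨β, τ, hβ, hτ, hrot⟩ := exists_rot hgrad
  obtain ⟨B, κ, S, hB, hκ, hS, hpack⟩ := exists_packet
  have hpk : ∀ i : ℕ × ℕ, ∃ (N : ℝ) (A : ℕ → ℝ → ℝ → ℝ) (e : ℝ → ℝ → ℝ), 1 ≤ N ∧
      Packet B κ (S ((i.1 : ℝ) + 1)) ((i.1 : ℝ) + 1) (1 / ((i.2 : ℝ) + 1)) N A e := by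
    intro i
    refine hpack _ _ ?_ (by positivity)
    have : (0 : ℝ) ≤ i.1 := Nat.cast_nonneg _
    linarith
  choose N A e hN hP using hpk
  obtain ⟨B', hB', hprof⟩ := prof_wprof hB
  obtain ⟨C, hC, hwaves⟩ := exists_waves hα hα1 hB'
  -- the enumeration of the profiles
  let U : (ℕ × ℕ) × ℕ → ℂ → ℝ := fun i => prof (i.1.1 + 1) (A i.1 0 (i.1.1 + 1)) (i.2 + 1)
  have hU : ∀ i, WProf B' (U i) := by
    intro i
    refine hprof κ (S ((i.1.1 : ℝ) + 1)) ((i.1.1 : ℝ) + 1) (1 / ((i.1.2 : ℝ) + 1)) (N i.1)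
      (A i.1) (e i.1) ((i.2 : ℝ) + 1) (hP i.1) ?_ (hN i.1) ?_
    · have : (0 : ℝ) ≤ i.1.1 := Nat.cast_nonneg _
      linarith
    · have : (0 : ℝ) ≤ i.2 := Nat.cast_nonneg _
      linarith
  let E : ℕ → (ℕ × ℕ) × ℕ := fun n => Denumerable.ofNat ((ℕ × ℕ) × ℕ) n
  have hE : ∀ i, E (Encodable.encode i) = i := fun i => Denumerable.ofNat_encode i
  -- the size
  set δ₀ := min (ε / (2 * C)) (c₁ / (4 * C)) with hδ₀
  have hδ0 : 0 < δ₀ := lt_min (by positivity) (by positivity)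
  have hδ1 : C * δ₀ ≤ ε / 2 := by
    have h1 : δ₀ ≤ ε / (2 * C) := min_le_left _ _
    calc C * δ₀ ≤ C * (ε / (2 * C)) := by gcongr
      _ = ε / 2 := by field_simp
  have hδ2 : 2 * (C * δ₀) ≤ c₁ / 2 := by
    have h1 : δ₀ ≤ c₁ / (4 * C) := min_le_right _ _
    calc 2 * (C * δ₀) ≤ 2 * (C * (c₁ / (4 * C))) := by gcongr
      _ = c₁ / 2 := by field_simp; ring
  -- the function in the frame
  have hτ0 : τ ≠ 0 := by
    intro h
    rw [h, norm_zero] at hτ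
    exact zero_ne_one hτ
  have hfd : DifferentiableOn ℝ f (Metric.ball a ρ) := hf.1
  have hgd : Differentiable ℝ g₁ := differentiableOn_univ.1 hgn.1
  have hcont : ContinuousOn (fun y => f (a + τ * y) + g₁ (a + τ * y)) (Metric.ball 0 ρ) := by
    have hmap : MapsTo (fun y : ℂ => a + τ * y) (Metric.ball 0 ρ) (Metric.ball a ρ) := by
      intro y hy
      rw [Metric.mem_ball, dist_eq_norm] at hy ⊢
      rw [add_sub_cancel_left, norm_mul, hτ, one_mul]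
      simpa using hy
    have h1 : Continuous (fun y : ℂ => a + τ * y) := by fun_prop
    exact (hfd.continuousOn.comp h1.continuousOn hmap).add
      ((hgd.continuous.comp h1).continuousOn)
  obtain ⟨h, hh0, hhn, hhm, hhz, hhd, hwavy⟩ := hwaves (fun n => U (E n)) (fun n => hU (E n))
    (fun y => f (a + τ * y) + g₁ (a + τ * y)) ρ δ₀ hρ hδ0 hcont
  obtain ⟨r1, r2, r3⟩ := norm_rot (a := a) hτ hhn
  set T : ℂ → ℝ := fun x => h (τ⁻¹ * (x - a)) with hT
  have hTd : Differentiable ℝ T := differentiableOn_univ.1 r1.1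
  have hT0 : ∀ x, x ∉ Metric.ball a ρ → T x = 0 := by
    intro x hx
    apply hh0
    rw [Metric.mem_ball, dist_eq_norm] at hx ⊢
    rw [sub_zero, norm_mul, norm_inv, hτ, inv_one, one_mul]
    exact hx
  have hint : ∀ k : ℂ → ℝ, Continuous k → (∀ x, x ∉ Metric.ball a ρ → k x = 0) →
      Integrable k := by
    intro k hk hk0
    refine hk.integrable_of_hasCompactSupport
      (HasCompactSupport.intro (isCompact_closedBall a ρ) fun x hx => hk0 x ?_)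
    exact fun hx' => hx (Metric.ball_subset_closedBall hx')
  have haU : Metric.ball a ρ ∈ 𝓝 a := Metric.ball_mem_nhds a hρ
  have hfa : DifferentiableAt ℝ f a := hfd.differentiableAt haU
  refine ⟨fun x => g₁ x + T x, c₁ - 2 * (C * δ₀), β, δ₀ / 2, B, κ, τ, S, N, A, e, ?_, ?_, ?_, ?_,
    ?_, hβ, hτ, ?_, half_pos hδ0, hB, hκ, hS, hN, hP, ?_⟩
  · intro x hx
    show g₁ x + T x = 0
    rw [hg0 x hx, hT0 x hx, add_zero]
  · have h1 := hgn.add isOpen_univ r1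
    exact h1.mono (by linarith)
  · rw [integral_add (hint g₁ hgd.continuous hg0) (hint T hTd.continuous hT0), hgm, r2, hhm,
      add_zero]
  · linarith
  · have h1 := rough_add (D := 2 * (C * δ₀)) hrough (fun x v => second_diff_le hα r1 x v)
    have h2 : (fun x => f x + (g₁ x + T x)) = fun x => f x + g₁ x + T x := by
      funext x; ring
    rw [h2]
    exact h1
  · intro z
    have h2 : (fun x => f x + (g₁ x + T x)) = (fun x => f x + g₁ x) + T := by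
      funext x
      simp only [Pi.add_apply]
      ring
    have h3 : fderiv ℝ T a = 0 := by
      ext v
      rw [r3 v, hhd]
      simp
    have h4 : DifferentiableAt ℝ (fun x => f x + g₁ x) a := hfa.add hgd.differentiableAt
    rw [h2, fderiv_add h4 hTd.differentiableAt, h3, add_zero]
    exact hrot z
  · intro i ε' hε'
    obtain ⟨r, hr0, hr, hle⟩ := hwavy (Encodable.encode i) ε' hε'
    refine ⟨r, hr0, hr, ?_⟩
    have h1 : ∀ y : ℂ, T (a + τ * y) = h y := by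
      intro y
      show h (τ⁻¹ * (a + τ * y - a)) = h y
      rw [add_sub_cancel_left, ← mul_assoc, inv_mul_cancel₀ hτ0, one_mul]
    have h2 : ∀ y : ℂ, f (a + τ * y) + (g₁ (a + τ * y) + T (a + τ * y)) =
        f (a + τ * y) + g₁ (a + τ * y) + h y := by
      intro y
      rw [h1, add_assoc]
    simp only [hE] at hle
    simp only [h2]
    exact hle

end Pool.Agent.YUR
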