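import Pool.Agent.YUR.T3
import Pool.Agent.YUR.R
import Pool.Agent.YUR.F6
import Pool.Agent.YUR.F7
import Pool.Agent.YUR.L4
import Pool.Agent.YUB.S6
import Pool.Agent.YUB.S7
import Pool.Agent.YUB.G1

open MeasureTheory Set Filter Topology
open scoped ContDiff

namespace Pool.Agent.YUR

open Pool.Agent.YUD Pool.Agent.YUT Pool.Agent.YUB

/-- [YUR-T4] only `w` near `0` matters (`r` small) -/
theorem wavy_congr {ι : Type} {δ α ρ : ℝ} {U : ι → ℂ → ℝ} (hU : ∀ i, ∃ ρ' : ℝ, ∀ z, ρ' ≤ ‖z‖ → U i z = 0)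
    {w w' : ℂ → ℝ} (hρ : 0 < ρ) (h : ∀ y ∈ Metric.ball (0 : ℂ) ρ, w y = w' y)
    (hw : Wavy δ α U w) : Wavy δ α U w' := by
  intro i ε hε
  obtain ⟨ρ', hρ'⟩ := hU i
  obtain ⟨r, hr, hr1, hr2⟩ := hw i (min ε (ρ / max ρ' 1)) (by positivity)
  refine ⟨r, hr, hr1.trans_le (min_le_left _ _), ?_⟩
  have e : ∫ z, w ((r : ℂ) * z) * U i z = ∫ z, w' ((r : ℂ) * z) * U i z := by
    congr 1
    funext z
    by_cases hz : ρ' ≤ ‖z‖
    · rw [hρ' z hz, mul_zero, mul_zero]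
    · rw [h]
      rw [mem_ball_zero_iff, norm_mul, Complex.norm_real, Real.norm_of_nonneg hr.le]
      have h1 : r < ρ / max ρ' 1 := hr1.trans_le (min_le_right _ _)
      have h0 : 0 < max ρ' 1 := lt_of_lt_of_le one_pos (le_max_right _ _)
      rw [lt_div_iff₀ h0] at h1
      have h2 : ‖z‖ ≤ max ρ' 1 := (not_le.mp hz).le.trans (le_max_left _ _)
      calc r * ‖z‖ ≤ r * max ρ' 1 := mul_le_mul_of_nonneg_left h2 hr.le
        _ < ρ := h1
  rw [← e]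
  exact hr2

theorem T4_restrict {M N : Set ℂ} {α K : ℝ} {f : ℂ → ℝ} (h : N ⊆ M) (hf : NormLe M α K f) :
    NormLe N α K f := by
  obtain ⟨hd, a, b, c, ha, hb, hc, hac, h1, h2, h3⟩ := hf
  exact ⟨hd.mono h, a, b, c, ha, hb, hc, hac, fun x hx => h1 x (h hx), fun x hx => h2 x (h hx),
    fun x hx y hy => h3 x (h hx) y (h hy)⟩

theorem T4_rough {U : Set ℂ} {γ c : ℝ} {w w' : ℂ → ℝ} (h : RoughC U γ c w)
    (hw : ∀ x ∈ U, w x = w' x) : RoughC U γ c w' := by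
  intro x₀ hx₀ e he δ hδ
  obtain ⟨x, s, hs, hsδ, hx, hsub, hle⟩ := h x₀ hx₀ e he δ hδ
  refine ⟨x, s, hs, hsδ, hx, hsub, ?_⟩
  have h0 : x ∈ U := hsub (Metric.mem_closedBall_self hs.le)
  have h1 : x + s • e ∈ U := by
    apply hsub
    rw [mem_closedBall_iff_norm, add_sub_cancel_left, norm_smul, he, mul_one,
      Real.norm_of_nonneg hs.le]
  have h2 : x - s • e ∈ U := by
    apply hsub
    rw [mem_closedBall_iff_norm, sub_sub_cancel_left, norm_neg, norm_smul, he, mul_one,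
      Real.norm_of_nonneg hs.le]
  rw [← hw _ h0, ← hw _ h1, ← hw _ h2]
  exact hle

theorem T4_bound {α c K x : ℝ} (hα : 0 < α) (hc : 0 < c) (hx : 0 ≤ x)
    (h : c * x ^ (1 + α) ≤ 2 * K) : x ≤ 1 + 2 * |K| / c := by
  have h0 : 0 ≤ 2 * |K| / c := by positivity
  by_cases h1 : x ≤ 1
  · linarith
  · have h2 : x ≤ x ^ (1 + α) := by
      have := Real.rpow_le_rpow_of_exponent_le (not_le.mp h1).le (show (1 : ℝ) ≤ 1 + α by linarith)
      rwa [Real.rpow_one] at this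
    have h3 : x ^ (1 + α) ≤ 2 * |K| / c := by
      rw [le_div_iff₀ hc]
      linarith [le_abs_self K]
    linarith

/-- [YUR-T4] the theorem. Cf. the proof of `unbounded_growth` (`YUB/S7.lean`: choice of `ρ`, periodization, `cell_integral`). `a ∈ M`, `ρ` with
`ball a ρ ⊆ M`, `2ρ ≤ p`, `2ρ ≤ q`. `exists_data` on `ball a (ρ/2)` with `f = ws`, `ε/2`; `w₀ = ws + pz2 p q a ρ g` (`pz2_norm_one`). Suppose that
`NormLe M α K (lap (ψ t))` for all `t ≥ 0`. `rough_local_one` (`U = ball a (ρ/2)`, `N = M`; `RoughC` only sees the ball, where `w₀ = ws + g`) gives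
`‖fderiv (Φ t) x‖ ≤ L` for all `t ≥ 0`, `x ∈ U`; `loc_energy`; `pic_one` (`hF.weak`), `pic_scale`, `wavy_congr`, `no_pic`. -/
theorem instability {p q : ℝ} {M : Set ℂ} (hD : Dom p q M) (hne : M.Nonempty) {α : ℝ} (hα : 0 < α)
    (hα1 : α < 1) {ws : ℂ → ℝ} (hper : Per2 p q M ws) {K₀ : ℝ} (hws : NormLe M α K₀ ws) {ε : ℝ}
    (hε : 0 < ε) :
    ∃ w₀ : ℂ → ℝ, Per2 p q M w₀ ∧ (∫ x in Cell p q M, (w₀ x - ws x)) = 0 ∧
      NormLe M α ε (fun x => w₀ x - ws x) ∧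
      ∀ (ψ : ℝ → ℂ → ℝ) (Φ : ℝ → ℂ → ℂ), QFlow p q M w₀ ψ Φ →
        (∀ t, 0 ≤ t → ContDiffOn ℝ 2 (Φ t) M) → ∀ K : ℝ, ∃ t, 0 ≤ t ∧
          ¬ NormLe M α K (lap (ψ t)) := by
  have hp : p = 0 ∨ 0 < p := by
    rcases hD with ⟨h, -⟩ | ⟨h, -⟩ | ⟨h, -⟩
    · exact Or.inl h
    · exact Or.inr h
    · exact Or.inr h
  have hq : q = 0 ∨ 0 < q := by
    rcases hD with ⟨-, h, -⟩ | ⟨-, h, -⟩ | ⟨-, h, -⟩
    · exact Or.inl h
    · exact Or.inl h
    · exact Or.inr h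
  obtain ⟨a, ha⟩ := hne
  obtain ⟨ρ₀, hρ₀, hB⟩ := Metric.isOpen_iff.mp hD.isOpen a ha
  obtain ⟨ρ, hρ, hρ1, hρp, hρq⟩ : ∃ ρ : ℝ, 0 < ρ ∧ ρ ≤ ρ₀ ∧
      (0 < p → 2 * ρ ≤ p) ∧ (0 < q → 2 * ρ ≤ q) := by
    have aux : ∀ s : ℝ, s = 0 ∨ 0 < s → ∃ b : ℝ, 0 < b ∧ (0 < s → 2 * b ≤ s) := by
      intro s hs
      rcases hs with h | h
      · exact ⟨1, one_pos, fun h' => by linarith⟩
      · exact ⟨s / 2, by positivity, fun _ => by linarith⟩
    obtain ⟨b, hb, hb'⟩ := aux p hp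
    obtain ⟨b₂, hb₂, hb₂'⟩ := aux q hq
    refine ⟨min ρ₀ (min b b₂), by positivity, min_le_left _ _, ?_, ?_⟩
    · intro h
      have h1 := (min_le_right ρ₀ (min b b₂)).trans (min_le_left _ _)
      linarith [hb' h]
    · intro h
      have h1 := (min_le_right ρ₀ (min b b₂)).trans (min_le_right _ _)
      linarith [hb₂' h]
  have hρ2 : 0 < ρ / 2 := half_pos hρ
  have hBM : Metric.ball a ρ ⊆ M := (Metric.ball_subset_ball hρ1).trans hB
  have hB2 : Metric.ball a (ρ / 2) ⊆ Metric.ball a ρ := Metric.ball_subset_ball (by linarith)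
  obtain ⟨g, c, β, δ, B, κ, τ, S, N, A, e, hg0, hg, hgm, hc, hrough, hβ, hτ, hgrad, hδ, hB0, hκ,
    hS, hN, hpk, hwavy⟩ := exists_data hρ2 hα hα1 (T4_restrict (hB2.trans hBM) hws) (half_pos hε)
  obtain ⟨hgper, hgball, hgn⟩ := pz2_norm_one hp hq hρ hρp hρq hα hg0 hg
  have e1 : (fun x => ws x + pz2 p q a ρ g x - ws x) = pz2 p q a ρ g := by funext x; ring
  refine ⟨fun x => ws x + pz2 p q a ρ g x, fun x hx => ?_, ?_, ?_, fun ψ Φ hF hC2 K => ?_⟩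
  · obtain ⟨h1, h2⟩ := hper x hx
    obtain ⟨h3, h4⟩ := hgper x
    constructor
    · show ws (x + p) + pz2 p q a ρ g (x + p) = ws x + pz2 p q a ρ g x
      rw [h1, h3]
    · show ws (x + q * Complex.I) + pz2 p q a ρ g (x + q * Complex.I) = ws x + pz2 p q a ρ g x
      rw [h2, h4]
  · have hc : Continuous (pz2 p q a ρ g) := by
      have h1 := hgn.1.continuousOn
      rwa [continuousOn_univ] at h1
    have h1 := cell_integral hD hρ hBM hρp hρq (fun x hx => hg0 x fun h => hx (hB2 h)) hc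
    rw [hgm] at h1
    rw [← h1]
    show ∫ x in Cell p q M, (fun x => ws x + pz2 p q a ρ g x - ws x) x = _
    rw [e1]
  · have e2 : 2 * (ε / 2) = ε := by ring
    rw [e1]
    rw [e2] at hgn
    exact T4_restrict (subset_univ _) hgn
  · by_contra hcon
    push Not at hcon
    set w₀ : ℂ → ℝ := fun x => ws x + pz2 p q a ρ g x with hw₀
    have hwb : ∀ x ∈ Metric.ball a ρ, ws x + g x = w₀ x := fun x hx => by
      simp only [w₀]
      rw [hgball x hx]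
    have hr := T4_rough hrough (fun x hx => hwb x (hB2 hx))
    have hL : ∀ t, 0 ≤ t → ∀ x ∈ Metric.ball a (ρ / 2), ‖fderiv ℝ (Φ t) x‖ ≤ 1 + 2 * |K| / c := by
      intro t ht x hx
      refine T4_bound hα hc (norm_nonneg _) ?_
      exact rough_local_one Metric.isOpen_ball hD.isOpen hα hα1 ((hC2 t ht).mono (hB2.trans hBM))
        (fun y hy => (hF.bij t ht).mapsTo (hBM (hB2 hy))) (fun y hy => hF.area t ht y (hBM (hB2 hy)))
        (fun y hy => hF.vort t ht y (hBM (hB2 hy))) hr (hcon t ht) x hx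
    obtain ⟨ρ₁, E₀, hρ₁, hE⟩ := loc_energy hD hF
    have hgrad' : ∀ z : ℂ, fderiv ℝ w₀ a (τ * z) = β * z.im := by
      have h1 : (fun x => ws x + g x) =ᶠ[𝓝 a] w₀ := by
        filter_upwards [Metric.ball_mem_nhds a hρ] with x hx
        exact hwb x hx
      intro z
      rw [← h1.fderiv_eq]
      exact hgrad z
    obtain ⟨C, R, hR, k, γ, μ, ν, s, η, Y, hP⟩ := pic_one hα hα1 hD.isOpen hF.weak hρ2
      (hB2.trans hBM) hcon hL hρ₁ hE hτ hβ hgrad'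
    obtain ⟨B', -, hB'⟩ := prof_wprof hB0
    have hw' : Wavy δ α (fun (i : (ℕ × ℕ) × ℕ) =>
        prof (i.1.1 + 1) (A i.1 0 (i.1.1 + 1)) (i.2 + 1)) (fun y => w₀ (a + τ * y)) := by
      refine wavy_congr (fun i => ?_) hρ (fun y hy => ?_) hwavy
      · exact (hB' _ _ _ _ _ _ _ _ (hpk i.1) (by
          have : (0 : ℝ) ≤ (i.1.1 : ℝ) := Nat.cast_nonneg _
          linarith) (hN i.1) (by
          have : (0 : ℝ) ≤ (i.2 : ℝ) := Nat.cast_nonneg _
          linarith)).supp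
      · refine hwb _ ?_
        rw [mem_ball_iff_norm, add_sub_cancel_left, norm_mul, hτ, one_mul]
        rwa [mem_ball_zero_iff] at hy
    exact no_pic hα hα1 hR hδ hB0 hκ hS hN hpk
      (fun r hr hr1 => ⟨k, γ, μ, ν, _, _, _, pic_scale hα hα1 hP hr hr1⟩) hw'

end Pool.Agent.YUR
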