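import Pool.Agent.YUR.Defs
import Pool.Agent.YUB.C1a

open MeasureTheory Set Filter Topology
open scoped ContDiff

namespace Pool.Agent.YUR

open Pool.Agent.YUD Pool.Agent.YUT Pool.Agent.YUB

theorem X1_near {R a : ℝ} (hR : 0 < R) (ha : -2 < a) (c : ℂ) :
    IntegrableOn (fun ζ : ℂ => ‖ζ - c‖ ^ a) (Metric.ball c R) ∧
      ∫ ζ in Metric.ball c R, ‖ζ - c‖ ^ a = 2 * Real.pi * (R ^ (a + 2) / (a + 2)) := by
  set g : ℝ → ℝ := (Iio R).indicator (fun y => y ^ a) with hg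
  have hb : ∀ ζ : ℂ, ζ ∈ Metric.ball c R ↔ ‖ζ - c‖ < R := fun ζ => by
    rw [Metric.mem_ball, dist_eq_norm]
  have e1 : ((Metric.ball c R).indicator (fun ζ : ℂ => ‖ζ - c‖ ^ a)) = fun ζ => g ‖ζ - c‖ := by
    funext ζ
    by_cases h : ‖ζ - c‖ < R
    · rw [indicator_of_mem ((hb ζ).2 h), hg, indicator_of_mem (show ‖ζ - c‖ ∈ Iio R from h)]
    · rw [indicator_of_notMem (fun h' => h ((hb ζ).1 h')), hg,
        indicator_of_notMem (show ‖ζ - c‖ ∉ Iio R from h)]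
  have e2 : ∀ y ∈ Ioi (0 : ℝ), y * g y = (Iio R).indicator (fun y : ℝ => y ^ (a + 1)) y := by
    intro y hy
    have hy0 : (0 : ℝ) < y := hy
    by_cases h : y < R
    · rw [hg, indicator_of_mem (show y ∈ Iio R from h), indicator_of_mem (show y ∈ Iio R from h)]
      rw [Real.rpow_add_one hy0.ne']
      ring
    · rw [hg, indicator_of_notMem (show y ∉ Iio R from h),
        indicator_of_notMem (show y ∉ Iio R from h), mul_zero]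
  have e6 : Ioi (0 : ℝ) ∩ Iio R = Ioo 0 R := by
    rw [Ioi_inter_Iio]
  have e7 : IntervalIntegrable (fun y : ℝ => y ^ (a + 1)) volume 0 R :=
    intervalIntegral.intervalIntegrable_rpow' (by linarith)
  have e3 : IntegrableOn (fun y : ℝ => y ^ (a + 1)) (Ioo 0 R) := by
    rw [intervalIntegrable_iff_integrableOn_Ioo_of_le hR.le] at e7
    exact e7
  have e4 : IntegrableOn (fun y : ℝ => y * g y) (Ioi 0) := by
    rw [integrableOn_congr_fun e2 measurableSet_Ioi, IntegrableOn,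
      integrable_indicator_iff measurableSet_Iio, IntegrableOn,
      Measure.restrict_restrict measurableSet_Iio, inter_comm, e6]
    exact e3
  have e5 : ∫ y in Ioi (0 : ℝ), y * g y = R ^ (a + 2) / (a + 2) := by
    rw [setIntegral_congr_fun measurableSet_Ioi e2, setIntegral_indicator measurableSet_Iio, e6,
      ← integral_Ioc_eq_integral_Ioo, ← intervalIntegral.integral_of_le hR.le,
      integral_rpow (Or.inl (by linarith)), Real.zero_rpow (by linarith), sub_zero]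
    congr 1 <;> ring_nf
  constructor
  · rw [← integrable_indicator_iff measurableSet_ball, e1]
    exact (A2_int.2 e4).comp_sub_right c
  · rw [← integral_indicator measurableSet_ball, e1,
      integral_sub_right_eq_self (fun x : ℂ => g ‖x‖) c, A2_integral, e5]
    ring

theorem X1_rpow {x a : ℝ} (hx : 0 < x) (n : ℕ) : x ^ a * (x ^ n)⁻¹ = x ^ (a - n) := by
  rw [Real.rpow_sub hx, div_eq_mul_inv, Real.rpow_natCast]

/-- the moments of the kernel -/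
theorem X1_mom {G : ℂ → ℂ} {c : ℂ} {α ρ A N : ℝ} (hα : 0 < α) (hρ : 0 < ρ) (hA : 0 ≤ A)
    (hGc : Continuous G) (hGs : HasCompactSupport G)
    (hG : ∀ ζ, ‖ζ - c‖ < ρ → ‖G ζ‖ ≤ A * ‖ζ - c‖ ^ (1 + α))
    (hN : (∫ ζ in {ζ : ℂ | ρ ≤ ‖ζ - c‖}, ‖G ζ‖) ≤ N) (n : ℕ) (hn : n ≤ 3) :
    Integrable (fun ζ => G ζ / (c - ζ) ^ n) ∧
      ‖∫ ζ, G ζ / (c - ζ) ^ n‖ ≤ 2 * Real.pi * (A * (ρ ^ (3 + α - n) / (3 + α - n))) +
        N / ρ ^ n := by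
  have hn' : (n : ℝ) ≤ 3 := by exact_mod_cast hn
  obtain ⟨i1, b1⟩ := X1_near (R := ρ) (a := 1 + α - n) hρ (by linarith) c
  have hexp : 1 + α - n + 2 = 3 + α - n := by ring
  rw [hexp] at b1
  have hGi : Integrable G := hGc.integrable_of_hasCompactSupport hGs
  have mD := C1a_measD c ρ
  have hcompl : (Metric.ball c ρ)ᶜ = {ζ : ℂ | ρ ≤ ‖ζ - c‖} := by
    ext ζ
    rw [mem_compl_iff, Metric.mem_ball, dist_eq_norm, not_lt]
    rfl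
  have hmeas : AEStronglyMeasurable (fun ζ => G ζ / (c - ζ) ^ n) := by
    refine hGc.aestronglyMeasurable.div₀ ?_
    exact (Continuous.aestronglyMeasurable (by fun_prop))
  have p1 : ∀ ζ ∈ Metric.ball c ρ, ‖G ζ / (c - ζ) ^ n‖ ≤ A * ‖ζ - c‖ ^ (1 + α - n) := by
    intro ζ hζ
    rw [Metric.mem_ball, dist_eq_norm] at hζ
    rcases eq_or_lt_of_le (norm_nonneg (ζ - c)) with h0 | h0
    · have h1 := hG ζ hζ
      rw [← h0, Real.zero_rpow (by linarith), mul_zero] at h1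
      have h2 : G ζ = 0 := norm_le_zero_iff.1 h1
      rw [h2, zero_div, norm_zero]
      exact mul_nonneg hA (Real.rpow_nonneg (norm_nonneg _) _)
    · rw [norm_div, norm_pow, norm_sub_rev c ζ, div_eq_mul_inv, ← X1_rpow h0, ← mul_assoc]
      exact mul_le_mul_of_nonneg_right (hG ζ hζ) (by positivity)
  have p2 : ∀ ζ ∈ {ζ : ℂ | ρ ≤ ‖ζ - c‖}, ‖G ζ / (c - ζ) ^ n‖ ≤ (ρ ^ n)⁻¹ * ‖G ζ‖ := by
    intro ζ hζ
    have hζ' : ρ ≤ ‖c - ζ‖ := by rw [norm_sub_rev]; exact hζ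
    rw [norm_div, norm_pow, div_eq_inv_mul]
    apply mul_le_mul_of_nonneg_right _ (norm_nonneg _)
    exact inv_anti₀ (by positivity) (pow_le_pow_left₀ hρ.le hζ' n)
  have j1 : IntegrableOn (fun ζ => G ζ / (c - ζ) ^ n) (Metric.ball c ρ) :=
    Integrable.mono' (i1.const_mul A) hmeas.restrict
      ((ae_restrict_iff' measurableSet_ball).2 (ae_of_all _ p1))
  have j2 : IntegrableOn (fun ζ => G ζ / (c - ζ) ^ n) {ζ : ℂ | ρ ≤ ‖ζ - c‖} :=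
    Integrable.mono' ((hGi.norm.const_mul _).integrableOn) hmeas.restrict
      ((ae_restrict_iff' mD).2 (ae_of_all _ p2))
  have j : Integrable (fun ζ => G ζ / (c - ζ) ^ n) := by
    rw [← integrableOn_univ, ← union_compl_self (Metric.ball c ρ), hcompl]
    exact j1.union j2
  refine ⟨j, ?_⟩
  rw [← integral_add_compl measurableSet_ball j, hcompl]
  refine (norm_add_le _ _).trans (add_le_add ?_ ?_)
  · have h1 : ‖∫ ζ in Metric.ball c ρ, G ζ / (c - ζ) ^ n‖ ≤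
        ∫ ζ in Metric.ball c ρ, A * ‖ζ - c‖ ^ (1 + α - n) :=
      norm_integral_le_of_norm_le (i1.const_mul A)
        ((ae_restrict_iff' measurableSet_ball).2 (ae_of_all _ p1))
    rw [integral_const_mul, b1] at h1
    refine h1.trans (le_of_eq ?_)
    ring
  · have h1 : ‖∫ ζ in {ζ : ℂ | ρ ≤ ‖ζ - c‖}, G ζ / (c - ζ) ^ n‖ ≤
        ∫ ζ in {ζ : ℂ | ρ ≤ ‖ζ - c‖}, (ρ ^ n)⁻¹ * ‖G ζ‖ :=
      norm_integral_le_of_norm_le ((hGi.norm.const_mul _).integrableOn)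
        ((ae_restrict_iff' mD).2 (ae_of_all _ p2))
    rw [integral_const_mul] at h1
    refine h1.trans ?_
    rw [div_eq_inv_mul]
    exact mul_le_mul_of_nonneg_left hN (by positivity)

theorem X1_alg {g u v : ℂ} (hu : u ≠ 0) (huv : u + v ≠ 0) :
    g / (u + v) - g / u + v * (g / u ^ 2) - v ^ 2 * (g / u ^ 3) =
      -(g * v ^ 3 / (u ^ 3 * (u + v))) := by
  field_simp
  ring

theorem X1_norm {g u v : ℂ} (hu : u ≠ 0) (huv : u + v ≠ 0) :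
    ‖g / (u + v) - g / u + v * (g / u ^ 2) - v ^ 2 * (g / u ^ 3)‖ =
      ‖v‖ ^ 3 * (‖g‖ * ((‖u‖ ^ 3)⁻¹ * ‖u + v‖⁻¹)) := by
  rw [X1_alg hu huv, norm_neg, norm_div, norm_mul, norm_mul, norm_pow, norm_pow]
  rw [div_eq_mul_inv, mul_inv]
  ring


theorem X1_int1 {G : ℂ → ℂ} {c v : ℂ} {α ρ A : ℝ} (hα : 0 < α) (hα1 : α < 1) (hA : 0 ≤ A)
    (hv : 0 < ‖v‖) (hvρ : 2 * ‖v‖ ≤ ρ)
    (hG : ∀ ζ, ‖ζ - c‖ < ρ → ‖G ζ‖ ≤ A * ‖ζ - c‖ ^ (1 + α)) :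
    ‖∫ ζ in Metric.ball c (2 * ‖v‖), (G ζ / (c + v - ζ) - G ζ / (c - ζ) +
      v * (G ζ / (c - ζ) ^ 2) - v ^ 2 * (G ζ / (c - ζ) ^ 3))‖ ≤
        (8 * Real.pi / α + 24 * Real.pi) * (A * ‖v‖ ^ (2 + α)) := by
  obtain ⟨s, hs⟩ : ∃ s, s = ‖v‖ := ⟨_, rfl⟩
  rw [← hs] at hv hvρ ⊢
  have h2s : 0 < 2 * s := by linarith
  have hpi := Real.pi_pos
  obtain ⟨i1, b1⟩ := X1_near (R := 2 * s) (a := α - 2) h2s (by linarith) c
  obtain ⟨i2, b2⟩ := ker_ball h2s c (c + v)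
  have hsub : Metric.ball c (2 * s) ⊆ Metric.closedBall c (2 * s) := Metric.ball_subset_closedBall
  have i2' := i2.mono_set hsub
  have b2' : ∫ ζ in Metric.ball c (2 * s), ‖c + v - ζ‖⁻¹ ≤ 3 * Real.pi * (2 * s) := by
    refine le_trans ?_ b2
    apply setIntegral_mono_set i2
    · exact ae_of_all _ fun ζ => by
        change 0 ≤ ‖c + v - ζ‖⁻¹
        positivity
    · exact LE.le.eventuallyLE hsub
  have hint : IntegrableOn (fun ζ : ℂ => A * s ^ 3 * (2 / s * ‖ζ - c‖ ^ (α - 2) +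
      (s / 2) ^ (α - 2) * ‖c + v - ζ‖⁻¹)) (Metric.ball c (2 * s)) :=
    ((i1.const_mul _).add (i2'.const_mul _)).const_mul _
  have h1 : ‖∫ ζ in Metric.ball c (2 * s), (G ζ / (c + v - ζ) - G ζ / (c - ζ) +
      v * (G ζ / (c - ζ) ^ 2) - v ^ 2 * (G ζ / (c - ζ) ^ 3))‖ ≤
      ∫ ζ in Metric.ball c (2 * s), A * s ^ 3 * (2 / s * ‖ζ - c‖ ^ (α - 2) +
        (s / 2) ^ (α - 2) * ‖c + v - ζ‖⁻¹) := by
    apply norm_integral_le_of_norm_le hint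
    have hne : ∀ᵐ ζ : ℂ ∂volume, ζ ≠ c + v := by
      have := compl_mem_ae_iff.2 (measure_singleton (μ := (volume : Measure ℂ)) (c + v))
      filter_upwards [this] with ζ hζ
      exact hζ
    refine (ae_restrict_iff' measurableSet_ball).2 ?_
    filter_upwards [hne] with ζ hne hζ
    rw [Metric.mem_ball, dist_eq_norm] at hζ
    have hG1 := hG ζ (by linarith)
    rcases eq_or_lt_of_le (norm_nonneg (ζ - c)) with h0 | h0
    · rw [← h0, Real.zero_rpow (by linarith), mul_zero] at hG1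
      have h2 : G ζ = 0 := norm_le_zero_iff.1 hG1
      rw [h2]
      simp only [zero_div, mul_zero, sub_zero, add_zero, norm_zero]
      have := Real.rpow_nonneg (norm_nonneg (ζ - c)) (α - 2)
      have := Real.rpow_nonneg (by linarith : 0 ≤ s / 2) (α - 2)
      positivity
    · have hu : c - ζ ≠ 0 := by
        rw [← norm_pos_iff, norm_sub_rev]; exact h0
      have huv : c - ζ + v ≠ 0 := by
        intro h
        apply hne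
        linear_combination -h
      have h3 := X1_norm (g := G ζ) hu huv
      have h4 : c - ζ + v = c + v - ζ := by ring
      rw [h4, norm_sub_rev c ζ, ← hs] at h3
      rw [h3]
      have h5 : ‖G ζ‖ * ((‖ζ - c‖ ^ 3)⁻¹ * ‖c + v - ζ‖⁻¹) ≤
          A * ‖ζ - c‖ ^ (α - 2) * ‖c + v - ζ‖⁻¹ := by
        rw [← mul_assoc]
        apply mul_le_mul_of_nonneg_right _ (by positivity)
        have h6 : ‖ζ - c‖ ^ (α - 2) = ‖ζ - c‖ ^ (1 + α) * (‖ζ - c‖ ^ 3)⁻¹ := by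
          rw [X1_rpow h0]
          congr 1
          push_cast
          ring
        rw [h6, ← mul_assoc]
        exact mul_le_mul_of_nonneg_right hG1 (by positivity)
      have hX : 0 ≤ ‖ζ - c‖ ^ (α - 2) := Real.rpow_nonneg (norm_nonneg _) _
      have hY : 0 ≤ (s / 2) ^ (α - 2) := Real.rpow_nonneg (by linarith) _
      have hZ : 0 ≤ ‖c + v - ζ‖⁻¹ := by positivity
      have h7 : ‖ζ - c‖ ^ (α - 2) * ‖c + v - ζ‖⁻¹ ≤ 2 / s * ‖ζ - c‖ ^ (α - 2) +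
          (s / 2) ^ (α - 2) * ‖c + v - ζ‖⁻¹ := by
        rcases le_total ‖ζ - c‖ (s / 2) with h8 | h8
        · have h9 : s / 2 ≤ ‖c + v - ζ‖ := by
            have h10 : ‖v‖ ≤ ‖c + v - ζ‖ + ‖ζ - c‖ := by
              calc ‖v‖ = ‖(c + v - ζ) + (ζ - c)‖ := by congr 1; ring
                _ ≤ _ := norm_add_le _ _
            rw [← hs] at h10
            linarith
          have h11 : ‖c + v - ζ‖⁻¹ ≤ 2 / s := by
            have h12 : (2 : ℝ) / s = (s / 2)⁻¹ := by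
              rw [inv_div]
            rw [h12]
            exact inv_anti₀ (by linarith) h9
          have h13 := mul_le_mul_of_nonneg_left h11 hX
          have h14 := mul_nonneg hY hZ
          linarith
        · have h9 : ‖ζ - c‖ ^ (α - 2) ≤ (s / 2) ^ (α - 2) :=
            Real.rpow_le_rpow_of_nonpos (by linarith) h8 (by linarith)
          have h13 := mul_le_mul_of_nonneg_right h9 hZ
          have h14 : 0 ≤ 2 / s * ‖ζ - c‖ ^ (α - 2) := by positivity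
          linarith
      have h15 : 0 ≤ A * s ^ 3 := by positivity
      calc s ^ 3 * (‖G ζ‖ * ((‖ζ - c‖ ^ 3)⁻¹ * ‖c + v - ζ‖⁻¹))
          ≤ s ^ 3 * (A * ‖ζ - c‖ ^ (α - 2) * ‖c + v - ζ‖⁻¹) :=
            mul_le_mul_of_nonneg_left h5 (by positivity)
        _ = A * s ^ 3 * (‖ζ - c‖ ^ (α - 2) * ‖c + v - ζ‖⁻¹) := by ring
        _ ≤ _ := mul_le_mul_of_nonneg_left h7 h15
  rw [integral_const_mul, integral_add (i1.const_mul _) (i2'.const_mul _), integral_const_mul,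
    integral_const_mul, b1] at h1
  refine h1.trans ?_
  have q1 : (2 * s) ^ (α - 2 + 2) ≤ 2 * s ^ α := by
    rw [sub_add_cancel, Real.mul_rpow two_pos.le hv.le]
    apply mul_le_mul_of_nonneg_right _ (Real.rpow_nonneg hv.le _)
    calc (2 : ℝ) ^ α ≤ 2 ^ (1 : ℝ) := Real.rpow_le_rpow_of_exponent_le one_le_two hα1.le
      _ = 2 := Real.rpow_one 2
  have q2 : (s / 2) ^ (α - 2) ≤ 4 * s ^ (α - 2) := by
    rw [Real.div_rpow hv.le two_pos.le, div_eq_mul_inv, mul_comm, ← Real.rpow_neg two_pos.le]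
    apply mul_le_mul_of_nonneg_right _ (Real.rpow_nonneg hv.le _)
    calc (2 : ℝ) ^ (-(α - 2)) ≤ 2 ^ (2 : ℝ) :=
          Real.rpow_le_rpow_of_exponent_le one_le_two (by linarith)
      _ = 4 := by norm_num
  have q3 : s ^ (2 + α) = s ^ 2 * s ^ α := by
    rw [Real.rpow_add hv]
    norm_cast
  have q4 : s ^ α = s ^ 2 * s ^ (α - 2) := by
    have : s ^ α = s ^ ((2 : ℝ) + (α - 2)) := by congr 1; ring
    rw [this, Real.rpow_add hv]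
    norm_cast
  obtain ⟨x, hx⟩ : ∃ x, x = s ^ (α - 2) := ⟨_, rfl⟩
  have hx0 : 0 ≤ x := by rw [hx]; exact Real.rpow_nonneg hv.le _
  rw [← hx] at q2 q4
  rw [q4] at q1 q3
  rw [q3]
  have t1 : 2 / s * (2 * Real.pi * ((2 * s) ^ (α - 2 + 2) / (α - 2 + 2))) ≤
      8 * Real.pi / α * (s * x) := by
    rw [sub_add_cancel] at q1 ⊢
    calc 2 / s * (2 * Real.pi * ((2 * s) ^ α / α)) =
        (4 * Real.pi / α / s) * (2 * s) ^ α := by ring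
      _ ≤ (4 * Real.pi / α / s) * (2 * (s ^ 2 * x)) :=
          mul_le_mul_of_nonneg_left q1 (by positivity)
      _ = _ := by field_simp; ring
  have t2 : (s / 2) ^ (α - 2) * ∫ ζ in Metric.ball c (2 * s), ‖c + v - ζ‖⁻¹ ≤
      24 * Real.pi * (s * x) := by
    calc (s / 2) ^ (α - 2) * ∫ ζ in Metric.ball c (2 * s), ‖c + v - ζ‖⁻¹
        ≤ (4 * x) * (3 * Real.pi * (2 * s)) := by
          apply mul_le_mul q2 b2' _ (by positivity)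
          exact integral_nonneg fun ζ => by
            change 0 ≤ ‖c + v - ζ‖⁻¹
            positivity
      _ = _ := by ring
  calc A * s ^ 3 * (2 / s * (2 * Real.pi * ((2 * s) ^ (α - 2 + 2) / (α - 2 + 2))) +
        (s / 2) ^ (α - 2) * ∫ ζ in Metric.ball c (2 * s), ‖c + v - ζ‖⁻¹)
      ≤ A * s ^ 3 * (8 * Real.pi / α * (s * x) + 24 * Real.pi * (s * x)) :=
        mul_le_mul_of_nonneg_left (add_le_add t1 t2) (by positivity)
    _ = _ := by ring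

theorem X1_int2 {G : ℂ → ℂ} {c v : ℂ} {α ρ A N : ℝ} (hα : 0 < α) (hα1 : α < 1) (hA : 0 ≤ A)
    (hv : 0 < ‖v‖) (hvρ : 2 * ‖v‖ ≤ ρ) (hGc : Continuous G) (hGs : HasCompactSupport G)
    (hG : ∀ ζ, ‖ζ - c‖ < ρ → ‖G ζ‖ ≤ A * ‖ζ - c‖ ^ (1 + α))
    (hN : (∫ ζ in {ζ : ℂ | ρ ≤ ‖ζ - c‖}, ‖G ζ‖) ≤ N) :
    ‖∫ ζ in {ζ : ℂ | 2 * ‖v‖ ≤ ‖ζ - c‖}, (G ζ / (c + v - ζ) - G ζ / (c - ζ) +
      v * (G ζ / (c - ζ) ^ 2) - v ^ 2 * (G ζ / (c - ζ) ^ 3))‖ ≤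
        4 * Real.pi / (1 - α) * (A * ‖v‖ ^ (2 + α)) + 2 * (N / ρ ^ 4 * ‖v‖ ^ 3) := by
  obtain ⟨s, hs⟩ : ∃ s, s = ‖v‖ := ⟨_, rfl⟩
  rw [← hs] at hv hvρ ⊢
  have h2s : 0 < 2 * s := by linarith
  have hρ0 : 0 < ρ := by linarith
  have hpi := Real.pi_pos
  obtain ⟨i1, b1⟩ := ker_far h2s hα1 c
  have hGi : Integrable (fun ζ => ‖G ζ‖) := (hGc.integrable_of_hasCompactSupport hGs).norm
  have mE := C1a_measD c ρ
  have mD := C1a_measD c (2 * s)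
  have i4 : IntegrableOn ({ζ : ℂ | ρ ≤ ‖ζ - c‖}.indicator (fun ζ => ‖G ζ‖))
      {ζ : ℂ | 2 * s ≤ ‖ζ - c‖} := (hGi.indicator mE).integrableOn
  have b4 : ∫ ζ in {ζ : ℂ | 2 * s ≤ ‖ζ - c‖},
      {ζ : ℂ | ρ ≤ ‖ζ - c‖}.indicator (fun ζ => ‖G ζ‖) ζ ≤ N := by
    rw [setIntegral_indicator mE]
    have h1 : {ζ : ℂ | 2 * s ≤ ‖ζ - c‖} ∩ {ζ : ℂ | ρ ≤ ‖ζ - c‖} = {ζ : ℂ | ρ ≤ ‖ζ - c‖} := by
      apply inter_eq_right.2
      intro ζ hζ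
      exact hvρ.trans hζ
    rw [h1]
    exact hN
  have hint : IntegrableOn (fun ζ : ℂ => 2 * s ^ 3 * (A * ‖ζ - c‖ ^ (α - 3) +
      (ρ ^ 4)⁻¹ * ({ζ : ℂ | ρ ≤ ‖ζ - c‖}.indicator (fun ζ => ‖G ζ‖) ζ)))
      {ζ : ℂ | 2 * s ≤ ‖ζ - c‖} := ((i1.const_mul _).add (i4.const_mul _)).const_mul _
  have h1 : ‖∫ ζ in {ζ : ℂ | 2 * s ≤ ‖ζ - c‖}, (G ζ / (c + v - ζ) - G ζ / (c - ζ) +
      v * (G ζ / (c - ζ) ^ 2) - v ^ 2 * (G ζ / (c - ζ) ^ 3))‖ ≤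
      ∫ ζ in {ζ : ℂ | 2 * s ≤ ‖ζ - c‖}, 2 * s ^ 3 * (A * ‖ζ - c‖ ^ (α - 3) +
        (ρ ^ 4)⁻¹ * ({ζ : ℂ | ρ ≤ ‖ζ - c‖}.indicator (fun ζ => ‖G ζ‖) ζ)) := by
    apply norm_integral_le_of_norm_le hint
    refine (ae_restrict_iff' mD).2 (ae_of_all _ fun ζ hζ => ?_)
    have hζ' : 2 * s ≤ ‖ζ - c‖ := hζ
    have h0 : 0 < ‖ζ - c‖ := by linarith
    have hu : c - ζ ≠ 0 := by
      rw [← norm_pos_iff, norm_sub_rev]; exact h0
    have h9 : ‖ζ - c‖ / 2 ≤ ‖c + v - ζ‖ := by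
      have h10 : ‖ζ - c‖ ≤ ‖c + v - ζ‖ + ‖v‖ := by
        calc ‖ζ - c‖ = ‖v - (c + v - ζ)‖ := by congr 1; ring
          _ ≤ ‖v‖ + ‖c + v - ζ‖ := norm_sub_le _ _
          _ = _ := add_comm _ _
      rw [← hs] at h10
      linarith
    have huv : c - ζ + v ≠ 0 := by
      rw [← norm_pos_iff]
      have h4 : c - ζ + v = c + v - ζ := by ring
      rw [h4]
      linarith
    have h3 := X1_norm (g := G ζ) hu huv
    have h4 : c - ζ + v = c + v - ζ := by ring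
    rw [h4, norm_sub_rev c ζ, ← hs] at h3
    rw [h3]
    have h11 : ‖c + v - ζ‖⁻¹ ≤ 2 * ‖ζ - c‖⁻¹ := by
      have h12 : 2 * ‖ζ - c‖⁻¹ = (‖ζ - c‖ / 2)⁻¹ := by
        rw [inv_div]; ring
      rw [h12]
      exact inv_anti₀ (by linarith) h9
    have h5 : ‖G ζ‖ * ((‖ζ - c‖ ^ 3)⁻¹ * ‖c + v - ζ‖⁻¹) ≤ 2 * (‖G ζ‖ * (‖ζ - c‖ ^ 4)⁻¹) := by
      calc ‖G ζ‖ * ((‖ζ - c‖ ^ 3)⁻¹ * ‖c + v - ζ‖⁻¹)
          ≤ ‖G ζ‖ * ((‖ζ - c‖ ^ 3)⁻¹ * (2 * ‖ζ - c‖⁻¹)) := by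
            apply mul_le_mul_of_nonneg_left _ (norm_nonneg _)
            exact mul_le_mul_of_nonneg_left h11 (by positivity)
        _ = _ := by
            rw [show ‖ζ - c‖ ^ 4 = ‖ζ - c‖ ^ 3 * ‖ζ - c‖ by ring, mul_inv]
            ring
    have h6 : ‖G ζ‖ * (‖ζ - c‖ ^ 4)⁻¹ ≤ A * ‖ζ - c‖ ^ (α - 3) +
        (ρ ^ 4)⁻¹ * ({ζ : ℂ | ρ ≤ ‖ζ - c‖}.indicator (fun ζ => ‖G ζ‖) ζ) := by
      rcases lt_or_ge ‖ζ - c‖ ρ with h | h
      · have h1 : ζ ∉ {ζ : ℂ | ρ ≤ ‖ζ - c‖} := not_le.2 h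
        rw [indicator_of_notMem h1, mul_zero, add_zero]
        have h6 : ‖ζ - c‖ ^ (α - 3) = ‖ζ - c‖ ^ (1 + α) * (‖ζ - c‖ ^ 4)⁻¹ := by
          rw [X1_rpow h0]
          congr 1
          push_cast
          ring
        rw [h6, ← mul_assoc]
        exact mul_le_mul_of_nonneg_right (hG ζ h) (by positivity)
      · have h1 : ζ ∈ {ζ : ℂ | ρ ≤ ‖ζ - c‖} := h
        rw [indicator_of_mem h1]
        have h2 : (‖ζ - c‖ ^ 4)⁻¹ ≤ (ρ ^ 4)⁻¹ :=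
          inv_anti₀ (by positivity) (pow_le_pow_left₀ hρ0.le h 4)
        have h3 : ‖G ζ‖ * (‖ζ - c‖ ^ 4)⁻¹ ≤ (ρ ^ 4)⁻¹ * ‖G ζ‖ := by
          rw [mul_comm]
          exact mul_le_mul_of_nonneg_right h2 (norm_nonneg _)
        have h4 : 0 ≤ A * ‖ζ - c‖ ^ (α - 3) := mul_nonneg hA (Real.rpow_nonneg h0.le _)
        exact h3.trans (le_add_of_nonneg_left h4)
    calc s ^ 3 * (‖G ζ‖ * ((‖ζ - c‖ ^ 3)⁻¹ * ‖c + v - ζ‖⁻¹))
        ≤ s ^ 3 * (2 * (‖G ζ‖ * (‖ζ - c‖ ^ 4)⁻¹)) :=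
          mul_le_mul_of_nonneg_left h5 (by positivity)
      _ ≤ s ^ 3 * (2 * (A * ‖ζ - c‖ ^ (α - 3) +
          (ρ ^ 4)⁻¹ * ({ζ : ℂ | ρ ≤ ‖ζ - c‖}.indicator (fun ζ => ‖G ζ‖) ζ))) := by
          apply mul_le_mul_of_nonneg_left _ (by positivity)
          linarith
      _ = _ := by ring
  rw [integral_const_mul, integral_add (i1.const_mul _) (i4.const_mul _), integral_const_mul,
    integral_const_mul, b1] at h1
  refine h1.trans ?_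
  have hα1' : 0 < 1 - α := by linarith
  have q1 : (2 * s) ^ (α - 1) ≤ s ^ (α - 1) :=
    Real.rpow_le_rpow_of_nonpos hv (by linarith) (by linarith)
  have q3 : s ^ (2 + α) = s ^ 3 * s ^ (α - 1) := by
    have : s ^ (2 + α) = s ^ ((3 : ℝ) + (α - 1)) := by congr 1; ring
    rw [this, Real.rpow_add hv]
    norm_cast
  rw [q3]
  have t1 : A * (2 * Real.pi * ((2 * s) ^ (α - 1) / (1 - α))) ≤
      2 * Real.pi / (1 - α) * (A * s ^ (α - 1)) := by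
    calc A * (2 * Real.pi * ((2 * s) ^ (α - 1) / (1 - α))) =
        2 * Real.pi / (1 - α) * (A * (2 * s) ^ (α - 1)) := by ring
      _ ≤ _ := by
          apply mul_le_mul_of_nonneg_left _ (by positivity)
          exact mul_le_mul_of_nonneg_left q1 hA
  have t2 : (ρ ^ 4)⁻¹ * ∫ ζ in {ζ : ℂ | 2 * s ≤ ‖ζ - c‖},
      {ζ : ℂ | ρ ≤ ‖ζ - c‖}.indicator (fun ζ => ‖G ζ‖) ζ ≤ (ρ ^ 4)⁻¹ * N :=
    mul_le_mul_of_nonneg_left b4 (by positivity)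
  calc 2 * s ^ 3 * (A * (2 * Real.pi * ((2 * s) ^ (α - 1) / (1 - α))) +
        (ρ ^ 4)⁻¹ * ∫ ζ in {ζ : ℂ | 2 * s ≤ ‖ζ - c‖},
          {ζ : ℂ | ρ ≤ ‖ζ - c‖}.indicator (fun ζ => ‖G ζ‖) ζ)
      ≤ 2 * s ^ 3 * (2 * Real.pi / (1 - α) * (A * s ^ (α - 1)) + (ρ ^ 4)⁻¹ * N) :=
        mul_le_mul_of_nonneg_left (add_le_add t1 t2) (by positivity)
    _ = _ := by
        rw [div_eq_mul_inv N]
        ring

/-- [YUR-X1] expansion of a Cauchy integral to second order. Cf. `ker_expand` (`YUB/C1a.lean`, copy its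
structure). With `u = c - ζ` (`‖u‖ = ‖ζ - c‖`): `1/(u + v) = 1/u - v/u² + v²/u³ - v³/(u³ (u + v))`. So
`b₁ = -∫ G ζ/(c - ζ)²`, `b₂ = ∫ G ζ/(c - ζ)³` (absolutely convergent, as `‖G ζ‖ ≤ A ‖ζ - c‖^(1+α)` near `c`:
`∫_{‖ζ-c‖<ρ} ‖ζ-c‖^(α-1) = 2π ρ^(1+α)/(1+α)`, `∫_{‖ζ-c‖<ρ} ‖ζ-c‖^(α-2) = 2π ρ^α/α`), and the remainder is at most
`‖v‖³ ∫ ‖G ζ‖/(‖ζ-c‖³ ‖c+v-ζ‖)`. Near part (`‖ζ-c‖ < ρ`): `A ‖v‖³ ∫ ‖ζ-c‖^(α-2)/‖c+v-ζ‖ ≤ C A ‖v‖^(2+α)`: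
for `‖ζ-c‖ ≤ ‖v‖/2` use `‖c+v-ζ‖ ≥ ‖v‖/2` and the integral of `‖ζ-c‖^(α-2)`; for `‖v‖/2 < ‖ζ-c‖ ≤ 2‖v‖` use
`‖ζ-c‖^(α-2) ≤ (‖v‖/2)^(α-2)` and `ker_ball`; for `‖ζ-c‖ > 2‖v‖` use `‖c+v-ζ‖ ≥ ‖ζ-c‖/2` and `ker_far`
(`∫_{‖ζ-c‖≥R} ‖ζ-c‖^(α-3) = 2π R^(α-1)/(1-α)`). Far part (`ρ ≤ ‖ζ-c‖`): `‖c+v-ζ‖ ≥ 3ρ/4`, so at most
`‖v‖³ N (4/3)/ρ⁴`. (`v = 0` is trivial.) -/
theorem ker3 {α : ℝ} (hα : 0 < α) (hα1 : α < 1) : ∃ C : ℝ, 0 < C ∧
    ∀ (G : ℂ → ℂ) (c : ℂ) (ρ A N : ℝ), 0 < ρ → 0 ≤ A → Continuous G → HasCompactSupport G →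
      (∀ ζ, ‖ζ - c‖ < ρ → ‖G ζ‖ ≤ A * ‖ζ - c‖ ^ (1 + α)) →
      (∫ ζ in {ζ : ℂ | ρ ≤ ‖ζ - c‖}, ‖G ζ‖) ≤ N →
      ∃ b₁ b₂ : ℂ, ‖b₁‖ ≤ C * (A * ρ ^ (1 + α) + N / ρ ^ 2) ∧
        ‖b₂‖ ≤ C * (A * ρ ^ α + N / ρ ^ 3) ∧ ∀ v : ℂ, ‖v‖ ≤ ρ / 4 →
          ‖(∫ ζ, G ζ / (c + v - ζ)) - (∫ ζ, G ζ / (c - ζ)) - b₁ * v - b₂ * v ^ 2‖ ≤
            C * (A * ‖v‖ ^ (2 + α) + N / ρ ^ 4 * ‖v‖ ^ 3) := by
  have hpi := Real.pi_pos
  have hα1' : 0 < 1 - α := by linarith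
  obtain ⟨C, hC⟩ : ∃ C, C = 2 * Real.pi / (1 + α) + 2 * Real.pi / α + 2 +
    ((8 * Real.pi / α + 24 * Real.pi) + 4 * Real.pi / (1 - α)) := ⟨_, rfl⟩
  have k1 : 0 ≤ 2 * Real.pi / (1 + α) := by positivity
  have k2 : 0 ≤ 2 * Real.pi / α := by positivity
  have k3 : 0 ≤ 8 * Real.pi / α + 24 * Real.pi := by positivity
  have k4 : 0 ≤ 4 * Real.pi / (1 - α) := by positivity
  refine ⟨C, by rw [hC]; linarith, ?_⟩
  intro G c ρ A N hρ hA hGc hGs hG hN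
  have hN0 : 0 ≤ N := le_trans (integral_nonneg fun ζ => norm_nonneg _) hN
  obtain ⟨m2, n2⟩ := X1_mom hα hρ hA hGc hGs hG hN 2 (by norm_num)
  obtain ⟨m3, n3⟩ := X1_mom hα hρ hA hGc hGs hG hN 3 le_rfl
  have e2 : (3 : ℝ) + α - (2 : ℕ) = 1 + α := by push_cast; ring
  have e3 : (3 : ℝ) + α - (3 : ℕ) = α := by push_cast; ring
  rw [e2] at n2
  rw [e3] at n3
  refine ⟨-∫ ζ, G ζ / (c - ζ) ^ 2, ∫ ζ, G ζ / (c - ζ) ^ 3, ?_, ?_, ?_⟩
  · rw [norm_neg]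
    refine n2.trans ?_
    have p1 : 0 ≤ A * ρ ^ (1 + α) := mul_nonneg hA (Real.rpow_nonneg hρ.le _)
    have p2 : 0 ≤ N / ρ ^ 2 := by positivity
    have q1 : 2 * Real.pi / (1 + α) * (A * ρ ^ (1 + α)) ≤ C * (A * ρ ^ (1 + α)) :=
      mul_le_mul_of_nonneg_right (by rw [hC]; linarith) p1
    have q2 : 1 * (N / ρ ^ 2) ≤ C * (N / ρ ^ 2) :=
      mul_le_mul_of_nonneg_right (by rw [hC]; linarith) p2
    calc 2 * Real.pi * (A * (ρ ^ (1 + α) / (1 + α))) + N / ρ ^ 2 =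
        2 * Real.pi / (1 + α) * (A * ρ ^ (1 + α)) + 1 * (N / ρ ^ 2) := by ring
      _ ≤ C * (A * ρ ^ (1 + α)) + C * (N / ρ ^ 2) := add_le_add q1 q2
      _ = _ := by ring
  · refine n3.trans ?_
    have p1 : 0 ≤ A * ρ ^ α := mul_nonneg hA (Real.rpow_nonneg hρ.le _)
    have p2 : 0 ≤ N / ρ ^ 3 := by positivity
    have q1 : 2 * Real.pi / α * (A * ρ ^ α) ≤ C * (A * ρ ^ α) :=
      mul_le_mul_of_nonneg_right (by rw [hC]; linarith) p1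
    have q2 : 1 * (N / ρ ^ 3) ≤ C * (N / ρ ^ 3) :=
      mul_le_mul_of_nonneg_right (by rw [hC]; linarith) p2
    calc 2 * Real.pi * (A * (ρ ^ α / α)) + N / ρ ^ 3 =
        2 * Real.pi / α * (A * ρ ^ α) + 1 * (N / ρ ^ 3) := by ring
      _ ≤ C * (A * ρ ^ α) + C * (N / ρ ^ 3) := add_le_add q1 q2
      _ = _ := by ring
  · intro v hv
    rcases eq_or_lt_of_le (norm_nonneg v) with h0 | h0
    · have hv0 : v = 0 := norm_eq_zero.1 h0.symm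
      rw [hv0, add_zero, sub_self, mul_zero, sub_zero, zero_pow two_ne_zero, mul_zero, sub_zero,
        norm_zero]
      have := Real.rpow_nonneg (norm_nonneg (0 : ℂ)) (2 + α)
      have : 0 < C := by rw [hC]; linarith
      positivity
    · have i1 := int_ker hGc hGs (c + v)
      have i2 := int_ker hGc hGs c
      have i12 : Integrable (fun ζ => G ζ / (c + v - ζ) - G ζ / (c - ζ)) := i1.sub i2
      have i123 : Integrable (fun ζ => G ζ / (c + v - ζ) - G ζ / (c - ζ) +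
          v * (G ζ / (c - ζ) ^ 2)) := i12.add (m2.const_mul v)
      have i1234 : Integrable (fun ζ => G ζ / (c + v - ζ) - G ζ / (c - ζ) +
          v * (G ζ / (c - ζ) ^ 2) - v ^ 2 * (G ζ / (c - ζ) ^ 3)) := i123.sub (m3.const_mul _)
      have hcompl : (Metric.ball c (2 * ‖v‖))ᶜ = {ζ : ℂ | 2 * ‖v‖ ≤ ‖ζ - c‖} := by
        ext ζ
        rw [mem_compl_iff, Metric.mem_ball, dist_eq_norm, not_lt]
        rfl
      have e1 : (∫ ζ, G ζ / (c + v - ζ)) - (∫ ζ, G ζ / (c - ζ)) -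
          (-∫ ζ, G ζ / (c - ζ) ^ 2) * v - (∫ ζ, G ζ / (c - ζ) ^ 3) * v ^ 2 =
          ∫ ζ, (G ζ / (c + v - ζ) - G ζ / (c - ζ) +
            v * (G ζ / (c - ζ) ^ 2) - v ^ 2 * (G ζ / (c - ζ) ^ 3)) := by
        rw [integral_sub i123 (m3.const_mul _), integral_add i12 (m2.const_mul v),
          integral_sub i1 i2, integral_const_mul, integral_const_mul]
        ring
      rw [e1, ← integral_add_compl measurableSet_ball i1234, hcompl]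
      have hvρ : 2 * ‖v‖ ≤ ρ := by linarith
      have t1 := X1_int1 hα hα1 hA h0 hvρ hG
      have t2 := X1_int2 hα hα1 hA h0 hvρ hGc hGs hG hN
      refine (norm_add_le _ _).trans ((add_le_add t1 t2).trans ?_)
      have p1 : 0 ≤ A * ‖v‖ ^ (2 + α) := mul_nonneg hA (Real.rpow_nonneg h0.le _)
      have p2 : 0 ≤ N / ρ ^ 4 * ‖v‖ ^ 3 := by positivity
      generalize A * ‖v‖ ^ (2 + α) = X at *
      generalize N / ρ ^ 4 * ‖v‖ ^ 3 = Y at *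
      have q1 : ((8 * Real.pi / α + 24 * Real.pi) + 4 * Real.pi / (1 - α)) * X ≤ C * X :=
        mul_le_mul_of_nonneg_right (by rw [hC]; linarith) p1
      have q2 : 2 * Y ≤ C * Y := mul_le_mul_of_nonneg_right (by rw [hC]; linarith) p2
      linarith

end Pool.Agent.YUR
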