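import Pool.Agent.YUR.X1
import Pool.Agent.YUB.C1c

open MeasureTheory Set Filter Topology
open scoped ContDiff

namespace Pool.Agent.YUR

open Pool.Agent.YUD Pool.Agent.YUT Pool.Agent.YUB

/-- the quadratic polynomial -/
noncomputable def X2_P (g₀ : ℝ) (a c : ℂ) (x : ℂ) : ℂ :=
  ((g₀ / 2 : ℝ) : ℂ) * (starRingEnd ℂ) (x - c) + (a / 2) * ((x - c) * (starRingEnd ℂ) (x - c)) +
    ((starRingEnd ℂ) a / 4) * (starRingEnd ℂ) (x - c) ^ 2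

theorem X2_conj (c ζ : ℂ) : HasFDerivAt (𝕜 := ℝ) (fun x : ℂ => (starRingEnd ℂ) (x - c))
    (Complex.conjCLE : ℂ →L[ℝ] ℂ) ζ := by
  have h2 := ((Complex.conjCLE : ℂ →L[ℝ] ℂ).hasFDerivAt (x := ζ - c)).comp ζ
    ((hasFDerivAt_id (𝕜 := ℝ) ζ).sub_const c)
  exact h2

theorem X2_P_smooth (g₀ : ℝ) (a c : ℂ) : ContDiff ℝ 1 (X2_P g₀ a c) := by
  have h1 : ContDiff ℝ 1 (fun x : ℂ => (starRingEnd ℂ) (x - c)) :=
    (Complex.conjCLE : ℂ →L[ℝ] ℂ).contDiff.comp (contDiff_id.sub contDiff_const)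
  have h2 : ContDiff ℝ 1 (fun x : ℂ => x - c) := contDiff_id.sub contDiff_const
  exact ((contDiff_const.mul h1).add (contDiff_const.mul (h2.mul h1))).add
    (contDiff_const.mul (h1.pow 2))

theorem X2_P_fderiv (g₀ : ℝ) (a c ζ h : ℂ) : fderiv ℝ (X2_P g₀ a c) ζ h =
    ((g₀ / 2 : ℝ) : ℂ) * (starRingEnd ℂ) h +
      (a / 2) * ((ζ - c) * (starRingEnd ℂ) h + (starRingEnd ℂ) (ζ - c) * h) +
      ((starRingEnd ℂ) a / 4) * (2 * (starRingEnd ℂ) (ζ - c) * (starRingEnd ℂ) h) := by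
  have h1 := X2_conj c ζ
  have h2 : HasFDerivAt (𝕜 := ℝ) (fun x : ℂ => x - c) (ContinuousLinearMap.id ℝ ℂ) ζ :=
    (hasFDerivAt_id (𝕜 := ℝ) ζ).sub_const c
  have h3 := h2.mul h1
  have h4 := h1.mul h1
  have h5 := ((h1.const_mul ((g₀ / 2 : ℝ) : ℂ)).add (h3.const_mul (a / 2))).add
    (h4.const_mul ((starRingEnd ℂ) a / 4))
  have e : X2_P g₀ a c = (fun y => ((g₀ / 2 : ℝ) : ℂ) * (starRingEnd ℂ) (y - c)) +
      (fun y => (a / 2) * ((fun x => x - c) * fun x => (starRingEnd ℂ) (x - c)) y) +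
      fun y => ((starRingEnd ℂ) a / 4) *
        ((fun x => (starRingEnd ℂ) (x - c)) * fun x => (starRingEnd ℂ) (x - c)) y := by
    funext x
    simp only [X2_P, Pi.add_apply, Pi.mul_apply]
    ring
  rw [e, h5.fderiv]
  simp only [_root_.add_apply, _root_.smul_apply, smul_eq_mul, ContinuousLinearMap.coe_id', id_eq,
    ContinuousLinearEquiv.coe_coe, Complex.conjCLE_apply]
  ring

theorem X2_P_db (g₀ : ℝ) (a c ζ : ℂ) :
    db (X2_P g₀ a c) ζ = ((g₀ + 2 * (a * (ζ - c)).re : ℝ) : ℂ) := by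
  unfold db
  rw [X2_P_fderiv, X2_P_fderiv]
  have h1 : ((g₀ + 2 * (a * (ζ - c)).re : ℝ) : ℂ) = (g₀ : ℂ) +
      (a * (ζ - c) + (starRingEnd ℂ) (a * (ζ - c))) := by
    rw [Complex.add_conj]; push_cast; ring
  rw [h1, map_mul, map_one, Complex.conj_I]
  push_cast
  linear_combination (-(g₀ : ℂ) / 2 + (a / 2) * ((starRingEnd ℂ) (ζ - c) - (ζ - c)) -
    ((starRingEnd ℂ) a / 2) * (starRingEnd ℂ) (ζ - c)) * Complex.I_sq

theorem X2_P_norm {g₀ K ρ : ℝ} {a c ζ : ℂ} (hρ : 0 < ρ) (hK : 0 ≤ K) (hg : |g₀| ≤ K) (ha : ‖a‖ ≤ K)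
    (hζ : ‖ζ - c‖ < ρ) : ‖X2_P g₀ a c ζ‖ ≤ K * (ρ + ρ ^ 2) := by
  unfold X2_P
  refine (norm_add_le _ _).trans ?_
  have h0 := norm_nonneg (ζ - c)
  have h1 : ‖((g₀ / 2 : ℝ) : ℂ) * (starRingEnd ℂ) (ζ - c)‖ ≤ K / 2 * ρ := by
    rw [norm_mul, Complex.norm_real, RCLike.norm_conj, Real.norm_eq_abs, abs_div, abs_two]
    exact mul_le_mul (by linarith) hζ.le h0 (by positivity)
  have h2 : ‖(a / 2) * ((ζ - c) * (starRingEnd ℂ) (ζ - c))‖ ≤ K / 2 * ρ ^ 2 := by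
    rw [norm_mul, norm_mul, RCLike.norm_conj, norm_div, Complex.norm_two]
    have : ‖ζ - c‖ * ‖ζ - c‖ ≤ ρ ^ 2 := by nlinarith
    exact mul_le_mul (by linarith) this (by positivity) (by positivity)
  have h3 : ‖((starRingEnd ℂ) a / 4) * (starRingEnd ℂ) (ζ - c) ^ 2‖ ≤ K / 4 * ρ ^ 2 := by
    rw [norm_mul, norm_pow, RCLike.norm_conj, norm_div, RCLike.norm_conj]
    have h4 : ‖(4 : ℂ)‖ = 4 := by norm_num
    rw [h4]
    have : ‖ζ - c‖ ^ 2 ≤ ρ ^ 2 := pow_le_pow_left₀ h0 hζ.le 2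
    exact mul_le_mul (by linarith) this (by positivity) (by positivity)
  have h5 := norm_add_le (((g₀ / 2 : ℝ) : ℂ) * (starRingEnd ℂ) (ζ - c))
    ((a / 2) * ((ζ - c) * (starRingEnd ℂ) (ζ - c)))
  have h6 : 0 ≤ K * ρ := by positivity
  have h7 : 0 ≤ K * ρ ^ 2 := by positivity
  nlinarith

/-- [YUR-X2] second order expansion of `W` with `db W = g`. Cf. `expansion` (`YUB/C1c.lean`, copy its proof).
`V ζ = W ζ - (g c/2) conj v - (a/2) v conj v - (conj a/4) (conj v)²`, `v = ζ - c`; then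
`db V = g - g c - 2 Re(a v)` on the ball (`db (conj v) = 2`, `db (v conj v) = 2 v`, `db ((conj v)²) = 4 conj v`,
`a v + conj a conj v = 2 Re(a v)`). Cutoff (`exists_cut`, `cut_contDiff`), `pompeiu` at `c + v` and `c`, `ker3` with the
radius `ρ/2`, `A = K`; `N` is a constant times `K + E` (`ρ` is fixed; `‖db χ‖ ≤ 2D/ρ`). Finally
`N ‖v‖³ ≤ N ρ^(1-α) ‖v‖^(2+α)`. Note `K ≥ 0`. -/
theorem expansion2 {α ρ : ℝ} (hα : 0 < α) (hα1 : α < 1) (hρ : 0 < ρ) : ∃ C : ℝ, 0 < C ∧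
    ∀ (W : ℂ → ℂ) (g : ℂ → ℝ) (c a : ℂ) (K E : ℝ), 0 ≤ E → ContDiffOn ℝ 1 W (Metric.ball c ρ) →
      (∀ ζ ∈ Metric.ball c ρ, db W ζ = g ζ) → |g c| ≤ K → ‖a‖ ≤ K →
      (∀ ζ ∈ Metric.ball c ρ, |g ζ - g c - 2 * (a * (ζ - c)).re| ≤ K * ‖ζ - c‖ ^ (1 + α)) →
      IntegrableOn W (Metric.ball c ρ) → (∫ ζ in Metric.ball c ρ, ‖W ζ‖) ≤ E →
      ∃ b₁ b₂ : ℂ, ‖b₁‖ ≤ C * (K + E) ∧ ‖b₂‖ ≤ C * (K + E) ∧ ∀ v : ℂ, ‖v‖ ≤ ρ / 8 →
        ‖W (c + v) - W c - b₁ * v - ((g c / 2 : ℝ) : ℂ) * (starRingEnd ℂ) v - b₂ * v ^ 2 -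
          (a / 2) * (v * (starRingEnd ℂ) v) - ((starRingEnd ℂ) a / 4) * (starRingEnd ℂ) v ^ 2‖ ≤
          C * (K + E) * ‖v‖ ^ (2 + α) := by
  obtain ⟨C₁, hC₁, hker⟩ := ker3 hα hα1
  obtain ⟨D, hD, hcut⟩ := exists_cut
  have hpi := Real.pi_pos
  set C' : ℝ := Real.pi * ρ ^ 2 * (ρ ^ (1 + α) + 2 * (D / ρ) * (ρ + ρ ^ 2)) + 2 * (D / ρ) with hC'
  have hC'0 : 0 < C' := by positivity
  refine ⟨C₁ * (((ρ / 2) ^ (1 + α) + C' / (ρ / 2) ^ 2) + ((ρ / 2) ^ α + C' / (ρ / 2) ^ 3) +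
    (1 + C' / (ρ / 2) ^ 4 * ρ ^ (1 - α))), by positivity, ?_⟩
  intro W g c a K E hE0 hW hdb hgc ha hg hWi hE
  have hK : 0 ≤ K := (abs_nonneg _).trans hgc
  obtain ⟨χ, hχ, hχ01, hχ1, hχ0, hχd⟩ := hcut c ρ hρ
  obtain ⟨V, hV⟩ : ∃ V : ℂ → ℂ, V = fun x => W x - X2_P (g c) a c x := ⟨_, rfl⟩
  have hVc : ContDiffOn ℝ 1 V (Metric.ball c ρ) := by
    rw [hV]
    exact hW.sub (X2_P_smooth _ _ _).contDiffOn
  have hVdb : ∀ ζ ∈ Metric.ball c ρ, db V ζ = ((g ζ - g c - 2 * (a * (ζ - c)).re : ℝ) : ℂ) := by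
    intro ζ hζ
    have h1 : DifferentiableAt ℝ W ζ :=
      (hW.differentiableOn one_ne_zero).differentiableAt (Metric.isOpen_ball.mem_nhds hζ)
    have h2 : DifferentiableAt ℝ (X2_P (g c) a c) ζ :=
      (X2_P_smooth (g c) a c).differentiable one_ne_zero ζ
    have h3 : db V ζ = db W ζ - db (X2_P (g c) a c) ζ := by
      unfold db
      have e : V = W - X2_P (g c) a c := by rw [hV]; rfl
      rw [e, (h1.hasFDerivAt.sub h2.hasFDerivAt).fderiv]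
      simp only [_root_.sub_apply]
      ring
    rw [h3, hdb ζ hζ, X2_P_db]
    push_cast
    ring
  obtain ⟨hf, hfc, hfdb, hfdb0, hχdb⟩ := cut_contDiff hχ hρ hχ0 hVc
  obtain ⟨f, hfdef⟩ : ∃ f : ℂ → ℂ, f = fun x => (χ x : ℂ) * V x := ⟨_, rfl⟩
  rw [← hfdef] at hf hfc hfdb hfdb0
  -- the near bound
  have hnear : ∀ ζ, ‖ζ - c‖ < ρ / 2 → ‖db f ζ‖ ≤ K * ‖ζ - c‖ ^ (1 + α) := by
    intro ζ hζ
    have hζb : ζ ∈ Metric.ball c ρ := by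
      rw [Metric.mem_ball, dist_eq_norm]; linarith
    rw [hfdb ζ hζb, hχ1 ζ (by linarith), C1c_dbloc hχ1 (by linarith), hVdb ζ hζb, zero_mul,
      add_zero, Complex.ofReal_one, one_mul, Complex.norm_real, Real.norm_eq_abs]
    exact hg ζ hζb
  -- the bound on the ball
  have hball : ∀ ζ ∈ Metric.ball c ρ, ‖db f ζ‖ ≤
      K * (ρ ^ (1 + α) + 2 * (D / ρ) * (ρ + ρ ^ 2)) + 2 * (D / ρ) * ‖W ζ‖ := by
    intro ζ hζ
    rw [hfdb ζ hζ, hVdb ζ hζ]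
    have hζ' := hζ
    rw [Metric.mem_ball, dist_eq_norm] at hζ
    have h1 : ‖((χ ζ : ℝ) : ℂ) * ((g ζ - g c - 2 * (a * (ζ - c)).re : ℝ) : ℂ)‖ ≤
        K * ρ ^ (1 + α) := by
      rw [norm_mul, Complex.norm_real, Complex.norm_real, Real.norm_eq_abs, Real.norm_eq_abs]
      have h2 : |χ ζ| ≤ 1 := by
        rw [abs_le]
        have := hχ01 ζ
        constructor <;> linarith [this.1, this.2]
      have h3 : |g ζ - g c - 2 * (a * (ζ - c)).re| ≤ K * ρ ^ (1 + α) := by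
        refine (hg ζ hζ').trans ?_
        exact mul_le_mul_of_nonneg_left
          (Real.rpow_le_rpow (norm_nonneg (ζ - c)) hζ.le (by linarith)) hK
      calc |χ ζ| * |g ζ - g c - 2 * (a * (ζ - c)).re| ≤ 1 * (K * ρ ^ (1 + α)) :=
            mul_le_mul h2 h3 (abs_nonneg _) zero_le_one
        _ = K * ρ ^ (1 + α) := one_mul _
    have h2 : ‖V ζ‖ ≤ ‖W ζ‖ + K * (ρ + ρ ^ 2) := by
      rw [hV]
      refine (norm_sub_le _ _).trans ?_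
      have := X2_P_norm hρ hK hgc ha hζ
      linarith
    have h3 : ‖db (fun x => (χ x : ℂ)) ζ * V ζ‖ ≤ 2 * (D / ρ) * (‖W ζ‖ + K * (ρ + ρ ^ 2)) := by
      rw [norm_mul]
      refine mul_le_mul ?_ h2 (norm_nonneg _) (by positivity)
      exact (hχdb ζ).trans (mul_le_mul_of_nonneg_left (hχd ζ) two_pos.le)
    refine (norm_add_le _ _).trans ((add_le_add h1 h3).trans (le_of_eq ?_))
    ring
  -- the far integral
  have hN : (∫ ζ in {ζ : ℂ | ρ / 2 ≤ ‖ζ - c‖}, ‖db f ζ‖) ≤ C' * (K + E) := by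
    have hdbc : Continuous (db f) := C1c_dbcont hf
    have hdbi : Integrable (fun ζ => ‖db f ζ‖) :=
      (hdbc.integrable_of_hasCompactSupport (C1c_dbsupp hfc)).norm
    have h1 : (∫ ζ in {ζ : ℂ | ρ / 2 ≤ ‖ζ - c‖}, ‖db f ζ‖) ≤ ∫ ζ, ‖db f ζ‖ :=
      setIntegral_le_integral hdbi (ae_of_all _ fun ζ => norm_nonneg _)
    have h2 : ∫ ζ, ‖db f ζ‖ = ∫ ζ in Metric.ball c ρ, ‖db f ζ‖ := by
      rw [setIntegral_eq_integral_of_forall_compl_eq_zero]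
      intro x hx
      rw [hfdb0 x hx, norm_zero]
    have hi1 : IntegrableOn (fun _ : ℂ => K * (ρ ^ (1 + α) + 2 * (D / ρ) * (ρ + ρ ^ 2)))
        (Metric.ball c ρ) := integrableOn_const (by rw [Complex.volume_ball]; finiteness)
    have hi2 : IntegrableOn (fun ζ : ℂ => 2 * (D / ρ) * ‖W ζ‖) (Metric.ball c ρ) :=
      hWi.norm.const_mul _
    have h3 : ∫ ζ in Metric.ball c ρ, ‖db f ζ‖ ≤ ∫ ζ in Metric.ball c ρ,
        (K * (ρ ^ (1 + α) + 2 * (D / ρ) * (ρ + ρ ^ 2)) + 2 * (D / ρ) * ‖W ζ‖) := by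
      apply setIntegral_mono_on hdbi.integrableOn (hi1.add hi2) measurableSet_ball
      intro ζ hζ
      exact hball ζ hζ
    have h4 : ∫ ζ in Metric.ball c ρ,
        (K * (ρ ^ (1 + α) + 2 * (D / ρ) * (ρ + ρ ^ 2)) + 2 * (D / ρ) * ‖W ζ‖) =
        Real.pi * ρ ^ 2 * (K * (ρ ^ (1 + α) + 2 * (D / ρ) * (ρ + ρ ^ 2))) +
          2 * (D / ρ) * ∫ ζ in Metric.ball c ρ, ‖W ζ‖ := by
      rw [integral_add hi1 hi2, setIntegral_const, C1c_vol c hρ.le, smul_eq_mul,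
        integral_const_mul]
    have h5 : 2 * (D / ρ) * ∫ ζ in Metric.ball c ρ, ‖W ζ‖ ≤ 2 * (D / ρ) * E :=
      mul_le_mul_of_nonneg_left hE (by positivity)
    have h6 : Real.pi * ρ ^ 2 * (K * (ρ ^ (1 + α) + 2 * (D / ρ) * (ρ + ρ ^ 2))) +
        2 * (D / ρ) * E ≤ C' * (K + E) := by
      have p1 : 0 ≤ Real.pi * ρ ^ 2 * (ρ ^ (1 + α) + 2 * (D / ρ) * (ρ + ρ ^ 2)) * E := by
        positivity
      have p2 : 0 ≤ 2 * (D / ρ) * K := by positivity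
      rw [hC']
      nlinarith
    linarith
  obtain ⟨b₁, b₂, hb1, hb2, hb⟩ := hker (db f) c (ρ / 2) K _ (by linarith) hK (C1c_dbcont hf)
    (C1c_dbsupp hfc) hnear hN
  have h2pi : 1 ≤ 2 * Real.pi := by
    have := Real.pi_gt_three
    linarith
  have hn2 : ‖(2 * Real.pi : ℂ)‖ = 2 * Real.pi := by
    rw [norm_mul, Complex.norm_real, Complex.norm_two, Real.norm_eq_abs, abs_of_pos hpi]
  have hKE : 0 ≤ K + E := by linarith
  have t1 : 0 ≤ (ρ / 2) ^ (1 + α) + C' / (ρ / 2) ^ 2 := by positivity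
  have t2 : 0 ≤ (ρ / 2) ^ α + C' / (ρ / 2) ^ 3 := by positivity
  have t3 : 0 ≤ 1 + C' / (ρ / 2) ^ 4 * ρ ^ (1 - α) := by positivity
  have T1 := mul_nonneg (mul_nonneg hC₁.le t1) hKE
  have T2 := mul_nonneg (mul_nonneg hC₁.le t2) hKE
  have T3 := mul_nonneg (mul_nonneg hC₁.le t3) hKE
  have hdiv : ∀ b : ℂ, ‖b / (2 * Real.pi)‖ ≤ ‖b‖ := by
    intro b
    rw [norm_div, hn2]
    exact div_le_self (norm_nonneg _) h2pi
  refine ⟨b₁ / (2 * Real.pi), b₂ / (2 * Real.pi), ?_, ?_, fun v hv => ?_⟩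
  · refine (hdiv b₁).trans (hb1.trans ?_)
    have e1 : C₁ * (K * (ρ / 2) ^ (1 + α) + C' * (K + E) / (ρ / 2) ^ 2) ≤
        C₁ * ((ρ / 2) ^ (1 + α) + C' / (ρ / 2) ^ 2) * (K + E) := by
      have p1 : 0 ≤ C₁ * ((ρ / 2) ^ (1 + α) * E) := by positivity
      have e2 : C' * (K + E) / (ρ / 2) ^ 2 = C' / (ρ / 2) ^ 2 * (K + E) := by ring
      rw [e2]
      nlinarith
    linarith
  · refine (hdiv b₂).trans (hb2.trans ?_)
    have e1 : C₁ * (K * (ρ / 2) ^ α + C' * (K + E) / (ρ / 2) ^ 3) ≤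
        C₁ * ((ρ / 2) ^ α + C' / (ρ / 2) ^ 3) * (K + E) := by
      have p1 : 0 ≤ C₁ * ((ρ / 2) ^ α * E) := by positivity
      have e2 : C' * (K + E) / (ρ / 2) ^ 3 = C' / (ρ / 2) ^ 3 * (K + E) := by ring
      rw [e2]
      nlinarith
    linarith
  -- the remainder
  have h1 := hb v (by linarith)
  rw [pompeiu hf hfc, pompeiu hf hfc, hfdef] at h1
  have hv2 : ‖c + v - c‖ ≤ 1 / 2 * ρ := by
    rw [add_sub_cancel_left]; linarith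
  have hc2 : ‖c - c‖ ≤ 1 / 2 * ρ := by
    rw [sub_self, norm_zero]; linarith
  simp only [] at h1
  rw [hχ1 _ hv2, hχ1 _ hc2, hV] at h1
  have h2 : (2 * Real.pi : ℂ) * (((1 : ℝ) : ℂ) * (W (c + v) - X2_P (g c) a c (c + v))) -
      2 * Real.pi * (((1 : ℝ) : ℂ) * (W c - X2_P (g c) a c c)) - b₁ * v - b₂ * v ^ 2 =
      (2 * Real.pi : ℂ) * (W (c + v) - W c - b₁ / (2 * Real.pi) * v -
        ((g c / 2 : ℝ) : ℂ) * (starRingEnd ℂ) v - b₂ / (2 * Real.pi) * v ^ 2 -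
        (a / 2) * (v * (starRingEnd ℂ) v) - ((starRingEnd ℂ) a / 4) * (starRingEnd ℂ) v ^ 2) := by
    have hpi' : (Real.pi : ℂ) ≠ 0 := by exact_mod_cast hpi.ne'
    unfold X2_P
    rw [add_sub_cancel_left, sub_self, map_zero]
    field_simp
    push_cast
    ring
  rw [h2, norm_mul, hn2] at h1
  obtain ⟨Z, hZ⟩ : ∃ Z : ℂ, Z = W (c + v) - W c - b₁ / (2 * Real.pi) * v -
        ((g c / 2 : ℝ) : ℂ) * (starRingEnd ℂ) v - b₂ / (2 * Real.pi) * v ^ 2 -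
        (a / 2) * (v * (starRingEnd ℂ) v) - ((starRingEnd ℂ) a / 4) * (starRingEnd ℂ) v ^ 2 :=
    ⟨_, rfl⟩
  rw [← hZ] at h1 ⊢
  have h4 : ‖Z‖ ≤ 2 * Real.pi * ‖Z‖ := le_mul_of_one_le_left (norm_nonneg _) h2pi
  refine (h4.trans h1).trans ?_
  have p0 : 0 ≤ ‖v‖ ^ (2 + α) := Real.rpow_nonneg (norm_nonneg _) _
  have h5 : ‖v‖ ^ 3 ≤ ρ ^ (1 - α) * ‖v‖ ^ (2 + α) := by
    rcases eq_or_ne v 0 with rfl | hv0
    · rw [norm_zero, Real.zero_rpow (by linarith), mul_zero]; norm_num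
    have hvp : 0 < ‖v‖ := norm_pos_iff.2 hv0
    have h3 : ‖v‖ ^ 3 = ‖v‖ ^ (1 - α) * ‖v‖ ^ (2 + α) := by
      have h : ‖v‖ ^ (3 : ℕ) = ‖v‖ ^ (3 : ℝ) := by exact_mod_cast (Real.rpow_natCast ‖v‖ 3).symm
      rw [h, ← Real.rpow_add hvp]
      congr 1
      ring
    rw [h3]
    apply mul_le_mul_of_nonneg_right _ p0
    exact Real.rpow_le_rpow hvp.le (by linarith) (by linarith)
  have h6 : C₁ * (K * ‖v‖ ^ (2 + α) + C' * (K + E) / (ρ / 2) ^ 4 * ‖v‖ ^ 3) ≤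
      C₁ * (1 + C' / (ρ / 2) ^ 4 * ρ ^ (1 - α)) * (K + E) * ‖v‖ ^ (2 + α) := by
    have p1 : 0 ≤ C₁ * (E * ‖v‖ ^ (2 + α)) := by positivity
    have p2 : C' * (K + E) / (ρ / 2) ^ 4 * ‖v‖ ^ 3 ≤
        C' * (K + E) / (ρ / 2) ^ 4 * (ρ ^ (1 - α) * ‖v‖ ^ (2 + α)) :=
      mul_le_mul_of_nonneg_left h5 (by positivity)
    have p3 := mul_le_mul_of_nonneg_left p2 hC₁.le
    have e2 : C' * (K + E) / (ρ / 2) ^ 4 * (ρ ^ (1 - α) * ‖v‖ ^ (2 + α)) =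
      C' / (ρ / 2) ^ 4 * ρ ^ (1 - α) * (K + E) * ‖v‖ ^ (2 + α) := by ring
    rw [e2] at p3
    nlinarith
  refine h6.trans ?_
  apply mul_le_mul_of_nonneg_right _ p0
  linarith

end Pool.Agent.YUR
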